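import Pool.Agent.H307R2.OP.AlgMain
import Pool.Agent.H307R2.OP.PX
import Pool.Agent.H397R2.PP.VAN

set_option autoImplicit false

/-! Odd pattern sums of the partition function: the algebraic part. -/

namespace Pool.Agent.D0H88.PT

open PowerSeries Pool.Agent.H397R2.PP Pool.Agent.H397R2.PP.TH Pool.Agent.H307R2.OP
open Pool.Agent.H307R2.OP.OC

/-- the product of the Hecke operators takes `D ^ m` to `D` -/
theorem prod_eq (r m : ℕ) (hr : 3 ≤ r) (hm : 3 * m + 1 = 4 ^ r) (s : Finset ℕ)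
    (hs : ∀ q ∈ s, q.Prime ∧ (q % 8 = 3 ∨ q % 8 = 5)) (hcard : s.card = 2 ^ (r - 1) - 1)
    (hcnt : (s.filter (fun q => q % 8 = 3)).card = 0 ∨
      (s.filter (fun q => q % 8 = 3)).card = 2) :
    (s.toList.map TO).prod (Db ^ m) = Db := by
  have H3 := t3h
  have H5 := t5h_main
  have G := t5g_main
  have hp := pair_main
  have hl := l5_main
  have hf := heckeFacts
  have hq := fq_main
  obtain ⟨k, rfl⟩ : ∃ k, r = k + 1 := ⟨r - 1, by omega⟩
  have hk : 2 ≤ k := by omega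
  rw [Nat.add_sub_cancel] at hcard
  have h4 : 4 ≤ 2 ^ k := by
    calc 4 = 2 ^ 2 := by norm_num
      _ ≤ 2 ^ k := Nat.pow_le_pow_right (by norm_num) hk
  set l := s.toList with hl'
  have hlen : l.length = 2 ^ k - 1 := by rw [hl', Finset.length_toList, hcard]
  have hmem : ∀ q ∈ l, q.Prime ∧ (q % 8 = 3 ∨ q % 8 = 5) := by
    intro q hq'
    exact hs q (Finset.mem_toList.1 hq')
  have hcount : (l.countP fun q => q % 8 = 3) = (s.filter (fun q => q % 8 = 3)).card := by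
    rw [Finset.card_def, Finset.filter_val, ← Multiset.countP_eq_card_filter, ← Finset.coe_toList s,
      Multiset.coe_countP]
  obtain ⟨m', hm1, hm2⟩ := NIL.cont_m k
  have hmm : m = 2 * m' + 1 := by omega
  have hfW : Db ^ m ∈ NIL.WW (2 ^ k) := by
    rw [hmm]
    apply NIL.WW_mem
    omega
  have hstep2 : (l.map TO).prod (Db ^ m) = (l.map fun q => TO (rp q)).prod (Db ^ m) := by
    have h1 := fil_diff hq l hmem _ _ hfW
    rw [hlen] at h1
    have h2 : (((2 ^ k : ℕ) : ℤ) + (-((2 ^ k - 1 : ℕ) : ℤ) - 1)).toNat = 0 := by omega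
    rw [h2] at h1
    have h3 := WW_zero h1
    rw [LinearMap.add_apply] at h3
    have h5 := OC.add_self ((l.map fun q => TO (rp q)).prod (Db ^ m))
    calc (l.map TO).prod (Db ^ m) = ((l.map TO).prod (Db ^ m) +
          (l.map fun q => TO (rp q)).prod (Db ^ m)) + (l.map fun q => TO (rp q)).prod (Db ^ m) := by
          rw [add_assoc, h5, add_zero]
      _ = _ := by rw [h3, zero_add]
  have hmsp : m = 4 * sp (2 ^ k - 1) + 1 := by
    have := sp_pow k
    rw [pow_succ] at hm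
    omega
  rw [hstep2, prod_rp hf, hcount, hlen]
  rcases hcnt with h0 | h2
  · rw [h0, pow_zero, one_mul, Nat.sub_zero]
    have h1 := hp 0 (2 ^ k - 1) (2 ^ k - 1) le_rfl
    rw [if_pos rfl, sp_zero, mul_zero, zero_add, zero_add, Nat.sub_self] at h1
    have h3 := WW_zero h1
    rw [hmsp]
    have h6 := OC.add_self (Db)
    rw [pow_one] at h3
    calc (TO 5 ^ (2 ^ k - 1)) (Db ^ (4 * sp (2 ^ k - 1) + 1))
        = ((TO 5 ^ (2 ^ k - 1)) (Db ^ (4 * sp (2 ^ k - 1) + 1)) + Db) + Db := by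
          rw [add_assoc, h6, add_zero]
      _ = Db := by rw [h3, zero_add]
  · rw [h2]
    have e1 : 2 ^ k - 1 - 2 = 1 + (2 ^ k - 4) := by omega
    rw [e1, pow_add, pow_one, Module.End.mul_apply, Module.End.mul_apply]
    have h1 := chain5 G hl k hk
    rw [← hmsp] at h1
    set w := (TO 5 ^ (2 ^ k - 4)) (Db ^ m) + Db ^ 21 with hw
    have e3 : (TO 5 ^ (2 ^ k - 4)) (Db ^ m) = w + Db ^ 21 := by
      rw [hw, add_assoc, OC.add_self, add_zero]
    rw [e3, map_add, map_add, final3 H3 H5]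
    have hF3 : Fil (-1) (TO 3) := (hq.q3 3 (by norm_num) (by norm_num)).1
    have h5 := Fil_mul (Fil_pow hF3 2) G.t5 _ _ h1
    have h6 : (((3 : ℕ) : ℤ) + (((2 : ℕ) : ℤ) * (-1) + (-1))).toNat = 0 := by norm_num
    rw [h6] at h5
    have h7 := WW_zero h5
    rw [Module.End.mul_apply] at h7
    rw [h7, zero_add]

theorem coeff_Db_sq (k : ℕ) : coeff (3 ^ (2 * k)) (Db : S) = 1 := by
  classical
  rw [Db_eq_theta, coeff_mk, if_pos]
  have h : Odd (3 ^ k) := Odd.pow (by decide)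
  obtain ⟨t, ht⟩ := h
  refine ⟨t, ?_⟩
  rw [← ht, ← pow_mul, mul_comm]

/-- the coefficient of `D ^ m` at `3 ^ τ` times a product of the primes -/
theorem coeff_one (r m τ : ℕ) (hr : 3 ≤ r) (hm : 3 * m + 1 = 4 ^ r) (hτ : τ % 2 = 0)
    (s : Finset ℕ) (hs : ∀ q ∈ s, q.Prime ∧ 5 ≤ q ∧ (q % 8 = 3 ∨ q % 8 = 5))
    (hcard : s.card = 2 ^ (r - 1) - 1)
    (hcnt : (s.filter (fun q => q % 8 = 3)).card = 0 ∨
      (s.filter (fun q => q % 8 = 3)).card = 2) :
    coeff (3 ^ τ * ∏ q ∈ s, q) (Db ^ m) = 1 := by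
  have hprod : ∏ q ∈ s, q = s.toList.prod := by
    have := Finset.prod_map_toList s (fun q => q)
    rw [← this, List.map_id']
  have h := coeff_list s.toList (Finset.nodup_toList s)
    (fun q hq' => (hs q (Finset.mem_toList.1 hq')).1) (3 ^ τ) (by
      intro q hq' hdvd
      obtain ⟨h1, h2, -⟩ := hs q (Finset.mem_toList.1 hq')
      have h3 := h1.dvd_of_dvd_pow hdvd
      have := Nat.le_of_dvd (by norm_num) h3
      omega) (Db ^ m)
  rw [hprod, ← h, prod_eq r m hr hm s (fun q hq => ⟨(hs q hq).1, (hs q hq).2.2⟩) hcard hcnt]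
  obtain ⟨k, rfl⟩ : ∃ k, τ = 2 * k := ⟨τ / 2, by omega⟩
  exact coeff_Db_sq k

/-- vanishing of the coefficients at numbers exactly divisible by `3 ^ (2 ^ (r - 1) - 1)` -/
theorem coeff_zero (r m w : ℕ) (hr : 2 ≤ r) (hm : 3 * m + 1 = 4 ^ r) (hw : ¬ 3 ∣ w) :
    coeff (3 ^ (2 ^ (r - 1) - 1) * w) (Db ^ m) = 0 :=
  coeff_vanish_of modular_equation r m w hr hm hw

/-- the number of partitions modulo 2 -/
noncomputable def p2 (n : ℕ) : ZMod 2 := (Fintype.card (Nat.Partition n) : ZMod 2)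

theorem p2_def (n : ℕ) : p2 n = (Fintype.card (Nat.Partition n) : ZMod 2) := rfl

theorem big_range (r m n k : ℕ) (hnk : n ≤ k) (hm : 3 * m + 1 = 4 ^ r) :
    (∑ j ∈ Finset.Icc (-(k : ℤ)) k,
      if 4 ^ r * pentagonal j ≤ n then p2 (n - 4 ^ r * pentagonal j) else 0)
      = coeff (8 * n + m) (Db ^ m) := by
  rw [← partition_identity r m n hm]
  symm
  apply Finset.sum_subset
  · intro j hj
    rw [Finset.mem_Icc] at hj ⊢
    omega
  · intro j _ hj
    rw [if_neg]
    intro hle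
    apply hj
    have h1 := natAbs_le_pentagonal j
    have h2 : pentagonal j ≤ 4 ^ r * pentagonal j := Nat.le_mul_of_pos_left _ (by positivity)
    have h3 : (pentagonal j : ℤ) ≤ n := by exact_mod_cast h2.trans hle
    rw [Finset.mem_Icc]
    have := abs_le.1 (h1.trans h3)
    exact this

theorem N_form (m N : ℕ) (h : coeff N (Db ^ m) ≠ 0) : ∃ n0 : ℕ, N = 8 * n0 + m := by
  have h1 : Db ^ m = X ^ m * PowerSeries.expand 8 (by norm_num)
      (pentagonalSeries (ZMod 2) ^ (3 * m)) := by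
    rw [← pow_eq_expand' 8 3 (by norm_num) (by norm_num), Db, mul_pow, ← pow_mul, ← pow_mul]
    congr 2
    ring
  rw [h1, coeff_X_pow_mul'] at h
  split_ifs at h with hmN
  · rw [coeff_expand] at h
    split_ifs at h with hd
    · obtain ⟨c, hc⟩ := hd
      exact ⟨c, by omega⟩
    · exact absurd rfl h
  · exact absurd rfl h

/-- an odd value of `p n + p (n + H)` -/
theorem exists_pat (r m N H : ℕ) (hm : 3 * m + 1 = 4 ^ r) (h1 : coeff N (Db ^ m) = 1)
    (h0 : coeff (N + 8 * H) (Db ^ m) = 0) :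
    (∃ n u : ℕ, p2 n + p2 (n + H) = 1 ∧ 24 * n + 4 ^ r * u ^ 2 = 3 * N + 1) ∨
    (∃ h u : ℕ, 1 ≤ h ∧ h ≤ H ∧ 3 * N + 1 + 24 * h = 4 ^ r * u ^ 2) := by
  obtain ⟨n0, rfl⟩ := N_form m N (by rw [h1]; decide)
  by_contra hcon
  push Not at hcon
  obtain ⟨hA, hB⟩ := hcon
  have hsq : ∀ j : ℤ, ((6 * j - 1).natAbs ^ 2 : ℕ) = 24 * pentagonal j + 1 := by
    intro j
    have h4 := pent_sq j
    have : (((6 * j - 1).natAbs ^ 2 : ℕ) : ℤ) = ((24 * pentagonal j + 1 : ℕ) : ℤ) := by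
      push_cast
      rw [sq_abs, ← h4]
    exact_mod_cast this
  have e0 := big_range r m n0 (n0 + H) (by omega) hm
  have e1 := big_range r m (n0 + H) (n0 + H) le_rfl hm
  have e2 : 8 * (n0 + H) + m = 8 * n0 + m + 8 * H := by ring
  rw [e2, h0] at e1
  rw [h1] at e0
  have key : (∑ j ∈ Finset.Icc (-((n0 + H : ℕ) : ℤ)) ((n0 + H : ℕ) : ℤ),
      if 4 ^ r * pentagonal j ≤ n0 then p2 (n0 - 4 ^ r * pentagonal j) else 0) =
      (∑ j ∈ Finset.Icc (-((n0 + H : ℕ) : ℤ)) ((n0 + H : ℕ) : ℤ),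
      if 4 ^ r * pentagonal j ≤ n0 + H then p2 (n0 + H - 4 ^ r * pentagonal j) else 0) := by
    refine Finset.sum_congr rfl fun j _ => ?_
    by_cases hj : 4 ^ r * pentagonal j ≤ n0
    · rw [if_pos hj, if_pos (by omega)]
      have h3 := hA (n0 - 4 ^ r * pentagonal j) (6 * j - 1).natAbs
      have e3 : n0 - 4 ^ r * pentagonal j + H = n0 + H - 4 ^ r * pentagonal j := by omega
      rw [e3] at h3
      have h5 : ¬ (p2 (n0 - 4 ^ r * pentagonal j) + p2 (n0 + H - 4 ^ r * pentagonal j) = 1) := by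
        intro h
        apply h3 h
        rw [hsq j]
        obtain ⟨d, hd⟩ := Nat.exists_eq_add_of_le hj
        have h6 : n0 - 4 ^ r * pentagonal j = d := by omega
        rw [h6]
        generalize hq : (4 : ℕ) ^ r = q at *
        nlinarith
      have h6 : ∀ a b : ZMod 2, ¬ (a + b = 1) → a = b := by decide
      exact h6 _ _ h5
    · rw [if_neg hj]
      by_cases hj2 : 4 ^ r * pentagonal j ≤ n0 + H
      · exfalso
        apply hB (4 ^ r * pentagonal j - n0) (6 * j - 1).natAbs (by omega) (by omega)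
        rw [hsq j]
        obtain ⟨d, hd⟩ := Nat.exists_eq_add_of_lt (not_le.1 hj)
        have h6 : 4 ^ r * pentagonal j - n0 = d + 1 := by omega
        rw [h6]
        generalize hq : (4 : ℕ) ^ r = q at *
        nlinarith
      · rw [if_neg hj2]
  rw [e0, e1] at key
  exact absurd key (by decide)

end Pool.Agent.D0H88.PT
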