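import Pool.Agent.D0H88.PT.Chr
import Pool.Agent.H307R2.OP.BT4
import Pool.Agent.H307R2.OP.PC

set_option autoImplicit false

/-! Primes of dyadic blocks in residue classes modulo powers of 3. -/

namespace Pool.Agent.D0H88.PT

open Finset Filter Topology Pool.Agent.H307R2.OP Chr

theorem piAP_sub (x y q a : ℕ) (hxy : x ≤ y) :
    (((Ioc x y).filter (fun p => p.Prime ∧ p ≡ a [MOD q])).card : ℝ) =
      H343E.piAP y q a - H343E.piAP x q a := by
  have hdisj : Disjoint ((Icc 1 x).filter (fun p => p.Prime ∧ p ≡ a [MOD q]))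
      ((Ioc x y).filter (fun p => p.Prime ∧ p ≡ a [MOD q])) := by
    rw [Finset.disjoint_left]
    intro p hp hp'
    have h1 := (mem_Icc.1 (mem_filter.1 hp).1).2
    have h2 := (mem_Ioc.1 (mem_filter.1 hp').1).1
    omega
  have hun : (Icc 1 y).filter (fun p => p.Prime ∧ p ≡ a [MOD q]) =
      (Icc 1 x).filter (fun p => p.Prime ∧ p ≡ a [MOD q]) ∪
        (Ioc x y).filter (fun p => p.Prime ∧ p ≡ a [MOD q]) := by
    ext p
    simp only [mem_union, mem_filter, mem_Icc, mem_Ioc]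
    constructor
    · rintro ⟨⟨h1, h2⟩, h3⟩
      rcases le_or_gt p x with h | h
      · exact Or.inl ⟨⟨h1, h⟩, h3⟩
      · exact Or.inr ⟨⟨h, h2⟩, h3⟩
    · rintro (⟨⟨h1, h2⟩, h3⟩ | ⟨⟨h1, h2⟩, h3⟩)
      · exact ⟨⟨h1, h2.trans hxy⟩, h3⟩
      · exact ⟨⟨by omega, h2⟩, h3⟩
  unfold H343E.piAP
  rw [hun, card_union_of_disjoint hdisj]
  push_cast
  ring

/-- numerical facts for large exponents -/
theorem ev_num : ∃ l0 : ℕ, ∀ l : ℕ, l0 ≤ l → (300 ≤ l ∧ (10000 : ℝ) * l ≤ 2 ^ l ∧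
    (4 : ℝ) * (2 ^ l / ((l : ℝ) * Real.log 2) ^ 6) ≤ 0.001 * (2 ^ l / (l * Real.log 2))) := by
  have h1 := tendsto_pow_const_div_const_pow_of_one_lt 1 (r := (2 : ℝ)) (by norm_num)
  have h2 := h1.eventually (gt_mem_nhds (show (0 : ℝ) < 1 / 10000 by norm_num))
  obtain ⟨l1, hl1⟩ := eventually_atTop.1 h2
  refine ⟨max l1 300, fun l hl => ⟨by omega, ?_, ?_⟩⟩
  · have h3 := hl1 l (by omega)
    rw [pow_one, div_lt_div_iff₀ (by positivity) (by positivity)] at h3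
    linarith
  · have hl300 : (300 : ℝ) ≤ l := by exact_mod_cast (by omega : 300 ≤ l)
    have hlog := Real.log_two_gt_d9
    have hlog' : (0.69 : ℝ) ≤ Real.log 2 := by linarith
    set x : ℝ := (l : ℝ) * Real.log 2 with hx
    have hx200 : (200 : ℝ) ≤ x := by rw [hx]; nlinarith
    have hx0 : 0 < x := by linarith
    have h2l : (0 : ℝ) < 2 ^ l := by positivity
    rw [mul_div_assoc', mul_div_assoc', div_le_div_iff₀ (by positivity) hx0]
    have h5 : (4000 : ℝ) ≤ x ^ 5 := by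
      calc (4000 : ℝ) ≤ 200 ^ 5 := by norm_num
        _ ≤ x ^ 5 := pow_le_pow_left₀ (by norm_num) hx200 5
    have h6 : x ^ 6 = x * x ^ 5 := by ring
    rw [h6]
    have h7 : 0 < 2 ^ l * x := by positivity
    nlinarith

/-- the number of primes of a block in a class modulo a power of 3 -/
theorem block_BT : ∃ l0 : ℕ, ∀ l : ℕ, l0 ≤ l → ∀ B : ℕ, 1 ≤ B → 3 ^ B ≤ 2 ^ (l / 100) →
    ∀ a : ℕ, ((3 ^ B : ℕ).totient : ℝ) *
      (((PB l 5).filter (fun p => p ≡ a [MOD 3 ^ B])).card : ℝ) ≤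
        1.149 * (2 ^ l / (l * Real.log 2)) := by
  obtain ⟨N0, hN0⟩ := bt4
  obtain ⟨l1, hl1⟩ := ev_num
  refine ⟨max l1 (2 * N0 + 10), fun l hl B hB hB3 a => ?_⟩
  obtain ⟨h300, hnum, -⟩ := hl1 l (by omega)
  set F := (PB l 5).filter (fun p => p ≡ a [MOD 3 ^ B]) with hF
  have hlog2 := Real.log_two_gt_d9
  have hlR : (300 : ℝ) ≤ l := by exact_mod_cast h300
  have hlog2' : 0 < Real.log 2 := by linarith
  rcases F.eq_empty_or_nonempty with h0 | hne
  · rw [h0, card_empty, Nat.cast_zero, mul_zero]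
    positivity
  set p0 := F.min' hne with hp0
  have hp0F : p0 ∈ F := F.min'_mem hne
  set Q : ℕ := 8 * 3 ^ B with hQ
  have hQ0 : 0 < Q := by positivity
  have hF1 : ∀ p ∈ F, 2 ^ l < p ∧ p ≤ 2 ^ (l + 1) ∧ p.Prime ∧ p % 8 = 5 ∧ p ≡ a [MOD 3 ^ B] := by
    intro p hp
    rw [hF, mem_filter, PB, mem_filter, mem_Ioc] at hp
    exact ⟨hp.1.1.1, hp.1.1.2, hp.1.2.1, hp.1.2.2, hp.2⟩
  have hcop : Nat.Coprime 8 (3 ^ B) := Nat.Coprime.pow_right _ (by norm_num)
  have hmodQ : ∀ p ∈ F, p0 ≡ p [MOD Q] := by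
    intro p hp
    obtain ⟨-, -, -, h1, h2⟩ := hF1 p hp
    obtain ⟨-, -, -, h3, h4⟩ := hF1 p0 hp0F
    rw [hQ]
    exact (Nat.modEq_and_modEq_iff_modEq_mul hcop).1
      ⟨show p0 % 8 = p % 8 by rw [h1, h3], h4.trans h2.symm⟩
  have hmin : ∀ p ∈ F, p0 ≤ p := fun p hp => F.min'_le p hp
  have hdiv : ∀ p ∈ F, p0 + (p - p0) / Q * Q = p := by
    intro p hp
    have h1 := (Nat.modEq_iff_dvd' (hmin p hp)).1 (hmodQ p hp)
    rw [Nat.div_mul_cancel h1]
    have := hmin p hp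
    omega
  set N : ℕ := 2 ^ l / Q + 1 with hN
  have hcard : F.card ≤ ((range N).filter (fun k => (p0 + k * Q).Prime)).card := by
    refine Finset.card_le_card_of_injOn (fun p => (p - p0) / Q) ?_ ?_
    · intro p hp
      have hp' := mem_coe.1 hp
      rw [mem_coe, mem_filter, mem_range]
      refine ⟨?_, ?_⟩
      · rw [hN]
        refine Nat.lt_succ_of_le (Nat.div_le_div_right ?_)
        obtain ⟨h1, h2, -⟩ := hF1 p hp'
        obtain ⟨h3, -⟩ := hF1 p0 hp0F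
        rw [pow_succ] at h2
        omega
      · simp only [hdiv p hp']
        exact (hF1 p hp').2.2.1
    · intro p hp p' hp' heq
      have h1 := hdiv p (mem_coe.1 hp)
      have h2 := hdiv p' (mem_coe.1 hp')
      simp only at heq
      rw [heq] at h1
      exact h1.symm.trans h2
  have hQle : Q ≤ 2 ^ (l / 100 + 3) := by
    rw [hQ, pow_add]
    calc 8 * 3 ^ B ≤ 8 * 2 ^ (l / 100) := Nat.mul_le_mul_left _ hB3
      _ = 2 ^ (l / 100) * 2 ^ 3 := by ring
  have hNlow : 2 ^ (l - (l / 100 + 3)) ≤ N := by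
    rw [hN]
    have : 2 ^ (l - (l / 100 + 3)) ≤ 2 ^ l / Q := by
      rw [Nat.le_div_iff_mul_le hQ0]
      calc 2 ^ (l - (l / 100 + 3)) * Q ≤ 2 ^ (l - (l / 100 + 3)) * 2 ^ (l / 100 + 3) :=
            Nat.mul_le_mul_left _ hQle
        _ = 2 ^ l := by rw [← pow_add]; congr 1; omega
    omega
  have hN0' : N0 ≤ N := by
    have h1 : l - (l / 100 + 3) < 2 ^ (l - (l / 100 + 3)) := Nat.lt_two_pow_self
    omega
  have hbt := hN0 p0 Q N hQ0 hN0'
  have htot : (Q : ℝ) / Nat.totient Q = 3 := by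
    rw [hQ, Nat.totient_mul hcop, Nat.totient_prime_pow Nat.prime_three hB]
    have h8 : Nat.totient 8 = 4 := by decide
    rw [h8]
    obtain ⟨n, rfl⟩ : ∃ n, B = n + 1 := ⟨B - 1, by omega⟩
    rw [Nat.add_sub_cancel, pow_succ]
    push_cast
    have h3 : (0 : ℝ) < 3 ^ n := by positivity
    field_simp
    norm_num
  have htot3 : ((3 ^ B : ℕ).totient : ℝ) = 2 / 3 * 3 ^ B := by
    rw [Nat.totient_prime_pow Nat.prime_three hB]
    obtain ⟨n, rfl⟩ : ∃ n, B = n + 1 := ⟨B - 1, by omega⟩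
    rw [Nat.add_sub_cancel, pow_succ]
    push_cast
    ring
  rw [htot] at hbt
  have hcardR : (F.card : ℝ) ≤ 9 / 2 * 3 * (N / Real.log N) :=
    le_trans (by exact_mod_cast hcard) hbt
  have h2l : (0 : ℝ) < 2 ^ l := by positivity
  have h3B : (0 : ℝ) < 3 ^ B := by positivity
  have hNle : (N : ℝ) * 3 ^ B ≤ 2 ^ l / 8 + 3 ^ B := by
    have e1 : ((2 ^ l / Q : ℕ) : ℝ) ≤ (2 ^ l : ℝ) / (8 * 3 ^ B) := by
      have := @Nat.cast_div_le ℝ _ _ _ (2 ^ l) Q
      rw [hQ] at this ⊢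
      push_cast at this
      exact this
    rw [hN]
    push_cast
    have e2 : (2 ^ l : ℝ) / (8 * 3 ^ B) * 3 ^ B = 2 ^ l / 8 := by field_simp
    nlinarith
  have h3small : (9 : ℝ) * 3 ^ B ≤ 0.001 * 2 ^ l := by
    have e1 : (3 : ℝ) ^ B ≤ 2 ^ (l / 100) := by exact_mod_cast hB3
    have e2 : (9000 : ℝ) * 2 ^ (l / 100) ≤ 2 ^ l := by
      have : 9000 * 2 ^ (l / 100) ≤ 2 ^ l := by
        calc 9000 * 2 ^ (l / 100) ≤ 2 ^ 14 * 2 ^ (l / 100) := Nat.mul_le_mul_right _ (by norm_num)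
          _ = 2 ^ (14 + l / 100) := by rw [pow_add]
          _ ≤ 2 ^ l := Nat.pow_le_pow_right (by norm_num) (by omega)
      exact_mod_cast this
    linarith
  have hlogN : 0.98 * (l * Real.log 2) ≤ Real.log N := by
    have e1 : Real.log ((2 : ℝ) ^ (l - (l / 100 + 3))) ≤ Real.log N := by
      apply Real.log_le_log (by positivity)
      exact_mod_cast hNlow
    rw [Real.log_pow] at e1
    have e2 : (0.98 : ℝ) * l ≤ ((l - (l / 100 + 3) : ℕ) : ℝ) := by
      have : 98 * l ≤ 100 * (l - (l / 100 + 3)) := by omega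
      have : (98 : ℝ) * l ≤ 100 * ((l - (l / 100 + 3) : ℕ) : ℝ) := by exact_mod_cast this
      linarith
    nlinarith
  have hlog0 : 0 < Real.log N := lt_of_lt_of_le (by positivity) hlogN
  rw [htot3]
  calc 2 / 3 * 3 ^ B * (F.card : ℝ) ≤ 2 / 3 * 3 ^ B * (9 / 2 * 3 * (N / Real.log N)) := by gcongr
    _ = 9 * (N * 3 ^ B) / Real.log N := by ring
    _ ≤ 9 * (2 ^ l / 8 + 3 ^ B) / Real.log N := by gcongr
    _ ≤ (1.126 * 2 ^ l) / Real.log N := by
        apply div_le_div_of_nonneg_right _ hlog0.le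
        linarith
    _ ≤ (1.126 * 2 ^ l) / (0.98 * (l * Real.log 2)) := by gcongr
    _ ≤ 1.149 * (2 ^ l / (l * Real.log 2)) := by
        rw [mul_div_assoc', div_le_div_iff₀ (by positivity) (by positivity)]
        have : 0 < 2 ^ l * ((l : ℝ) * Real.log 2) := by positivity
        nlinarith

/-- the block without two primes is large -/
theorem block_card : ∃ l0 : ℕ, ∀ l : ℕ, l0 ≤ l → ∀ R : Finset ℕ, R.card ≤ 2 →
    0.247 * (2 ^ l / (l * Real.log 2)) ≤ ((PB l 5 \ R).card : ℝ) ∧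
      ((PB l 5).card : ℝ) ≤ ((PB l 5 \ R).card : ℝ) + 2 := by
  obtain ⟨l1, hl1⟩ := ev_num
  obtain ⟨l2, hl2⟩ := pc.block
  refine ⟨max l1 l2, fun l hl R hR => ?_⟩
  obtain ⟨h300, hnum, -⟩ := hl1 l (by omega)
  have h2 := hl2 l (by omega)
  have hcard : (PB l 5).card ≤ (PB l 5 \ R).card + 2 := by
    have := Finset.card_le_card_sdiff_add_card (s := PB l 5) (t := R)
    omega
  have hcardR : ((PB l 5).card : ℝ) ≤ ((PB l 5 \ R).card : ℝ) + 2 := by exact_mod_cast hcard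
  refine ⟨?_, hcardR⟩
  have hlog2 := Real.log_two_gt_d9
  have hlog3 := Real.log_two_lt_d9
  have hlR : (300 : ℝ) ≤ l := by exact_mod_cast h300
  have hx0 : 0 < (l : ℝ) * Real.log 2 := by nlinarith
  have e1 : 0.99 * (2 : ℝ) ^ l / (4 * l * Real.log 2) = 0.2475 * (2 ^ l / (l * Real.log 2)) := by
    field_simp
    ring
  rw [e1] at h2
  have e2 : (2 : ℝ) ≤ 0.0005 * (2 ^ l / (l * Real.log 2)) := by
    rw [mul_div_assoc', le_div_iff₀ hx0]
    nlinarith
  linarith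

/-- the classes modulo 9 -/
theorem block_nine : ∃ l0 : ℕ, ∀ l : ℕ, l0 ≤ l → ∀ c ∈ T9,
    ((PB l 5).card : ℝ) / 6 - 0.001 * (2 ^ l / (l * Real.log 2)) ≤
      (((PB l 5).filter (fun p => p % 9 = c)).card : ℝ) := by
  obtain ⟨l1, hl1⟩ := ev_num
  obtain ⟨x0, hx0⟩ := Pool.Agent.H387R2.Uni.siegel
  refine ⟨max l1 x0, fun l hl c hc => ?_⟩
  obtain ⟨h300, hnum, hnum2⟩ := hl1 l (by omega)
  have hlog2 := Real.log_two_gt_d9
  have hlR : (300 : ℝ) ≤ l := by exact_mod_cast h300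
  have hlx : 0 < (l : ℝ) * Real.log 2 := by nlinarith
  -- the class modulo 72
  obtain ⟨a, ha72, ha8, ha9, hcop⟩ : ∃ a : ℕ, a < 72 ∧ a % 8 = 5 ∧ a % 9 = c ∧ a.Coprime 72 := by
    have : ∀ c ∈ T9, ∃ a : ℕ, a < 72 ∧ a % 8 = 5 ∧ a % 9 = c ∧ a.Coprime 72 := by
      intro c hc
      unfold T9 at hc
      simp only [mem_insert, mem_singleton] at hc
      rcases hc with rfl | rfl | rfl | rfl | rfl | rfl
      · exact ⟨37, by decide⟩
      · exact ⟨29, by decide⟩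
      · exact ⟨13, by decide⟩
      · exact ⟨5, by decide⟩
      · exact ⟨61, by decide⟩
      · exact ⟨53, by decide⟩
    exact this c hc
  have hset : (PB l 5).filter (fun p => p % 9 = c) =
      (Ioc (2 ^ l) (2 ^ (l + 1))).filter (fun p => p.Prime ∧ p ≡ a [MOD 72]) := by
    ext p
    rw [mem_filter, PB, mem_filter, mem_filter]
    constructor
    · rintro ⟨⟨h1, h2, h3⟩, h4⟩
      refine ⟨h1, h2, ?_⟩
      rw [Nat.ModEq]
      omega
    · rintro ⟨h1, h2, h3⟩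
      rw [Nat.ModEq] at h3
      exact ⟨⟨h1, h2, by omega⟩, by omega⟩
  have hset8 : PB l 5 = (Ioc (2 ^ l) (2 ^ (l + 1))).filter (fun p => p.Prime ∧ p ≡ 5 [MOD 8]) := by
    ext p
    rw [PB, mem_filter, mem_filter]
    constructor
    · rintro ⟨h1, h2, h3⟩
      refine ⟨h1, h2, ?_⟩
      rw [Nat.ModEq]
      omega
    · rintro ⟨h1, h2, h3⟩
      rw [Nat.ModEq] at h3
      exact ⟨h1, h2, by omega⟩
  have hle : 2 ^ l ≤ 2 ^ (l + 1) := Nat.pow_le_pow_right (by norm_num) (by omega)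
  rw [hset, piAP_sub _ _ _ _ hle, hset8, piAP_sub _ _ _ _ hle]
  have key : ∀ k : ℕ, l ≤ k → |H343E.piAP (2 ^ k) 72 a - H343E.piAP (2 ^ k) 8 5 / 6| ≤
      7 / 6 * (2 ^ k / ((k : ℝ) * Real.log 2) ^ 6) := by
    intro k hk
    have hkx : x0 ≤ 2 ^ k := by
      have : k < 2 ^ k := Nat.lt_two_pow_self
      omega
    have hkR : (300 : ℝ) ≤ k := hlR.trans (by exact_mod_cast hk)
    have hlogk : Real.log ((2 ^ k : ℕ) : ℝ) = k * Real.log 2 := by
      push_cast
      rw [Real.log_pow]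
    have hbig : (72 : ℝ) ≤ Real.log ((2 ^ k : ℕ) : ℝ) ^ 2 := by
      rw [hlogk]
      have : (200 : ℝ) ≤ k * Real.log 2 := by nlinarith
      nlinarith
    have s1 := hx0 (2 ^ k) hkx 72 (by norm_num) (by push_cast; exact_mod_cast hbig) a ha72 hcop
    have s2 := hx0 (2 ^ k) hkx 8 (by norm_num)
      (by push_cast; have := hbig; push_cast at this; linarith) 5 (by norm_num) (by norm_num)
    have t1 : Nat.totient 72 = 24 := by decide
    have t2 : Nat.totient 8 = 4 := by decide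
    rw [t1, hlogk] at s1
    rw [t2, hlogk] at s2
    push_cast at s1 s2
    rw [abs_le] at s1 s2 ⊢
    constructor <;> linarith [s1.1, s1.2, s2.1, s2.2]
  have k1 := key l le_rfl
  have k2 := key (l + 1) (by omega)
  have k3 : (2 : ℝ) ^ (l + 1) / (((l + 1 : ℕ) : ℝ) * Real.log 2) ^ 6 ≤
      2 * (2 ^ l / ((l : ℝ) * Real.log 2) ^ 6) := by
    rw [pow_succ, mul_comm ((2 : ℝ) ^ l) 2, mul_div_assoc]
    apply mul_le_mul_of_nonneg_left _ (by norm_num)
    apply div_le_div_of_nonneg_left (by positivity) (by positivity)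
    apply pow_le_pow_left₀ hlx.le
    push_cast
    nlinarith
  rw [abs_le] at k1 k2
  linarith [k1.1, k1.2, k2.1, k2.2]

/-- the hypotheses of `Chr.products` -/
theorem block_chr : ∃ l0 : ℕ, ∀ l : ℕ, l0 ≤ l → ∀ R : Finset ℕ, R.card ≤ 2 → ∀ B : ℕ, 2 ≤ B →
    3 ^ B ≤ 2 ^ (l / 100) →
    (∀ p ∈ PB l 5 \ R, IsUnit (p : ZMod (3 ^ B))) ∧ 0 < (PB l 5 \ R).card ∧
    ∑ χ : DirichletCharacter ℂ (3 ^ B), ‖SS (PB l 5 \ R) χ‖ ^ 2 ≤
      4.9 * ((PB l 5 \ R).card : ℝ) ^ 2 ∧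
    ∀ χ : DirichletCharacter ℂ (3 ^ B), χ ≠ 1 →
      ‖SS (PB l 5 \ R) χ‖ ≤ 0.99 * ((PB l 5 \ R).card : ℝ) := by
  obtain ⟨l1, hl1⟩ := ev_num
  obtain ⟨l2, hl2⟩ := block_BT
  obtain ⟨l3, hl3⟩ := block_card
  obtain ⟨l4, hl4⟩ := block_nine
  refine ⟨l1 + l2 + l3 + l4, fun l hl R hR B hB hB3 => ?_⟩
  obtain ⟨h300, hnum, -⟩ := hl1 l (by omega)
  obtain ⟨hc1, hc2⟩ := hl3 l (by omega) R hR
  have h9 := hl4 l (by omega)
  have hBT := hl2 l (by omega) B (by omega) hB3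
  have hlog2 := Real.log_two_gt_d9
  have hlR : (300 : ℝ) ≤ l := by exact_mod_cast h300
  have hx0 : 0 < (l : ℝ) * Real.log 2 := by nlinarith
  set P := PB l 5 \ R with hP
  set X : ℝ := 2 ^ l / (l * Real.log 2) with hX
  have hX0 : 0 < X := by positivity
  have hX2 : (4000 : ℝ) ≤ X := by
    rw [hX, le_div_iff₀ hx0]
    have := Real.log_two_lt_d9
    nlinarith
  have hcardpos : 0 < P.card := by
    have : (0 : ℝ) < P.card := by linarith
    exact_mod_cast this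
  have h3 : ∀ p ∈ P, ¬ 3 ∣ p := by
    intro p hp hdvd
    rw [hP, Finset.mem_sdiff, PB, mem_filter, mem_Ioc] at hp
    have h1 := (Nat.prime_dvd_prime_iff_eq Nat.prime_three hp.1.2.1).1 hdvd
    have h2 := hp.1.2.2
    omega
  have hunit : ∀ p ∈ P, IsUnit (p : ZMod (3 ^ B)) := by
    intro p hp
    rw [ZMod.isUnit_iff_coprime]
    exact Nat.Coprime.pow_right _ ((Nat.Prime.coprime_iff_not_dvd Nat.prime_three).2 (h3 p hp)).symm
  have hC48 : ∑ χ : DirichletCharacter ℂ (3 ^ B), ‖SS P χ‖ ^ 2 ≤ 4.8 * (P.card : ℝ) ^ 2 := by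
    rw [parseval P hunit]
    have e1 : (((P ×ˢ P).filter fun x => ((x.2 : ℕ) : ZMod (3 ^ B)) = (x.1 : ZMod (3 ^ B))).card : ℝ)
        = ∑ x ∈ P, ((P.filter (fun p => p ≡ x [MOD 3 ^ B])).card : ℝ) := by
      rw [Finset.card_filter, Finset.sum_product]
      push_cast
      refine Finset.sum_congr rfl fun x _ => ?_
      rw [Finset.card_filter]
      push_cast
      refine Finset.sum_congr rfl fun y _ => ?_
      simp only [ZMod.natCast_eq_natCast_iff]
    rw [e1, Finset.mul_sum]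
    calc ∑ x ∈ P, ((3 ^ B : ℕ).totient : ℝ) * ((P.filter (fun p => p ≡ x [MOD 3 ^ B])).card : ℝ)
        ≤ ∑ x ∈ P, 4.8 * (P.card : ℝ) := by
          refine Finset.sum_le_sum fun x _ => ?_
          have e2 : ((P.filter (fun p => p ≡ x [MOD 3 ^ B])).card : ℝ) ≤
              (((PB l 5).filter (fun p => p ≡ x [MOD 3 ^ B])).card : ℝ) := by
            have := Finset.card_le_card (Finset.filter_subset_filter
              (fun p => p ≡ x [MOD 3 ^ B]) (Finset.sdiff_subset : PB l 5 \ R ⊆ PB l 5))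
            exact_mod_cast this
          have e3 := hBT x
          have e4 : ((3 ^ B : ℕ).totient : ℝ) *
              ((P.filter (fun p => p ≡ x [MOD 3 ^ B])).card : ℝ) ≤
              ((3 ^ B : ℕ).totient : ℝ) *
              (((PB l 5).filter (fun p => p ≡ x [MOD 3 ^ B])).card : ℝ) :=
            mul_le_mul_of_nonneg_left e2 (Nat.cast_nonneg _)
          linarith
      _ = 4.8 * (P.card : ℝ) ^ 2 := by
          rw [Finset.sum_const, nsmul_eq_mul]
          ring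
  have hC49 : ∑ χ : DirichletCharacter ℂ (3 ^ B), ‖SS P χ‖ ^ 2 ≤ 4.9 * (P.card : ℝ) ^ 2 := by
    have : (0 : ℝ) ≤ (P.card : ℝ) ^ 2 := by positivity
    linarith
  refine ⟨hunit, hcardpos, hC49, fun χ hχ => ?_⟩
  by_cases h6 : χ ^ 6 = 1
  · have hL : ∀ c ∈ T9, 0.15 * (P.card : ℝ) ≤ ((P.filter fun p => p % 9 = c).card : ℝ) := by
      intro c hc
      have e1 := h9 c hc
      have e2 : ((PB l 5).filter (fun p => p % 9 = c)).card ≤
          (P.filter fun p => p % 9 = c).card + 2 := by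
        have : (PB l 5).filter (fun p => p % 9 = c) ⊆ (P.filter fun p => p % 9 = c) ∪ R := by
          intro p hp
          rw [mem_filter] at hp
          rw [mem_union, mem_filter, hP, Finset.mem_sdiff]
          by_cases h : p ∈ R
          · exact Or.inr h
          · exact Or.inl ⟨⟨hp.1, h⟩, hp.2⟩
        have := (Finset.card_le_card this).trans (Finset.card_union_le _ _)
        omega
      have e3 : (((PB l 5).filter (fun p => p % 9 = c)).card : ℝ) ≤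
          ((P.filter fun p => p % 9 = c).card : ℝ) + 2 := by exact_mod_cast e2
      have e4 : (P.card : ℝ) ≤ (PB l 5).card := by
        have := Finset.card_le_card (Finset.sdiff_subset : PB l 5 \ R ⊆ PB l 5)
        exact_mod_cast this
      linarith
    have := low hB P h3 (0.15 * (P.card : ℝ)) hL χ h6 hχ
    have h0 : (0 : ℝ) ≤ P.card := Nat.cast_nonneg _
    linarith
  · exact high P hunit hcardpos hC49 χ (inj_of_pow_six (by omega) χ h6)

end Pool.Agent.D0H88.PT
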