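import Pool.Agent.D0H88.PT.Block

set_option autoImplicit false

/-! Primes of dyadic blocks in a class modulo a power of 2 and in classes modulo powers of 3. -/

namespace Pool.Agent.D0H88.PT

open Finset Filter Topology Pool.Agent.H307R2.OP Chr

/-- the primes of a block in a class modulo a power of 2 -/
def PBc (l b c : ℕ) : Finset ℕ := (PB l 5).filter (fun p => p ≡ c [MOD 2 ^ b])

theorem PBc_sub (l b c : ℕ) : PBc l b c ⊆ PB l 5 := filter_subset _ _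

/-- numerical facts for large exponents -/
theorem ev_numc (b : ℕ) : ∃ l0 : ℕ, ∀ l : ℕ, l0 ≤ l → (300 ≤ l ∧ 100 * (b + 3) ≤ l ∧
    (10000 : ℝ) * 2 ^ b * l ≤ 2 ^ l ∧
    (6 : ℝ) * (2 ^ l / ((l : ℝ) * Real.log 2) ^ 6) ≤
      8 / 2 ^ b * (0.001 * (2 ^ l / (l * Real.log 2))) ∧
    (9 : ℝ) * 2 ^ b ≤ (l * Real.log 2) ^ 2) := by
  have h1 := tendsto_pow_const_div_const_pow_of_one_lt 1 (r := (2 : ℝ)) (by norm_num)
  have h2 := h1.eventually (gt_mem_nhds (show (0 : ℝ) < 1 / (10000 * 2 ^ b) by positivity))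
  obtain ⟨l1, hl1⟩ := eventually_atTop.1 h2
  refine ⟨max l1 (300 + 100 * (b + 3) + 2 ^ b * 1000), fun l hl => ?_⟩
  have hl300' : 300 ≤ l := by omega
  have hl300 : (300 : ℝ) ≤ l := by exact_mod_cast hl300'
  have hlb : ((2 : ℝ) ^ b) * 1000 ≤ l := by
    have : 2 ^ b * 1000 ≤ l := by omega
    exact_mod_cast this
  have hlog := Real.log_two_gt_d9
  have hlog' : (0.69 : ℝ) ≤ Real.log 2 := by linarith
  set x : ℝ := (l : ℝ) * Real.log 2 with hx
  have hx200 : (200 : ℝ) ≤ x := by rw [hx]; nlinarith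
  have hxb : (2 : ℝ) ^ b * 600 ≤ x := by
    rw [hx]
    have h0 : (0 : ℝ) < 2 ^ b := by positivity
    nlinarith
  have hx0 : 0 < x := by linarith
  have h2b : (1 : ℝ) ≤ 2 ^ b := one_le_pow₀ (by norm_num)
  refine ⟨hl300', by omega, ?_, ?_, ?_⟩
  · have h3 := hl1 l (by omega)
    rw [pow_one, div_lt_div_iff₀ (by positivity) (by positivity)] at h3
    linarith
  · have h2l : (0 : ℝ) < 2 ^ l := by positivity
    have e1 : (6 : ℝ) * (2 ^ l / x ^ 6) = (6 / x ^ 5) * (2 ^ l / x) := by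
      field_simp
    have e2 : 8 / (2 : ℝ) ^ b * (0.001 * (2 ^ l / x)) = (0.008 / 2 ^ b) * (2 ^ l / x) := by
      field_simp
      norm_num
    rw [e1, e2]
    apply mul_le_mul_of_nonneg_right _ (by positivity)
    rw [div_le_div_iff₀ (by positivity) (by positivity)]
    have e3 : (200 : ℝ) ^ 4 ≤ x ^ 4 := pow_le_pow_left₀ (by norm_num) hx200 4
    have e4 : x ^ 5 = x ^ 4 * x := by ring
    have e5 : (200 : ℝ) ^ 4 * (2 ^ b * 600) ≤ x ^ 5 := by
      rw [e4]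
      exact mul_le_mul e3 hxb (by positivity) (by positivity)
    nlinarith
  · have e1 : (2 : ℝ) ^ b * 600 * 200 ≤ x * x := mul_le_mul hxb hx200 (by norm_num) hx0.le
    rw [sq]
    linarith

theorem two_pow_mod8 {b c p : ℕ} (hb : 3 ≤ b) (h : p ≡ c [MOD 2 ^ b]) : p % 8 = c % 8 := by
  have h8 : 8 ∣ 2 ^ b := by
    have : (8 : ℕ) = 2 ^ 3 := by norm_num
    rw [this]
    exact pow_dvd_pow 2 hb
  exact h.of_dvd h8

theorem PBc_eq {l b c : ℕ} (hb : 3 ≤ b) (hc : c % 8 = 5) :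
    PBc l b c = (Ioc (2 ^ l) (2 ^ (l + 1))).filter (fun p => p.Prime ∧ p ≡ c [MOD 2 ^ b]) := by
  ext p
  rw [PBc, mem_filter, PB, mem_filter, mem_filter]
  constructor
  · rintro ⟨⟨h1, h2, h3⟩, h4⟩
    exact ⟨h1, h2, h4⟩
  · rintro ⟨h1, h2, h3⟩
    exact ⟨⟨h1, h2, by rw [two_pow_mod8 hb h3, hc]⟩, h3⟩

/-- the number of primes of a block in a class modulo a power of 3 -/
theorem blockc_BT (b : ℕ) (hb : 3 ≤ b) : ∃ l0 : ℕ, ∀ l : ℕ, l0 ≤ l → ∀ B : ℕ, 1 ≤ B →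
    3 ^ B ≤ 2 ^ (l / 100) →
    ∀ c a : ℕ, ((3 ^ B : ℕ).totient : ℝ) *
      (((PBc l b c).filter (fun p => p ≡ a [MOD 3 ^ B])).card : ℝ) ≤
        8 / 2 ^ b * (1.149 * (2 ^ l / (l * Real.log 2))) := by
  obtain ⟨N0, hN0⟩ := bt4
  obtain ⟨l1, hl1⟩ := ev_numc b
  refine ⟨max l1 (2 * N0 + 10), fun l hl B hB hB3 c a => ?_⟩
  obtain ⟨h300, h100, hnum, -, -⟩ := hl1 l (by omega)
  set F := (PBc l b c).filter (fun p => p ≡ a [MOD 3 ^ B]) with hF
  have hlog2 := Real.log_two_gt_d9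
  have hlR : (300 : ℝ) ≤ l := by exact_mod_cast h300
  have hlog2' : 0 < Real.log 2 := by linarith
  rcases F.eq_empty_or_nonempty with h0 | hne
  · rw [h0, card_empty, Nat.cast_zero, mul_zero]
    positivity
  set p0 := F.min' hne with hp0
  have hp0F : p0 ∈ F := F.min'_mem hne
  set Q : ℕ := 2 ^ b * 3 ^ B with hQ
  have hQ0 : 0 < Q := by positivity
  have hF1 : ∀ p ∈ F, 2 ^ l < p ∧ p ≤ 2 ^ (l + 1) ∧ p.Prime ∧ p ≡ c [MOD 2 ^ b] ∧
      p ≡ a [MOD 3 ^ B] := by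
    intro p hp
    rw [hF, mem_filter, PBc, mem_filter, PB, mem_filter, mem_Ioc] at hp
    exact ⟨hp.1.1.1.1, hp.1.1.1.2, hp.1.1.2.1, hp.1.2, hp.2⟩
  have hcop : Nat.Coprime (2 ^ b) (3 ^ B) := Nat.Coprime.pow _ _ (by norm_num)
  have hmodQ : ∀ p ∈ F, p0 ≡ p [MOD Q] := by
    intro p hp
    obtain ⟨-, -, -, h1, h2⟩ := hF1 p hp
    obtain ⟨-, -, -, h3, h4⟩ := hF1 p0 hp0F
    rw [hQ]
    exact (Nat.modEq_and_modEq_iff_modEq_mul hcop).1 ⟨h3.trans h1.symm, h4.trans h2.symm⟩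
  have hmin : ∀ p ∈ F, p0 ≤ p := fun p hp => F.min'_le p hp
  have hdiv : ∀ p ∈ F, p0 + (p - p0) / Q * Q = p := by
    intro p hp
    have h1 := (Nat.modEq_iff_dvd' (hmin p hp)).1 (hmodQ p hp)
    rw [Nat.div_mul_cancel h1]
    have := hmin p hp
    omega
  set N : ℕ := 2 ^ l / Q + 1 with hN
  have hcard : F.card ≤ ((range N).filter (fun k => (p0 + k * Q).Prime)).card := by
    refine Finset.card_le_card_of_injOn (fun p => (p - p0) / Q) ?_ ?_
    · intro p hp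
      have hp' := mem_coe.1 hp
      rw [mem_coe, mem_filter, mem_range]
      refine ⟨?_, ?_⟩
      · rw [hN]
        refine Nat.lt_succ_of_le (Nat.div_le_div_right ?_)
        obtain ⟨h1, h2, -⟩ := hF1 p hp'
        obtain ⟨h3, -⟩ := hF1 p0 hp0F
        rw [pow_succ] at h2
        omega
      · simp only [hdiv p hp']
        exact (hF1 p hp').2.2.1
    · intro p hp p' hp' heq
      have h1 := hdiv p (mem_coe.1 hp)
      have h2 := hdiv p' (mem_coe.1 hp')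
      simp only at heq
      rw [heq] at h1
      exact h1.symm.trans h2
  have hQle : Q ≤ 2 ^ (l / 100 + b) := by
    rw [hQ, pow_add]
    calc 2 ^ b * 3 ^ B ≤ 2 ^ b * 2 ^ (l / 100) := Nat.mul_le_mul_left _ hB3
      _ = 2 ^ (l / 100) * 2 ^ b := by ring
  have hNlow : 2 ^ (l - (l / 100 + b)) ≤ N := by
    rw [hN]
    have : 2 ^ (l - (l / 100 + b)) ≤ 2 ^ l / Q := by
      rw [Nat.le_div_iff_mul_le hQ0]
      calc 2 ^ (l - (l / 100 + b)) * Q ≤ 2 ^ (l - (l / 100 + b)) * 2 ^ (l / 100 + b) :=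
            Nat.mul_le_mul_left _ hQle
        _ = 2 ^ l := by rw [← pow_add]; congr 1; omega
    omega
  have hN0' : N0 ≤ N := by
    have h1 : l - (l / 100 + b) < 2 ^ (l - (l / 100 + b)) := Nat.lt_two_pow_self
    omega
  have hbt := hN0 p0 Q N hQ0 hN0'
  have htot : (Q : ℝ) / Nat.totient Q = 3 := by
    rw [hQ, Nat.totient_mul hcop, Nat.totient_prime_pow Nat.prime_three hB,
      Nat.totient_prime_pow Nat.prime_two (by omega)]
    obtain ⟨n, rfl⟩ : ∃ n, B = n + 1 := ⟨B - 1, by omega⟩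
    obtain ⟨b', rfl⟩ : ∃ b', b = b' + 1 := ⟨b - 1, by omega⟩
    rw [Nat.add_sub_cancel, Nat.add_sub_cancel, pow_succ, pow_succ]
    push_cast
    have h3 : (0 : ℝ) < 3 ^ n := by positivity
    have h4 : (0 : ℝ) < 2 ^ b' := by positivity
    field_simp
  have htot3 : ((3 ^ B : ℕ).totient : ℝ) = 2 / 3 * 3 ^ B := by
    rw [Nat.totient_prime_pow Nat.prime_three hB]
    obtain ⟨n, rfl⟩ : ∃ n, B = n + 1 := ⟨B - 1, by omega⟩
    rw [Nat.add_sub_cancel, pow_succ]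
    push_cast
    ring
  rw [htot] at hbt
  have hcardR : (F.card : ℝ) ≤ 9 / 2 * 3 * (N / Real.log N) :=
    le_trans (by exact_mod_cast hcard) hbt
  have h2l : (0 : ℝ) < 2 ^ l := by positivity
  have h3B : (0 : ℝ) < 3 ^ B := by positivity
  have h2b : (0 : ℝ) < 2 ^ b := by positivity
  have hNle : (N : ℝ) * 3 ^ B ≤ 2 ^ l / 2 ^ b + 3 ^ B := by
    have e1 : ((2 ^ l / Q : ℕ) : ℝ) ≤ (2 ^ l : ℝ) / (2 ^ b * 3 ^ B) := by
      have := @Nat.cast_div_le ℝ _ _ _ (2 ^ l) Q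
      rw [hQ] at this ⊢
      push_cast at this
      exact this
    rw [hN]
    push_cast
    have e2 : (2 ^ l : ℝ) / (2 ^ b * 3 ^ B) * 3 ^ B = 2 ^ l / 2 ^ b := by field_simp
    nlinarith
  have h3small : (9 : ℝ) * 3 ^ B ≤ 8 / 2 ^ b * (0.001 * 2 ^ l) := by
    have e1 : (3 : ℝ) ^ B ≤ 2 ^ (l / 100) := by exact_mod_cast hB3
    have e2 : (9000 : ℝ) * 2 ^ b * 2 ^ (l / 100) ≤ 2 ^ l := by
      have : 9000 * 2 ^ b * 2 ^ (l / 100) ≤ 2 ^ l := by
        calc 9000 * 2 ^ b * 2 ^ (l / 100) ≤ 2 ^ 14 * 2 ^ b * 2 ^ (l / 100) :=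
              Nat.mul_le_mul_right _ (Nat.mul_le_mul_right _ (by norm_num))
          _ = 2 ^ (14 + b + l / 100) := by rw [pow_add, pow_add]
          _ ≤ 2 ^ l := Nat.pow_le_pow_right (by norm_num) (by omega)
      exact_mod_cast this
    rw [div_mul_eq_mul_div, le_div_iff₀ h2b]
    have e3 : 9 * (3 : ℝ) ^ B * 2 ^ b ≤ 9 * 2 ^ (l / 100) * 2 ^ b := by gcongr
    linarith
  have hlogN : 0.98 * (l * Real.log 2) ≤ Real.log N := by
    have e1 : Real.log ((2 : ℝ) ^ (l - (l / 100 + b))) ≤ Real.log N := by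
      apply Real.log_le_log (by positivity)
      exact_mod_cast hNlow
    rw [Real.log_pow] at e1
    have e2 : (0.98 : ℝ) * l ≤ ((l - (l / 100 + b) : ℕ) : ℝ) := by
      have : 98 * l ≤ 100 * (l - (l / 100 + b)) := by omega
      have : (98 : ℝ) * l ≤ 100 * ((l - (l / 100 + b) : ℕ) : ℝ) := by exact_mod_cast this
      linarith
    nlinarith
  have hlog0 : 0 < Real.log N := lt_of_lt_of_le (by positivity) hlogN
  rw [htot3]
  calc 2 / 3 * 3 ^ B * (F.card : ℝ) ≤ 2 / 3 * 3 ^ B * (9 / 2 * 3 * (N / Real.log N)) := by gcongr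
    _ = 9 * (N * 3 ^ B) / Real.log N := by ring
    _ ≤ 9 * (2 ^ l / 2 ^ b + 3 ^ B) / Real.log N := by gcongr
    _ ≤ (8 / 2 ^ b * (1.126 * 2 ^ l)) / Real.log N := by
        apply div_le_div_of_nonneg_right _ hlog0.le
        have e1 : 9 * ((2 : ℝ) ^ l / 2 ^ b) = 8 / 2 ^ b * (1.125 * 2 ^ l) := by
          field_simp
          norm_num
        rw [mul_add, e1]
        have e2 : 8 / (2 : ℝ) ^ b * (1.126 * 2 ^ l) =
            8 / 2 ^ b * (1.125 * 2 ^ l) + 8 / 2 ^ b * (0.001 * 2 ^ l) := by ring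
        rw [e2]
        linarith
    _ ≤ (8 / 2 ^ b * (1.126 * 2 ^ l)) / (0.98 * (l * Real.log 2)) := by gcongr
    _ ≤ 8 / 2 ^ b * (1.149 * (2 ^ l / (l * Real.log 2))) := by
        rw [mul_div_assoc]
        apply mul_le_mul_of_nonneg_left _ (by positivity)
        rw [mul_div_assoc', div_le_div_iff₀ (by positivity) (by positivity)]
        have : 0 < 2 ^ l * ((l : ℝ) * Real.log 2) := by positivity
        nlinarith

/-- comparison of the numbers of primes of a block in two progressions -/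
theorem block_cmp (q q' : ℕ) (hq : 1 ≤ q) (hq' : 1 ≤ q') (m : ℝ) (hm0 : 0 ≤ m) (hm1 : m ≤ 1)
    (hφ : 1 / (Nat.totient q' : ℝ) = m * (1 / (Nat.totient q : ℝ))) : ∃ l0 : ℕ, ∀ l : ℕ, l0 ≤ l →
    ∀ a a' : ℕ, a < q → a' < q' → a.Coprime q → a'.Coprime q' →
    m * (((Ioc (2 ^ l) (2 ^ (l + 1))).filter (fun p => p.Prime ∧ p ≡ a [MOD q])).card : ℝ) -
      6 * (2 ^ l / ((l : ℝ) * Real.log 2) ^ 6) ≤
      (((Ioc (2 ^ l) (2 ^ (l + 1))).filter (fun p => p.Prime ∧ p ≡ a' [MOD q'])).card : ℝ) := by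
  obtain ⟨x0, hx0⟩ := Pool.Agent.H387R2.Uni.siegel
  refine ⟨300 + x0 + 100 * (q + q'), fun l hl a a' ha ha' hc hc' => ?_⟩
  have h300 : 300 ≤ l := by omega
  have hlog2 := Real.log_two_gt_d9
  have hlR : (300 : ℝ) ≤ l := by exact_mod_cast h300
  have hlx : 0 < (l : ℝ) * Real.log 2 := by nlinarith
  have hle : 2 ^ l ≤ 2 ^ (l + 1) := Nat.pow_le_pow_right (by norm_num) (by omega)
  rw [piAP_sub _ _ _ _ hle, piAP_sub _ _ _ _ hle]
  have key : ∀ k : ℕ, l ≤ k → |H343E.piAP (2 ^ k) q' a' - m * H343E.piAP (2 ^ k) q a| ≤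
      2 * (2 ^ k / ((k : ℝ) * Real.log 2) ^ 6) := by
    intro k hk
    have hkx : x0 ≤ 2 ^ k := by
      have : k < 2 ^ k := Nat.lt_two_pow_self
      omega
    have hkR : (300 : ℝ) ≤ k := hlR.trans (by exact_mod_cast hk)
    have hlogk : Real.log ((2 ^ k : ℕ) : ℝ) = k * Real.log 2 := by
      push_cast
      rw [Real.log_pow]
    have hk2 : (100 : ℝ) * (q + q') ≤ k := by
      have : 100 * (q + q') ≤ k := by omega
      exact_mod_cast this
    have hq0 : (0 : ℝ) ≤ q := Nat.cast_nonneg _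
    have hq'0 : (0 : ℝ) ≤ q' := Nat.cast_nonneg _
    have hbig : (q : ℝ) + q' ≤ Real.log ((2 ^ k : ℕ) : ℝ) ^ 2 := by
      rw [hlogk]
      have h1 : (200 : ℝ) ≤ k * Real.log 2 := by nlinarith
      have h2 : (q : ℝ) + q' ≤ k * Real.log 2 := by nlinarith
      nlinarith
    have s1 := hx0 (2 ^ k) hkx q' hq' (by linarith) a' ha' hc'
    have s2 := hx0 (2 ^ k) hkx q hq (by linarith) a ha hc
    rw [hlogk] at s1 s2
    push_cast at s1 s2
    set E : ℝ := 2 ^ k / ((k : ℝ) * Real.log 2) ^ 6 with hE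
    have e1 : H343E.pi1 (2 ^ k) / (Nat.totient q' : ℝ) =
        m * (H343E.pi1 (2 ^ k) / (Nat.totient q : ℝ)) := by
      rw [div_eq_mul_one_div, hφ]
      ring
    rw [e1] at s1
    have hE0 : 0 ≤ E := by positivity
    rw [abs_le] at s1 s2 ⊢
    have f1 := mul_le_mul_of_nonneg_left s2.1 hm0
    have f2 := mul_le_mul_of_nonneg_left s2.2 hm0
    have f3 : m * E ≤ 1 * E := mul_le_mul_of_nonneg_right hm1 hE0
    constructor
    · linarith [s1.1]
    · linarith [s1.2]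
  have k1 := key l le_rfl
  have k2 := key (l + 1) (by omega)
  have k3 : (2 : ℝ) ^ (l + 1) / (((l + 1 : ℕ) : ℝ) * Real.log 2) ^ 6 ≤
      2 * (2 ^ l / ((l : ℝ) * Real.log 2) ^ 6) := by
    rw [pow_succ, mul_comm ((2 : ℝ) ^ l) 2, mul_div_assoc]
    apply mul_le_mul_of_nonneg_left _ (by norm_num)
    apply div_le_div_of_nonneg_left (by positivity) (by positivity)
    apply pow_le_pow_left₀ hlx.le
    push_cast
    nlinarith
  rw [abs_le] at k1 k2
  linarith [k1.1, k1.2, k2.1, k2.2]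

theorem mod_pow_coprime {b c : ℕ} (hb : 3 ≤ b) (hc : c % 8 = 5) :
    c % 2 ^ b < 2 ^ b ∧ (c % 2 ^ b).Coprime (2 ^ b) ∧ ∀ p : ℕ, p ≡ c [MOD 2 ^ b] ↔
      p ≡ c % 2 ^ b [MOD 2 ^ b] := by
  refine ⟨Nat.mod_lt _ (by positivity), ?_, fun p => ?_⟩
  · apply Nat.Coprime.pow_right
    rw [Nat.coprime_two_right]
    have h1 : c % 2 ^ b ≡ c [MOD 2 ^ b] := Nat.mod_modEq _ _
    have h2 := two_pow_mod8 hb h1
    rw [Nat.odd_iff]
    omega
  · have h1 : c % 2 ^ b ≡ c [MOD 2 ^ b] := Nat.mod_modEq _ _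
    exact ⟨fun h => h.trans h1.symm, fun h => h.trans h1⟩

/-- the block in a class modulo a power of 2 is large -/
theorem blockc_card (b : ℕ) (hb : 3 ≤ b) : ∃ l0 : ℕ, ∀ l : ℕ, l0 ≤ l → ∀ c : ℕ, c % 8 = 5 →
    ∀ R : Finset ℕ, R.card ≤ 2 →
    8 / 2 ^ b * (0.245 * (2 ^ l / (l * Real.log 2))) ≤ ((PBc l b c \ R).card : ℝ) ∧
      ((PBc l b c).card : ℝ) ≤ ((PBc l b c \ R).card : ℝ) + 2 ∧
      8 / 2 ^ b * ((PB l 5).card : ℝ) - 8 / 2 ^ b * (0.001 * (2 ^ l / (l * Real.log 2))) ≤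
        ((PBc l b c).card : ℝ) := by
  obtain ⟨l1, hl1⟩ := ev_numc b
  obtain ⟨l2, hl2⟩ := block_card
  have h2b0 : (0 : ℝ) < 2 ^ b := by positivity
  have h8b : (8 : ℝ) ≤ 2 ^ b := by
    calc (8 : ℝ) = 2 ^ 3 := by norm_num
      _ ≤ 2 ^ b := pow_le_pow_right₀ (by norm_num) hb
  obtain ⟨l3, hl3⟩ := block_cmp 8 (2 ^ b) (by norm_num) (Nat.one_le_two_pow) (8 / 2 ^ b)
    (by positivity) (by rw [div_le_one h2b0]; exact h8b) (by
      have t1 : Nat.totient 8 = 4 := by decide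
      rw [t1, Nat.totient_prime_pow Nat.prime_two (by omega)]
      obtain ⟨b', rfl⟩ : ∃ b', b = b' + 1 := ⟨b - 1, by omega⟩
      rw [Nat.add_sub_cancel, pow_succ]
      push_cast
      field_simp
      norm_num)
  refine ⟨l1 + l2 + l3, fun l hl c hc R hR => ?_⟩
  obtain ⟨h300, h100, hnum, hη, -⟩ := hl1 l (by omega)
  obtain ⟨hc1, hc2⟩ := hl2 l (by omega) ∅ (by simp)
  rw [Finset.sdiff_empty] at hc1
  have hlog2 := Real.log_two_gt_d9
  have hlR : (300 : ℝ) ≤ l := by exact_mod_cast h300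
  have hx0 : 0 < (l : ℝ) * Real.log 2 := by nlinarith
  obtain ⟨m1, m2, m3⟩ := mod_pow_coprime hb hc
  have hcmp := hl3 l (by omega) 5 (c % 2 ^ b) (by norm_num) m1 (by norm_num) m2
  have e5 : (Ioc (2 ^ l) (2 ^ (l + 1))).filter (fun p => p.Prime ∧ p ≡ 5 [MOD 8]) = PB l 5 := by
    ext p
    rw [PB, mem_filter, mem_filter]
    rfl
  have ec : (Ioc (2 ^ l) (2 ^ (l + 1))).filter (fun p => p.Prime ∧ p ≡ c % 2 ^ b [MOD 2 ^ b]) =
      PBc l b c := by
    rw [PBc_eq hb hc]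
    ext p
    rw [mem_filter, mem_filter, m3]
  rw [e5, ec] at hcmp
  have hcard : (PBc l b c).card ≤ (PBc l b c \ R).card + 2 := by
    have := Finset.card_le_card_sdiff_add_card (s := PBc l b c) (t := R)
    omega
  have hcardR : ((PBc l b c).card : ℝ) ≤ ((PBc l b c \ R).card : ℝ) + 2 := by exact_mod_cast hcard
  have h3 : 8 / 2 ^ b * ((PB l 5).card : ℝ) - 8 / 2 ^ b * (0.001 * (2 ^ l / (l * Real.log 2))) ≤
        ((PBc l b c).card : ℝ) := by linarith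
  refine ⟨?_, hcardR, h3⟩
  have e2 : (2 : ℝ) ≤ 8 / 2 ^ b * (0.001 * (2 ^ l / (l * Real.log 2))) := by
    rw [div_mul_eq_mul_div, le_div_iff₀ h2b0, mul_div_assoc', mul_div_assoc', le_div_iff₀ hx0]
    have h5 : Real.log 2 ≤ 1 := by linarith [Real.log_two_lt_d9]
    have h6 : (2 : ℝ) * 2 ^ b * (l * Real.log 2) ≤ 2 * 2 ^ b * (l * 1) := by
      gcongr
    have h2l : (0 : ℝ) < 2 ^ l := by positivity
    linarith
  have e4 : 8 / (2 : ℝ) ^ b * (0.247 * (2 ^ l / (l * Real.log 2))) ≤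
      8 / 2 ^ b * ((PB l 5).card : ℝ) := mul_le_mul_of_nonneg_left hc1 (by positivity)
  linarith

/-- the classes modulo 9 -/
theorem blockc_nine (b : ℕ) (hb : 3 ≤ b) : ∃ l0 : ℕ, ∀ l : ℕ, l0 ≤ l → ∀ c : ℕ, c % 8 = 5 →
    ∀ d ∈ T9, ((PBc l b c).card : ℝ) / 6 - 8 / 2 ^ b * (0.001 * (2 ^ l / (l * Real.log 2))) ≤
      (((PBc l b c).filter (fun p => p % 9 = d)).card : ℝ) := by
  obtain ⟨l1, hl1⟩ := ev_numc b
  have hcop9 : Nat.Coprime 9 (2 ^ b) := Nat.Coprime.pow_right _ (by norm_num)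
  obtain ⟨l3, hl3⟩ := block_cmp (2 ^ b) (9 * 2 ^ b) (Nat.one_le_two_pow) (by
      have : 1 ≤ 2 ^ b := Nat.one_le_two_pow
      omega) (1 / 6) (by norm_num) (by norm_num) (by
      have t1 : Nat.totient 9 = 6 := by decide
      rw [Nat.totient_mul hcop9, t1]
      push_cast
      have : (0 : ℝ) < Nat.totient (2 ^ b) := by
        exact_mod_cast Nat.totient_pos.2 (by positivity)
      field_simp)
  refine ⟨l1 + l3, fun l hl c hc d hd => ?_⟩
  obtain ⟨h300, h100, hnum, hη, -⟩ := hl1 l (by omega)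
  obtain ⟨m1, m2, m3⟩ := mod_pow_coprime hb hc
  have hd9 : d < 9 ∧ Nat.Coprime d 9 := by
    have : ∀ d ∈ T9, d < 9 ∧ Nat.Coprime d 9 := by decide
    exact this d hd
  obtain ⟨a, ha9, ha2⟩ := Nat.chineseRemainder hcop9 d (c % 2 ^ b)
  set a' := a % (9 * 2 ^ b) with ha'
  have ha'lt : a' < 9 * 2 ^ b := Nat.mod_lt _ (by positivity)
  have ha'a : a' ≡ a [MOD 9 * 2 ^ b] := Nat.mod_modEq _ _
  have ha'9 : a' ≡ d [MOD 9] := (ha'a.of_dvd (Dvd.intro _ rfl)).trans ha9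
  have ha'2 : a' ≡ c % 2 ^ b [MOD 2 ^ b] := (ha'a.of_dvd (Dvd.intro_left _ rfl)).trans ha2
  have hacop : a'.Coprime (9 * 2 ^ b) := by
    apply Nat.Coprime.mul_right
    · unfold Nat.Coprime
      rw [ha'9.gcd_eq]
      exact hd9.2
    · unfold Nat.Coprime
      rw [ha'2.gcd_eq]
      exact m2
  have hcmp := hl3 l (by omega) (c % 2 ^ b) a' m1 ha'lt m2 hacop
  have ec : (Ioc (2 ^ l) (2 ^ (l + 1))).filter (fun p => p.Prime ∧ p ≡ c % 2 ^ b [MOD 2 ^ b]) =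
      PBc l b c := by
    rw [PBc_eq hb hc]
    ext p
    rw [mem_filter, mem_filter, m3]
  have e9 : (Ioc (2 ^ l) (2 ^ (l + 1))).filter (fun p => p.Prime ∧ p ≡ a' [MOD 9 * 2 ^ b]) ⊆
      (PBc l b c).filter (fun p => p % 9 = d) := by
    rw [PBc_eq hb hc]
    intro p hp
    rw [mem_filter] at hp
    rw [mem_filter, mem_filter]
    refine ⟨⟨hp.1, hp.2.1, ?_⟩, ?_⟩
    · rw [m3]
      exact (hp.2.2.of_dvd (Dvd.intro_left _ rfl)).trans ha'2
    · have h1 : p ≡ d [MOD 9] := (hp.2.2.of_dvd (Dvd.intro _ rfl)).trans ha'9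
      rw [Nat.ModEq] at h1
      rw [h1]
      exact Nat.mod_eq_of_lt hd9.1
  have e10 := (Nat.cast_le (α := ℝ)).2 (Finset.card_le_card e9)
  rw [ec] at hcmp
  linarith

/-- the hypotheses of `Chr.products` -/
theorem blockc_chr (b : ℕ) (hb : 3 ≤ b) : ∃ l0 : ℕ, ∀ l : ℕ, l0 ≤ l → ∀ c : ℕ, c % 8 = 5 →
    ∀ R : Finset ℕ, R.card ≤ 2 → ∀ B : ℕ, 2 ≤ B → 3 ^ B ≤ 2 ^ (l / 100) →
    (∀ p ∈ PBc l b c \ R, IsUnit (p : ZMod (3 ^ B))) ∧ 0 < (PBc l b c \ R).card ∧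
    ∑ χ : DirichletCharacter ℂ (3 ^ B), ‖SS (PBc l b c \ R) χ‖ ^ 2 ≤
      4.9 * ((PBc l b c \ R).card : ℝ) ^ 2 ∧
    ∀ χ : DirichletCharacter ℂ (3 ^ B), χ ≠ 1 →
      ‖SS (PBc l b c \ R) χ‖ ≤ 0.99 * ((PBc l b c \ R).card : ℝ) := by
  obtain ⟨l1, hl1⟩ := ev_numc b
  obtain ⟨l2, hl2⟩ := blockc_BT b hb
  obtain ⟨l3, hl3⟩ := blockc_card b hb
  obtain ⟨l4, hl4⟩ := blockc_nine b hb
  refine ⟨l1 + l2 + l3 + l4, fun l hl c hc R hR B hB hB3 => ?_⟩
  obtain ⟨h300, h100, hnum, -, -⟩ := hl1 l (by omega)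
  obtain ⟨hc1, hc2, -⟩ := hl3 l (by omega) c hc R hR
  have h9 := hl4 l (by omega) c hc
  have hBT := hl2 l (by omega) B (by omega) hB3 c
  have hlog2 := Real.log_two_gt_d9
  have hlR : (300 : ℝ) ≤ l := by exact_mod_cast h300
  have hx0 : 0 < (l : ℝ) * Real.log 2 := by nlinarith
  have h2b0 : (0 : ℝ) < 2 ^ b := by positivity
  set P := PBc l b c \ R with hP
  obtain ⟨X, hX⟩ : ∃ X : ℝ, X = 8 / 2 ^ b * (2 ^ l / (l * Real.log 2)) := ⟨_, rfl⟩
  have hX2 : (4000 : ℝ) ≤ X := by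
    rw [hX, div_mul_div_comm, le_div_iff₀ (by positivity)]
    have h5 : Real.log 2 ≤ 1 := by linarith [Real.log_two_lt_d9]
    have h6 : (4000 : ℝ) * (2 ^ b * (l * Real.log 2)) ≤ 4000 * (2 ^ b * (l * 1)) := by
      gcongr
    have h2l : (0 : ℝ) < 2 ^ l := by positivity
    linarith
  have hX0 : 0 < X := by linarith
  have hc1' : 0.245 * X ≤ (P.card : ℝ) := by
    rw [hX]
    linarith
  have h9' : ∀ d ∈ T9, ((PBc l b c).card : ℝ) / 6 - 0.001 * X ≤
      (((PBc l b c).filter (fun p => p % 9 = d)).card : ℝ) := by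
    intro d hd
    have := h9 d hd
    rw [hX]
    linarith
  have hBT' : ∀ a, ((3 ^ B : ℕ).totient : ℝ) *
      (((PBc l b c).filter (fun p => p ≡ a [MOD 3 ^ B])).card : ℝ) ≤ 1.149 * X := by
    intro a
    have := hBT a
    rw [hX]
    linarith
  have hcardpos : 0 < P.card := by
    have : (0 : ℝ) < P.card := by linarith
    exact_mod_cast this
  have h3 : ∀ p ∈ P, ¬ 3 ∣ p := by
    intro p hp hdvd
    rw [hP, Finset.mem_sdiff] at hp
    have hp1 := PBc_sub l b c hp.1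
    rw [PB, mem_filter, mem_Ioc] at hp1
    have h1 := (Nat.prime_dvd_prime_iff_eq Nat.prime_three hp1.2.1).1 hdvd
    have h2 := hp1.2.2
    omega
  have hunit : ∀ p ∈ P, IsUnit (p : ZMod (3 ^ B)) := by
    intro p hp
    rw [ZMod.isUnit_iff_coprime]
    exact Nat.Coprime.pow_right _ ((Nat.Prime.coprime_iff_not_dvd Nat.prime_three).2 (h3 p hp)).symm
  have hC49 : ∑ χ : DirichletCharacter ℂ (3 ^ B), ‖SS P χ‖ ^ 2 ≤ 4.9 * (P.card : ℝ) ^ 2 := by
    rw [parseval P hunit]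
    have e1 : (((P ×ˢ P).filter fun x => ((x.2 : ℕ) : ZMod (3 ^ B)) = (x.1 : ZMod (3 ^ B))).card : ℝ)
        = ∑ x ∈ P, ((P.filter (fun p => p ≡ x [MOD 3 ^ B])).card : ℝ) := by
      rw [Finset.card_filter, Finset.sum_product]
      push_cast
      refine Finset.sum_congr rfl fun x _ => ?_
      rw [Finset.card_filter]
      push_cast
      refine Finset.sum_congr rfl fun y _ => ?_
      simp only [ZMod.natCast_eq_natCast_iff]
    rw [e1, Finset.mul_sum]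
    calc ∑ x ∈ P, ((3 ^ B : ℕ).totient : ℝ) * ((P.filter (fun p => p ≡ x [MOD 3 ^ B])).card : ℝ)
        ≤ ∑ x ∈ P, 4.9 * (P.card : ℝ) := by
          refine Finset.sum_le_sum fun x _ => ?_
          have e2 : ((P.filter (fun p => p ≡ x [MOD 3 ^ B])).card : ℝ) ≤
              (((PBc l b c).filter (fun p => p ≡ x [MOD 3 ^ B])).card : ℝ) := by
            have := Finset.card_le_card (Finset.filter_subset_filter
              (fun p => p ≡ x [MOD 3 ^ B]) (Finset.sdiff_subset : PBc l b c \ R ⊆ PBc l b c))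
            exact_mod_cast this
          have e3 := hBT' x
          have e4 : ((3 ^ B : ℕ).totient : ℝ) *
              ((P.filter (fun p => p ≡ x [MOD 3 ^ B])).card : ℝ) ≤
              ((3 ^ B : ℕ).totient : ℝ) *
              (((PBc l b c).filter (fun p => p ≡ x [MOD 3 ^ B])).card : ℝ) :=
            mul_le_mul_of_nonneg_left e2 (Nat.cast_nonneg _)
          linarith
      _ = 4.9 * (P.card : ℝ) ^ 2 := by
          rw [Finset.sum_const, nsmul_eq_mul]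
          ring
  refine ⟨hunit, hcardpos, hC49, fun χ hχ => ?_⟩
  by_cases h6 : χ ^ 6 = 1
  · have hL : ∀ d ∈ T9, 0.15 * (P.card : ℝ) ≤ ((P.filter fun p => p % 9 = d).card : ℝ) := by
      intro d hd
      have e1 := h9' d hd
      have e2 : ((PBc l b c).filter (fun p => p % 9 = d)).card ≤
          (P.filter fun p => p % 9 = d).card + 2 := by
        have : (PBc l b c).filter (fun p => p % 9 = d) ⊆ (P.filter fun p => p % 9 = d) ∪ R := by
          intro p hp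
          rw [mem_filter] at hp
          rw [mem_union, mem_filter, hP, Finset.mem_sdiff]
          by_cases h : p ∈ R
          · exact Or.inr h
          · exact Or.inl ⟨⟨hp.1, h⟩, hp.2⟩
        have := (Finset.card_le_card this).trans (Finset.card_union_le _ _)
        omega
      have e3 : (((PBc l b c).filter (fun p => p % 9 = d)).card : ℝ) ≤
          ((P.filter fun p => p % 9 = d).card : ℝ) + 2 := by exact_mod_cast e2
      have e4 : (P.card : ℝ) ≤ (PBc l b c).card := by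
        have := Finset.card_le_card (Finset.sdiff_subset : PBc l b c \ R ⊆ PBc l b c)
        exact_mod_cast this
      linarith
    have := low hB P h3 (0.15 * (P.card : ℝ)) hL χ h6 hχ
    have h0 : (0 : ℝ) ≤ P.card := Nat.cast_nonneg _
    linarith
  · exact high P hunit hcardpos hC49 χ (inj_of_pow_six (by omega) χ h6)

end Pool.Agent.D0H88.PT
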