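import Mathlib

set_option autoImplicit false

/-! Products of primes from several sets in the residue classes modulo a power of 3. -/

namespace Pool.Agent.D0H88.PT.Chr

open Finset ComplexConjugate

section

variable {q : ℕ} [NeZero q]

/-- the character sum over a finite set -/
noncomputable def SS (P : Finset ℕ) (χ : DirichletCharacter ℂ q) : ℂ :=
  ∑ p ∈ P, χ (p : ZMod q)

theorem norm_unit (χ : DirichletCharacter ℂ q) {x : ZMod q} (hx : IsUnit x) : ‖χ x‖ = 1 := by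
  obtain ⟨u, rfl⟩ := hx
  exact χ.unit_norm_eq_one u

theorem norm_sq_one_sub {z : ℂ} (hz : ‖z‖ = 1) : ‖1 - z‖ ^ 2 = 2 * (1 - z.re) := by
  have h1 : z.re ^ 2 + z.im ^ 2 = 1 := by
    have := Complex.sq_norm z
    rw [hz, Complex.normSq_apply] at this
    nlinarith
  rw [Complex.sq_norm, Complex.normSq_apply]
  simp only [Complex.sub_re, Complex.one_re, Complex.sub_im, Complex.one_im, zero_sub]
  nlinarith

theorem one_sub_pow {z : ℂ} (hz : ‖z‖ = 1) (k : ℕ) : 1 - (z ^ k).re ≤ k ^ 2 * (1 - z.re) := by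
  have h1 : ‖1 - z ^ k‖ ≤ k * ‖1 - z‖ := by
    have e : 1 - z ^ k = (1 - z) * ∑ i ∈ range k, z ^ i := by
      rw [mul_comm]
      exact (geom_sum_mul_neg z k).symm
    rw [e, norm_mul, mul_comm]
    apply mul_le_mul_of_nonneg_right _ (norm_nonneg _)
    refine (norm_sum_le _ _).trans ?_
    simp [norm_pow, hz]
  have h2 : ‖z ^ k‖ = 1 := by rw [norm_pow, hz, one_pow]
  have h3 := norm_sq_one_sub hz
  have h4 := norm_sq_one_sub h2
  have h5 : ‖1 - z ^ k‖ ^ 2 ≤ (k * ‖1 - z‖) ^ 2 := pow_le_pow_left₀ (norm_nonneg _) h1 2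
  rw [mul_pow, h3, h4] at h5
  nlinarith

theorem pow_app (χ : DirichletCharacter ℂ q) (k : ℕ) {x : ZMod q} (hx : IsUnit x) :
    (χ ^ k) x = (χ x) ^ k := by
  obtain ⟨u, rfl⟩ := hx
  exact MulChar.pow_apply_coe χ k u

/-- if the sum of a character is large then the sums of its powers are large -/
theorem SS_pow (P : Finset ℕ) (hP : ∀ p ∈ P, IsUnit (p : ZMod q)) (χ : DirichletCharacter ℂ q)
    (k : ℕ) : (P.card : ℝ) - k ^ 2 * (P.card - ‖SS P χ‖) ≤ ‖SS P (χ ^ k)‖ := by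
  obtain ⟨w, hw, hS⟩ : ∃ w : ℂ, ‖w‖ = 1 ∧ SS P χ * w = (‖SS P χ‖ : ℂ) := by
    by_cases h : SS P χ = 0
    · exact ⟨1, by simp, by rw [h]; simp⟩
    · refine ⟨(‖SS P χ‖ : ℂ) / SS P χ, ?_, ?_⟩
      · rw [norm_div, Complex.norm_real, norm_norm, div_self (norm_ne_zero_iff.2 h)]
      · field_simp
  have h1 : ∀ p ∈ P, 1 - ((χ (p : ZMod q) * w) ^ k).re ≤ k ^ 2 * (1 - (χ (p : ZMod q) * w).re) := by
    intro p hp
    apply one_sub_pow
    rw [norm_mul, norm_unit χ (hP p hp), hw, one_mul]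
  have h2 := Finset.sum_le_sum h1
  rw [Finset.sum_sub_distrib, ← Finset.mul_sum, Finset.sum_sub_distrib, Finset.sum_const,
    nsmul_eq_mul, mul_one] at h2
  have h3 : ∑ p ∈ P, (χ (p : ZMod q) * w).re = ‖SS P χ‖ := by
    rw [← Complex.re_sum, ← Finset.sum_mul]
    change (SS P χ * w).re = _
    rw [hS, Complex.ofReal_re]
  have h4 : ∑ p ∈ P, ((χ (p : ZMod q) * w) ^ k).re ≤ ‖SS P (χ ^ k)‖ := by
    rw [← Complex.re_sum]
    have e : ∑ p ∈ P, (χ (p : ZMod q) * w) ^ k = SS P (χ ^ k) * w ^ k := by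
      unfold SS
      rw [Finset.sum_mul]
      refine Finset.sum_congr rfl fun p hp => ?_
      rw [mul_pow, pow_app χ k (hP p hp)]
    rw [e]
    refine (Complex.re_le_norm _).trans ?_
    rw [norm_mul, norm_pow, hw, one_pow, mul_one]
  rw [h3] at h2
  linarith

theorem conj_eq (χ : DirichletCharacter ℂ q) {y : ZMod q} (hy : IsUnit y) :
    conj (χ y) = χ y⁻¹ := by
  have h1 : χ y⁻¹ * χ y = 1 := by
    rw [← map_mul, ZMod.inv_mul_of_unit y hy, map_one]
  have h2 : conj (χ y) * χ y = 1 := by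
    rw [← Complex.normSq_eq_conj_mul_self, Complex.normSq_eq_norm_sq, norm_unit χ hy]
    norm_num
  have h3 : χ y ≠ 0 := by
    intro h
    have := norm_unit χ hy
    rw [h, norm_zero] at this
    norm_num at this
  exact mul_right_cancel₀ h3 (h2.trans h1.symm)

theorem parseval (P : Finset ℕ) (hP : ∀ p ∈ P, IsUnit (p : ZMod q)) :
    ∑ χ : DirichletCharacter ℂ q, ‖SS P χ‖ ^ 2 =
      (q.totient : ℝ) * (((P ×ˢ P).filter fun x => (x.2 : ZMod q) = (x.1 : ZMod q)).card : ℝ) := by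
  have h1 : ∀ χ : DirichletCharacter ℂ q, ((‖SS P χ‖ ^ 2 : ℝ) : ℂ) =
      ∑ x ∈ P ×ˢ P, χ ((x.2 : ZMod q))⁻¹ * χ (x.1 : ZMod q) := by
    intro χ
    have e1 : ((‖SS P χ‖ ^ 2 : ℝ) : ℂ) = SS P χ * conj (SS P χ) := by
      rw [Complex.mul_conj, Complex.normSq_eq_norm_sq]
    rw [e1]
    unfold SS
    rw [map_sum, Finset.sum_mul_sum, Finset.sum_product]
    refine Finset.sum_congr rfl fun x hx => Finset.sum_congr rfl fun y hy => ?_
    rw [conj_eq χ (hP y hy), mul_comm]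
  have h2 : ((∑ χ : DirichletCharacter ℂ q, ‖SS P χ‖ ^ 2 : ℝ) : ℂ) =
      (((q.totient : ℝ) *
        (((P ×ˢ P).filter fun x => (x.2 : ZMod q) = (x.1 : ZMod q)).card : ℝ) : ℝ) : ℂ) := by
    push_cast
    have h3 : ∀ χ : DirichletCharacter ℂ q, ((‖SS P χ‖ : ℂ)) ^ 2 =
      ∑ x ∈ P ×ˢ P, χ ((x.2 : ZMod q))⁻¹ * χ (x.1 : ZMod q) := by
      intro χ
      rw [← h1 χ]
      push_cast
      rfl
    simp_rw [h3]
    rw [Finset.sum_comm, Finset.card_filter]
    push_cast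
    rw [Finset.mul_sum]
    refine Finset.sum_congr rfl fun x hx => ?_
    rw [mem_product] at hx
    rw [DirichletCharacter.sum_char_inv_mul_char_eq ℂ (hP x.2 hx.2) (x.1 : ZMod q)]
    split_ifs <;> simp
  exact_mod_cast h2

/-- characters of large order -/
theorem high (P : Finset ℕ) (hP : ∀ p ∈ P, IsUnit (p : ZMod q)) (hne : 0 < P.card)
    (hC : ∑ χ : DirichletCharacter ℂ q, ‖SS P χ‖ ^ 2 ≤ 4.9 * (P.card : ℝ) ^ 2)
    (χ : DirichletCharacter ℂ q) (hinj : Set.InjOn (fun k : ℕ => χ ^ k) (range 6 : Finset ℕ)) :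
    ‖SS P χ‖ ≤ 0.99 * P.card := by
  classical
  by_contra hcon
  push Not at hcon
  have hn : (0 : ℝ) < P.card := by exact_mod_cast hne
  have h1 : ∑ k ∈ range 6, ‖SS P (χ ^ k)‖ ^ 2 ≤ 4.9 * (P.card : ℝ) ^ 2 := by
    refine le_trans ?_ hC
    rw [← Finset.sum_image (f := fun ψ : DirichletCharacter ℂ q => ‖SS P ψ‖ ^ 2) (s := range 6)
      (g := fun k : ℕ => χ ^ k)]
    · exact Finset.sum_le_sum_of_subset_of_nonneg (subset_univ _) (fun _ _ _ => by positivity)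
    · exact hinj
  have h2 : ∀ k ∈ range 6, ((P.card : ℝ) * (1 - 0.01 * (k : ℝ) ^ 2)) ^ 2 ≤
      ‖SS P (χ ^ k)‖ ^ 2 := by
    intro k hk
    rw [mem_range] at hk
    have h3 := SS_pow P hP χ k
    have hk5 : (k : ℝ) ≤ 5 := by exact_mod_cast (by omega : k ≤ 5)
    have hk0 : (0 : ℝ) ≤ k := Nat.cast_nonneg _
    have hk2 : (k : ℝ) ^ 2 ≤ 25 := by nlinarith
    apply pow_le_pow_left₀
    · apply mul_nonneg hn.le
      linarith
    · refine le_trans ?_ h3
      have h4 : (P.card : ℝ) - ‖SS P χ‖ ≤ 0.01 * P.card := by linarith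
      have h5 : (k : ℝ) ^ 2 * ((P.card : ℝ) - ‖SS P χ‖) ≤ (k : ℝ) ^ 2 * (0.01 * P.card) :=
        mul_le_mul_of_nonneg_left h4 (by positivity)
      linarith
  have h3 := (Finset.sum_le_sum h2).trans h1
  rw [Finset.sum_range_succ, Finset.sum_range_succ, Finset.sum_range_succ, Finset.sum_range_succ,
    Finset.sum_range_succ, Finset.sum_range_succ, Finset.sum_range_zero] at h3
  push_cast at h3
  have h4 : (0 : ℝ) < (P.card : ℝ) ^ 2 := by positivity
  nlinarith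

end

theorem pow_totient_char {q : ℕ} [NeZero q] (χ : DirichletCharacter ℂ q) :
    χ ^ q.totient = 1 := by
  apply MulChar.ext
  intro u
  rw [MulChar.pow_apply_coe, ← map_pow, ← Units.val_pow_eq_pow_val, ZMod.pow_totient]
  simp

theorem inj_of_pow_six {B : ℕ} (hB : 1 ≤ B) (χ : DirichletCharacter ℂ (3 ^ B)) (h6 : χ ^ 6 ≠ 1) :
    Set.InjOn (fun k : ℕ => χ ^ k) (range 6 : Finset ℕ) := by
  have hd1 : orderOf χ ∣ (3 ^ B).totient := orderOf_dvd_of_pow_eq_one (pow_totient_char χ)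
  rw [Nat.totient_prime_pow Nat.prime_three hB] at hd1
  have hd0 : 0 < orderOf χ := by
    have hpos : 0 < 3 ^ (B - 1) * (3 - 1) := by positivity
    exact Nat.pos_of_dvd_of_pos hd1 hpos
  have key : ∀ i j : ℕ, i < j → j < 6 → χ ^ i = χ ^ j → False := by
    intro i j hij hj he
    have h1 : χ ^ (j - i) = 1 := by
      have e : j = i + (j - i) := by omega
      rw [e, pow_add] at he
      exact (mul_eq_left.1 he.symm)
    have h2 : orderOf χ ∣ j - i := orderOf_dvd_of_pow_eq_one h1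
    have h3 : orderOf χ ≤ 5 := (Nat.le_of_dvd (by omega) h2).trans (by omega)
    apply h6
    apply orderOf_dvd_iff_pow_eq_one.1
    have hc2 : (3 - 1 : ℕ) = 2 := rfl
    rw [hc2] at hd1
    generalize orderOf χ = d at *
    interval_cases d
    · norm_num
    · norm_num
    · norm_num
    · exfalso
      have h4 : Nat.Coprime 4 (3 ^ (B - 1)) := Nat.Coprime.pow_right _ (by norm_num)
      have := h4.dvd_of_dvd_mul_left hd1
      omega
    · exfalso
      have h4 : Nat.Coprime 5 (3 ^ (B - 1)) := Nat.Coprime.pow_right _ (by norm_num)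
      have := h4.dvd_of_dvd_mul_left hd1
      omega
  intro i hi j hj he
  simp only [coe_range, Set.mem_Iio] at hi hj
  simp only at he
  rcases lt_trichotomy i j with h | h | h
  · exact (key i j h hj he).elim
  · exact h
  · exact (key j i h hi he.symm).elim

theorem six_pow {B : ℕ} (hB : 2 ≤ B) (u : (ZMod (3 ^ B))ˣ) (x : ZMod (3 ^ B))
    (hu : (u : ZMod (3 ^ B)) = 1 + 9 * x) : ∃ v : (ZMod (3 ^ B))ˣ, v ^ 6 = u := by
  have : IsCyclic (ZMod (3 ^ B))ˣ :=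
    ZMod.isCyclic_units_of_prime_pow 3 Nat.prime_three (by norm_num) B
  obtain ⟨n, rfl⟩ : ∃ n, B = n + 2 := ⟨B - 2, by omega⟩
  obtain ⟨g, hg⟩ := IsCyclic.exists_generator (α := (ZMod (3 ^ (n + 2)))ˣ)
  have hcard : orderOf g = 6 * 3 ^ n := by
    rw [orderOf_eq_card_of_forall_mem_zpowers hg, Nat.card_eq_fintype_card,
      ZMod.card_units_eq_totient, Nat.totient_prime_pow Nat.prime_three (by omega)]
    have : n + 2 - 1 = n + 1 := by omega
    rw [this, pow_succ]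
    ring
  have h1 : u ^ (3 ^ n) = 1 := by
    obtain ⟨y, hy⟩ := ZMod.exists_one_add_mul_pow_prime_pow_eq (R := ZMod (3 ^ (n + 2)))
      (u := 9) (v := 3) Nat.prime_three ⟨3, by norm_num⟩ ⟨9, by norm_num⟩ x n
    apply Units.ext
    rw [Units.val_pow_eq_pow_val, hu, hy, Units.val_one]
    have h3 : ((3 : ZMod (3 ^ (n + 2)))) ^ n * 9 = 0 := by
      have h4 : ((3 ^ n * 9 : ℕ) : ZMod (3 ^ (n + 2))) = 0 := by
        rw [ZMod.natCast_eq_zero_iff]
        exact ⟨1, by rw [pow_add]; ring⟩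
      push_cast at h4
      exact h4
    have h5 : ((3 : ℕ) : ZMod (3 ^ (n + 2))) ^ n * 9 * (x + 3 * y) = 0 := by
      push_cast
      rw [h3, zero_mul]
    rw [h5, add_zero]
  obtain ⟨k, hk⟩ := (Subgroup.mem_zpowers_iff).1 (hg u)
  have hk2 : ((orderOf g : ℕ) : ℤ) ∣ k * (3 ^ n : ℕ) := by
    apply orderOf_dvd_iff_zpow_eq_one.2
    rw [zpow_mul, hk, zpow_natCast]
    exact h1
  rw [hcard] at hk2
  push_cast at hk2
  have h6 : (6 : ℤ) ∣ k := by
    have h3n : (3 : ℤ) ^ n ≠ 0 := by positivity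
    exact Int.dvd_of_mul_dvd_mul_right h3n hk2
  obtain ⟨j, rfl⟩ := h6
  refine ⟨g ^ j, ?_⟩
  rw [← hk, mul_comm, zpow_mul]
  norm_cast

/-- characters whose sixth power is principal depend on the residue modulo 9 only -/
theorem mod_nine {B : ℕ} (hB : 2 ≤ B) (χ : DirichletCharacter ℂ (3 ^ B)) (h6 : χ ^ 6 = 1)
    (a b : ℕ) (ha : ¬ 3 ∣ a) (hb : ¬ 3 ∣ b) (hab : a % 9 = b % 9) :
    χ (a : ZMod (3 ^ B)) = χ (b : ZMod (3 ^ B)) := by
  have hua : IsUnit (a : ZMod (3 ^ B)) := by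
    rw [ZMod.isUnit_iff_coprime]
    exact Nat.Coprime.pow_right _ ((Nat.Prime.coprime_iff_not_dvd Nat.prime_three).2 ha).symm
  have hub : IsUnit (b : ZMod (3 ^ B)) := by
    rw [ZMod.isUnit_iff_coprime]
    exact Nat.Coprime.pow_right _ ((Nat.Prime.coprime_iff_not_dvd Nat.prime_three).2 hb).symm
  obtain ⟨ua, hua'⟩ := hua
  obtain ⟨ub, hub'⟩ := hub
  have h9 : ∃ x : ZMod (3 ^ B), (a : ZMod (3 ^ B)) = b + 9 * x := by
    have h1 : (9 : ℤ) ∣ (a : ℤ) - b := by omega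
    obtain ⟨c, hc⟩ := h1
    refine ⟨(c : ZMod (3 ^ B)), ?_⟩
    have h2 : ((a : ℤ) : ZMod (3 ^ B)) = ((b + 9 * c : ℤ) : ZMod (3 ^ B)) := by
      congr 1
      linarith
    push_cast at h2
    exact h2
  obtain ⟨x, hx⟩ := h9
  have h3 : ((ua * ub⁻¹ : (ZMod (3 ^ B))ˣ) : ZMod (3 ^ B)) =
      1 + 9 * (x * ((ub⁻¹ : (ZMod (3 ^ B))ˣ) : ZMod (3 ^ B))) := by
    rw [Units.val_mul, hua', hx, ← hub', add_mul, Units.mul_inv]
    ring
  obtain ⟨v, hv⟩ := six_pow hB _ _ h3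
  have h4 : χ ((ua * ub⁻¹ : (ZMod (3 ^ B))ˣ) : ZMod (3 ^ B)) = 1 := by
    rw [← hv, Units.val_pow_eq_pow_val, map_pow, ← MulChar.pow_apply_coe, h6,
      MulChar.one_apply_coe]
  have h5 : (a : ZMod (3 ^ B)) = ((ua * ub⁻¹ : (ZMod (3 ^ B))ˣ) : ZMod (3 ^ B)) * b := by
    rw [← hub', ← hua', Units.val_mul, mul_assoc, Units.inv_mul, mul_one]
  rw [h5, map_mul, h4, one_mul]

/-- the residues modulo 9 prime to 3 -/
def T9 : Finset ℕ := {1, 2, 4, 5, 7, 8}

theorem sum_T9 {B : ℕ} (hB : 2 ≤ B) (χ : DirichletCharacter ℂ (3 ^ B)) (h6 : χ ^ 6 = 1)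
    (h1 : χ ≠ 1) : ∑ c ∈ T9, χ ((c : ℕ) : ZMod (3 ^ B)) = 0 := by
  -- a unit on which the character is not 1
  obtain ⟨z, hz⟩ : ∃ z : (ZMod (3 ^ B))ˣ, χ z ≠ 1 := by
    by_contra hcon
    push Not at hcon
    apply h1
    apply MulChar.ext
    intro u
    rw [hcon u, MulChar.one_apply_coe]
  set c0 : ℕ := (z : ZMod (3 ^ B)).val with hc0
  have hcz : ((c0 : ℕ) : ZMod (3 ^ B)) = z := by
    rw [hc0]
    exact ZMod.natCast_zmod_val _
  have hc3 : ¬ 3 ∣ c0 := by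
    intro h
    have hu : IsUnit ((c0 : ℕ) : ZMod (3 ^ B)) := by rw [hcz]; exact z.isUnit
    rw [ZMod.isUnit_iff_coprime] at hu
    have h3 : 3 ∣ 3 ^ B := dvd_pow_self 3 (by omega)
    have := Nat.Coprime.eq_one_of_dvd (Nat.Coprime.coprime_dvd_left h hu) h3
    omega
  set d : ℕ := c0 % 9 with hd
  have hdT : d ∈ T9 := by
    have h1 : d < 9 := Nat.mod_lt _ (by norm_num)
    have h2 : ¬ 3 ∣ d := by omega
    unfold T9
    simp only [mem_insert, mem_singleton]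
    omega
  have h3d : ¬ 3 ∣ d := by omega
  have hχd : χ ((d : ℕ) : ZMod (3 ^ B)) ≠ 1 := by
    rw [← mod_nine hB χ h6 c0 d hc3 h3d (by omega), hcz]
    exact hz
  have hperm : ∀ e ∈ T9, T9.image (fun c => c * e % 9) = T9 := by decide
  have hinj : ∀ e ∈ T9, Set.InjOn (fun c => c * e % 9) (T9 : Set ℕ) := by
    intro e he
    rw [← Finset.card_image_iff, hperm e he]
  have hT3 : ∀ c ∈ T9, ¬ 3 ∣ c := by decide
  have h2 : (∑ c ∈ T9, χ ((c : ℕ) : ZMod (3 ^ B))) * χ ((d : ℕ) : ZMod (3 ^ B)) =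
      ∑ c ∈ T9, χ ((c : ℕ) : ZMod (3 ^ B)) := by
    conv_rhs => rw [← hperm d hdT, Finset.sum_image (hinj d hdT)]
    rw [Finset.sum_mul]
    refine Finset.sum_congr rfl fun c hc => ?_
    rw [← map_mul, ← Nat.cast_mul]
    apply mod_nine hB χ h6
    · intro h
      rcases (Nat.Prime.dvd_mul Nat.prime_three).1 h with h | h
      · exact hT3 c hc h
      · exact h3d h
    · intro h
      have : 3 ∣ c * d := by omega
      rcases (Nat.Prime.dvd_mul Nat.prime_three).1 this with h | h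
      · exact hT3 c hc h
      · exact h3d h
    · omega
  have h3 : (∑ c ∈ T9, χ ((c : ℕ) : ZMod (3 ^ B))) * (χ ((d : ℕ) : ZMod (3 ^ B)) - 1) = 0 := by
    rw [mul_sub, h2, mul_one, sub_self]
  rcases mul_eq_zero.1 h3 with h | h
  · exact h
  · exact absurd (sub_eq_zero.1 h) hχd

/-- characters of small order -/
theorem low {B : ℕ} (hB : 2 ≤ B) (P : Finset ℕ) (hP : ∀ p ∈ P, ¬ 3 ∣ p) (L : ℝ)
    (hL : ∀ c ∈ T9, L ≤ ((P.filter fun p => p % 9 = c).card : ℝ))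
    (χ : DirichletCharacter ℂ (3 ^ B)) (h6 : χ ^ 6 = 1) (h1 : χ ≠ 1) :
    ‖SS P χ‖ ≤ P.card - 6 * L := by
  have hT3 : ∀ c ∈ T9, ¬ 3 ∣ c := by decide
  have hmaps : ∀ p ∈ P, p % 9 ∈ T9 := by
    intro p hp
    have h3 := hP p hp
    have h1 : p % 9 < 9 := Nat.mod_lt _ (by norm_num)
    unfold T9
    simp only [mem_insert, mem_singleton]
    omega
  have hS : SS P χ = ∑ c ∈ T9, χ ((c : ℕ) : ZMod (3 ^ B)) *
      (((P.filter fun p => p % 9 = c).card : ℝ) : ℂ) := by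
    unfold SS
    rw [← Finset.sum_fiberwise_of_maps_to hmaps]
    refine Finset.sum_congr rfl fun c hc => ?_
    have : ∀ p ∈ P.filter (fun p => p % 9 = c), χ ((p : ℕ) : ZMod (3 ^ B)) =
        χ ((c : ℕ) : ZMod (3 ^ B)) := by
      intro p hp
      rw [mem_filter] at hp
      apply mod_nine hB χ h6 p c (hP p hp.1) (hT3 c hc)
      rw [hp.2]
      have : c < 9 := by
        have hlt : ∀ c ∈ T9, c < 9 := by decide
        exact hlt c hc
      omega
    rw [Finset.sum_congr rfl this, Finset.sum_const, nsmul_eq_mul, mul_comm]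
    push_cast
    rfl
  have hS2 : SS P χ = ∑ c ∈ T9, χ ((c : ℕ) : ZMod (3 ^ B)) *
      ((((P.filter fun p => p % 9 = c).card : ℝ) - L : ℝ) : ℂ) := by
    have h0 := sum_T9 hB χ h6 h1
    rw [hS]
    push_cast
    simp only [mul_sub, Finset.sum_sub_distrib]
    rw [← Finset.sum_mul, h0, zero_mul, sub_zero]
  have hcard : (P.card : ℝ) = ∑ c ∈ T9, ((P.filter fun p => p % 9 = c).card : ℝ) := by
    have := Finset.card_eq_sum_card_fiberwise hmaps
    exact_mod_cast this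
  rw [hS2]
  refine (norm_sum_le _ _).trans ?_
  have h2 : ∀ c ∈ T9, ‖χ ((c : ℕ) : ZMod (3 ^ B)) *
      ((((P.filter fun p => p % 9 = c).card : ℝ) - L : ℝ) : ℂ)‖ ≤
      ((P.filter fun p => p % 9 = c).card : ℝ) - L := by
    intro c hc
    rw [norm_mul, Complex.norm_real, Real.norm_of_nonneg (by linarith [hL c hc])]
    have := χ.norm_le_one ((c : ℕ) : ZMod (3 ^ B))
    have h3 : 0 ≤ ((P.filter fun p => p % 9 = c).card : ℝ) - L := by linarith [hL c hc]
    nlinarith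
  refine (Finset.sum_le_sum h2).trans ?_
  rw [Finset.sum_sub_distrib, ← hcard, Finset.sum_const]
  have : T9.card = 6 := by decide
  rw [this]
  simp

theorem fin_num {e R2 a b S : ℝ} (he : 0 ≤ e) (hR2 : 0 < R2) (ha : 0 < a) (hb : 0 < b)
    (hS : S ≤ 4.9 + 4.9) (hK : e * 4.9 ≤ 1 / 2) :
    e * R2 * (1 / 2 * (a * b)) * S ≤ 1 / 2 * (a * (b * R2)) := by
  have h1 : 0 ≤ e * R2 * (1 / 2 * (a * b)) := by positivity
  have h2 : e * R2 * (1 / 2 * (a * b)) * S ≤ e * R2 * (1 / 2 * (a * b)) * (4.9 + 4.9) :=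
    mul_le_mul_of_nonneg_left hS h1
  have h3 : e * R2 * (1 / 2 * (a * b)) * (4.9 + 4.9) = (e * 4.9) * (a * (b * R2)) := by ring
  have h4 : (e * 4.9) * (a * (b * R2)) ≤ 1 / 2 * (a * (b * R2)) :=
    mul_le_mul_of_nonneg_right hK (by positivity)
  linarith

theorem pt_num {e R2 x y z a b : ℝ} (hx0 : 0 ≤ x) (hy0 : 0 ≤ y) (hz0 : 0 ≤ z) (ha : 0 < a)
    (hb : 0 < b) (hz : z ≤ e * R2) :
    x * (y * z) ≤ e * R2 * (1 / 2 * (a * b)) * (x ^ 2 / a ^ 2 + y ^ 2 / b ^ 2) := by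
  have h3 : x * y ≤ 1 / 2 * (a * b) * (x ^ 2 / a ^ 2 + y ^ 2 / b ^ 2) := by
    have h4 : 0 ≤ (x / a - y / b) ^ 2 := sq_nonneg _
    have h5 : x * y = a * b * ((x / a) * (y / b)) := by field_simp
    have h6 : x ^ 2 / a ^ 2 = (x / a) ^ 2 := by rw [div_pow]
    have h7 : y ^ 2 / b ^ 2 = (y / b) ^ 2 := by rw [div_pow]
    rw [h5, h6, h7]
    have h8 : (x / a) * (y / b) ≤ 1 / 2 * ((x / a) ^ 2 + (y / b) ^ 2) := by nlinarith
    have h9 : 0 < a * b := by positivity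
    nlinarith
  calc x * (y * z) = (x * y) * z := by ring
    _ ≤ (1 / 2 * (a * b) * (x ^ 2 / a ^ 2 + y ^ 2 / b ^ 2)) * (e * R2) := by
        apply mul_le_mul h3 hz hz0
        positivity
    _ = _ := by ring

/-- **products in classes** -/
theorem products {q : ℕ} [NeZero q] (K : ℕ) (hK : (0.99 : ℝ) ^ K * 4.9 ≤ 1 / 2)
    (P : Fin (K + 2) → Finset ℕ) (hP : ∀ i, ∀ p ∈ P i, IsUnit (p : ZMod q))
    (hne : ∀ i, 0 < (P i).card)
    (hC : ∀ i, ∑ χ : DirichletCharacter ℂ q, ‖SS (P i) χ‖ ^ 2 ≤ 4.9 * ((P i).card : ℝ) ^ 2)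
    (hS : ∀ i, ∀ χ : DirichletCharacter ℂ q, χ ≠ 1 → ‖SS (P i) χ‖ ≤ 0.99 * (P i).card)
    (a : ZMod q) (ha : IsUnit a) :
    1 / 2 * ∏ i, ((P i).card : ℝ) ≤ (q.totient : ℝ) *
      (((Fintype.piFinset P).filter fun v => ((∏ i, v i : ℕ) : ZMod q) = a).card : ℝ) := by
  classical
  -- the identity
  have hid : (((q.totient : ℝ) *
      (((Fintype.piFinset P).filter fun v => ((∏ i, v i : ℕ) : ZMod q) = a).card : ℝ) : ℝ) : ℂ) =
      ∑ χ : DirichletCharacter ℂ q, χ a⁻¹ * ∏ i, SS (P i) χ := by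
    have h1 : ∀ χ : DirichletCharacter ℂ q, ∏ i, SS (P i) χ =
        ∑ v ∈ Fintype.piFinset P, χ ((∏ i, v i : ℕ) : ZMod q) := by
      intro χ
      unfold SS
      rw [Finset.prod_univ_sum]
      refine Finset.sum_congr rfl fun v _ => ?_
      push_cast
      rw [map_prod]
    simp_rw [h1, Finset.mul_sum]
    rw [Finset.sum_comm, Finset.card_filter]
    push_cast
    rw [Finset.mul_sum]
    refine Finset.sum_congr rfl fun v _ => ?_
    have h2 := DirichletCharacter.sum_char_inv_mul_char_eq ℂ ha (((∏ i, v i : ℕ)) : ZMod q)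
    push_cast at h2
    rw [h2]
    by_cases h : (∏ i, ((v i : ℕ) : ZMod q)) = a
    · rw [if_pos h, if_pos h.symm]
      simp
    · rw [if_neg h, if_neg (Ne.symm h)]
      simp
  -- the principal character
  have hone : ∀ i, SS (P i) (1 : DirichletCharacter ℂ q) = ((P i).card : ℂ) := by
    intro i
    unfold SS
    rw [Finset.sum_congr rfl (g := fun _ => (1 : ℂ))]
    · simp
    · intro p hp
      obtain ⟨u, hu⟩ := hP i p hp
      rw [← hu, MulChar.one_apply_coe]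
  have hainv : IsUnit a⁻¹ := by
    have h1 : a⁻¹ * a = 1 := ZMod.inv_mul_of_unit a ha
    exact IsUnit.of_mul_eq_one a h1
  set R : ℝ := ∏ i, ((P i).card : ℝ) with hR
  have hcard0 : ∀ i, (0 : ℝ) < (P i).card := fun i => by exact_mod_cast hne i
  have hR0 : 0 < R := Finset.prod_pos fun i _ => hcard0 i
  have hmain : (1 : DirichletCharacter ℂ q) a⁻¹ * ∏ i, SS (P i) (1 : DirichletCharacter ℂ q) =
      (R : ℂ) := by
    obtain ⟨u, hu⟩ := hainv
    rw [← hu, MulChar.one_apply_coe, one_mul, Finset.prod_congr rfl (fun i _ => hone i), hR]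
    push_cast
    rfl
  have herr : ‖∑ χ ∈ (univ : Finset (DirichletCharacter ℂ q)).erase 1,
      χ a⁻¹ * ∏ i, SS (P i) χ‖ ≤ 1 / 2 * R := by
    refine (norm_sum_le _ _).trans ?_
    set R2 : ℝ := ∏ i : Fin K, ((P i.succ.succ).card : ℝ) with hR2
    have hR20 : 0 < R2 := Finset.prod_pos fun i _ => hcard0 _
    have hRR : R = (P 0).card * ((P 1).card * R2) := by
      rw [hR, Fin.prod_univ_succ, Fin.prod_univ_succ]
      rfl
    have h1 : ∀ χ ∈ (univ : Finset (DirichletCharacter ℂ q)).erase 1,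
        ‖χ a⁻¹ * ∏ i, SS (P i) χ‖ ≤ (0.99 : ℝ) ^ K * R2 * (1 / 2 * ((P 0).card * (P 1).card)) *
          (‖SS (P 0) χ‖ ^ 2 / ((P 0).card : ℝ) ^ 2 + ‖SS (P 1) χ‖ ^ 2 / ((P 1).card : ℝ) ^ 2) := by
      intro χ hχ
      have hχ1 : χ ≠ 1 := (Finset.mem_erase.1 hχ).1
      rw [norm_mul, norm_unit χ hainv, one_mul, norm_prod, Fin.prod_univ_succ,
        Fin.prod_univ_succ]
      have h2 : ∏ i : Fin K, ‖SS (P i.succ.succ) χ‖ ≤ (0.99 : ℝ) ^ K * R2 := by
        calc ∏ i : Fin K, ‖SS (P i.succ.succ) χ‖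
            ≤ ∏ i : Fin K, (0.99 * ((P i.succ.succ).card : ℝ)) :=
              Finset.prod_le_prod (fun _ _ => norm_nonneg _) (fun i _ => hS _ χ hχ1)
          _ = (0.99 : ℝ) ^ K * R2 := by
              rw [Finset.prod_mul_distrib, Finset.prod_const, Finset.card_univ, Fintype.card_fin]
      exact pt_num (norm_nonneg _) (norm_nonneg _) (Finset.prod_nonneg fun _ _ => norm_nonneg _)
        (hcard0 0) (hcard0 1) h2
    refine (Finset.sum_le_sum h1).trans ?_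
    rw [← Finset.mul_sum]
    have h2 : ∑ χ ∈ (univ : Finset (DirichletCharacter ℂ q)).erase 1,
        (‖SS (P 0) χ‖ ^ 2 / ((P 0).card : ℝ) ^ 2 + ‖SS (P 1) χ‖ ^ 2 / ((P 1).card : ℝ) ^ 2) ≤
        4.9 + 4.9 := by
      refine (Finset.sum_le_sum_of_subset_of_nonneg (Finset.erase_subset _ _)
        (fun _ _ _ => by positivity)).trans ?_
      rw [Finset.sum_add_distrib, ← Finset.sum_div, ← Finset.sum_div]
      apply add_le_add
      · rw [div_le_iff₀ (by have := hcard0 0; positivity)]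
        exact hC 0
      · rw [div_le_iff₀ (by have := hcard0 1; positivity)]
        exact hC 1
    rw [hRR]
    exact fin_num (by positivity) hR20 (hcard0 0) (hcard0 1) h2 hK
  have hsplit := Finset.add_sum_erase (univ : Finset (DirichletCharacter ℂ q))
    (fun χ => χ a⁻¹ * ∏ i, SS (P i) χ) (Finset.mem_univ (1 : DirichletCharacter ℂ q))
  rw [← hsplit, hmain] at hid
  set E := ∑ χ ∈ (univ : Finset (DirichletCharacter ℂ q)).erase 1,
      χ a⁻¹ * ∏ i, SS (P i) χ with hE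
  have hre := congrArg Complex.re hid
  rw [Complex.ofReal_re, Complex.add_re, Complex.ofReal_re] at hre
  have h4 : -(1 / 2 * R) ≤ E.re := by
    have h5 := Complex.abs_re_le_norm E
    have h6 := (abs_le.1 (h5.trans herr)).1
    exact h6
  rw [hre]
  linarith

end Pool.Agent.D0H88.PT.Chr
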