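import Pool.Agent.D0H88.PT.Main

set_option autoImplicit false

/-! From the parameter `y` to `x`. -/

namespace Pool.Agent.D0H88.PT

open Finset Pool.Agent.H307R2.OP

theorem patCount_mono (b0 ρ H : ℕ) {a b : ℕ} (hab : a ≤ b) :
    patCount b0 ρ H a ≤ patCount b0 ρ H b := by
  unfold patCount
  apply Finset.card_le_card
  apply Finset.filter_subset_filter
  exact Finset.range_subset_range.2 (by omega)

theorem fin_three {D y : ℕ} (hD : 1 ≤ D) (hy : 4 * D ≤ y) :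
    ((y : ℝ) + 1) ^ D ≤ 3 / 2 * (y : ℝ) ^ D := by
  have hy0 : (0 : ℝ) < y := by exact_mod_cast (by omega : 0 < y)
  have h1 : (y : ℝ) + 1 = y * (1 / y + 1) := by field_simp; ring
  rw [h1, mul_pow, mul_comm]
  refine mul_le_mul_of_nonneg_right ?_ (by positivity)
  have h2 : (1 / (y : ℝ) + 1) ^ D ≤ (Real.exp (1 / y)) ^ D :=
    pow_le_pow_left₀ (by positivity) (Real.add_one_le_exp _) _
  refine h2.trans ?_
  rw [← Real.exp_nat_mul]
  have h3 : (D : ℝ) * (1 / y) ≤ 1 / 4 := by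
    have h4 : (4 : ℝ) * D ≤ y := by exact_mod_cast hy
    rw [mul_one_div, div_le_div_iff₀ hy0 (by norm_num)]
    linarith
  have h5 : Real.exp (1 / 4) ≤ 3 / 2 := by
    have h6 : Real.exp (1 / 4) ^ 4 = Real.exp 1 := by
      rw [← Real.exp_nat_mul]; norm_num
    have h7 := Real.exp_one_lt_d9
    by_contra hcon
    push Not at hcon
    have h8 : (3 / 2 : ℝ) ^ 4 < Real.exp (1 / 4) ^ 4 := pow_lt_pow_left₀ hcon (by norm_num) (by norm_num)
    rw [h6] at h8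
    norm_num at h8
    linarith
  exact (Real.exp_le_exp.2 h3).trans h5

theorem xx_def (τ I : ℕ) : xx τ I = 3 ^ τ * (2 ^ I * 2 ^ (302 * (I / 10000) + 45753)) := rfl

theorem xx_lower (τ I : ℕ) : 2 ^ I ≤ xx τ I := by
  unfold xx
  have h1 : 1 ≤ 3 ^ τ := Nat.one_le_pow _ _ (by norm_num)
  have h2 : 1 ≤ 2 ^ (302 * (I / 10000) + 45753) := Nat.one_le_two_pow
  calc 2 ^ I = 1 * (2 ^ I * 1) := by ring
    _ ≤ _ := Nat.mul_le_mul h1 (Nat.mul_le_mul_left _ h2)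

theorem xx_mono (τ : ℕ) {I J : ℕ} (h : I ≤ J) : xx τ I ≤ xx τ J := by
  unfold xx
  apply Nat.mul_le_mul_left
  apply Nat.mul_le_mul
  · exact Nat.pow_le_pow_right (by norm_num) h
  · apply Nat.pow_le_pow_right (by norm_num)
    have := Nat.div_le_div_right (c := 10000) h
    omega

theorem xx_succ (τ I : ℕ) : xx τ (I + 1) ≤ 2 ^ 303 * xx τ I := by
  unfold xx
  have h1 : (I + 1) / 10000 ≤ I / 10000 + 1 := by omega
  obtain ⟨m, hm⟩ : ∃ m, m = I / 10000 := ⟨_, rfl⟩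
  obtain ⟨m', hm'⟩ : ∃ m', m' = (I + 1) / 10000 := ⟨_, rfl⟩
  rw [← hm, ← hm'] at h1
  rw [← hm, ← hm']
  have h2 : 2 ^ (302 * m' + 45753) ≤ 2 ^ 302 * 2 ^ (302 * m + 45753) := by
    rw [← pow_add]
    apply Nat.pow_le_pow_right (by norm_num)
    omega
  calc 3 ^ τ * (2 ^ (I + 1) * 2 ^ (302 * m' + 45753))
      ≤ 3 ^ τ * (2 ^ (I + 1) * (2 ^ 302 * 2 ^ (302 * m + 45753))) := by
        gcongr
    _ = 2 ^ 303 * (3 ^ τ * (2 ^ I * 2 ^ (302 * m + 45753))) := by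
        rw [pow_succ 2 I, pow_succ 2 302]
        ring

/-- the logarithm of the range -/
theorem log_xx (τ : ℕ) : ∃ I0 : ℕ, ∀ I : ℕ, I0 ≤ I → Real.log (xx τ (I + 1)) ≤ 2 * I := by
  refine ⟨3 * τ + 100000, fun I hI => ?_⟩
  obtain ⟨n, hn⟩ : ∃ n, n = 2 * τ + ((I + 1) + (302 * ((I + 1) / 10000) + 45753)) := ⟨_, rfl⟩
  have h1 : xx τ (I + 1) ≤ 2 ^ n := by
    rw [hn]
    unfold xx
    rw [pow_add 2 (2 * τ), pow_add 2 (I + 1)]
    exact Nat.mul_le_mul_right _ (three_le_two _ _ le_rfl)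
  have h2 : n ≤ 2 * I := by omega
  have h3 : (0 : ℝ) < (xx τ (I + 1) : ℝ) := by
    have := xx_lower τ (I + 1)
    have h4 : 0 < 2 ^ (I + 1) := by positivity
    exact_mod_cast (by omega : 0 < xx τ (I + 1))
  calc Real.log (xx τ (I + 1)) ≤ Real.log ((2 : ℝ) ^ n) :=
        Real.log_le_log h3 (by exact_mod_cast h1)
    _ = n * Real.log 2 := by rw [Real.log_pow]
    _ ≤ n * 1 := by
        apply mul_le_mul_of_nonneg_left _ (Nat.cast_nonneg _)
        linarith [Real.log_two_lt_d9]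
    _ ≤ 2 * I := by
        rw [mul_one]
        exact_mod_cast h2

theorem fin_real (M D y : ℕ) (ε δ X C3 L sx sxx : ℝ) (hDr : (D : ℝ) = 2 * M + 4)
    (hD0 : (0 : ℝ) < D) (hδ : δ = 7 / D) (hδpos : 0 < δ) (hδ1 : δ < 1) (hδε : δ < ε)
    (hC30 : 0 < C3) (hX : X = (4 * C3) ^ (1 / (ε - δ))) (hX0 : 0 < X) (hLX : X ≤ L)
    (hy0' : (0 : ℝ) < y) (hyL : L / 4 ≤ (y : ℝ) ^ D) (hs0 : 0 ≤ sxx) (hsqrt : sx ≤ C3 * sxx) :
    sx * L ^ (1 - ε) ≤ sxx * (y : ℝ) ^ (2 * (M : ℤ) - 3) := by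
  have hL0 : 0 < L := by linarith
  have hpow : (L / 4) ^ (1 - δ) ≤ (y : ℝ) ^ (2 * (M : ℤ) - 3) := by
    have h1 : (y : ℝ) ^ (2 * (M : ℤ) - 3) = ((y : ℝ) ^ D) ^ (1 - δ) := by
      rw [← Real.rpow_natCast (y : ℝ) D, ← Real.rpow_mul hy0'.le, ← Real.rpow_intCast]
      congr 1
      rw [hδ]
      push_cast
      field_simp
      rw [hDr]
      ring
    rw [h1]
    exact Real.rpow_le_rpow (by positivity) hyL (by linarith)
  have hL8 : 4 * C3 * L ^ (1 - ε) ≤ L ^ (1 - δ) := by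
    have h1 : L ^ (1 - δ) = L ^ (ε - δ) * L ^ (1 - ε) := by
      rw [← Real.rpow_add hL0]; congr 1; ring
    rw [h1]
    refine mul_le_mul_of_nonneg_right ?_ (by positivity)
    have h2 : X ^ (ε - δ) = 4 * C3 := by
      rw [hX, ← Real.rpow_mul (by positivity)]
      have : 1 / (ε - δ) * (ε - δ) = 1 := by
        have : ε - δ ≠ 0 := by linarith
        field_simp
      rw [this, Real.rpow_one]
    rw [← h2]
    exact Real.rpow_le_rpow hX0.le hLX (by linarith)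
  have h4 : L ^ (1 - δ) ≤ 4 * (L / 4) ^ (1 - δ) := by
    rw [Real.div_rpow hL0.le (by norm_num)]
    have h5 : (4 : ℝ) ^ (1 - δ) ≤ 4 := by
      calc (4 : ℝ) ^ (1 - δ) ≤ (4 : ℝ) ^ (1 : ℝ) :=
            Real.rpow_le_rpow_of_exponent_le (by norm_num) (by linarith)
        _ = 4 := Real.rpow_one 4
    have h6 : (0 : ℝ) < (4 : ℝ) ^ (1 - δ) := by positivity
    have h7 : (0 : ℝ) < L ^ (1 - δ) := by positivity
    rw [← mul_div_assoc, le_div_iff₀ h6]
    nlinarith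
  have h8 : C3 * L ^ (1 - ε) ≤ (L / 4) ^ (1 - δ) := by linarith
  calc sx * L ^ (1 - ε) ≤ C3 * sxx * L ^ (1 - ε) := by gcongr
    _ = sxx * (C3 * L ^ (1 - ε)) := by ring
    _ ≤ sxx * (L / 4) ^ (1 - δ) := by gcongr
    _ ≤ sxx * (y : ℝ) ^ (2 * (M : ℤ) - 3) := by gcongr

/-- **the lower bound for the pattern of two terms** -/
theorem finalPat (b0 ρ : ℕ) (hρ : ρ < 2 ^ b0) (τ H1 : ℕ) (hτ : τ % 2 = 0) (hH1 : ¬ 3 ∣ H1) :
    ∀ ε : ℝ, 0 < ε → ∃ x0 : ℕ, ∀ x : ℕ, x0 ≤ x →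
    Real.sqrt x * Real.log x ^ (1 - ε) ≤ (patCount b0 ρ (3 ^ τ * H1) x : ℝ) := by
  intro ε hε
  -- choice of M
  obtain ⟨n0, hn0⟩ := exists_nat_gt (7 / ε)
  set M : ℕ := max 2 n0 with hM
  have hM2 : 2 ≤ M := le_max_left _ _
  have hMn : (n0 : ℝ) ≤ M := by exact_mod_cast le_max_right 2 n0
  set D : ℕ := 2 * M + 4 with hD
  have hDr : (D : ℝ) = 2 * M + 4 := by rw [hD]; push_cast; ring
  have hD0 : (0 : ℝ) < D := by rw [hDr]; positivity
  have hD7 : (7 : ℝ) < D := by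
    have : (2 : ℝ) ≤ M := by exact_mod_cast hM2
    rw [hDr]; linarith
  set δ : ℝ := 7 / D with hδ
  have hδpos : 0 < δ := by rw [hδ]; positivity
  have hδ1 : δ < 1 := by rw [hδ, div_lt_one hD0]; exact hD7
  have hδε : δ < ε := by
    rw [hδ, div_lt_iff₀ hD0]
    have h1 : 7 < M * ε := by
      rw [← div_lt_iff₀ hε]; linarith
    have hM0 : (0 : ℝ) ≤ M := Nat.cast_nonneg _
    rw [hDr]
    nlinarith
  obtain ⟨y0, hy0⟩ := mainPat b0 ρ hρ τ H1 hτ hH1 M (by omega)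
  obtain ⟨I0, hI0⟩ := log_xx τ
  obtain ⟨C3, hC3⟩ : ∃ C3 : ℝ, C3 = Real.sqrt (2 ^ 303) := ⟨_, rfl⟩
  have hC30 : 0 < C3 := by rw [hC3]; exact Real.sqrt_pos.2 (pow_pos (by norm_num) _)
  set B : ℕ := max (max (y0 ^ D) ((4 * D) ^ D)) (max 2 I0) with hB
  set X : ℝ := (4 * C3) ^ (1 / (ε - δ)) with hX
  have hX0 : 0 < X := by rw [hX]; positivity
  refine ⟨max (xx τ B) (⌈Real.exp X⌉₊ + 2), fun x hx => ?_⟩
  have hx1 : xx τ B ≤ x := (le_max_left _ _).trans hx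
  have hx2' : ⌈Real.exp X⌉₊ + 2 ≤ x := (le_max_right _ _).trans hx
  have hx2 : Real.exp X ≤ x := by
    have h1 := Nat.le_ceil (Real.exp X)
    have h2 : ((⌈Real.exp X⌉₊ : ℕ) : ℝ) ≤ x := by exact_mod_cast (by omega)
    linarith
  have hxpos : 0 < x := by omega
  have hxpos' : (0 : ℝ) < x := by exact_mod_cast hxpos
  set I : ℕ := Nat.findGreatest (fun I => xx τ I ≤ x) x with hI
  have hbd : ∀ J : ℕ, xx τ J ≤ x → J ≤ x := by
    intro J hJ
    have h1 := xx_lower τ J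
    have h2 : J < 2 ^ J := Nat.lt_two_pow_self
    omega
  have hgeI : ∀ J : ℕ, xx τ J ≤ x → J ≤ I := fun J hJ => Nat.le_findGreatest (hbd J hJ) hJ
  have hIB : B ≤ I := hgeI B hx1
  have hxI : xx τ I ≤ x :=
    Nat.findGreatest_spec (P := fun I => xx τ I ≤ x) (m := B) (hbd B hx1) hx1
  have hxI' : x < xx τ (I + 1) := by
    by_contra hcon
    push Not at hcon
    have := hgeI _ hcon
    omega
  have hI2 : 2 ≤ I := ((le_max_left _ _).trans (le_max_right _ _)).trans hIB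
  have hII0 : I0 ≤ I := ((le_max_right _ _).trans (le_max_right _ _)).trans hIB
  have hIy0 : y0 ^ D ≤ I := ((le_max_left _ _).trans (le_max_left _ _)).trans hIB
  have hID : (4 * D) ^ D ≤ I := ((le_max_right _ _).trans (le_max_left _ _)).trans hIB
  -- choice of y
  set y : ℕ := Nat.findGreatest (fun y => y ^ D ≤ I) I with hy
  have hD1 : D ≠ 0 := by omega
  have hyD : y ^ D ≤ I :=
    Nat.findGreatest_spec (P := fun y => y ^ D ≤ I) (m := 0) (Nat.zero_le _)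
      (by simp [hD1])
  have hge : ∀ z : ℕ, z ^ D ≤ I → z ≤ y := by
    intro z hz
    refine Nat.le_findGreatest ?_ hz
    exact (Nat.le_self_pow hD1 z).trans hz
  have hyy0 : y0 ≤ y := hge _ hIy0
  have hy2D : 4 * D ≤ y := hge _ hID
  have hlt : I < (y + 1) ^ D := by
    by_contra hcon
    push Not at hcon
    have := hge _ hcon
    omega
  have hI2y : 2 * I ≤ 3 * y ^ D := by
    have h1 : (I : ℝ) < ((y : ℝ) + 1) ^ D := by exact_mod_cast hlt
    have h2 := fin_three (D := D) (y := y) (by omega) hy2D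
    have h3 : 2 * (I : ℝ) ≤ 3 * (y : ℝ) ^ D := by linarith
    exact_mod_cast h3
  have hI8 : I + I / 8 ≤ 2 * y ^ D := by omega
  have hmain := hy0 y hyy0 I hyD hI8
  have hmono : (patCount b0 ρ (3 ^ τ * H1) (xx τ I) : ℝ) ≤ patCount b0 ρ (3 ^ τ * H1) x := by
    exact_mod_cast patCount_mono _ _ _ hxI
  refine le_trans ?_ (hmain.trans hmono)
  -- real estimates
  have hsqrt : Real.sqrt x ≤ C3 * Real.sqrt (xx τ I) := by
    rw [hC3, ← Real.sqrt_mul (by positivity)]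
    apply Real.sqrt_le_sqrt
    have h1 := hxI'.le.trans (xx_succ τ I)
    exact_mod_cast h1
  clear hC3
  set L : ℝ := Real.log x with hL
  have hLX : X ≤ L := by
    rw [hL]
    have := Real.log_le_log (Real.exp_pos X) hx2
    rwa [Real.log_exp] at this
  have hL0 : 0 < L := by linarith
  have hLI : L ≤ 2 * I := by
    refine le_trans ?_ (hI0 I hII0)
    rw [hL]
    refine Real.log_le_log hxpos' ?_
    exact_mod_cast hxI'.le
  have hyL : L / 4 ≤ (y : ℝ) ^ D := by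
    have h1 : 2 * (I : ℝ) ≤ 3 * (y : ℝ) ^ D := by exact_mod_cast hI2y
    have h2 : (0 : ℝ) ≤ (y : ℝ) ^ D := pow_nonneg (Nat.cast_nonneg _) _
    linarith
  have hy0' : (0 : ℝ) < y := by exact_mod_cast (by omega : 0 < y)
  exact fin_real M D y ε δ X C3 L _ _ hDr hD0 hδ hδpos hδ1 hδε hC30 hX hX0 hLX hy0' hyL
    (Real.sqrt_nonneg _) hsqrt

end Pool.Agent.D0H88.PT
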