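import Pool.Agent.D0H88.PT.Red
import Pool.Agent.R836.PP.Trans

set_option autoImplicit false

/-! From patterns of two terms to all linear patterns and to parity changes. -/

namespace Pool.Agent.D0H88.PT

open Finset

/-- the lower bound for a counting function -/
def Big (P : ℕ → ℕ) : Prop := ∀ ε : ℝ, 0 < ε → ∃ x0 : ℕ, ∀ x : ℕ, x0 ≤ x →
  Real.sqrt x * Real.log x ^ (1 - ε) ≤ (P x : ℝ)

theorem red_real (P Z : ℕ → ℕ) (K1 K2 : ℕ) (hK2 : 1 ≤ K2) (hPZ : ∀ x, P x ≤ K1 + K2 * Z x)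
    (hP : Big P) : Big Z := by
  intro ε hε
  set ε' : ℝ := min ε 1 with hε'
  have hε'0 : 0 < ε' := lt_min hε one_pos
  have hε'1 : ε' ≤ 1 := min_le_right _ _
  have hε'ε : ε' ≤ ε := min_le_left _ _
  obtain ⟨x0, hx0⟩ := hP (ε' / 2) (by positivity)
  obtain ⟨Kc, hKc⟩ : ∃ Kc : ℝ, Kc = (K1 : ℝ) + K2 + 1 := ⟨_, rfl⟩
  have hKc0 : 0 < Kc := by rw [hKc]; positivity
  set X : ℝ := max 1 (Kc ^ (2 / ε')) with hX
  have hX1 : 1 ≤ X := le_max_left _ _
  refine ⟨max x0 (⌈Real.exp X⌉₊ + 2), fun x hx => ?_⟩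
  have hx1 : x0 ≤ x := (le_max_left _ _).trans hx
  have hx2 : ⌈Real.exp X⌉₊ + 2 ≤ x := (le_max_right _ _).trans hx
  have hx3 : Real.exp X ≤ x := by
    have h1 := Nat.le_ceil (Real.exp X)
    have h2 : ((⌈Real.exp X⌉₊ : ℕ) : ℝ) ≤ x := by exact_mod_cast (by omega)
    linarith
  set L : ℝ := Real.log x with hL
  have hLX : X ≤ L := by
    rw [hL]
    have := Real.log_le_log (Real.exp_pos X) hx3
    rwa [Real.log_exp] at this
  have hL1 : 1 ≤ L := hX1.trans hLX
  have hL0 : 0 < L := by linarith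
  have hx4 : (1 : ℝ) ≤ x := by exact_mod_cast (by omega : 1 ≤ x)
  have hs1 : 1 ≤ Real.sqrt x := Real.one_le_sqrt.2 hx4
  set A : ℝ := Real.sqrt x * L ^ (1 - ε') with hA
  have hA1 : 1 ≤ A := by
    have h1 : 1 ≤ L ^ (1 - ε') := Real.one_le_rpow hL1 (by linarith)
    rw [hA]
    nlinarith
  have hpow : Kc ≤ L ^ (ε' / 2) := by
    have h1 : Kc ^ (2 / ε') ≤ L := (le_max_right _ _).trans hLX
    have h2 : (Kc ^ (2 / ε')) ^ (ε' / 2) ≤ L ^ (ε' / 2) :=
      Real.rpow_le_rpow (by positivity) h1 (by positivity)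
    rw [← Real.rpow_mul hKc0.le] at h2
    have h3 : 2 / ε' * (ε' / 2) = 1 := by field_simp
    rwa [h3, Real.rpow_one] at h2
  have h1 := hx0 x hx1
  have h2 : Kc * A ≤ (P x : ℝ) := by
    refine le_trans ?_ h1
    have h3 : L ^ (1 - ε' / 2) = L ^ (1 - ε') * L ^ (ε' / 2) := by
      rw [← Real.rpow_add hL0]
      congr 1
      ring
    rw [h3, hA]
    have h4 : 0 ≤ Real.sqrt x * L ^ (1 - ε') := by positivity
    nlinarith
  have h3 : (P x : ℝ) ≤ K1 + K2 * Z x := by exact_mod_cast hPZ x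
  have hK2R : (1 : ℝ) ≤ K2 := by exact_mod_cast hK2
  have hK1R : (0 : ℝ) ≤ K1 := Nat.cast_nonneg _
  have h4 : (K2 : ℝ) * A ≤ K2 * Z x := by
    rw [hKc] at h2
    nlinarith
  have h5 : A ≤ Z x := le_of_mul_le_mul_left h4 (by linarith)
  refine le_trans ?_ h5
  rw [hA]
  apply mul_le_mul_of_nonneg_left _ (Real.sqrt_nonneg _)
  exact Real.rpow_le_rpow_of_exponent_le hL1 (by linarith)

/-- all linear patterns -/
theorem all_patterns (a : ℕ → ZMod 2)
    (h : ∀ τ H1 : ℕ, τ % 2 = 0 → ¬ 3 ∣ H1 →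
      Big (fun x => ((range (x + 1)).filter (fun n => a n + a (n + 3 ^ τ * H1) = 1)).card))
    (L : ℕ) (c : Fin (L + 1) → ZMod 2) (hc : c ≠ 0) :
    Big (fun x => ((range (x + 1)).filter
      (fun n => ∑ i : Fin (L + 1), c i * a (n + i) = 1)).card) := by
  obtain ⟨k, τ, H1, G, hτ, hH1, hred⟩ := red_seq L c hc
  exact red_real _ _ (k + G) (G + 1) (by omega)
    (fun x => red_count a (fun n => ∑ i : Fin (L + 1), c i * a (n + i)) k (3 ^ τ * H1) G
      (fun n hn => hred a n hn) x) (h τ H1 hτ hH1)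

/-- parity changes in both directions -/
theorem changes (a : ℕ → ZMod 2)
    (h : ∀ τ H1 : ℕ, τ % 2 = 0 → ¬ 3 ∣ H1 →
      Big (fun x => ((range (x + 1)).filter (fun n => a n + a (n + 3 ^ τ * H1) = 1)).card))
    (l : ℕ) (hl : 0 < l) :
    Big (fun x => ((range (x + 1)).filter (fun n => a n = 0 ∧ a (n + l) = 1)).card) ∧
    Big (fun x => ((range (x + 1)).filter (fun n => a n = 1 ∧ a (n + l) = 0)).card) := by
  classical
  set c : Fin (l + 1) → ZMod 2 := Pi.single 0 1 + Pi.single (Fin.last l) 1 with hc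
  have h0 : (0 : Fin (l + 1)) ≠ Fin.last l := by
    intro h'
    have := congrArg Fin.val h'
    simp at this
    omega
  have hc0 : c ≠ 0 := by
    intro h1
    have h2 := congrFun h1 0
    rw [hc, Pi.add_apply, Pi.single_eq_same, Pi.single_eq_of_ne h0] at h2
    simp at h2
  have hP := all_patterns a h l c hc0
  have hsum : ∀ n, ∑ i : Fin (l + 1), c i * a (n + i) = a n + a (n + l) := by
    intro n
    rw [hc]
    simp only [Pi.add_apply, add_mul, Finset.sum_add_distrib]
    congr 1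
    · rw [Finset.sum_eq_single 0]
      · simp
      · intro i _ hi
        rw [Pi.single_eq_of_ne hi, zero_mul]
      · intro h1
        exact absurd (Finset.mem_univ _) h1
    · rw [Finset.sum_eq_single (Fin.last l)]
      · simp
      · intro i _ hi
        rw [Pi.single_eq_of_ne hi, zero_mul]
      · intro h1
        exact absurd (Finset.mem_univ _) h1
  set U : ℕ → ℕ := fun x => ((range (x + 1)).filter (fun n => a n = 0 ∧ a (n + l) = 1)).card
    with hU
  set D : ℕ → ℕ := fun x => ((range (x + 1)).filter (fun n => a n = 1 ∧ a (n + l) = 0)).card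
    with hD
  have hP2 : ∀ x, ((range (x + 1)).filter
      (fun n => ∑ i : Fin (l + 1), c i * a (n + i) = 1)).card = U x + D x := by
    intro x
    rw [hU, hD]
    simp only
    rw [← Finset.card_union_of_disjoint]
    · congr 1
      ext n
      rw [mem_filter, mem_union, mem_filter, mem_filter, hsum, ← and_or_left]
      have : ∀ s t : ZMod 2, s + t = 1 ↔ (s = 0 ∧ t = 1 ∨ s = 1 ∧ t = 0) := by decide
      rw [this]
    · rw [Finset.disjoint_left]
      intro n h1 h2
      rw [mem_filter] at h1 h2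
      have h3 := h1.2.1
      rw [h2.2.1] at h3
      exact one_ne_zero h3
  have hud : ∀ x, |(U x : ℤ) - D x| ≤ l := fun x =>
    Pool.Agent.R836.PP.updown a (x + 1) l
  constructor
  · refine red_real _ U l 2 (by norm_num) (fun x => ?_) hP
    rw [hP2]
    have := abs_le.1 (hud x)
    omega
  · refine red_real _ D l 2 (by norm_num) (fun x => ?_) hP
    rw [hP2]
    have := abs_le.1 (hud x)
    omega

end Pool.Agent.D0H88.PT
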