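import Pool.Agent.D0H88.PT.Fin
import Pool.Agent.D0H88.PT.Fin2

set_option autoImplicit false

/-! Linear patterns along progressions modulo powers of 2. -/

namespace Pool.Agent.D0H88.PT

open Finset

theorem big_shift (P Q : ℕ → ℕ) (f : ℕ → ℕ) (hf : ∀ x, x ≤ f x) (h : ∀ x, P (f x) ≤ Q x)
    (hP : Big P) : Big Q := by
  intro ε hε
  set ε' : ℝ := min ε 1 with hε'
  have hε'0 : 0 < ε' := lt_min hε one_pos
  have hε'1 : ε' ≤ 1 := min_le_right _ _
  have hε'ε : ε' ≤ ε := min_le_left _ _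
  obtain ⟨x0, hx0⟩ := hP ε' hε'0
  refine ⟨max x0 (⌈Real.exp 1⌉₊ + 2), fun x hx => ?_⟩
  have hx1 : x0 ≤ x := (le_max_left _ _).trans hx
  have hx2 : ⌈Real.exp 1⌉₊ + 2 ≤ x := (le_max_right _ _).trans hx
  have hx3 : Real.exp 1 ≤ x := by
    have h1 := Nat.le_ceil (Real.exp 1)
    have h2 : ((⌈Real.exp 1⌉₊ : ℕ) : ℝ) ≤ x := by exact_mod_cast (by omega)
    linarith
  have hL1 : 1 ≤ Real.log x := by
    have := Real.log_le_log (Real.exp_pos 1) hx3
    rwa [Real.log_exp] at this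
  have hfx : (x : ℝ) ≤ f x := by exact_mod_cast hf x
  have hx0' : (0 : ℝ) < x := lt_of_lt_of_le (Real.exp_pos 1) hx3
  have hlog : Real.log x ≤ Real.log (f x) := Real.log_le_log hx0' hfx
  calc Real.sqrt x * Real.log x ^ (1 - ε) ≤ Real.sqrt x * Real.log x ^ (1 - ε') := by
        apply mul_le_mul_of_nonneg_left _ (Real.sqrt_nonneg _)
        exact Real.rpow_le_rpow_of_exponent_le hL1 (by linarith)
    _ ≤ Real.sqrt (f x) * Real.log (f x) ^ (1 - ε') := by
        apply mul_le_mul (Real.sqrt_le_sqrt hfx) _ (by positivity) (Real.sqrt_nonneg _)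
        exact Real.rpow_le_rpow (by linarith) hlog (by linarith)
    _ ≤ (P (f x) : ℝ) := hx0 (f x) (hx1.trans (hf x))
    _ ≤ (Q x : ℝ) := by exact_mod_cast h x

/-- two terms along a progression modulo a power of 2 -/
theorem prog_two (b ρ : ℕ) (hρ : ρ < 2 ^ b) (τ H1 : ℕ) (hτ : τ % 2 = 0) (hH1 : ¬ 3 ∣ H1) :
    Big (fun x => ((range (x + 1)).filter
      (fun n => p2 (2 ^ b * n + ρ) + p2 (2 ^ b * (n + 3 ^ τ * H1) + ρ) = 1)).card) := by
  have hH2 : ¬ 3 ∣ 2 ^ b * H1 := by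
    intro h
    rcases (Nat.Prime.dvd_mul Nat.prime_three).1 h with h1 | h1
    · have h2 := Nat.prime_three.dvd_of_dvd_pow h1
      norm_num at h2
    · exact hH1 h1
  have h2b : 0 < 2 ^ b := by positivity
  refine big_shift (fun x => patCount b ρ (3 ^ τ * (2 ^ b * H1)) x) _ (fun x => 2 ^ b * x + ρ)
    (fun x => ?_) (fun x => ?_) (fun ε hε => finalPat b ρ hρ τ (2 ^ b * H1) hτ hH2 ε hε)
  · have : x ≤ 2 ^ b * x := Nat.le_mul_of_pos_left _ h2b
    omega
  · unfold patCount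
    refine Finset.card_le_card_of_injOn (fun n => n / 2 ^ b) ?_ ?_
    · intro n hn
      have hn' := mem_coe.1 hn
      rw [mem_filter, mem_range] at hn'
      obtain ⟨h1, h2, h3⟩ := hn'
      rw [mem_coe, mem_filter, mem_range]
      have e1 : 2 ^ b * (n / 2 ^ b) + ρ = n := by
        rw [← h2]
        exact Nat.div_add_mod n (2 ^ b)
      have e2 : 2 ^ b * (n / 2 ^ b + 3 ^ τ * H1) + ρ = n + 3 ^ τ * (2 ^ b * H1) := by
        calc 2 ^ b * (n / 2 ^ b + 3 ^ τ * H1) + ρ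
            = (2 ^ b * (n / 2 ^ b) + ρ) + 3 ^ τ * (2 ^ b * H1) := by ring
          _ = _ := by rw [e1]
      refine ⟨?_, ?_⟩
      · by_contra hcon
        push Not at hcon
        have h4 : 2 ^ b * (x + 1) ≤ 2 ^ b * (n / 2 ^ b) := Nat.mul_le_mul_left _ hcon
        rw [mul_add] at h4
        omega
      · simp only
        rw [e1, e2]
        exact h3
    · intro n hn m hm h
      have hn' := mem_coe.1 hn
      have hm' := mem_coe.1 hm
      rw [mem_filter] at hn' hm'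
      simp only at h
      rw [← Nat.div_add_mod n (2 ^ b), ← Nat.div_add_mod m (2 ^ b), h, hn'.2.1, hm'.2.1]

/-- **all linear patterns along progressions modulo powers of 2** -/
theorem prog_all (b ρ : ℕ) (hρ : ρ < 2 ^ b) (L : ℕ) (c : Fin (L + 1) → ZMod 2) (hc : c ≠ 0) :
    Big (fun x => ((range (x + 1)).filter
      (fun n => ∑ i : Fin (L + 1), c i * p2 (2 ^ b * (n + i) + ρ) = 1)).card) :=
  all_patterns (fun n => p2 (2 ^ b * n + ρ)) (fun τ H1 hτ hH1 => prog_two b ρ hρ τ H1 hτ hH1)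
    L c hc

end Pool.Agent.D0H88.PT
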