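import Pool.Agent.D0H88.PT.Fin3

set_option autoImplicit false

/-! Linear patterns against functions of small rank. -/

namespace Pool.Agent.D0H88.PT

open Polynomial Finset

theorem neg_poly (P : (ZMod 2)[X]) : -P = P := by
  ext n
  rw [coeff_neg, ZMod.neg_eq_self_mod_two]

theorem geom_two (Y : (ZMod 2)[X]) (J : ℕ) : (1 + Y) * ∑ j ∈ range J, Y ^ j = 1 + Y ^ J := by
  have h := mul_geom_sum Y J
  have e1 : Y - 1 = 1 + Y := by rw [sub_eq_add_neg, neg_poly, add_comm]
  have e2 : Y ^ J - 1 = 1 + Y ^ J := by rw [sub_eq_add_neg, neg_poly, add_comm]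
  rw [← e1, ← e2]
  exact h

/-- the matrix `u (2 ^ k m + r)`, `r < 2 ^ k`, `m ≥ 0`, has rank at most `d` over `F_2` -/
def RankLE (k d : ℕ) (u : ℕ → ZMod 2) : Prop :=
  ∃ α w : Fin d → ℕ → ZMod 2, ∀ m r : ℕ, r < 2 ^ k →
    u (2 ^ k * m + r) = ∑ i : Fin d, α i r * w i m

theorem aeval_shift' (P : (ZMod 2)[X]) (N : ℕ) (hN : P.natDegree < N) (a : ℕ → ZMod 2) (n : ℕ) :
    (aeval shift P) a n = ∑ j ∈ range N, P.coeff j * a (n + j) := by
  rw [aeval_eq_sum_range' hN, LinearMap.sum_apply, Finset.sum_apply]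
  refine Finset.sum_congr rfl fun j _ => ?_
  rw [LinearMap.smul_apply, Pi.smul_apply, shift_pow, smul_eq_mul]

theorem two_eq (z w : ZMod 2) (h : z = w) : z + w = 0 := by
  rw [h]
  exact CharTwo.add_self_eq_zero w

/-- the pigeonhole principle -/
theorem sec_lemma (d k : ℕ) (u : ℕ → ZMod 2) (hu : RankLE k d u)
    (G : Fin (2 ^ (d + 1) + 1) → (ZMod 2)[X]) :
    ∃ i j : Fin (2 ^ (d + 1) + 1), i < j ∧
      (∀ m, ∑ t ∈ range (2 ^ k), (G i + G j).coeff t * u (2 ^ k * m + t) = 0) ∧
      ∑ t ∈ range (2 ^ k), (G i + G j).coeff t = 0 := by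
  obtain ⟨α, w, hαw⟩ := hu
  set Φ : Fin (2 ^ (d + 1) + 1) → (Fin d → ZMod 2) × ZMod 2 := fun i =>
    (fun l => ∑ t ∈ range (2 ^ k), (G i).coeff t * α l t,
      ∑ t ∈ range (2 ^ k), (G i).coeff t) with hΦ
  have hcard : Fintype.card ((Fin d → ZMod 2) × ZMod 2) <
      Fintype.card (Fin (2 ^ (d + 1) + 1)) := by
    rw [Fintype.card_prod, Fintype.card_fun, ZMod.card, Fintype.card_fin, Fintype.card_fin,
      ← pow_succ]
    omega
  obtain ⟨i, j, hij, hΦij⟩ := Fintype.exists_ne_map_eq_of_card_lt Φ hcard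
  have key : ∀ i j : Fin (2 ^ (d + 1) + 1), Φ i = Φ j →
      (∀ m, ∑ t ∈ range (2 ^ k), (G i + G j).coeff t * u (2 ^ k * m + t) = 0) ∧
      ∑ t ∈ range (2 ^ k), (G i + G j).coeff t = 0 := by
    intro i j hij
    have h1 := (Prod.mk.inj hij).1
    have h2 := (Prod.mk.inj hij).2
    constructor
    · intro m
      have h3 : ∑ t ∈ range (2 ^ k), (G i + G j).coeff t * u (2 ^ k * m + t) =
          ∑ l : Fin d, (∑ t ∈ range (2 ^ k), (G i).coeff t * α l t +
            ∑ t ∈ range (2 ^ k), (G j).coeff t * α l t) * w l m := by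
        rw [Finset.sum_congr rfl (fun t ht => by
          rw [hαw m t (mem_range.1 ht), Finset.mul_sum]), Finset.sum_comm]
        refine Finset.sum_congr rfl fun l _ => ?_
        rw [← Finset.sum_add_distrib, Finset.sum_mul]
        refine Finset.sum_congr rfl fun t _ => ?_
        rw [coeff_add]
        ring
      rw [h3]
      refine Finset.sum_eq_zero fun l _ => ?_
      have h4 := congrFun h1 l
      rw [two_eq _ _ h4, zero_mul]
    · simp only [coeff_add]
      rw [Finset.sum_add_distrib]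
      exact two_eq _ _ h2
  rcases lt_or_gt_of_ne hij with h1 | h1
  · exact ⟨i, j, h1, key i j hΦij⟩
  · exact ⟨j, i, h1, key j i hΦij.symm⟩

theorem poly_two (k0 H p q : ℕ) : (X : (ZMod 2)[X]) ^ k0 * (1 + (X ^ H) ^ p) +
    X ^ k0 * (1 + (X ^ H) ^ q) = X ^ (k0 + p * H) + X ^ (k0 + q * H) := by
  rw [pow_add, pow_add, ← pow_mul, ← pow_mul, mul_comm H, mul_comm H]
  have h2 : (X : (ZMod 2)[X]) ^ k0 + X ^ k0 = 0 := CharTwo.add_self_eq_zero _
  calc (X : (ZMod 2)[X]) ^ k0 * (1 + X ^ (p * H)) + X ^ k0 * (1 + X ^ (q * H))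
      = (X ^ k0 + X ^ k0) + (X ^ k0 * X ^ (p * H) + X ^ k0 * X ^ (q * H)) := by ring
    _ = _ := by rw [h2, zero_add]

/-- ternary digits read in base 9 -/
def nine (n : ℕ) : ℕ := if n = 0 then 0 else 9 * nine (n / 3) + n % 3
decreasing_by omega

theorem nine_zero : nine 0 = 0 := by
  rw [nine]
  simp

theorem nine_eq (n : ℕ) : nine n = 9 * nine (n / 3) + n % 3 := by
  by_cases h : n = 0
  · subst h
    simp [nine_zero]
  · conv_lhs => rw [nine]
    rw [if_neg h]

theorem nine_le (n : ℕ) : nine n ≤ n ^ 2 := by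
  induction n using Nat.strong_induction_on with
  | _ n ih =>
    by_cases h : n = 0
    · subst h
      rw [nine_zero]
      exact Nat.zero_le _
    · rw [nine_eq]
      have h1 := ih (n / 3) (by omega)
      obtain ⟨q, hq⟩ : ∃ q, q = n / 3 := ⟨_, rfl⟩
      obtain ⟨r, hr⟩ : ∃ r, r = n % 3 := ⟨_, rfl⟩
      have hn : n = 3 * q + r := by omega
      have hr3 : r < 3 := by omega
      rw [← hq] at h1 ⊢
      rw [← hr, hn]
      nlinarith [Nat.le_self_pow (n := 2) (by norm_num) r]

/-- the differences have an even valuation at 3 -/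
theorem nine_diff (i j : ℕ) (hij : i < j) : ∃ v w : ℕ, ¬ 3 ∣ w ∧
    nine j = nine i + 3 ^ (2 * v) * w := by
  induction j using Nat.strong_induction_on generalizing i with
  | _ j ih =>
    rw [nine_eq j, nine_eq i]
    by_cases hm : i % 3 = j % 3
    · obtain ⟨v, w, hw, he⟩ := ih (j / 3) (by omega) (i / 3) (by omega)
      refine ⟨v + 1, w, hw, ?_⟩
      rw [he, hm, show 2 * (v + 1) = 2 * v + 2 by ring, pow_add]
      ring
    · rcases Nat.lt_or_ge (i / 3) (j / 3) with hlt | hge
      · obtain ⟨v, w, hw, he⟩ := ih (j / 3) (by omega) (i / 3) hlt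
        have hw1 : 1 ≤ 3 ^ (2 * v) * w := by
          have : 0 < w := Nat.pos_of_ne_zero (by rintro rfl; exact hw (dvd_zero 3))
          exact Nat.mul_pos (by positivity) this
        obtain ⟨z, hz⟩ : ∃ z, z = 3 ^ (2 * v) * w := ⟨_, rfl⟩
        rw [← hz] at he hw1
        refine ⟨0, 9 * z + j % 3 - i % 3, by omega, ?_⟩
        rw [he, mul_zero, pow_zero, one_mul]
        omega
      · have heq : i / 3 = j / 3 := by omega
        refine ⟨0, j % 3 - i % 3, by omega, ?_⟩
        rw [heq, mul_zero, pow_zero, one_mul]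
        omega

/-- **reduction of a pattern with a function of small rank to patterns of two terms in a class** -/
theorem mem_red (L : ℕ) (c : Fin (L + 1) → ZMod 2) (hc : c ≠ 0) : ∃ C : ℕ, ∀ k d : ℕ,
    2 * d + C ≤ k →
    ∃ (Ps : Finset (ℕ × ℕ × ℕ)), (∀ p ∈ Ps, p.2.1 % 2 = 0 ∧ ¬ 3 ∣ p.2.2) ∧
      ∀ (a u : ℕ → ZMod 2), RankLE k d u → ∀ κ : ZMod 2, ∃ p ∈ Ps, ∀ m : ℕ,
        a (2 ^ k * m + p.1) + a (2 ^ k * m + p.1 + 3 ^ p.2.1 * p.2.2) = 1 →
        ∃ t < 2 ^ k, ∑ i : Fin (L + 1), c i * a (2 ^ k * m + t + i) + u (2 ^ k * m + t) = κ := by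
  classical
  obtain ⟨f, hf⟩ : ∃ f : (ZMod 2)[X], f = ∑ i : Fin (L + 1), C (c i) * X ^ (i : ℕ) := ⟨_, rfl⟩
  have hf0 : f ≠ 0 := by
    intro h0
    apply hc
    funext i
    have h1 : f.coeff (i : ℕ) = c i := by
      rw [hf, finsetSum_coeff]
      rw [Finset.sum_eq_single i]
      · simp
      · intro j _ hj
        rw [coeff_C_mul_X_pow, if_neg]
        intro h
        exact hj (Fin.ext h.symm)
      · intro h
        exact absurd (Finset.mem_univ i) h
    rw [h0, Polynomial.coeff_zero] at h1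
    exact h1.symm
  obtain ⟨k0, τ, H1, hτ, hH1, g, hg⟩ := poly_dvd' f hf0
  obtain ⟨H, hH⟩ : ∃ H, H = 3 ^ τ * H1 := ⟨_, rfl⟩
  rw [← hH] at hg
  refine ⟨g.natDegree + H + 3, fun k d hkd => ?_⟩
  set G : Fin (2 ^ (d + 1) + 1) → (ZMod 2)[X] := fun s =>
    g * ∑ j ∈ range (nine (s : ℕ)), ((X : (ZMod 2)[X]) ^ H) ^ j with hG
  have hfG : ∀ s, f * G s = X ^ k0 * (1 + (X ^ H) ^ (nine (s : ℕ))) := by
    intro s
    rw [hG]
    simp only
    rw [← mul_assoc, ← hg, mul_assoc, geom_two]
  have hdeg : ∀ s, (G s).natDegree < 2 ^ k := by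
    intro s
    have hs : nine (s : ℕ) ≤ (2 ^ (d + 1)) ^ 2 :=
      (nine_le s).trans (Nat.pow_le_pow_left (by have := s.2; omega) 2)
    have h1 : (G s).natDegree ≤ g.natDegree + nine (s : ℕ) * H := by
      rw [hG]
      refine natDegree_mul_le.trans (Nat.add_le_add_left ?_ _)
      apply natDegree_sum_le_of_forall_le
      intro j hj
      rw [mem_range] at hj
      rw [← pow_mul, natDegree_X_pow, mul_comm]
      exact Nat.mul_le_mul_right _ hj.le
    have h2 : g.natDegree + H < 2 ^ (g.natDegree + H) := Nat.lt_two_pow_self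
    calc (G s).natDegree ≤ g.natDegree + nine (s : ℕ) * H := h1
      _ ≤ g.natDegree * (2 ^ (d + 1)) ^ 2 + (2 ^ (d + 1)) ^ 2 * H := by
          apply Nat.add_le_add
          · exact Nat.le_mul_of_pos_right _ (by positivity)
          · exact Nat.mul_le_mul_right _ hs
      _ = (g.natDegree + H) * (2 ^ (d + 1)) ^ 2 := by ring
      _ < 2 ^ (g.natDegree + H) * (2 ^ (d + 1)) ^ 2 :=
          Nat.mul_lt_mul_of_pos_right h2 (by positivity)
      _ = 2 ^ (g.natDegree + H + (d + 1) * 2) := by rw [← pow_mul, ← pow_add]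
      _ ≤ 2 ^ k := Nat.pow_le_pow_right (by norm_num) (by omega)
  refine ⟨(Finset.univ : Finset (Fin (2 ^ (d + 1) + 1) × Fin (2 ^ (d + 1) + 1))).image
    (fun p => (k0 + nine (p.1 : ℕ) * H,
      if h : (p.1 : ℕ) < p.2 then (τ + 2 * (nine_diff p.1 p.2 h).choose,
        (nine_diff p.1 p.2 h).choose_spec.choose * H1) else (0, 1))), ?_, ?_⟩
  · intro p hp
    rw [mem_image] at hp
    obtain ⟨⟨i, j⟩, -, rfl⟩ := hp
    simp only
    split_ifs with h
    · refine ⟨by omega, ?_⟩
      intro h3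
      rcases (Nat.Prime.dvd_mul Nat.prime_three).1 h3 with h4 | h4
      · exact (nine_diff i j h).choose_spec.choose_spec.1 h4
      · exact hH1 h4
    · norm_num
  · intro a u hu κ
    obtain ⟨i, j, hij, hU, hone⟩ := sec_lemma d k u hu G
    have hij' : (i : ℕ) < j := hij
    have hw := (nine_diff i j hij').choose_spec.choose_spec
    refine ⟨_, mem_image_of_mem _ (mem_univ (i, j)), fun m hm => ?_⟩
    simp only [hij', dif_pos] at hm
    set v := (nine_diff i j hij').choose with hvdef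
    set w := (nine_diff i j hij').choose_spec.choose with hwdef
    have hm' : a (2 ^ k * m + (k0 + nine (i : ℕ) * H)) +
        a (2 ^ k * m + (k0 + nine (i : ℕ) * H) + 3 ^ (τ + 2 * v) * (w * H1)) = 1 := hm
    have hHd : 3 ^ (τ + 2 * v) * (w * H1) + nine (i : ℕ) * H = nine (j : ℕ) * H := by
      rw [hw.2, hH, pow_add]
      ring
    have hW : (G i + G j).natDegree < 2 ^ k :=
      lt_of_le_of_lt (natDegree_add_le _ _) (max_lt (hdeg i) (hdeg j))
    have hfa : ∀ m, (aeval shift f) a m = ∑ i : Fin (L + 1), c i * a (m + i) := by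
      intro m
      rw [hf, map_sum, LinearMap.sum_apply, Finset.sum_apply]
      refine Finset.sum_congr rfl fun i _ => ?_
      rw [map_mul, aeval_C, map_pow, aeval_X, Module.End.mul_apply, Module.algebraMap_end_apply,
        Pi.smul_apply, shift_pow, smul_eq_mul]
    have hmul : f * (G i + G j) = X ^ (k0 + nine (i : ℕ) * H) + X ^ (k0 + nine (j : ℕ) * H) := by
      rw [mul_add, hfG, hfG]
      exact poly_two k0 H _ _
    have hl : (aeval shift (f * (G i + G j))) a (2 ^ k * m) = 1 := by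
      rw [hmul, map_add, map_pow, map_pow, aeval_X, LinearMap.add_apply, Pi.add_apply, shift_pow,
        shift_pow]
      rw [← hm']
      congr 2
      · omega
    have hr : (aeval shift (f * (G i + G j))) a (2 ^ k * m) =
        ∑ t ∈ range (2 ^ k), (G i + G j).coeff t * (aeval shift f) a (2 ^ k * m + t) := by
      rw [mul_comm, map_mul, Module.End.mul_apply, aeval_shift' _ _ hW]
    by_contra hcon
    push Not at hcon
    have hz : ∀ t ∈ range (2 ^ k), (aeval shift f) a (2 ^ k * m + t) =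
        u (2 ^ k * m + t) + (κ + 1) := by
      intro t ht
      have h1 := hcon t (mem_range.1 ht)
      rw [← hfa] at h1
      have : ∀ A B κ : ZMod 2, A + B ≠ κ → A = B + (κ + 1) := by decide
      exact this _ _ _ h1
    have h1 : ∑ t ∈ range (2 ^ k), (G i + G j).coeff t * (aeval shift f) a (2 ^ k * m + t) = 0 := by
      rw [Finset.sum_congr rfl (fun t ht => by rw [hz t ht])]
      simp only [mul_add _ _ (κ + 1)]
      rw [Finset.sum_add_distrib, hU m, zero_add, ← Finset.sum_mul, hone, zero_mul]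
    rw [hl, h1] at hr
    exact one_ne_zero hr

/-- counting -/
theorem count_gen (A Z : ℕ → Prop) [DecidablePred A] [DecidablePred Z] (q G : ℕ)
    (h : ∀ n, q ≤ n → A n → ∃ t ≤ G, Z (n - q + t)) (x : ℕ) :
    ((range (x + 1)).filter A).card ≤
      (q + G) + (G + 1) * ((range (x + 1)).filter Z).card := by
  set ZZ := (range (x + 1)).filter Z with hZ
  have hsub : (range (x + 1)).filter A ⊆
      (range q ∪ Icc (x + 1 - G) x) ∪
        (range (G + 1)).biUnion (fun j => ZZ.image (fun z => z + q - j)) := by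
    intro m hm
    rw [mem_filter, mem_range] at hm
    rw [mem_union, mem_union, mem_range, mem_Icc, mem_biUnion]
    by_cases h1 : m < q
    · exact Or.inl (Or.inl h1)
    by_cases h2 : x + 1 - G ≤ m
    · exact Or.inl (Or.inr ⟨h2, by omega⟩)
    right
    obtain ⟨j, hj, hS⟩ := h m (by omega) hm.2
    refine ⟨j, mem_range.2 (by omega), ?_⟩
    rw [mem_image]
    refine ⟨m - q + j, ?_, by omega⟩
    rw [hZ, mem_filter, mem_range]
    exact ⟨by omega, hS⟩
  refine (card_le_card hsub).trans ?_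
  refine (card_union_le _ _).trans ?_
  apply Nat.add_le_add
  · refine (card_union_le _ _).trans ?_
    rw [card_range, Nat.card_Icc]
    omega
  · refine card_biUnion_le.trans ?_
    calc ∑ j ∈ range (G + 1), (ZZ.image (fun z => z + q - j)).card
        ≤ ∑ j ∈ range (G + 1), ZZ.card := Finset.sum_le_sum fun j _ => card_image_le
      _ = (G + 1) * ZZ.card := by rw [Finset.sum_const, card_range, smul_eq_mul]

end Pool.Agent.D0H88.PT
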