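import Pool.Agent.D0H88.PT.Fin4

set_option autoImplicit false

/-! The final theorem for patterns with predictors. -/

namespace Pool.Agent.D0H88.PT

open Finset

theorem red_unif (P : ℕ → ℕ) (hP : Big P) (K1 K2 : ℕ) (hK2 : 1 ≤ K2) (ε : ℝ) (hε : 0 < ε) :
    ∃ x0 : ℕ, ∀ x : ℕ, x0 ≤ x → ∀ Z : ℕ, P x ≤ K1 + K2 * Z →
      Real.sqrt x * Real.log x ^ (1 - ε) ≤ (Z : ℝ) := by
  set ε' : ℝ := min ε 1 with hε'
  have hε'0 : 0 < ε' := lt_min hε one_pos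
  have hε'1 : ε' ≤ 1 := min_le_right _ _
  have hε'ε : ε' ≤ ε := min_le_left _ _
  obtain ⟨x0, hx0⟩ := hP (ε' / 2) (by positivity)
  obtain ⟨Kc, hKc⟩ : ∃ Kc : ℝ, Kc = (K1 : ℝ) + K2 + 1 := ⟨_, rfl⟩
  have hKc0 : 0 < Kc := by rw [hKc]; positivity
  set X : ℝ := max 1 (Kc ^ (2 / ε')) with hX
  have hX1 : 1 ≤ X := le_max_left _ _
  refine ⟨max x0 (⌈Real.exp X⌉₊ + 2), fun x hx Z hPZ => ?_⟩
  have hx1 : x0 ≤ x := (le_max_left _ _).trans hx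
  have hx2 : ⌈Real.exp X⌉₊ + 2 ≤ x := (le_max_right _ _).trans hx
  have hx3 : Real.exp X ≤ x := by
    have h1 := Nat.le_ceil (Real.exp X)
    have h2 : ((⌈Real.exp X⌉₊ : ℕ) : ℝ) ≤ x := by exact_mod_cast (by omega)
    linarith
  set L : ℝ := Real.log x with hL
  have hLX : X ≤ L := by
    rw [hL]
    have := Real.log_le_log (Real.exp_pos X) hx3
    rwa [Real.log_exp] at this
  have hL1 : 1 ≤ L := hX1.trans hLX
  have hL0 : 0 < L := by linarith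
  have hx4 : (1 : ℝ) ≤ x := by exact_mod_cast (by omega : 1 ≤ x)
  have hs1 : 1 ≤ Real.sqrt x := Real.one_le_sqrt.2 hx4
  set A : ℝ := Real.sqrt x * L ^ (1 - ε') with hA
  have hA1 : 1 ≤ A := by
    have h1 : 1 ≤ L ^ (1 - ε') := Real.one_le_rpow hL1 (by linarith)
    rw [hA]
    nlinarith
  have hpow : Kc ≤ L ^ (ε' / 2) := by
    have h1 : Kc ^ (2 / ε') ≤ L := (le_max_right _ _).trans hLX
    have h2 : (Kc ^ (2 / ε')) ^ (ε' / 2) ≤ L ^ (ε' / 2) :=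
      Real.rpow_le_rpow (by positivity) h1 (by positivity)
    rw [← Real.rpow_mul hKc0.le] at h2
    have h3 : 2 / ε' * (ε' / 2) = 1 := by field_simp
    rwa [h3, Real.rpow_one] at h2
  have h1 := hx0 x hx1
  have h2 : Kc * A ≤ (P x : ℝ) := by
    refine le_trans ?_ h1
    have h3 : L ^ (1 - ε' / 2) = L ^ (1 - ε') * L ^ (ε' / 2) := by
      rw [← Real.rpow_add hL0]
      congr 1
      ring
    rw [h3, hA]
    have h4 : 0 ≤ Real.sqrt x * L ^ (1 - ε') := by positivity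
    nlinarith
  have h3 : (P x : ℝ) ≤ K1 + K2 * Z := by exact_mod_cast hPZ
  have hK2R : (1 : ℝ) ≤ K2 := by exact_mod_cast hK2
  have hK1R : (0 : ℝ) ≤ K1 := Nat.cast_nonneg _
  have h4 : (K2 : ℝ) * A ≤ K2 * Z := by
    rw [hKc] at h2
    nlinarith
  have h5 : A ≤ Z := le_of_mul_le_mul_left h4 (by linarith)
  refine le_trans ?_ h5
  rw [hA]
  apply mul_le_mul_of_nonneg_left _ (Real.sqrt_nonneg _)
  exact Real.rpow_le_rpow_of_exponent_le hL1 (by linarith)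

/-- two terms along a progression modulo a power of 2, in a class modulo another power of 2 -/
theorem prog_class (b ρ : ℕ) (hρ : ρ < 2 ^ b) (k q τ H1 : ℕ) (hτ : τ % 2 = 0) (hH1 : ¬ 3 ∣ H1) :
    Big (fun x => ((range (x + 1)).filter
      (fun n => n % 2 ^ k = q % 2 ^ k ∧
        p2 (2 ^ b * n + ρ) + p2 (2 ^ b * (n + 3 ^ τ * H1) + ρ) = 1)).card) := by
  have hH2 : ¬ 3 ∣ 2 ^ b * H1 := by
    intro h
    rcases (Nat.Prime.dvd_mul Nat.prime_three).1 h with h1 | h1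
    · have h2 := Nat.prime_three.dvd_of_dvd_pow h1
      norm_num at h2
    · exact hH1 h1
  have h2b : 0 < 2 ^ b := by positivity
  have h2k : 0 < 2 ^ k := by positivity
  obtain ⟨q0, hq0⟩ : ∃ q0, q0 = q % 2 ^ k := ⟨_, rfl⟩
  have hq0k : q0 < 2 ^ k := by rw [hq0]; exact Nat.mod_lt _ h2k
  rw [← hq0]
  have hcl : 2 ^ b * q0 + ρ < 2 ^ (b + k) := by
    rw [pow_add]
    have : 2 ^ b * (q0 + 1) ≤ 2 ^ b * 2 ^ k := Nat.mul_le_mul_left _ hq0k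
    rw [mul_add, mul_one] at this
    omega
  refine big_shift (fun x => patCount (b + k) (2 ^ b * q0 + ρ) (3 ^ τ * (2 ^ b * H1)) x) _
    (fun x => 2 ^ b * x + ρ) (fun x => ?_) (fun x => ?_)
    (fun ε hε => finalPat (b + k) (2 ^ b * q0 + ρ) hcl τ (2 ^ b * H1) hτ hH2 ε hε)
  · have : x ≤ 2 ^ b * x := Nat.le_mul_of_pos_left _ h2b
    omega
  · unfold patCount
    have key : ∀ n, n % 2 ^ (b + k) = 2 ^ b * q0 + ρ →
        2 ^ b * (n / 2 ^ b) + ρ = n ∧ n / 2 ^ b % 2 ^ k = q0 := by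
      intro n hn
      have e1 : n = 2 ^ b * (2 ^ k * (n / 2 ^ (b + k)) + q0) + ρ := by
        have := Nat.div_add_mod n (2 ^ (b + k))
        rw [hn] at this
        rw [mul_add, ← mul_assoc, ← pow_add, add_assoc]
        exact this.symm
      have e2 : n / 2 ^ b = 2 ^ k * (n / 2 ^ (b + k)) + q0 := by
        conv_lhs => rw [e1]
        rw [Nat.mul_add_div h2b, Nat.div_eq_of_lt hρ, add_zero]
      constructor
      · rw [e2]
        exact e1.symm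
      · rw [e2, Nat.mul_add_mod, Nat.mod_eq_of_lt hq0k]
    refine Finset.card_le_card_of_injOn (fun n => n / 2 ^ b) ?_ ?_
    · intro n hn
      have hn' := mem_coe.1 hn
      rw [mem_filter, mem_range] at hn'
      obtain ⟨h1, h2, h3⟩ := hn'
      obtain ⟨e1, e0⟩ := key n h2
      rw [mem_coe, mem_filter, mem_range]
      have e2 : 2 ^ b * (n / 2 ^ b + 3 ^ τ * H1) + ρ = n + 3 ^ τ * (2 ^ b * H1) := by
        calc 2 ^ b * (n / 2 ^ b + 3 ^ τ * H1) + ρ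
            = (2 ^ b * (n / 2 ^ b) + ρ) + 3 ^ τ * (2 ^ b * H1) := by ring
          _ = _ := by rw [e1]
      refine ⟨?_, e0, ?_⟩
      · by_contra hcon
        push Not at hcon
        have h4 : 2 ^ b * (x + 1) ≤ 2 ^ b * (n / 2 ^ b) := Nat.mul_le_mul_left _ hcon
        rw [mul_add] at h4
        omega
      · simp only
        rw [e1, e2]
        exact h3
    · intro n hn m hm h
      have hn' := mem_coe.1 hn
      have hm' := mem_coe.1 hm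
      rw [mem_filter] at hn' hm'
      simp only at h
      have e1 := (key n hn'.2.1).1
      have e2 := (key m hm'.2.1).1
      rw [← e1, ← e2, h]

/-- one pattern -/
theorem final_one (L : ℕ) (c : Fin (L + 1) → ZMod 2) (hc : c ≠ 0) : ∃ C : ℕ, ∀ k d : ℕ,
    2 * d + C ≤ k → ∀ b ρ : ℕ, ρ < 2 ^ b → ∀ ε : ℝ, 0 < ε → ∃ x0 : ℕ, ∀ x : ℕ, x0 ≤ x →
    ∀ u : ℕ → ZMod 2, RankLE k d u →
      ∀ κ : ZMod 2, Real.sqrt x * Real.log x ^ (1 - ε) ≤ (((range (x + 1)).filter (fun n =>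
        ∑ i : Fin (L + 1), c i * p2 (2 ^ b * (n + i) + ρ) + u n = κ)).card : ℝ) := by
  obtain ⟨C, hC⟩ := mem_red L c hc
  refine ⟨C, fun k d hkd b ρ hρ ε hε => ?_⟩
  obtain ⟨Ps, hPs, hred⟩ := hC k d hkd
  have h1 : ∀ p : ℕ × ℕ × ℕ, ∃ x0 : ℕ, p ∈ Ps → ∀ x : ℕ, x0 ≤ x → ∀ Z : ℕ,
      ((range (x + 1)).filter (fun n => n % 2 ^ k = p.1 % 2 ^ k ∧
        p2 (2 ^ b * n + ρ) + p2 (2 ^ b * (n + 3 ^ p.2.1 * p.2.2) + ρ) = 1)).card ≤
        (p.1 + 2 ^ k) + (2 ^ k + 1) * Z → Real.sqrt x * Real.log x ^ (1 - ε) ≤ (Z : ℝ) := by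
    intro p
    by_cases hp : p ∈ Ps
    · obtain ⟨x0, hx0⟩ := red_unif _ (prog_class b ρ hρ k p.1 p.2.1 p.2.2 (hPs p hp).1
        (hPs p hp).2) (p.1 + 2 ^ k) (2 ^ k + 1) (Nat.le_add_left 1 _) ε hε
      exact ⟨x0, fun _ => hx0⟩
    · exact ⟨0, fun h => absurd h hp⟩
  choose x0 hx0 using h1
  refine ⟨∑ p ∈ Ps, x0 p, fun x hx u hu κ => ?_⟩
  obtain ⟨p, hp, hp1⟩ := hred (fun n => p2 (2 ^ b * n + ρ)) u hu κ
  have hxp : x0 p ≤ x :=
    (Finset.single_le_sum (f := fun p => x0 p) (fun _ _ => Nat.zero_le _) hp).trans hx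
  refine hx0 p hp x hxp _ ?_
  refine count_gen
    (fun n => n % 2 ^ k = p.1 % 2 ^ k ∧
        p2 (2 ^ b * n + ρ) + p2 (2 ^ b * (n + 3 ^ p.2.1 * p.2.2) + ρ) = 1)
    (fun n => ∑ i : Fin (L + 1), c i * p2 (2 ^ b * (n + i) + ρ) + u n = κ) p.1 (2 ^ k) ?_ x
  rintro n hn ⟨hn1, hn2⟩
  have hdvd : 2 ^ k ∣ n - p.1 := (Nat.modEq_iff_dvd' hn).1 hn1.symm
  obtain ⟨m, hm⟩ := hdvd
  have hnm : n = 2 ^ k * m + p.1 := by omega
  obtain ⟨t, ht, hS⟩ := hp1 m (by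
    rw [← hnm]
    exact hn2)
  refine ⟨t, ht.le, ?_⟩
  rw [hm]
  exact hS

/-- **linear patterns of the partition function against functions of small rank** -/
theorem final_mem (L : ℕ) : ∃ C : ℕ, ∀ k d : ℕ, 2 * d + C ≤ k → ∀ b ρ : ℕ, ρ < 2 ^ b →
    ∀ ε : ℝ, 0 < ε → ∃ x0 : ℕ, ∀ x : ℕ, x0 ≤ x → ∀ c : Fin (L + 1) → ZMod 2, c ≠ 0 →
      ∀ u : ℕ → ZMod 2, RankLE k d u → ∀ κ : ZMod 2,
      Real.sqrt x * Real.log x ^ (1 - ε) ≤ (((range (x + 1)).filter (fun n =>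
        ∑ i : Fin (L + 1), c i * p2 (2 ^ b * (n + i) + ρ) + u n = κ)).card : ℝ) := by
  classical
  have h0 : ∀ c : Fin (L + 1) → ZMod 2, ∃ C : ℕ, c ≠ 0 → ∀ k d : ℕ, 2 * d + C ≤ k →
      ∀ b ρ : ℕ, ρ < 2 ^ b → ∀ ε : ℝ, 0 < ε → ∃ x0 : ℕ, ∀ x : ℕ, x0 ≤ x →
      ∀ u : ℕ → ZMod 2, RankLE k d u → ∀ κ : ZMod 2,
      Real.sqrt x * Real.log x ^ (1 - ε) ≤ (((range (x + 1)).filter (fun n =>
        ∑ i : Fin (L + 1), c i * p2 (2 ^ b * (n + i) + ρ) + u n = κ)).card : ℝ) := by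
    intro c
    by_cases hc : c = 0
    · exact ⟨0, fun h => absurd hc h⟩
    · obtain ⟨C, hC⟩ := final_one L c hc
      exact ⟨C, fun _ => hC⟩
  choose C hC using h0
  refine ⟨∑ c, C c, fun k d hkd b ρ hρ ε hε => ?_⟩
  have h1 : ∀ c : Fin (L + 1) → ZMod 2, ∃ x0 : ℕ, c ≠ 0 → ∀ x : ℕ, x0 ≤ x →
      ∀ u : ℕ → ZMod 2, RankLE k d u → ∀ κ : ZMod 2,
      Real.sqrt x * Real.log x ^ (1 - ε) ≤ (((range (x + 1)).filter (fun n =>
        ∑ i : Fin (L + 1), c i * p2 (2 ^ b * (n + i) + ρ) + u n = κ)).card : ℝ) := by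
    intro c
    by_cases hc : c = 0
    · exact ⟨0, fun h => absurd hc h⟩
    · have hCc : C c ≤ ∑ c, C c :=
        Finset.single_le_sum (f := fun c => C c) (fun _ _ => Nat.zero_le _) (Finset.mem_univ c)
      obtain ⟨x0, hx0⟩ := hC c hc k d (by omega) b ρ hρ ε hε
      exact ⟨x0, fun _ => hx0⟩
  choose x0 hx0 using h1
  refine ⟨∑ c, x0 c, fun x hx c hc u hu κ => ?_⟩
  exact hx0 c hc x ((Finset.single_le_sum (f := fun c => x0 c) (fun _ _ => Nat.zero_le _)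
    (Finset.mem_univ c)).trans hx) u hu κ

end Pool.Agent.D0H88.PT
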