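import Pool.Agent.H307R2.OP.T2
import Pool.Agent.H307R2.OP.T5

set_option autoImplicit false

/-! Localisation of the tuples: a class modulo a power of 3 and a fixed cofactor. -/

namespace Pool.Agent.D0H88.PT

open Finset Pool.Agent.H307R2.OP

/-- `3 ^ (τ + 1) N = δ s² + 4 ^ r u²` with `s` prime to 3 -/
def RepL (r τ δ N : ℕ) : Prop := ∃ s u : ℕ, ¬ 3 ∣ s ∧ 3 ^ (τ + 1) * N = δ * s ^ 2 + 4 ^ r * u ^ 2

/-- the product of a finite set -/
def vv (V : Finset ℕ) : ℕ := ∏ q ∈ V, q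

/-- localisation data -/
structure LOk {M : ℕ} (g : Cfg M) (V : Finset ℕ) (τ B a : ℕ) : Prop where
  prV : ∀ q ∈ V, q.Prime ∧ 5 ≤ q ∧ q % 8 = 5
  disR : Disjoint V g.R
  disB : ∀ j, Disjoint V (PB (g.κ j) 5)
  ltV : ∀ q ∈ V, q ≤ 2 ^ (g.I / 2)
  sizeV : vv V ≤ 2 ^ (g.I / 16)
  size3 : 3 ^ (B + τ + 1) ≤ 2 ^ (g.I / 64)
  ha : ¬ 3 ∣ a
  hB : 1 ≤ B

/-- the bound for `u` -/
noncomputable def UL {M : ℕ} (g : Cfg M) (V : Finset ℕ) (τ : ℕ) : ℝ :=
  Real.sqrt (3 ^ (τ + 1) * 2 ^ g.I * vv V) / 2 ^ g.r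

/-- the residues of `u` modulo the power of 3 -/
def O3 (r δ s τ a b : ℕ) : Finset ℕ :=
  (range (3 ^ b)).filter (fun u => δ * s ^ 2 + 4 ^ r * u ^ 2 ≡ 3 ^ (τ + 1) * a [MOD 3 ^ b])

theorem four_mod (r : ℕ) : 4 ^ r % 3 = 1 := by
  rw [Nat.pow_mod]
  norm_num

theorem O3_unit {r δ s τ a b u : ℕ} (hδ : Adm δ) (hs : ¬ 3 ∣ s) (hb : 1 ≤ b)
    (h : δ * s ^ 2 + 4 ^ r * u ^ 2 ≡ 3 ^ (τ + 1) * a [MOD 3 ^ b]) : ¬ 3 ∣ u := by
  intro hu
  have h3 : (3 : ℕ) ∣ 3 ^ b := dvd_pow_self 3 (by omega)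
  have h4 := h.of_dvd h3
  have h5 : 3 ^ (τ + 1) * a % 3 = 0 := by
    have : 3 ^ (τ + 1) * a = 3 * (3 ^ τ * a) := by rw [pow_succ]; ring
    rw [this]
    exact Nat.mul_mod_right _ _
  unfold Nat.ModEq at h4
  rw [h5] at h4
  have h6 : 4 ^ r * u ^ 2 % 3 = 0 := by
    obtain ⟨c, rfl⟩ := hu
    have : 4 ^ r * (3 * c) ^ 2 = 3 * (4 ^ r * 3 * c ^ 2) := by ring
    rw [this]
    exact Nat.mul_mod_right _ _
  have h7 : δ * s ^ 2 % 3 = 0 := by omega
  have h8 : δ % 3 = 2 := by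
    have := hδ.1
    omega
  have h9 : s % 3 = 1 ∨ s % 3 = 2 := by omega
  rw [Nat.mul_mod, h8, Nat.pow_mod] at h7
  rcases h9 with h9 | h9 <;> rw [h9] at h7 <;> norm_num at h7

theorem O3_card (r δ s τ a b : ℕ) (hδ : Adm δ) (hs : ¬ 3 ∣ s) (hb : 1 ≤ b) :
    (O3 r δ s τ a b).card ≤ 2 := by
  classical
  rcases (O3 r δ s τ a b).eq_empty_or_nonempty with h0 | ⟨u0, hu0⟩
  · rw [h0]; simp
  have hu0' := hu0
  unfold O3 at hu0
  rw [mem_filter, mem_range] at hu0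
  obtain ⟨hlt0, hm0⟩ := hu0
  have h30 := O3_unit hδ hs hb hm0
  have hsub : O3 r δ s τ a b ⊆ {u0, 3 ^ b - u0} := by
    intro u hu
    unfold O3 at hu
    rw [mem_filter, mem_range] at hu
    obtain ⟨hlt, hm⟩ := hu
    have h3u := O3_unit hδ hs hb hm
    have h1 : 4 ^ r * u ^ 2 ≡ 4 ^ r * u0 ^ 2 [MOD 3 ^ b] :=
      Nat.ModEq.add_left_cancel' _ (hm.trans hm0.symm)
    have hc4 : Nat.Coprime (3 ^ b) (4 ^ r) := Nat.Coprime.pow _ _ (by norm_num)
    have h2 : u ^ 2 ≡ u0 ^ 2 [MOD 3 ^ b] := Nat.ModEq.cancel_left_of_coprime hc4 h1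
    rw [mem_insert, mem_singleton]
    have h4 : ((3 ^ b : ℕ) : ℤ) ∣ (u0 : ℤ) ^ 2 - (u : ℤ) ^ 2 := by
      have := (Nat.modEq_iff_dvd).1 h2
      push_cast at this
      push_cast
      exact this
    have h5 : ((u0 : ℤ) ^ 2 - (u : ℤ) ^ 2) = (u0 - u) * (u0 + u) := by ring
    rw [h5] at h4
    by_cases h6 : (3 : ℤ) ∣ (u0 : ℤ) - u
    · left
      have h7 : ¬ (3 : ℤ) ∣ (u0 : ℤ) + u := by
        intro h8
        have : (3 : ℤ) ∣ 2 * u0 := by
          have := dvd_add h6 h8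
          have e : (u0 : ℤ) - u + (u0 + u) = 2 * u0 := by ring
          rwa [e] at this
        omega
      have h8 : IsCoprime ((3 ^ b : ℕ) : ℤ) ((u0 : ℤ) + u) := by
        push_cast
        apply IsCoprime.pow_left
        exact (Int.prime_three.coprime_iff_not_dvd).2 h7
      have h9 := h8.dvd_of_dvd_mul_right h4
      obtain ⟨c, hc⟩ := h9
      have hp : (0 : ℤ) < ((3 ^ b : ℕ) : ℤ) := by positivity
      have hl0 : (u0 : ℤ) < ((3 ^ b : ℕ) : ℤ) := by exact_mod_cast hlt0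
      have hl : (u : ℤ) < ((3 ^ b : ℕ) : ℤ) := by exact_mod_cast hlt
      have hc1 : c < 1 := by
        by_contra hcon
        push Not at hcon
        nlinarith
      have hc2 : -1 < c := by
        by_contra hcon
        push Not at hcon
        nlinarith
      have hc0 : c = 0 := by omega
      rw [hc0, mul_zero] at hc
      omega
    · right
      have h8 : IsCoprime ((3 ^ b : ℕ) : ℤ) ((u0 : ℤ) - u) := by
        push_cast
        apply IsCoprime.pow_left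
        exact (Int.prime_three.coprime_iff_not_dvd).2 h6
      have h9 := h8.dvd_of_dvd_mul_left h4
      obtain ⟨c, hc⟩ := h9
      have hp : (0 : ℤ) < ((3 ^ b : ℕ) : ℤ) := by positivity
      have hl0 : (u0 : ℤ) < ((3 ^ b : ℕ) : ℤ) := by exact_mod_cast hlt0
      have hl : (u : ℤ) < ((3 ^ b : ℕ) : ℤ) := by exact_mod_cast hlt
      have hu00 : 0 < u0 := by
        rcases Nat.eq_zero_or_pos u0 with h | h
        · rw [h] at h30
          exact absurd (dvd_zero 3) h30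
        · exact h
      have hc1 : c < 2 := by
        by_contra hcon
        push Not at hcon
        nlinarith
      have hc2 : 0 < c := by
        by_contra hcon
        push Not at hcon
        have : (0 : ℤ) < (u0 : ℤ) + u := by positivity
        nlinarith
      have hc0 : c = 1 := by omega
      rw [hc0, mul_one] at hc
      have hc' : u0 + u = 3 ^ b := by exact_mod_cast hc
      omega
  exact (card_le_card hsub).trans card_le_two

theorem O3_mem {r δ s τ a B u N : ℕ} (h : 3 ^ (τ + 1) * N = δ * s ^ 2 + 4 ^ r * u ^ 2)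
    (ha : N ≡ a [MOD 3 ^ B]) : u % 3 ^ (B + τ + 1) ∈ O3 r δ s τ a (B + τ + 1) := by
  unfold O3
  rw [mem_filter, mem_range]
  refine ⟨Nat.mod_lt _ (by positivity), ?_⟩
  have h1 : δ * s ^ 2 + 4 ^ r * (u % 3 ^ (B + τ + 1)) ^ 2 ≡ δ * s ^ 2 + 4 ^ r * u ^ 2
      [MOD 3 ^ (B + τ + 1)] :=
    Nat.ModEq.add_left _ (Nat.ModEq.mul_left _ ((Nat.mod_modEq u _).pow 2))
  refine h1.trans ?_
  rw [← h]
  have h2 := Nat.ModEq.mul_left' (3 ^ (τ + 1)) ha
  have e : 3 ^ (τ + 1) * 3 ^ B = 3 ^ (B + τ + 1) := by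
    rw [← pow_add]
    congr 1
    omega
  rwa [e] at h2

/-- counting by the Chinese remainder theorem, with an additional modulus -/
theorem count_le' (A : Finset ℕ) (Ω : ℕ → Finset ℕ) (X Q : ℕ) (Ω0 : Finset ℕ)
    (hp : ∀ q ∈ A, q.Prime) (hc : ∀ q ∈ A, Nat.Coprime Q q) (hQ : 0 < Q)
    (hΩ : ∀ q ∈ A, (Ω q).card ≤ 2) :
    ((range (X + 1)).filter (fun u => u % Q ∈ Ω0 ∧ ∀ q ∈ A, u % q ∈ Ω q)).card ≤
      (X / (Q * ∏ q ∈ A, q) + 1) * (Ω0.card * 2 ^ A.card) := by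
  classical
  set m := ∏ q ∈ A, q with hm
  have hmpos : 0 < m := Finset.prod_pos (fun q hq => (hp q hq).pos)
  have hcop : Nat.Coprime Q m := by
    rw [hm]
    exact Nat.Coprime.prod_right fun q hq => hc q hq
  have h1 : ((range (X + 1)).filter (fun u => u % Q ∈ Ω0 ∧ ∀ q ∈ A, u % q ∈ Ω q)).card ≤
      ((range (X / (Q * m) + 1)) ×ˢ (Ω0 ×ˢ (A.pi Ω))).card := by
    refine Finset.card_le_card_of_injOn (fun u => (u / (Q * m), (u % Q, fun q _ => u % q))) ?_ ?_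
    · intro u hu
      simp only [coe_filter, mem_range, Set.mem_ofPred_eq] at hu
      simp only [coe_product, Set.mem_prod, mem_coe, mem_range, mem_pi]
      refine ⟨?_, hu.2.1, fun q hq => hu.2.2 q hq⟩
      exact Nat.lt_succ_of_le (Nat.div_le_div_right (Nat.lt_succ_iff.mp hu.1))
    · intro u _ v _ huv
      simp only [Prod.mk.injEq] at huv
      obtain ⟨hd, hr0, hr⟩ := huv
      have hr' : ∀ q ∈ A, u % q = v % q := fun q hq => congrFun (congrFun hr q) hq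
      have key : ∀ a b : ℕ, a ≤ b → a % Q = b % Q → (∀ q ∈ A, a % q = b % q) →
          a % (Q * m) = b % (Q * m) := by
        intro a b hab h0 h
        have hdvd : m ∣ b - a := by
          rw [hm]
          refine Finset.prod_primes_dvd _ (fun q hq => (hp q hq).prime) (fun q hq => ?_)
          exact (Nat.modEq_iff_dvd' hab).mp (h q hq)
        have hdvd0 : Q ∣ b - a := (Nat.modEq_iff_dvd' hab).mp h0
        exact (Nat.modEq_iff_dvd' hab).mpr (hcop.mul_dvd_of_dvd_of_dvd hdvd0 hdvd)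
      have hmod : u % (Q * m) = v % (Q * m) := by
        rcases le_total u v with h | h
        · exact key u v h hr0 hr'
        · exact (key v u h hr0.symm (fun q hq => (hr' q hq).symm)).symm
      rw [← Nat.div_add_mod u (Q * m), ← Nat.div_add_mod v (Q * m), hmod, hd]
  refine h1.trans ?_
  rw [Finset.card_product, card_range, Finset.card_product, Finset.card_pi]
  refine Nat.mul_le_mul le_rfl (Nat.mul_le_mul le_rfl ?_)
  calc ∏ a ∈ A, (Ω a).card ≤ ∏ _a ∈ A, 2 := Finset.prod_le_prod' hΩ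
    _ = 2 ^ A.card := by rw [Finset.prod_const]

section

variable {M : ℕ} {g : Cfg M} {V : Finset ℕ} {τ B a : ℕ}

/-- all the small primes -/
noncomputable def AL (g : Cfg M) (V : Finset ℕ) (A : Fin M → Finset ℕ) : Finset ℕ :=
  T2Aux.AA g A ∪ V

theorem AL_disj (hL : LOk g V τ B a) {A : Fin M → Finset ℕ} (hA : A ∈ g.Fam) :
    Disjoint (T2Aux.AA g A) V := by
  rw [Finset.disjoint_left]
  intro q hq hqV
  rw [T2Aux.AA, mem_union, mem_biUnion] at hq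
  rcases hq with h | ⟨j, -, h⟩
  · exact (Finset.disjoint_left.1 hL.disR) hqV h
  · have h1 := (T2Aux.fam_mem g hA j).1 h
    rw [Cfg.Blk, mem_sdiff] at h1
    exact (Finset.disjoint_left.1 (hL.disB j)) hqV h1.1

theorem AL_prod (hg : g.Ok) (hL : LOk g V τ B a) {A : Fin M → Finset ℕ} (hA : A ∈ g.Fam) :
    ∏ q ∈ AL g V A, q = g.Rp * g.Q A * vv V := by
  rw [AL, prod_union (AL_disj hL hA), T2Aux.AA_prod g hg hA, vv]

theorem AL_card (hg : g.Ok) (hL : LOk g V τ B a) {A : Fin M → Finset ℕ} (hA : A ∈ g.Fam) :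
    (AL g V A).card = ∑ j, g.k j + g.R.card + V.card := by
  rw [AL, card_union_of_disjoint (AL_disj hL hA), T2Aux.AA_card g hg hA]

theorem AL_prime (hg : g.Ok) (hL : LOk g V τ B a) {A : Fin M → Finset ℕ} (hA : A ∈ g.Fam) :
    ∀ q ∈ AL g V A, q.Prime ∧ 5 ≤ q := by
  intro q hq
  rw [AL, mem_union] at hq
  rcases hq with h | h
  · exact T2Aux.AA_prime g hg hA q h
  · exact ⟨(hL.prV q h).1, (hL.prV q h).2.1⟩

theorem vv_pos (hL : LOk g V τ B a) : 0 < vv V :=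
  Finset.prod_pos fun q hq => (hL.prV q hq).1.pos

theorem coprime_three {q : ℕ} (hq : q.Prime ∧ 5 ≤ q) (b : ℕ) : Nat.Coprime (3 ^ b) q := by
  apply Nat.Coprime.pow_left
  rw [Nat.coprime_primes Nat.prime_three hq.1]
  omega

theorem mul3_pos (r : ℕ) : 0 < 3 ^ r := by positivity

/-- the modulus is small -/
theorem mod_le (hg : g.Ok) (hL : LOk g V τ B a) {A : Fin M → Finset ℕ} (hA : A ∈ g.Fam) :
    3 ^ (B + τ + 1) * (g.Rp * g.Q A * vv V) ≤ 2 ^ (g.I / 64 + g.I / 8 + g.I / 16) := by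
  rw [pow_add 2, pow_add 2, mul_assoc (2 ^ (g.I / 64))]
  refine Nat.mul_le_mul hL.size3 ?_
  exact Nat.mul_le_mul (hg.hRQ A hA) hL.sizeV

theorem UL_ge (hg : g.Ok) (hL : LOk g V τ B a) : (2 : ℝ) ^ (g.I / 2 - g.r) ≤ UL g V τ := by
  rw [UL, le_div_iff₀ (by positivity), ← pow_add]
  apply Real.le_sqrt_of_sq_le
  rw [← pow_mul]
  have h1 := hg.hrI
  have h2 : (2 : ℝ) ^ ((g.I / 2 - g.r + g.r) * 2) ≤ 2 ^ g.I :=
    pow_le_pow_right₀ (by norm_num) (by omega)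
  have h3 : (0 : ℝ) < 2 ^ g.I := by positivity
  have h4 : (1 : ℝ) ≤ vv V := by exact_mod_cast vv_pos hL
  have h5 : (1 : ℝ) ≤ 3 ^ (τ + 1) := one_le_pow₀ (by norm_num)
  calc (2 : ℝ) ^ ((g.I / 2 - g.r + g.r) * 2) ≤ 2 ^ g.I := h2
    _ = 1 * 2 ^ g.I * 1 := by ring
    _ ≤ 3 ^ (τ + 1) * 2 ^ g.I * vv V := by gcongr

theorem UL_nonneg : 0 ≤ UL g V τ := by
  unfold UL
  positivity

/-- the bound for `u` -/
theorem u_le (s u δ N : ℕ) (hN : N ≤ 2 ^ g.I * vv V)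
    (h : 3 ^ (τ + 1) * N = δ * s ^ 2 + 4 ^ g.r * u ^ 2) : u ≤ ⌊UL g V τ⌋₊ := by
  apply Nat.le_floor
  rw [UL, le_div_iff₀ (by positivity)]
  apply Real.le_sqrt_of_sq_le
  have h1 : 4 ^ g.r * u ^ 2 ≤ 3 ^ (τ + 1) * (2 ^ g.I * vv V) := by
    have := Nat.mul_le_mul_left (3 ^ (τ + 1)) hN
    omega
  have h2 : (4 : ℝ) ^ g.r * (u : ℝ) ^ 2 ≤ 3 ^ (τ + 1) * (2 ^ g.I * vv V) := by exact_mod_cast h1
  have h6 : ((2 : ℝ) ^ g.r) ^ 2 = 4 ^ g.r := by
    rw [← pow_mul, mul_comm, pow_mul]; norm_num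
  rw [mul_pow, h6]
  linarith

/-- `u` lies in the classes modulo the small primes -/
theorem u_om (r δ s u q m : ℕ) (hq : 0 < q) (hqm : q ∣ m)
    (h : m ∣ δ * s ^ 2 + 4 ^ r * u ^ 2) : u % q ∈ Om r δ s q := by
  simp only [Om, mem_filter, mem_range]
  refine ⟨Nat.mod_lt _ hq, ?_⟩
  have h5 : (δ * s ^ 2 + 4 ^ r * (u % q) ^ 2) ≡ (δ * s ^ 2 + 4 ^ r * u ^ 2) [MOD q] :=
    Nat.ModEq.add_left _ (Nat.ModEq.mul_left _ ((Nat.mod_modEq u q).pow 2))
  exact (h5.dvd_iff dvd_rfl).mpr (hqm.trans h)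

end

end Pool.Agent.D0H88.PT
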