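import Pool.Agent.D0H88.PT.Loc

set_option autoImplicit false

/-! Localised tuples represented by a given kernel, trivial bound (after `H307R2/OP/T2`). -/

namespace Pool.Agent.D0H88.PT

open Finset Pool.Agent.H307R2.OP

open Classical in
theorem tupLargeL (h1 : QRStmt) (h2 : ESStmt) (h3 : TupStmt) {M : ℕ} (g : Cfg M) (hg : g.Ok)
    {V : Finset ℕ} {τ B a : ℕ} (hL : LOk g V τ B a) (δ : ℕ) (hδ : Adm δ) :
    ((g.Tup.filter (fun t => RepL g.r τ δ (g.N t * vv V) ∧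
      g.N t * vv V ≡ a [MOD 3 ^ B])).card : ℝ) ≤
    Real.sqrt (3 ^ (τ + 1) * 2 ^ g.I * vv V / δ) * 2 ^ (∑ j, g.k j + g.R.card + V.card + 2) *
      (UL g V τ / (g.Rp * vv V * 3 ^ (B + τ + 1))) * g.W := by
  have hδpos : 0 < δ := by
    have := hδ.1
    omega
  set S0 : ℕ := ⌊Real.sqrt (3 ^ (τ + 1) * 2 ^ g.I * vv V / δ)⌋₊ with hS0
  set U0 : ℕ := ⌊UL g V τ⌋₊ with hU0
  set H : ℕ := ∑ j, g.k j + g.R.card + V.card with hH
  have hUnn : 0 ≤ UL g V τ := UL_nonneg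
  have hv := vv_pos hL
  -- the target set
  set X : Finset (Σ _ : (Fin M → Finset ℕ) × ℕ, ℕ) :=
    (g.Fam ×ˢ ((Icc 1 S0).filter (fun s => ¬ 3 ∣ s))).sigma
      (fun x => (range (U0 + 1)).filter
      (fun u => u % 3 ^ (B + τ + 1) ∈ O3 g.r δ x.2 τ a (B + τ + 1) ∧
        ∀ q ∈ AL g V x.1, u % q ∈ Om g.r δ x.2 q)) with hX
  have hcard1 : (g.Tup.filter (fun t => RepL g.r τ δ (g.N t * vv V) ∧
      g.N t * vv V ≡ a [MOD 3 ^ B])).card ≤ X.card := by
    let f : (Σ _ : Fin M → Finset ℕ, ℕ) → (Σ _ : (Fin M → Finset ℕ) × ℕ, ℕ) := fun t =>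
      if h : RepL g.r τ δ (g.N t * vv V) then ⟨(t.1, h.choose), h.choose_spec.choose⟩
      else ⟨(t.1, 0), 0⟩
    have hf : ∀ t, (h : RepL g.r τ δ (g.N t * vv V)) → ∃ s u : ℕ, f t = ⟨(t.1, s), u⟩ ∧
        ¬ 3 ∣ s ∧ 3 ^ (τ + 1) * (g.N t * vv V) = δ * s ^ 2 + 4 ^ g.r * u ^ 2 := by
      intro t h
      refine ⟨h.choose, h.choose_spec.choose, ?_, h.choose_spec.choose_spec⟩
      simp only [f, dif_pos h]
    refine Finset.card_le_card_of_injOn f ?_ ?_
    · intro t ht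
      rw [mem_coe, mem_filter] at ht
      obtain ⟨htT, hRep, hmod⟩ := ht
      obtain ⟨s, u, hfe, hs3, hsu⟩ := hf t hRep
      rw [hfe, mem_coe, hX, mem_sigma]
      obtain ⟨s', hs'p, hs'prod, -, -, -, -, -, hNle⟩ := h3 M g hg t htT
      have htT' := htT
      rw [Cfg.Tup, mem_sigma] at htT'
      have hs1 : 1 ≤ s := by
        rcases Nat.eq_zero_or_pos s with h0 | h0
        · exact absurd (h0 ▸ dvd_zero 3) hs3
        · exact h0
      have hNle' : g.N t * vv V ≤ 2 ^ g.I * vv V := Nat.mul_le_mul_right _ hNle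
      have hδR : (0 : ℝ) < δ := by exact_mod_cast hδpos
      have hsS : s ≤ S0 := by
        apply Nat.le_floor
        apply Real.le_sqrt_of_sq_le
        rw [le_div_iff₀ hδR]
        have e1 : δ * s ^ 2 ≤ 3 ^ (τ + 1) * (2 ^ g.I * vv V) := by
          have := Nat.mul_le_mul_left (3 ^ (τ + 1)) hNle'
          omega
        have e2 : (δ : ℝ) * (s : ℝ) ^ 2 ≤ 3 ^ (τ + 1) * (2 ^ g.I * vv V) := by exact_mod_cast e1
        linarith
      have huU : u ≤ U0 := u_le s u δ _ hNle' hsu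
      refine ⟨mem_product.mpr ⟨htT'.1, mem_filter.2 ⟨mem_Icc.mpr ⟨hs1, hsS⟩, hs3⟩⟩, ?_⟩
      simp only [mem_filter, mem_range]
      refine ⟨Nat.lt_succ_of_le huU, O3_mem hsu hmod, fun q hq => ?_⟩
      refine u_om g.r δ s u q (∏ q ∈ AL g V t.1, q) (AL_prime hg hL htT'.1 q hq).1.pos
        (Finset.dvd_prod_of_mem _ hq) ?_
      rw [AL_prod hg hL htT'.1, ← hsu]
      exact Dvd.intro (t.2 * 3 ^ (τ + 1)) (by rw [Cfg.N]; ring)
    · intro t ht t' ht' heq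
      rw [mem_coe, mem_filter] at ht ht'
      obtain ⟨htT, hRep, -⟩ := ht
      obtain ⟨htT', hRep', -⟩ := ht'
      obtain ⟨s, u, hfe, -, hsu⟩ := hf t hRep
      obtain ⟨s', u', hfe', -, hsu'⟩ := hf t' hRep'
      rw [hfe, hfe'] at heq
      have e1 := Sigma.mk.inj_iff.mp heq
      obtain ⟨e2, e3⟩ := e1
      have e3' : u = u' := eq_of_heq e3
      have e4 : t.1 = t'.1 := congrArg Prod.fst e2
      have e5 : s = s' := congrArg Prod.snd e2
      subst e3' e5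
      rw [← hsu'] at hsu
      rw [Cfg.Tup, mem_sigma] at htT
      have hmpos := T2Aux.m_pos g hg htT.1
      have e6 : g.N t = g.N t' :=
        Nat.eq_of_mul_eq_mul_right hv (Nat.eq_of_mul_eq_mul_left (by positivity) hsu)
      rw [Cfg.N, Cfg.N, ← e4] at e6
      have e7 : t.2 = t'.2 := Nat.eq_of_mul_eq_mul_left hmpos e6
      exact Sigma.ext e4 (heq_of_eq e7)
  -- the number of u for given A and s
  have hfib : ∀ x ∈ g.Fam ×ˢ ((Icc 1 S0).filter (fun s => ¬ 3 ∣ s)), (((range (U0 + 1)).filter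
      (fun u => u % 3 ^ (B + τ + 1) ∈ O3 g.r δ x.2 τ a (B + τ + 1) ∧
        ∀ q ∈ AL g V x.1, u % q ∈ Om g.r δ x.2 q)).card : ℝ) ≤
      2 ^ (H + 2) * (UL g V τ / (g.Rp * vv V * 3 ^ (B + τ + 1))) * (1 / (g.Q x.1 : ℝ)) := by
    rintro ⟨A, s⟩ hx
    rw [mem_product, mem_filter] at hx
    have hA : A ∈ g.Fam := hx.1
    have hs3 : ¬ 3 ∣ s := hx.2.2
    have hpr := AL_prime hg hL hA
    have hc1 := count_le' (AL g V A) (fun q => Om g.r δ s q) U0 (3 ^ (B + τ + 1))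
      (O3 g.r δ s τ a (B + τ + 1)) (fun q hq => (hpr q hq).1)
      (fun q hq => coprime_three (hpr q hq) _) (by positivity)
      (fun q hq => T2Aux.om_le h1 g.r δ s q hδ (hpr q hq).1 (hpr q hq).2)
    rw [AL_prod hg hL hA, AL_card hg hL hA] at hc1
    have hc1' : ((range (U0 + 1)).filter
        (fun u => u % 3 ^ (B + τ + 1) ∈ O3 g.r δ s τ a (B + τ + 1) ∧
        ∀ q ∈ AL g V A, u % q ∈ Om g.r δ s q)).card ≤
        (U0 / (3 ^ (B + τ + 1) * (g.Rp * g.Q A * vv V)) + 1) * (2 * 2 ^ H) :=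
      hc1.trans (Nat.mul_le_mul_left _ (Nat.mul_le_mul_right _
        (O3_card _ _ _ _ _ _ hδ hs3 (by omega))))
    have hmpos := T2Aux.m_pos g hg hA
    set m : ℕ := 3 ^ (B + τ + 1) * (g.Rp * g.Q A * vv V) with hm
    have hm0 : 0 < m := by positivity
    have hmR : (0 : ℝ) < (m : ℝ) := by exact_mod_cast hm0
    have hmle : (m : ℝ) ≤ UL g V τ := by
      refine le_trans ?_ (UL_ge hg hL)
      have h5 := mod_le hg hL hA
      have h6 : (m : ℝ) ≤ 2 ^ (g.I / 64 + g.I / 8 + g.I / 16) := by exact_mod_cast h5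
      refine h6.trans (pow_le_pow_right₀ (by norm_num) ?_)
      have := hg.hrI
      have := hg.hI
      omega
    have hc2 : (((U0 / m + 1) * (2 * 2 ^ H) : ℕ) : ℝ) ≤
        (UL g V τ / (m : ℝ) + UL g V τ / (m : ℝ)) * (2 * 2 ^ H) := by
      push_cast
      refine mul_le_mul_of_nonneg_right (add_le_add ?_ ?_) (by positivity)
      · refine le_trans Nat.cast_div_le ?_
        exact div_le_div_of_nonneg_right (Nat.floor_le hUnn) hmR.le
      · rw [le_div_iff₀ hmR, one_mul]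
        exact hmle
    calc _ ≤ (((U0 / m + 1) * (2 * 2 ^ H) : ℕ) : ℝ) := by exact_mod_cast hc1'
      _ ≤ _ := hc2
      _ = _ := by
        have hR0 : (g.Rp : ℝ) ≠ 0 := by
          have : g.Rp ≠ 0 := fun h => by rw [h, zero_mul] at hmpos; exact lt_irrefl _ hmpos
          exact_mod_cast this
        have hQ0 : (g.Q A : ℝ) ≠ 0 := by
          have : g.Q A ≠ 0 := fun h => by rw [h, mul_zero] at hmpos; exact lt_irrefl _ hmpos
          exact_mod_cast this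
        have hv0 : (vv V : ℝ) ≠ 0 := by exact_mod_cast hv.ne'
        rw [hm]
        push_cast
        field_simp
        ring
  have hXcard : (X.card : ℝ) ≤ ∑ x ∈ g.Fam ×ˢ ((Icc 1 S0).filter (fun s => ¬ 3 ∣ s)),
      2 ^ (H + 2) * (UL g V τ / (g.Rp * vv V * 3 ^ (B + τ + 1))) * (1 / (g.Q x.1 : ℝ)) := by
    rw [hX, card_sigma]
    push_cast
    exact Finset.sum_le_sum hfib
  have hWnn : 0 ≤ ∑ A ∈ g.Fam, 1 / (g.Q A : ℝ) := Finset.sum_nonneg (fun A _ => by positivity)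
  set c : ℝ := 2 ^ (H + 2) * (UL g V τ / (g.Rp * vv V * 3 ^ (B + τ + 1))) with hcdef
  have hc0 : 0 ≤ c := by rw [hcdef]; positivity
  have hsum : ∑ x ∈ g.Fam ×ˢ ((Icc 1 S0).filter (fun s => ¬ 3 ∣ s)),
      c * (1 / (g.Q x.1 : ℝ)) ≤ (S0 : ℝ) * (c * ∑ A ∈ g.Fam, 1 / (g.Q A : ℝ)) := by
    rw [Finset.sum_product_right]
    simp only [← Finset.mul_sum]
    rw [Finset.sum_const, nsmul_eq_mul]
    have e : ∀ x : ℝ, c * (x * ∑ A ∈ g.Fam, 1 / (g.Q A : ℝ)) =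
        x * (c * ∑ A ∈ g.Fam, 1 / (g.Q A : ℝ)) := fun x => by ring
    rw [e]
    apply mul_le_mul_of_nonneg_right _ (mul_nonneg hc0 hWnn)
    have : ((Icc 1 S0).filter (fun s => ¬ 3 ∣ s)).card ≤ S0 := by
      refine (Finset.card_filter_le _ _).trans ?_
      rw [Nat.card_Icc, Nat.add_sub_cancel]
    exact_mod_cast this
  have hS0le : (S0 : ℝ) ≤ Real.sqrt (3 ^ (τ + 1) * 2 ^ g.I * vv V / δ) :=
    Nat.floor_le (Real.sqrt_nonneg _)
  have hW := T2Aux.sum_inv g h2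
  calc ((g.Tup.filter (fun t => RepL g.r τ δ (g.N t * vv V) ∧
      g.N t * vv V ≡ a [MOD 3 ^ B])).card : ℝ) ≤ (X.card : ℝ) := by
        exact_mod_cast hcard1
    _ ≤ _ := hXcard
    _ ≤ _ := hsum
    _ ≤ Real.sqrt (3 ^ (τ + 1) * 2 ^ g.I * vv V / δ) * (c * g.W) := by
        refine mul_le_mul hS0le (mul_le_mul_of_nonneg_left hW hc0) (mul_nonneg hc0 hWnn)
          (Real.sqrt_nonneg _)
    _ = _ := by rw [hcdef]; ring

end Pool.Agent.D0H88.PT
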