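import Pool.Agent.D0H88.PT.Loc
import Pool.Agent.H307R2.OP.T3
import Pool.Agent.H307R2.OP.BT4

set_option autoImplicit false

/-! Localised tuples represented by a small kernel (after `H307R2/OP/T3`). -/

namespace Pool.Agent.D0H88.PT

open Finset Pool.Agent.H307R2.OP

/-- the number of large primes of a family member in a class modulo the power of 3 -/
theorem card_PrL : ∃ I0 : ℕ, ∀ {M : ℕ} (g : Cfg M), g.Ok → I0 ≤ g.I →
    ∀ {V : Finset ℕ} {τ B a : ℕ}, LOk g V τ B a → ∀ {A : Fin M → Finset ℕ}, A ∈ g.Fam →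
    (((g.Pr A).filter (fun p => g.Rp * g.Q A * p * vv V ≡ a [MOD 3 ^ B])).card : ℝ) ≤
      54 * (2 ^ g.I / (g.Rp * g.I * 3 ^ B)) * (1 / (g.Q A : ℝ)) := by
  obtain ⟨N0, hN0⟩ := bt4
  refine ⟨2 * N0 + 2, ?_⟩
  intro M g hg hI0 V τ B a hL A hA
  have hRQ := hg.hRQ A hA
  have hI := hg.hI
  have hRp0 := t3_Rp_pos g hg
  have hQ0 := t3_Q_pos g hA
  have hB3 : 3 ^ B ≤ 2 ^ (g.I / 64) := by
    refine le_trans ?_ hL.size3
    exact Nat.pow_le_pow_right (by norm_num) (by omega)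
  set x : ℕ := 2 ^ g.I / (g.Rp * g.Q A) with hx
  have hxlow : 2 ^ (g.I - g.I / 8) ≤ x := by
    rw [hx, Nat.le_div_iff_mul_le (by positivity)]
    calc 2 ^ (g.I - g.I / 8) * (g.Rp * g.Q A) ≤ 2 ^ (g.I - g.I / 8) * 2 ^ (g.I / 8) :=
          Nat.mul_le_mul_left _ hRQ
      _ = 2 ^ g.I := by rw [← pow_add]; congr 1; omega
  set q : ℕ := 3 ^ B with hq
  have hq0 : 0 < q := by positivity
  set D : ℕ := g.Rp * g.Q A * vv V with hD
  have hcop : Nat.Coprime D q := by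
    rw [hD, ← AL_prod hg hL hA, hq]
    refine Nat.Coprime.prod_left fun p hp => ?_
    exact (coprime_three (AL_prime hg hL hA p hp) B).symm
  obtain ⟨a', -, ha'⟩ := Nat.exists_mul_mod_eq_of_coprime a hcop hq0.ne'
  -- the set of the quotients
  have hcard : ((g.Pr A).filter (fun p => g.Rp * g.Q A * p * vv V ≡ a [MOD q])).card ≤
      ((range (x / q + 1)).filter (fun k => (a' % q + k * q).Prime)).card := by
    refine Finset.card_le_card_of_injOn (fun p => p / q) ?_ ?_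
    · intro p hp
      rw [mem_coe, mem_filter] at hp
      obtain ⟨hp1, hp2⟩ := hp
      unfold Cfg.Pr at hp1
      rw [mem_filter, mem_Ioc] at hp1
      have hmod : p % q = a' % q := by
        have h1 : D * p ≡ D * a' [MOD q] := by
          have e1 : D * p = g.Rp * g.Q A * p * vv V := by rw [hD]; ring
          rw [e1]
          exact hp2.trans (show a % q = D * a' % q from ha'.symm)
        have hgcd : Nat.gcd q D = 1 := by rw [Nat.gcd_comm]; exact hcop
        exact Nat.ModEq.cancel_left_of_coprime hgcd h1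
      rw [mem_coe, mem_filter, mem_range]
      refine ⟨Nat.lt_succ_of_le (Nat.div_le_div_right hp1.1.2), ?_⟩
      have e2 : a' % q + p / q * q = p := by
        rw [← hmod]
        exact Nat.mod_add_div' p q
      simp only [e2]
      exact hp1.2.1
    · intro p hp p' hp' heq
      rw [mem_coe, mem_filter] at hp hp'
      have hm : ∀ p : ℕ, g.Rp * g.Q A * p * vv V ≡ a [MOD q] → p % q = a' % q := by
        intro p hp2
        have h1 : D * p ≡ D * a' [MOD q] := by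
          have e1 : D * p = g.Rp * g.Q A * p * vv V := by rw [hD]; ring
          rw [e1]
          exact hp2.trans (show a % q = D * a' % q from ha'.symm)
        have hgcd : Nat.gcd q D = 1 := by rw [Nat.gcd_comm]; exact hcop
        exact Nat.ModEq.cancel_left_of_coprime hgcd h1
      have e1 := hm p hp.2
      have e2 := hm p' hp'.2
      simp only at heq
      rw [← Nat.div_add_mod p q, ← Nat.div_add_mod p' q, heq, e1, e2]
  have hxq : 2 ^ (g.I / 2) ≤ x / q := by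
    rw [Nat.le_div_iff_mul_le hq0]
    calc 2 ^ (g.I / 2) * q ≤ 2 ^ (g.I / 2) * 2 ^ (g.I / 64) := Nat.mul_le_mul_left _ hB3
      _ = 2 ^ (g.I / 2 + g.I / 64) := by rw [pow_add]
      _ ≤ 2 ^ (g.I - g.I / 8) := Nat.pow_le_pow_right (by norm_num) (by omega)
      _ ≤ x := hxlow
  have hN0x : N0 ≤ x / q + 1 := by
    have : g.I / 2 < 2 ^ (g.I / 2) := Nat.lt_two_pow_self
    omega
  have hbt := hN0 (a' % q) q (x / q + 1) (by omega) hN0x
  have hI0' : (0 : ℝ) < g.I := by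
    have : 0 < g.I := by omega
    exact_mod_cast this
  have hlog : (g.I : ℝ) / 4 ≤ Real.log ((x / q + 1 : ℕ) : ℝ) := by
    have h1 : Real.log ((2:ℝ) ^ (g.I / 2)) ≤ Real.log ((x / q + 1 : ℕ) : ℝ) := by
      apply Real.log_le_log (by positivity)
      have : 2 ^ (g.I / 2) ≤ x / q + 1 := by omega
      exact_mod_cast this
    rw [Real.log_pow] at h1
    have h2 : (g.I : ℝ) ≤ 2 * ((g.I / 2 : ℕ) : ℝ) + 1 := by
      have : g.I ≤ 2 * (g.I / 2) + 1 := by omega
      exact_mod_cast this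
    have h3 := Real.log_two_gt_d9
    have h4 : (800:ℝ) ≤ g.I := by exact_mod_cast hI
    nlinarith
  have htot : (q : ℝ) / Nat.totient q = 3 / 2 := by
    rw [hq, Nat.totient_prime_pow Nat.prime_three hL.hB]
    obtain ⟨n, rfl⟩ : ∃ n, B = n + 1 := ⟨B - 1, by have := hL.hB; omega⟩
    rw [Nat.add_sub_cancel, pow_succ]
    push_cast
    have h3 : (0 : ℝ) < 3 ^ n := by positivity
    field_simp
    try norm_num
  have hqR : (0 : ℝ) < q := by exact_mod_cast hq0
  have hRpR : (0:ℝ) < g.Rp := by exact_mod_cast hRp0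
  have hQR : (0:ℝ) < g.Q A := by exact_mod_cast hQ0
  have hxR : (x:ℝ) ≤ 2 ^ g.I / (g.Rp * g.Q A) := by
    have := @Nat.cast_div_le ℝ _ _ _ (2 ^ g.I) (g.Rp * g.Q A)
    rw [← hx] at this
    push_cast at this
    exact this
  have hN : (((x / q + 1 : ℕ)) : ℝ) ≤ 2 * ((x : ℝ) / q) := by
    have e1 : ((x / q : ℕ) : ℝ) ≤ (x : ℝ) / q := Nat.cast_div_le
    have e2 : (1 : ℝ) ≤ (x : ℝ) / q := by
      rw [le_div_iff₀ hqR, one_mul]
      have : 2 ^ (g.I / 2) * q ≤ x := (Nat.le_div_iff_mul_le hq0).1 hxq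
      have h1 : 1 ≤ 2 ^ (g.I / 2) := Nat.one_le_two_pow
      have h2 : 1 * q ≤ 2 ^ (g.I / 2) * q := Nat.mul_le_mul_right _ h1
      have h3 : q ≤ x := by omega
      exact_mod_cast h3
    push_cast
    linarith
  have hNpos : (0 : ℝ) < ((x / q + 1 : ℕ) : ℝ) := by positivity
  have hlog0 : 0 < Real.log ((x / q + 1 : ℕ) : ℝ) := lt_of_lt_of_le (by positivity) hlog
  rw [htot] at hbt
  calc (((g.Pr A).filter (fun p => g.Rp * g.Q A * p * vv V ≡ a [MOD q])).card : ℝ)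
      ≤ (((range (x / q + 1)).filter (fun k => (a' % q + k * q).Prime)).card : ℝ) := by
        exact_mod_cast hcard
    _ ≤ 9 / 2 * (3 / 2) * (((x / q + 1 : ℕ) : ℝ) / Real.log ((x / q + 1 : ℕ) : ℝ)) := hbt
    _ ≤ 9 / 2 * (3 / 2) * ((2 * ((x : ℝ) / q)) / (g.I / 4)) := by
        gcongr
    _ ≤ 9 / 2 * (3 / 2) * ((2 * ((2 ^ g.I / (g.Rp * g.Q A)) / q)) / (g.I / 4)) := by
        gcongr
    _ = 54 * (2 ^ g.I / (g.Rp * g.I * q)) * (1 / (g.Q A : ℝ)) := by
        field_simp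
        norm_num
    _ = _ := by rw [hq]; push_cast; rfl

theorem repL_rep {r τ δ N : ℕ} (h : RepL r τ δ N) : Rep r δ (3 ^ τ * N) := by
  obtain ⟨s, u, -, h⟩ := h
  refine ⟨s, u, ?_⟩
  rw [← h, pow_succ]
  ring

theorem not_sq_dvd {N v q τ : ℕ} (hq : q.Prime) (h5 : 5 ≤ q) (h1 : q ∣ N) (h2 : ¬ q ^ 2 ∣ N)
    (hv : ¬ q ∣ v) : q ∣ 3 ^ τ * (N * v) ∧ ¬ q ^ 2 ∣ 3 ^ τ * (N * v) := by
  refine ⟨(h1.mul_right v).mul_left _, fun h => h2 ?_⟩
  have hc3 : Nat.Coprime (q ^ 2) (3 ^ τ) := by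
    apply Nat.Coprime.pow
    rw [Nat.coprime_primes hq Nat.prime_three]
    omega
  have h3 := hc3.dvd_of_dvd_mul_left h
  have hcv : Nat.Coprime (q ^ 2) v := by
    apply Nat.Coprime.pow_left
    exact (Nat.Prime.coprime_iff_not_dvd hq).2 hv
  exact hcv.dvd_of_dvd_mul_right h3

/-- a prime of a tuple does not divide the cofactor -/
theorem not_dvd_vv {M : ℕ} {g : Cfg M} (hg : g.Ok) {V : Finset ℕ} {τ B a : ℕ}
    (hL : LOk g V τ B a) {A : Fin M → Finset ℕ} (hA : A ∈ g.Fam) {q : ℕ}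
    (hq : q ∈ T2Aux.AA g A) : ¬ q ∣ vv V := by
  intro h
  have hqp := (T2Aux.AA_prime g hg hA q hq).1
  obtain ⟨p, hp, hqd⟩ := (hqp.prime.dvd_finsetProd_iff (fun q : ℕ => q)).1 h
  have := (Nat.prime_dvd_prime_iff_eq hqp (hL.prV p hp).1).1 hqd
  subst this
  exact (Finset.disjoint_left.1 (AL_disj hL hA)) hq hp

open Classical in
theorem tupSmallL (h1 : QRStmt) (h2 : ESStmt) (h3 : TupStmt) : ∃ I0 : ℕ, ∀ {M : ℕ} (g : Cfg M),
    g.Ok → I0 ≤ g.I → ∀ {V : Finset ℕ} {τ B a : ℕ}, LOk g V τ B a → ∀ δ : ℕ, Adm δ →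
    ∀ (j : Fin M) (θ : ℝ), 0 ≤ θ → θ ≤ 1 →
    ∑ q ∈ (g.Blk j).filter (fun q => J q δ ≠ -1), (1 : ℝ) / q ≤ (1 - θ) * g.S j →
    ((g.Tup.filter (fun t => RepL g.r τ δ (g.N t * vv V) ∧
      g.N t * vv V ≡ a [MOD 3 ^ B])).card : ℝ) ≤
    54 * (2 ^ g.I / (g.Rp * g.I * 3 ^ B)) * g.W * (1 - θ) ^ (g.k j) := by
  obtain ⟨I0, hI0⟩ := card_PrL
  refine ⟨I0, ?_⟩
  intro M g hg hI V τ B a hL δ hδ j θ hθ0 hθ1 hblk
  set B' : Fin M → Finset ℕ := fun i =>
    if i = j then (g.Blk j).filter (fun q => J q δ ≠ -1) else g.Blk i with hB'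
  have hB'sub : ∀ i, B' i ⊆ g.Blk i := by
    intro i
    simp only [hB']
    split_ifs with h
    · rw [h]; exact Finset.filter_subset _ _
    · exact Finset.Subset.refl _
  set Fam' : Finset (Fin M → Finset ℕ) :=
    Fintype.piFinset (fun i => powersetCard (g.k i) (B' i)) with hFam'
  have hFsub : Fam' ⊆ g.Fam := by
    intro A hA
    rw [hFam', Fintype.mem_piFinset] at hA
    unfold Cfg.Fam
    rw [Fintype.mem_piFinset]
    intro i
    have := hA i
    rw [mem_powersetCard] at this ⊢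
    exact ⟨this.1.trans (hB'sub i), this.2⟩
  have hsub : g.Tup.filter (fun t => RepL g.r τ δ (g.N t * vv V) ∧
      g.N t * vv V ≡ a [MOD 3 ^ B]) ⊆ Fam'.sigma (fun A =>
        (g.Pr A).filter (fun p => g.Rp * g.Q A * p * vv V ≡ a [MOD 3 ^ B])) := by
    intro t ht
    rw [mem_filter] at ht
    have ht1 := ht.1
    unfold Cfg.Tup at ht1
    rw [mem_sigma] at ht1 ⊢
    refine ⟨?_, mem_filter.2 ⟨ht1.2, ht.2.2⟩⟩
    have hF := ht1.1
    have hF0 := hF
    unfold Cfg.Fam at hF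
    rw [Fintype.mem_piFinset] at hF
    rw [hFam', Fintype.mem_piFinset]
    intro i
    have := hF i
    rw [mem_powersetCard] at this ⊢
    refine ⟨?_, this.2⟩
    simp only [hB']
    split_ifs with h
    · intro q hq
      rw [mem_filter]
      subst h
      refine ⟨this.1 hq, ?_⟩
      intro hJ
      obtain ⟨s, s1, s2, s3, s4, s5, s6, s7, s8⟩ := h3 M g hg t ht.1
      have hqs := s6 i hq
      have hqA : q ∈ T2Aux.AA g t.1 := by
        rw [T2Aux.AA, mem_union, mem_biUnion]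
        exact Or.inr ⟨i, mem_univ _, hq⟩
      have hsd := not_sq_dvd (τ := τ) (s1 q hqs).1 (s1 q hqs).2.1 (s7 q hqs).1 (s7 q hqs).2
        (not_dvd_vv hg hL hF0 hqA)
      exact h1.kill g.r δ (3 ^ τ * (g.N t * vv V)) q hδ (s1 q hqs).1 (s1 q hqs).2.1 hJ hsd.1
        hsd.2 (repL_rep ht.2.1)
    · exact this.1
  set K : ℝ := 54 * (2 ^ g.I / (g.Rp * g.I * 3 ^ B)) with hK
  have hK0 : 0 ≤ K := by rw [hK]; positivity
  have hinv : ∀ A : Fin M → Finset ℕ, (1 / (g.Q A : ℝ)) = ∏ i, ∏ q ∈ A i, (1 / (q : ℝ)) := by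
    intro A
    unfold Cfg.Q
    push_cast
    simp only [one_div, Finset.prod_inv_distrib]
  have hS0 : ∀ i, 0 ≤ g.S i := by
    intro i; unfold Cfg.S; positivity
  have hterm : ∀ i, ∑ A ∈ powersetCard (g.k i) (B' i), ∏ q ∈ A, (1 / (q:ℝ)) ≤
      (g.S i ^ g.k i / ((g.k i).factorial : ℝ)) * (if i = j then (1 - θ) ^ g.k j else 1) := by
    intro i
    refine (h2.up (B' i) (fun q => 1 / (q:ℝ)) (g.k i) (fun q _ => by positivity)).trans ?_
    by_cases hij : i = j
    · subst hij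
      simp only [hB', if_true]
      rw [div_mul_eq_mul_div]
      apply div_le_div_of_nonneg_right _ (by positivity)
      rw [← mul_pow, mul_comm (g.S i)]
      exact pow_le_pow_left₀ (Finset.sum_nonneg (fun q _ => by positivity)) hblk _
    · simp only [hB', if_neg hij, mul_one]
      apply le_of_eq
      rfl
  have hprod : ∑ A ∈ Fam', (1 / (g.Q A : ℝ)) ≤ g.W * (1 - θ) ^ g.k j := by
    calc ∑ A ∈ Fam', (1 / (g.Q A : ℝ)) = ∑ A ∈ Fam', ∏ i, ∏ q ∈ A i, (1 / (q : ℝ)) :=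
          Finset.sum_congr rfl (fun A _ => hinv A)
      _ = ∏ i, ∑ A ∈ powersetCard (g.k i) (B' i), ∏ q ∈ A, (1 / (q:ℝ)) :=
          h2.fam M B' g.k (fun q => 1 / (q:ℝ))
      _ ≤ ∏ i, ((g.S i ^ g.k i / ((g.k i).factorial : ℝ)) *
            (if i = j then (1 - θ) ^ g.k j else 1)) := by
          apply Finset.prod_le_prod
          · intro i _
            exact Finset.sum_nonneg (fun A _ => Finset.prod_nonneg (fun q _ => by positivity))
          · intro i _
            exact hterm i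
      _ = g.W * (1 - θ) ^ g.k j := by
          rw [Finset.prod_mul_distrib, Finset.prod_ite_eq' Finset.univ j, if_pos (Finset.mem_univ j)]
          rfl
  calc ((g.Tup.filter (fun t => RepL g.r τ δ (g.N t * vv V) ∧
      g.N t * vv V ≡ a [MOD 3 ^ B])).card : ℝ)
      ≤ ((Fam'.sigma (fun A => (g.Pr A).filter
          (fun p => g.Rp * g.Q A * p * vv V ≡ a [MOD 3 ^ B]))).card : ℝ) := by
        exact_mod_cast Finset.card_le_card hsub
    _ = ∑ A ∈ Fam', (((g.Pr A).filter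
          (fun p => g.Rp * g.Q A * p * vv V ≡ a [MOD 3 ^ B])).card : ℝ) := by
        rw [Finset.card_sigma]; push_cast; rfl
    _ ≤ ∑ A ∈ Fam', K * (1 / (g.Q A : ℝ)) :=
        Finset.sum_le_sum (fun A hA => hI0 g hg hI hL (hFsub hA))
    _ = K * ∑ A ∈ Fam', (1 / (g.Q A : ℝ)) := by rw [Finset.mul_sum]
    _ ≤ K * (g.W * (1 - θ) ^ g.k j) := mul_le_mul_of_nonneg_left hprod hK0
    _ = _ := by ring

end Pool.Agent.D0H88.PT
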