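import Pool.Agent.D0H88.PT.Block
import Pool.Agent.D0H88.PT.Loc
import Pool.Agent.D0H88.PT.Par

set_option autoImplicit false

/-! The cofactors: products of 302 primes of consecutive dyadic blocks. -/

namespace Pool.Agent.D0H88.PT

open Finset Pool.Agent.H307R2.OP Chr

/-- the blocks of the cofactor -/
def VB (l : ℕ) (R : Finset ℕ) (i : Fin (300 + 2)) : Finset ℕ := PB (l + (i : ℕ)) 5 \ R

/-- the choices of the primes of the cofactor -/
def VF (l : ℕ) (R : Finset ℕ) : Finset (Fin (300 + 2) → ℕ) := Fintype.piFinset (VB l R)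

/-- the set of the primes of the cofactor -/
def vset (v : Fin (300 + 2) → ℕ) : Finset ℕ := univ.image v

section

variable {l : ℕ} {R : Finset ℕ} {v : Fin (300 + 2) → ℕ}

theorem VF_mem (hv : v ∈ VF l R) (i : Fin (300 + 2)) :
    (2 ^ (l + (i : ℕ)) < v i ∧ v i ≤ 2 ^ (l + (i : ℕ) + 1)) ∧ (v i).Prime ∧ v i % 8 = 5 ∧
      v i ∉ R := by
  have h := (Fintype.mem_piFinset.1 hv) i
  rw [VB, Finset.mem_sdiff, PB, mem_filter, mem_Ioc] at h
  exact ⟨h.1.1, h.1.2.1, h.1.2.2, h.2⟩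

theorem VF_inj (hv : v ∈ VF l R) : Function.Injective v := by
  have key : ∀ i j : Fin (300 + 2), i < j → v i < v j := by
    intro i j hij
    have h1 := (VF_mem hv i).1.2
    have h2 := (VF_mem hv j).1.1
    have h3 : 2 ^ (l + (i : ℕ) + 1) ≤ 2 ^ (l + (j : ℕ)) := by
      apply Nat.pow_le_pow_right (by norm_num)
      have : (i : ℕ) < j := hij
      omega
    omega
  intro i j h
  rcases lt_trichotomy i j with h1 | h1 | h1
  · have := key i j h1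
    omega
  · exact h1
  · have := key j i h1
    omega

theorem vset_card (hv : v ∈ VF l R) : (vset v).card = 302 := by
  rw [vset, Finset.card_image_of_injective _ (VF_inj hv), Finset.card_univ, Fintype.card_fin]

theorem vv_vset (hv : v ∈ VF l R) : vv (vset v) = ∏ i, v i := by
  rw [vv, vset, Finset.prod_image (fun i _ j _ h => VF_inj hv h)]

theorem vset_mem (hv : v ∈ VF l R) {q : ℕ} (hq : q ∈ vset v) :
    2 ^ l < q ∧ q ≤ 2 ^ (l + 302) ∧ q.Prime ∧ q % 8 = 5 ∧ q ∉ R := by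
  rw [vset, mem_image] at hq
  obtain ⟨i, -, rfl⟩ := hq
  obtain ⟨⟨h1, h2⟩, h3, h4, h5⟩ := VF_mem hv i
  refine ⟨lt_of_le_of_lt (Nat.pow_le_pow_right (by norm_num) (by omega)) h1,
    h2.trans (Nat.pow_le_pow_right (by norm_num) ?_), h3, h4, h5⟩
  have := i.2
  omega

theorem sum_fin302 : ∑ i : Fin (300 + 2), (i : ℕ) = 45451 := by
  rw [Fin.sum_univ_eq_sum_range (fun i => i) (300 + 2), Finset.sum_range_id]

theorem sum_one : ∑ i : Fin (300 + 2), (l + (i : ℕ)) = 302 * l + 45451 := by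
  rw [Finset.sum_add_distrib, sum_fin302, Finset.sum_const, Finset.card_univ, Fintype.card_fin,
    smul_eq_mul]

theorem sum_two : ∑ i : Fin (300 + 2), (l + (i : ℕ) + 1) = 302 * l + 45753 := by
  rw [Finset.sum_add_distrib, sum_one, Finset.sum_const, Finset.card_univ, Fintype.card_fin,
    smul_eq_mul]

theorem vv_low (hv : v ∈ VF l R) : 2 ^ (302 * l + 45451) ≤ vv (vset v) := by
  rw [vv_vset hv]
  have h1 : ∏ i : Fin (300 + 2), 2 ^ (l + (i : ℕ)) ≤ ∏ i, v i :=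
    Finset.prod_le_prod' fun i _ => (VF_mem hv i).1.1.le
  have h2 : ∏ i : Fin (300 + 2), 2 ^ (l + (i : ℕ)) = 2 ^ (302 * l + 45451) := by
    rw [Finset.prod_pow_eq_pow_sum, sum_one]
  rw [← h2]
  exact h1

theorem vv_up (hv : v ∈ VF l R) : vv (vset v) ≤ 2 ^ (302 * l + 45753) := by
  rw [vv_vset hv]
  have h1 : ∏ i, v i ≤ ∏ i : Fin (300 + 2), 2 ^ (l + (i : ℕ) + 1) :=
    Finset.prod_le_prod' fun i _ => (VF_mem hv i).1.2
  have h2 : ∏ i : Fin (300 + 2), 2 ^ (l + (i : ℕ) + 1) = 2 ^ (302 * l + 45753) := by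
    rw [Finset.prod_pow_eq_pow_sum, sum_two]
  rw [← h2]
  exact h1

end

/-- the choices in a class -/
theorem class_prod : ∃ l0 : ℕ, ∀ l : ℕ, l0 ≤ l → ∀ R : Finset ℕ, R.card ≤ 2 → ∀ B : ℕ, 2 ≤ B →
    3 ^ B ≤ 2 ^ (l / 100) → ∀ a N : ℕ, ¬ 3 ∣ a → ¬ 3 ∣ N →
    1 / 2 * ((VF l R).card : ℝ) ≤ (3 : ℝ) ^ B *
      (((VF l R).filter fun v => N * vv (vset v) ≡ a [MOD 3 ^ B]).card : ℝ) ∧
    0 < (VF l R).card := by
  obtain ⟨l1, hl1⟩ := block_chr
  refine ⟨100 * l1 + 100, fun l hl R hR B hB hB3 a N ha hN => ?_⟩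
  have hblk : ∀ i : Fin (300 + 2), _ := fun i : Fin (300 + 2) =>
    hl1 (l + (i : ℕ)) (by omega) R hR B hB
      (hB3.trans (Nat.pow_le_pow_right (by norm_num) (Nat.div_le_div_right (by omega))))
  have hnz : NeZero (3 ^ B) := ⟨by positivity⟩
  have hcop : ∀ n : ℕ, ¬ 3 ∣ n → IsUnit (n : ZMod (3 ^ B)) := by
    intro n hn
    rw [ZMod.isUnit_iff_coprime]
    exact Nat.Coprime.pow_right _
      ((Nat.Prime.coprime_iff_not_dvd Nat.prime_three).2 hn).symm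
  have hNu := hcop N hN
  have hau := hcop a ha
  have hNi : IsUnit ((N : ZMod (3 ^ B))⁻¹) := by
    have h1 : (N : ZMod (3 ^ B))⁻¹ * (N : ZMod (3 ^ B)) = 1 := ZMod.inv_mul_of_unit _ hNu
    exact IsUnit.of_mul_eq_one _ h1
  have hnum : (0.99 : ℝ) ^ 300 * 4.9 ≤ 1 / 2 := by
    have e1 : (0.99 : ℝ) ^ 300 = ((0.99 : ℝ) ^ 100) ^ 3 := by rw [← pow_mul]
    have e2 : (0.99 : ℝ) ^ 100 ≤ 0.37 := by norm_num
    have e3 : ((0.99 : ℝ) ^ 100) ^ 3 ≤ 0.37 ^ 3 := pow_le_pow_left₀ (by positivity) e2 3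
    rw [e1]
    norm_num at e3 ⊢
  have hpr := products (q := 3 ^ B) 300 hnum (VB l R) (fun i => (hblk i).1)
    (fun i => (hblk i).2.1) (fun i => (hblk i).2.2.1) (fun i => (hblk i).2.2.2)
    ((a : ZMod (3 ^ B)) * (N : ZMod (3 ^ B))⁻¹) (hau.mul hNi)
  have hcard : ((VF l R).card : ℝ) = ∏ i, ((VB l R i).card : ℝ) := by
    rw [VF, Fintype.card_piFinset]
    push_cast
    rfl
  have hset : ((Fintype.piFinset (VB l R)).filter fun v => ((∏ i, v i : ℕ) : ZMod (3 ^ B)) =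
      (a : ZMod (3 ^ B)) * (N : ZMod (3 ^ B))⁻¹) ⊆
      ((VF l R).filter fun v => N * vv (vset v) ≡ a [MOD 3 ^ B]) := by
    intro v hv
    rw [mem_filter] at hv ⊢
    refine ⟨hv.1, ?_⟩
    rw [← ZMod.natCast_eq_natCast_iff, vv_vset hv.1, Nat.cast_mul, hv.2, mul_comm, mul_assoc,
      ZMod.inv_mul_of_unit _ hNu, mul_one]
  have hc2 : (((Fintype.piFinset (VB l R)).filter fun v => ((∏ i, v i : ℕ) : ZMod (3 ^ B)) =
      (a : ZMod (3 ^ B)) * (N : ZMod (3 ^ B))⁻¹).card : ℝ) ≤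
      (((VF l R).filter fun v => N * vv (vset v) ≡ a [MOD 3 ^ B]).card : ℝ) := by
    exact_mod_cast Finset.card_le_card hset
  have htot : ((3 ^ B : ℕ).totient : ℝ) ≤ 3 ^ B := by
    have := Nat.totient_le (3 ^ B)
    exact_mod_cast this
  refine ⟨?_, ?_⟩
  · rw [hcard]
    refine hpr.trans ?_
    exact mul_le_mul htot hc2 (Nat.cast_nonneg _) (by positivity)
  · have h1 : (0 : ℝ) < ((VF l R).card : ℝ) := by
      rw [hcard]
      exact Finset.prod_pos fun i _ => by exact_mod_cast (hblk i).2.1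
    exact_mod_cast h1

/-- numerical facts -/
theorem size_facts (M : ℕ) (hM : 1 ≤ M) (τ : ℕ) : ∃ y0 : ℕ, ∀ y : ℕ, y0 ≤ y → ∀ I : ℕ,
    y ^ (2 * M + 4) ≤ I →
    1000000000 ≤ I ∧ (y ^ (2 * M + 2) + 1) * 10000 ≤ I ∧ y ^ (2 * M - 1) * 100000000 ≤ I ∧
    2 * τ + 10 ≤ y ^ (2 * M - 1) ∧ 1 ≤ y := by
  refine ⟨1000 + 2 * τ + 10, fun y hy I hI => ?_⟩
  have hy1 : 1 ≤ y := by omega
  have h1 : y ^ (2 * M + 4) = y ^ (2 * M + 2) * y ^ 2 := by rw [← pow_add]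
  have h2 : y ^ (2 * M + 4) = y ^ (2 * M - 1) * y ^ 5 := by
    rw [← pow_add]
    congr 1
    omega
  have h3 : 1000000 ≤ y ^ 2 := by
    have : 1000 ^ 2 ≤ y ^ 2 := Nat.pow_le_pow_left (by omega) 2
    exact this
  have h4 : 1000000000000 ≤ y ^ 5 := by
    have h : 1000 ^ 5 ≤ y ^ 5 := Nat.pow_le_pow_left (by omega) 5
    have h' : 1000000000000 ≤ 1000 ^ 5 := by norm_num
    exact h'.trans h
  have h5 : 1 ≤ y ^ (2 * M + 2) := Nat.one_le_pow _ _ hy1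
  have h6 : y ≤ y ^ (2 * M - 1) := Nat.le_self_pow (by omega) _
  have h7 : 1 ≤ y ^ (2 * M - 1) := by omega
  have e1 : y ^ (2 * M + 2) * 1000000 ≤ I := by
    rw [h1] at hI
    exact (Nat.mul_le_mul_left _ h3).trans hI
  have e2 : y ^ (2 * M - 1) * 1000000000000 ≤ I := by
    rw [h2] at hI
    exact (Nat.mul_le_mul_left _ h4).trans hI
  have h8 : 2 * τ + 10 ≤ y ^ (2 * M - 1) := by omega
  clear h1 h2 h6
  generalize y ^ (2 * M + 2) = s at e1 h5 ⊢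
  generalize y ^ (2 * M - 1) = t at e2 h7 h8 ⊢
  exact ⟨by linarith, by linarith, by linarith, h8, hy1⟩

theorem three_le_two (n m : ℕ) (h : 2 * n ≤ m) : 3 ^ n ≤ 2 ^ m := by
  calc 3 ^ n ≤ 4 ^ n := Nat.pow_le_pow_left (by norm_num) n
    _ = 2 ^ (2 * n) := by rw [pow_mul]; norm_num
    _ ≤ 2 ^ m := Nat.pow_le_pow_right (by norm_num) h

/-- the cofactors are admissible -/
theorem lok {M y I : ℕ} {R : Finset ℕ} {c τ : ℕ}
    (hOk : (cfgK M y I R c 302).Ok)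
    (hY1 : 2 ^ (rr M y - 1) ≤ y ^ (2 * M - 1)) (hY2 : y ^ (2 * M - 1) < 2 ^ (rr M y))
    (h1 : 1000000000 ≤ I) (h2 : (y ^ (2 * M + 2) + 1) * 10000 ≤ I)
    (h3 : y ^ (2 * M - 1) * 100000000 ≤ I) (h4 : 2 * τ + 10 ≤ y ^ (2 * M - 1)) (hy : 1 ≤ y)
    {v : Fin (300 + 2) → ℕ} (hv : v ∈ VF (I / 10000) R) {a : ℕ} (ha : ¬ 3 ∣ a) :
    LOk (cfgK M y I R c 302) (vset v) τ (2 ^ (rr M y - 1) - τ) a := by
  have hr1 : 1 ≤ rr M y := by
    have := hOk.hr
    have e : (cfgK M y I R c 302).r = rr M y := rfl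
    omega
  have h2r : 2 ^ (rr M y) = 2 * 2 ^ (rr M y - 1) := by
    rw [← pow_succ']
    congr 1
  have hgI : (cfgK M y I R c 302).I = I := rfl
  refine ⟨?_, ?_, ?_, ?_, ?_, ?_, ha, ?_⟩
  · intro q hq
    obtain ⟨e1, e2, e3, e4, e5⟩ := vset_mem hv hq
    exact ⟨e3, by omega, e4⟩
  · rw [Finset.disjoint_left]
    intro q hq hqR
    exact (vset_mem hv hq).2.2.2.2 hqR
  · intro j
    rw [Finset.disjoint_left]
    intro q hq hqB
    have e1 := (vset_mem hv hq).1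
    have hκ : (cfgK M y I R c 302).κ j = kap M y j := rfl
    rw [PB, mem_filter, mem_Ioc, hκ] at hqB
    have e2 := hqB.1.2
    have e3 : kap M y j ≤ y ^ (2 * M + 2) := by
      unfold kap
      exact Nat.pow_le_pow_right hy (by omega)
    have e4 : 2 ^ (kap M y j + 1) ≤ 2 ^ (I / 10000) := by
      apply Nat.pow_le_pow_right (by norm_num)
      rw [Nat.le_div_iff_mul_le (by norm_num)]
      calc (kap M y j + 1) * 10000 ≤ (y ^ (2 * M + 2) + 1) * 10000 :=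
            Nat.mul_le_mul_right _ (by omega)
        _ ≤ I := h2
    omega
  · intro q hq
    rw [hgI]
    refine (vset_mem hv hq).2.1.trans (Nat.pow_le_pow_right (by norm_num) ?_)
    omega
  · rw [hgI]
    refine (vv_up hv).trans (Nat.pow_le_pow_right (by norm_num) ?_)
    omega
  · rw [hgI]
    apply three_le_two
    omega
  · omega

end Pool.Agent.D0H88.PT
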