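import Pool.Agent.H307R2.OP.Final
import Pool.Agent.D0H88.PT.ULarge
import Pool.Agent.D0H88.PT.USmall
import Pool.Agent.D0H88.PT.VV

set_option autoImplicit false

/-! The pairs of a tuple and a cofactor that are lost. -/

namespace Pool.Agent.D0H88.PT

open Finset Pool.Agent.H307R2.OP

theorem u_bound (S : ℝ) (hS : 0 ≤ S) (r u H h : ℕ) (hh : h ≤ H)
    (hle : ((2 : ℝ) ^ r * u) ^ 2 ≤ S ^ 2 + 1 + 24 * h) :
    (u : ℝ) ≤ S / 2 ^ r + 5 * (H + 1) := by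
  have h2r : (1 : ℝ) ≤ 2 ^ r := one_le_pow₀ (by norm_num)
  have hhR : (h : ℝ) ≤ H := by exact_mod_cast hh
  have hH0 : (0 : ℝ) ≤ H := Nat.cast_nonneg _
  have h5 : (2 : ℝ) ^ r * u ≤ S + 5 * (H + 1) := by
    apply le_of_sq_le_sq _ (by positivity)
    have e1 : 0 ≤ S * (10 * ((H : ℝ) + 1)) := by positivity
    have e2 : 1 + 24 * (H : ℝ) ≤ 25 * ((H : ℝ) + 1) ^ 2 := by nlinarith
    nlinarith
  have h6 : (u : ℝ) ≤ (S + 5 * (H + 1)) / 2 ^ r := by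
    rw [le_div_iff₀ (by positivity)]
    linarith
  have h7 : (5 * ((H : ℝ) + 1)) / 2 ^ r ≤ 5 * (H + 1) := div_le_self (by positivity) h2r
  rw [add_div] at h6
  linarith
where
  le_of_sq_le_sq {a b : ℝ} (h : a ^ 2 ≤ b ^ 2) (hb : 0 ≤ b) : a ≤ b := by
    by_contra hc
    push Not at hc
    nlinarith

open Classical in
/-- the tuples that come from `n = 0` or from the boundary -/
theorem tupZeroL (h1 : TupStmt) {M : ℕ} (g : Cfg M) (hg : g.Ok) {V : Finset ℕ} {τ B a : ℕ}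
    (hL : LOk g V τ B a) (H : ℕ) :
    ((g.Tup.filter (fun t => ∃ h u : ℕ, h ≤ H ∧
      3 ^ (τ + 1) * (g.N t * vv V) + 1 + 24 * h = 4 ^ g.r * u ^ 2)).card : ℝ) ≤
    2 ^ (g.I / 8) * ((H + 1) * (UL g V τ + 5 * (H + 1) + 1)) := by
  have hU : 0 ≤ UL g V τ := UL_nonneg
  set F := g.Tup.filter (fun t => ∃ h u : ℕ, h ≤ H ∧
      3 ^ (τ + 1) * (g.N t * vv V) + 1 + 24 * h = 4 ^ g.r * u ^ 2) with hF
  have hch : ∀ t : (Σ _ : Fin M → Finset ℕ, ℕ), ∃ h u : ℕ, t ∈ F → h ≤ H ∧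
      3 ^ (τ + 1) * (g.N t * vv V) + 1 + 24 * h = 4 ^ g.r * u ^ 2 := by
    intro t
    by_cases ht : t ∈ F
    · obtain ⟨h, u, hu⟩ := (Finset.mem_filter.mp ht).2
      exact ⟨h, u, fun _ => hu⟩
    · exact ⟨0, 0, fun h => absurd h ht⟩
  choose hf uf huf using hch
  have hRpos : 0 < g.Rp := by
    unfold Cfg.Rp
    exact Finset.prod_pos (fun q hq => (hg.hR q hq).1.pos)
  have hvpos := vv_pos hL
  have hFam : ∀ t ∈ F, t.1 ∈ g.Fam := by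
    intro t ht
    have := (Finset.mem_filter.mp ht).1
    unfold Cfg.Tup at this
    exact (Finset.mem_sigma.mp this).1
  have hcard : F.card ≤ ((Icc 1 (2 ^ (g.I / 8))) ×ˢ (range (H + 1) ×ˢ
      (range (⌊UL g V τ + 5 * (H + 1)⌋₊ + 1)))).card := by
    apply Finset.card_le_card_of_injOn (fun t => (g.Q t.1, (hf t, uf t)))
    · intro t ht
      have htF : t ∈ F := ht
      have htA := hFam t htF
      have htT := (Finset.mem_filter.mp htF).1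
      simp only [Finset.coe_product, Set.mem_prod, Finset.mem_coe, Finset.mem_Icc,
        Finset.mem_range]
      refine ⟨⟨t0_Q_pos g htA, ?_⟩, ?_, ?_⟩
      · refine le_trans ?_ (hg.hRQ t.1 htA)
        exact Nat.le_mul_of_pos_left _ hRpos
      · exact Nat.lt_succ_of_le (huf t htF).1
      · obtain ⟨s, hs⟩ := h1 M g hg t htT
        have hN : g.N t ≤ 2 ^ g.I := hs.2.2.2.2.2.2.2
        rw [Nat.lt_succ_iff]
        apply Nat.le_floor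
        have e1 := u_bound (Real.sqrt (3 ^ (τ + 1) * 2 ^ g.I * vv V)) (Real.sqrt_nonneg _) g.r
          (uf t) H (hf t) (huf t htF).1 (by
            rw [Real.sq_sqrt (by positivity)]
            have h2 : (4 ^ g.r * (uf t) ^ 2 : ℕ) ≤
                3 ^ (τ + 1) * 2 ^ g.I * vv V + 1 + 24 * hf t := by
              rw [← (huf t htF).2, mul_assoc (3 ^ (τ + 1))]
              have : 3 ^ (τ + 1) * (g.N t * vv V) ≤ 3 ^ (τ + 1) * (2 ^ g.I * vv V) :=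
                Nat.mul_le_mul_left _ (Nat.mul_le_mul_right _ hN)
              omega
            have h3 : (4 : ℝ) ^ g.r * (uf t : ℝ) ^ 2 ≤
                3 ^ (τ + 1) * 2 ^ g.I * vv V + 1 + 24 * hf t := by exact_mod_cast h2
            have h4 : ((2 : ℝ) ^ g.r * uf t) ^ 2 = 4 ^ g.r * (uf t : ℝ) ^ 2 := by
              rw [mul_pow, ← pow_mul, mul_comm g.r 2, pow_mul]
              norm_num
            rw [h4]
            exact h3)
        exact e1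
    · rintro ⟨A, p⟩ hAp ⟨B', q⟩ hBq heq
      have hA : A ∈ g.Fam := hFam _ hAp
      have hB : B' ∈ g.Fam := hFam _ hBq
      simp only [Prod.mk.injEq] at heq
      obtain ⟨hQ, hh, hu⟩ := heq
      have hAB : A = B' := by
        funext j
        exact Finset.Subset.antisymm (t0_sub g hg hA hB hQ j) (t0_sub g hg hB hA hQ.symm j)
      subst hAB
      have e1 := (huf _ hAp).2
      have e2 := (huf _ hBq).2
      rw [hu, hh] at e1
      have e3 : g.Rp * g.Q A * p = g.Rp * g.Q A * q := by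
        have e4 : 3 ^ (τ + 1) * (g.N ⟨A, p⟩ * vv V) + 1 + 24 * hf ⟨A, q⟩ =
          3 ^ (τ + 1) * (g.N ⟨A, q⟩ * vv V) + 1 + 24 * hf ⟨A, q⟩ := by rw [e1, e2]
        have e5 : 3 ^ (τ + 1) * (g.N ⟨A, p⟩ * vv V) = 3 ^ (τ + 1) * (g.N ⟨A, q⟩ * vv V) := by
          omega
        have e6 := Nat.eq_of_mul_eq_mul_left (by positivity) e5
        exact Nat.eq_of_mul_eq_mul_right hvpos e6
      have e6 : p = q := Nat.eq_of_mul_eq_mul_left (Nat.mul_pos hRpos (t0_Q_pos g hA)) e3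
      rw [e6]
  rw [Finset.card_product, Finset.card_product, Nat.card_Icc, Finset.card_range,
    Finset.card_range] at hcard
  have hc2 : (F.card : ℝ) ≤ 2 ^ (g.I / 8) * ((H + 1) *
      ((⌊UL g V τ + 5 * (H + 1)⌋₊ : ℝ) + 1)) := by
    have : F.card ≤ 2 ^ (g.I / 8) * ((H + 1) * (⌊UL g V τ + 5 * (H + 1)⌋₊ + 1)) := by
      simpa using hcard
    exact_mod_cast this
  refine hc2.trans ?_
  apply mul_le_mul_of_nonneg_left _ (by positivity)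
  apply mul_le_mul_of_nonneg_left _ (by positivity)
  have := Nat.floor_le (show 0 ≤ UL g V τ + 5 * (H + 1) by positivity)
  linarith

/-- the numerical estimate for the boundary -/
theorem zero_numL (M I r Rp τ B H vN : ℕ) (c0 W L : ℝ) (hc0 : 0 < c0) (hI : 1 ≤ I)
    (hRp1 : 1 ≤ Rp) (hRp : Rp ≤ 2 ^ (I / 16)) (hB : 3 ^ B ≤ 2 ^ (I / 64))
    (hv : vN ≤ 2 ^ (I / 16)) (hW : 1 / (2 : ℝ) ^ (I / 100) ≤ W)
    (hb : 8 * (2 : ℝ) ^ M * (((H : ℝ) + 1) * (2 * 3 ^ (τ + 1) + 6 * ((H : ℝ) + 1))) * (I : ℝ) ^ 1 ≤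
      c0 * ((2 : ℝ) ^ (0.25 : ℝ)) ^ I)
    (hL : L ≤ 2 ^ (I / 8) * ((H + 1) *
      (Real.sqrt (3 ^ (τ + 1) * 2 ^ I * vN) / 2 ^ r + 5 * (H + 1) + 1))) :
    L ≤ 2 ^ I / (Rp * I * 3 ^ B) * W * (c0 / (8 * 2 ^ M)) := by
  have hIr : (1 : ℝ) ≤ I := by exact_mod_cast hI
  have hRpr : (1 : ℝ) ≤ Rp := by exact_mod_cast hRp1
  have hH0 : (0 : ℝ) ≤ H := Nat.cast_nonneg _
  have conv : ∀ (n : ℕ), 0 < n → (2 : ℝ) ^ (I / n) ≤ (2 : ℝ) ^ ((I : ℝ) / n) := by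
    intro n hn
    rw [← Real.rpow_natCast]
    apply Real.rpow_le_rpow_of_exponent_le (by norm_num)
    exact Nat.cast_div_le
  have e8 : (2 : ℝ) ^ (I / 8) ≤ (2 : ℝ) ^ ((I : ℝ) * 0.125) := by
    refine (conv 8 (by norm_num)).trans (le_of_eq ?_)
    congr 1
    push_cast
    ring
  have e16 : (Rp : ℝ) ≤ (2 : ℝ) ^ ((I : ℝ) * 0.0625) := by
    have h0 : (Rp : ℝ) ≤ (2 : ℝ) ^ (I / 16) := by exact_mod_cast hRp
    refine h0.trans ((conv 16 (by norm_num)).trans (le_of_eq ?_))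
    congr 1
    push_cast
    ring
  have ev : (vN : ℝ) ≤ (2 : ℝ) ^ ((I : ℝ) * 0.0625) := by
    have h0 : (vN : ℝ) ≤ (2 : ℝ) ^ (I / 16) := by exact_mod_cast hv
    refine h0.trans ((conv 16 (by norm_num)).trans (le_of_eq ?_))
    congr 1
    push_cast
    ring
  have eB : (3 : ℝ) ^ B ≤ (2 : ℝ) ^ ((I : ℝ) * 0.015625) := by
    have h0 : (3 : ℝ) ^ B ≤ (2 : ℝ) ^ (I / 64) := by exact_mod_cast hB
    refine h0.trans ((conv 64 (by norm_num)).trans (le_of_eq ?_))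
    congr 1
    push_cast
    ring
  have e100 : (2 : ℝ) ^ (-((I : ℝ) * 0.01)) ≤ W := by
    refine le_trans ?_ hW
    rw [Real.rpow_neg (by norm_num), ← one_div]
    apply one_div_le_one_div_of_le (by positivity)
    refine (conv 100 (by norm_num)).trans (le_of_eq ?_)
    congr 1
    push_cast
    ring
  have h3τ : (1 : ℝ) ≤ 3 ^ (τ + 1) := one_le_pow₀ (by norm_num)
  have hsq : Real.sqrt (3 ^ (τ + 1) * 2 ^ I * vN) ≤
      2 * 3 ^ (τ + 1) * (2 : ℝ) ^ ((I : ℝ) * 0.53125) := by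
    rw [Real.sqrt_le_left (by positivity)]
    have e1 : ((2 : ℝ) ^ ((I : ℝ) * 0.53125)) ^ 2 = 2 ^ I * (2 : ℝ) ^ ((I : ℝ) * 0.0625) := by
      rw [← Real.rpow_natCast, ← Real.rpow_mul (by norm_num), ← Real.rpow_natCast,
        ← Real.rpow_add (by norm_num)]
      congr 1
      push_cast
      ring
    rw [mul_pow, e1]
    have e2 : (3 : ℝ) ^ (τ + 1) ≤ (2 * 3 ^ (τ + 1)) ^ 2 := by nlinarith
    calc (3 : ℝ) ^ (τ + 1) * 2 ^ I * vN ≤ (2 * 3 ^ (τ + 1)) ^ 2 * 2 ^ I *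
          (2 : ℝ) ^ ((I : ℝ) * 0.0625) := by gcongr
      _ = _ := by ring
  have hU : Real.sqrt (3 ^ (τ + 1) * 2 ^ I * vN) / 2 ^ r + 5 * (H + 1) + 1 ≤
      (2 * 3 ^ (τ + 1) + 6 * ((H : ℝ) + 1)) * (2 : ℝ) ^ ((I : ℝ) * 0.53125) := by
    have h1 : Real.sqrt (3 ^ (τ + 1) * 2 ^ I * vN) / 2 ^ r ≤
        Real.sqrt (3 ^ (τ + 1) * 2 ^ I * vN) := by
      apply div_le_self (Real.sqrt_nonneg _)
      exact one_le_pow₀ (by norm_num)
    have h2 : (1 : ℝ) ≤ (2 : ℝ) ^ ((I : ℝ) * 0.53125) :=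
      Real.one_le_rpow (by norm_num) (by positivity)
    nlinarith
  set Kc : ℝ := ((H : ℝ) + 1) * (2 * 3 ^ (τ + 1) + 6 * ((H : ℝ) + 1)) with hKc
  have hKc0 : 0 < Kc := by positivity
  have hL2 : L ≤ Kc * (2 : ℝ) ^ ((I : ℝ) * 0.65625) := by
    calc L ≤ _ := hL
      _ ≤ (2 : ℝ) ^ ((I : ℝ) * 0.125) * ((H + 1) *
          ((2 * 3 ^ (τ + 1) + 6 * ((H : ℝ) + 1)) * (2 : ℝ) ^ ((I : ℝ) * 0.53125))) := by
          gcongr
      _ = Kc * ((2 : ℝ) ^ ((I : ℝ) * 0.125) * (2 : ℝ) ^ ((I : ℝ) * 0.53125)) := by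
          rw [hKc]; ring
      _ = Kc * (2 : ℝ) ^ ((I : ℝ) * 0.65625) := by
          rw [← Real.rpow_add (by norm_num)]
          congr 2
          ring
  refine hL2.trans ?_
  have hb' : 8 * (2 : ℝ) ^ M * Kc * (I : ℝ) ≤ c0 * (2 : ℝ) ^ ((I : ℝ) * 0.25) := by
    have : ((2 : ℝ) ^ (0.25 : ℝ)) ^ I = (2 : ℝ) ^ ((I : ℝ) * 0.25) := by
      rw [← Real.rpow_natCast, ← Real.rpow_mul (by norm_num)]
      congr 1
      ring
    rw [← this]
    simpa using hb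
  have hA : (2 : ℝ) ^ ((I : ℝ) * 0.90625) / I ≤ 2 ^ I / (Rp * I * 3 ^ B) * W := by
    calc (2 : ℝ) ^ ((I : ℝ) * 0.90625) / I
        ≤ (2 : ℝ) ^ ((I : ℝ) * 0.911875) / I := by
          apply div_le_div_of_nonneg_right _ (by linarith)
          apply Real.rpow_le_rpow_of_exponent_le (by norm_num)
          linarith
      _ = 2 ^ I / ((2 : ℝ) ^ ((I : ℝ) * 0.0625) * I * (2 : ℝ) ^ ((I : ℝ) * 0.015625)) *
          (2 : ℝ) ^ (-((I : ℝ) * 0.01)) := by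
          have e1 : (2 : ℝ) ^ I = (2 : ℝ) ^ ((I : ℝ) * 0.0625) * (2 : ℝ) ^ ((I : ℝ) * 0.015625)
              * (2 : ℝ) ^ ((I : ℝ) * 0.01) * (2 : ℝ) ^ ((I : ℝ) * 0.911875) := by
            rw [← Real.rpow_add (by norm_num), ← Real.rpow_add (by norm_num),
              ← Real.rpow_add (by norm_num), ← Real.rpow_natCast]
            congr 1
            ring
          rw [e1, Real.rpow_neg (by norm_num)]
          have p1 : (0 : ℝ) < (2 : ℝ) ^ ((I : ℝ) * 0.0625) := Real.rpow_pos_of_pos (by norm_num) _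
          have p2 : (0 : ℝ) < (2 : ℝ) ^ ((I : ℝ) * 0.01) := Real.rpow_pos_of_pos (by norm_num) _
          have p3 : (0 : ℝ) < (2 : ℝ) ^ ((I : ℝ) * 0.015625) :=
            Real.rpow_pos_of_pos (by norm_num) _
          field_simp
      _ ≤ 2 ^ I / (Rp * I * 3 ^ B) * W := by
          have p1 : (0 : ℝ) < Rp := by linarith
          have p2 : (0 : ℝ) < (2 : ℝ) ^ (-((I : ℝ) * 0.01)) :=
            Real.rpow_pos_of_pos (by norm_num) _
          gcongr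
  have hc8 : 0 < c0 / (8 * 2 ^ M) := by positivity
  refine le_trans ?_ (mul_le_mul_of_nonneg_right hA hc8.le)
  rw [div_mul_div_comm, le_div_iff₀ (by positivity)]
  calc Kc * (2 : ℝ) ^ ((I : ℝ) * 0.65625) * (I * (8 * 2 ^ M))
      = (2 : ℝ) ^ ((I : ℝ) * 0.65625) * (8 * (2 : ℝ) ^ M * Kc * (I : ℝ)) := by ring
    _ ≤ (2 : ℝ) ^ ((I : ℝ) * 0.65625) * (c0 * (2 : ℝ) ^ ((I : ℝ) * 0.25)) := by gcongr
    _ = ((2 : ℝ) ^ ((I : ℝ) * 0.65625) * (2 : ℝ) ^ ((I : ℝ) * 0.25)) * c0 := by ring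
    _ = (2 : ℝ) ^ ((I : ℝ) * 0.90625) * c0 := by
        rw [← Real.rpow_add (by norm_num)]
        congr 2
        ring

/-- the large bad kernels: the shape of the bound -/
theorem large_eq (I r τ B vN Rp n δ : ℕ) (W : ℝ) (hv : 0 < vN) (hR : 0 < Rp) (hδ : 0 < δ) :
    Real.sqrt (3 ^ (τ + 1) * 2 ^ I * vN / δ) * 2 ^ n *
      (Real.sqrt (3 ^ (τ + 1) * 2 ^ I * vN) / 2 ^ r / (Rp * vN * 3 ^ (B + τ + 1))) * W =
    (2 ^ I / (Rp * 3 ^ B) * W * (2 ^ n / 2 ^ r)) * (1 / Real.sqrt δ) := by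
  have hvR : (0 : ℝ) < vN := by exact_mod_cast hv
  have hRR : (0 : ℝ) < Rp := by exact_mod_cast hR
  have hδR : (0 : ℝ) < δ := by exact_mod_cast hδ
  have hsδ : 0 < Real.sqrt δ := Real.sqrt_pos.2 hδR
  have hsq : Real.sqrt (3 ^ (τ + 1) * 2 ^ I * vN) * Real.sqrt (3 ^ (τ + 1) * 2 ^ I * vN) =
      3 ^ (τ + 1) * 2 ^ I * vN := Real.mul_self_sqrt (by positivity)
  have h3 : (3 : ℝ) ^ (B + τ + 1) = 3 ^ B * 3 ^ (τ + 1) := by
    rw [← pow_add]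
    congr 1
  rw [Real.sqrt_div (by positivity), h3]
  have e1 : Real.sqrt (3 ^ (τ + 1) * 2 ^ I * vN) / Real.sqrt δ * 2 ^ n *
      (Real.sqrt (3 ^ (τ + 1) * 2 ^ I * vN) / 2 ^ r / (Rp * vN * (3 ^ B * 3 ^ (τ + 1)))) * W =
      (Real.sqrt (3 ^ (τ + 1) * 2 ^ I * vN) * Real.sqrt (3 ^ (τ + 1) * 2 ^ I * vN)) *
      (2 ^ n / 2 ^ r / (Rp * vN * (3 ^ B * 3 ^ (τ + 1))) * W / Real.sqrt δ) := by
    field_simp
  rw [e1, hsq]
  field_simp

/-- the large bad kernels -/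
theorem large_numL (M I r B Rp n Y : ℕ) (c0 W S : ℝ) (hI : 1 ≤ I)
    (hRp1 : 1 ≤ Rp) (hW : 0 ≤ W) (hn : n ≤ Y)
    (hb : 8 * (2 : ℝ) ^ M * (I : ℝ) ≤ c0 * (2 : ℝ) ^ Y)
    (hS : S ≤ 1 / (2 : ℝ) ^ (2 * Y)) :
    (2 ^ I / (Rp * 3 ^ B) * W * (2 ^ n / 2 ^ r)) * S ≤
      2 ^ I / (Rp * I * 3 ^ B) * W * (c0 / (8 * 2 ^ M)) := by
  have hIr : (1 : ℝ) ≤ I := by exact_mod_cast hI
  have hRpr : (1 : ℝ) ≤ Rp := by exact_mod_cast hRp1
  have h2n : (2 : ℝ) ^ n ≤ 2 ^ Y := pow_le_pow_right₀ (by norm_num) hn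
  have hS2 : S ≤ 1 / ((2 : ℝ) ^ Y * 2 ^ Y) := by
    rw [two_mul, pow_add] at hS
    exact hS
  have h2r : (1 : ℝ) ≤ 2 ^ r := one_le_pow₀ (by norm_num)
  calc (2 ^ I / (Rp * 3 ^ B) * W * (2 ^ n / 2 ^ r)) * S
      ≤ (2 ^ I / (Rp * 3 ^ B) * W * (2 ^ n / 2 ^ r)) * (1 / ((2 : ℝ) ^ Y * 2 ^ Y)) :=
        mul_le_mul_of_nonneg_left hS2 (by positivity)
    _ ≤ (2 ^ I / (Rp * 3 ^ B) * W * (2 ^ Y / 1)) * (1 / ((2 : ℝ) ^ Y * 2 ^ Y)) := by
        gcongr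
    _ = 2 ^ I / (Rp * I * 3 ^ B) * W * (I / 2 ^ Y) := by
        field_simp
    _ ≤ 2 ^ I / (Rp * I * 3 ^ B) * W * (c0 / (8 * 2 ^ M)) := by
        apply mul_le_mul_of_nonneg_left _ (by positivity)
        rw [div_le_div_iff₀ (by positivity) (by positivity)]
        linarith

theorem bad_mono {I I' i δ : ℕ} (hI : 1 ≤ I) (h : I ≤ I') (hb : Bad I i δ) : Bad I' i δ := by
  obtain ⟨k, hk1, hk2, c, hc, hk3⟩ := hb
  refine ⟨k, hk1, hk2.trans h, c, hc, lt_of_le_of_lt ?_ hk3⟩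
  have h1 : (1 : ℝ) ≤ I := by exact_mod_cast hI
  have h2 : (I : ℝ) ≤ I' := by exact_mod_cast h
  apply one_div_le_one_div_of_le (by positivity)
  exact pow_le_pow_left₀ (by positivity) h2 2

end Pool.Agent.D0H88.PT
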