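import Pool.Agent.D0H88.PT.Lost

set_option autoImplicit false

/-! The pairs that are lost: the total for a fixed cofactor (after `H307R2/OP/BTOT`). -/

namespace Pool.Agent.D0H88.PT

open Finset Pool.Agent.H307R2.OP Pool.Agent.H307R2.OP.BT

theorem ite_nonneg {p : Prop} [Decidable p] {x y : ℝ} (hx : 0 ≤ x) (hy : 0 ≤ y) :
    0 ≤ (if p then x else y) := by
  split_ifs
  · exact hx
  · exact hy

theorem repL_le {r τ δ N : ℕ} (h : RepL r τ δ N) : δ ≤ 3 ^ (τ + 1) * N := by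
  obtain ⟨s, u, hs, hsu⟩ := h
  have hs0 : s ≠ 0 := by
    rintro rfl
    exact hs (dvd_zero 3)
  have hs2 : 1 ≤ s ^ 2 := Nat.one_le_pow _ _ (Nat.pos_of_ne_zero hs0)
  calc δ ≤ δ * s ^ 2 := Nat.le_mul_of_pos_right _ hs2
    _ ≤ 3 ^ (τ + 1) * N := by rw [hsu]; exact Nat.le_add_right _ _

open Classical in
/-- the pairs that are lost -/
theorem badTotalL : ∀ M : ℕ, 1 ≤ M → ∀ (τ H : ℕ) (c0 : ℝ), 0 < c0 → ∃ y0 : ℕ, ∀ y : ℕ, y0 ≤ y →
    ∀ I : ℕ, y ^ (2 * M + 4) ≤ I → I + I / 8 ≤ 2 * y ^ (2 * M + 4) →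
    ∀ (R : Finset ℕ) (c : ℕ), RC M y I R c →
    ∀ v ∈ VF (I / 10000) R, ∀ a : ℕ, ¬ 3 ∣ a →
    (((cfgK M y I R c 302).Tup.filter (fun t =>
      ((∃ δ : ℕ, Adm δ ∧ Bad I y δ ∧
        RepL (rr M y) τ δ ((cfgK M y I R c 302).N t * vv (vset v))) ∨
      ∃ h u : ℕ, h ≤ H ∧ 3 ^ (τ + 1) * ((cfgK M y I R c 302).N t * vv (vset v)) + 1 + 24 * h =
        4 ^ (rr M y) * u ^ 2) ∧
      (cfgK M y I R c 302).N t * vv (vset v) ≡ a [MOD 3 ^ (2 ^ (rr M y - 1) - τ)])).card : ℝ) ≤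
    3 * (2 ^ I / (((cfgK M y I R c 302).Rp : ℝ) * I * 3 ^ (2 ^ (rr M y - 1) - τ)) *
      (cfgK M y I R c 302).W * (c0 / (8 * 2 ^ M))) := by
  intro M hM τ H c0 hc0
  obtain ⟨I0, hsmall⟩ := tupSmallL qr es tup
  obtain ⟨C9, hC9⟩ := strongBad_main
  obtain ⟨y7, hy7⟩ := badSum_main M hM
  obtain ⟨y8, hy8⟩ := badNum_main M hM 0.001 (by norm_num)
  obtain ⟨y10, hy10⟩ := parK 302 pc M hM
  obtain ⟨y11, hy11⟩ := size_facts M hM τ
  obtain ⟨ya, hya⟩ := ev_pow (2 * M + 4) 2 (by norm_num) (16 * 2 ^ M) c0 hc0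
  obtain ⟨yb, hyb⟩ := ev_pow 1 ((2 : ℝ) ^ (0.25 : ℝ))
    (Real.one_lt_rpow (by norm_num) (by norm_num))
    (8 * (2 : ℝ) ^ M * (((H : ℝ) + 1) * (2 * 3 ^ (τ + 1) + 6 * ((H : ℝ) + 1)))) c0 hc0
  obtain ⟨yc, hyc⟩ := ev_pow (2 * M + 4) 2 (by norm_num) 2 1 one_pos
  obtain ⟨yd, hyd⟩ := ev_exp (8 * M * 54 * 2 ^ M) c0 hc0
  refine ⟨I0 + C9 + y7 + y8 + y10 + y11 + ya + yb + yc + yd + 15 + 48 * τ,
    fun y hy I hI1 hI8 R c hRC v hv a ha => ?_⟩
  have hI2 : I ≤ 2 * y ^ (2 * M + 4) := by omega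
  obtain ⟨hOk, hcard, hYr1, hYr2, hk, hS, hκ, hk2, -, hW⟩ :=
    hy10 y (by omega) I hI1 hI2 R c hRC.card hRC.pr hRC.le hRC.cl
  obtain ⟨hs1, hs2, hs3, hs4, hy1⟩ := hy11 y (by omega) I hI1
  have hL := lok hOk hYr1 hYr2 hs1 hs2 hs3 hs4 hy1 hv ha (τ := τ)
  clear hs1 hs2 hs3 hs4
  have h7' := hy7 y (by omega) (I + I / 8) (by omega) hI8
  obtain ⟨h8a, h8b⟩ := hy8 y (by omega) I hI1 hI2
  set g := cfgK M y I R c 302 with hg
  have hgI : g.I = I := rfl
  have hgr : g.r = rr M y := rfl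
  have hgR : g.R = R := rfl
  have hgκ : ∀ j, g.κ j = kap M y j := fun _ => rfl
  have hgRp : g.Rp = ∏ q ∈ R, q := rfl
  set B : ℕ := 2 ^ (rr M y - 1) - τ with hB
  set V := vset v with hV
  set Y := y ^ (2 * M - 1) with hY
  have hn1 : ∑ j, g.k j + g.R.card + V.card + 2 ≤ Y := by
    have h1 : ∑ j, g.k j + R.card + 1 + 302 = 2 ^ (rr M y - 1) - 1 := hcard
    have h2 : g.R.card = R.card := rfl
    have h3 : V.card = 302 := vset_card hv
    omega
  clear hv hcard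
  have hyY : y ≤ Y := by
    calc y = y ^ 1 := (pow_one y).symm
      _ ≤ y ^ (2 * M - 1) := Nat.pow_le_pow_right hy1 (by omega)
  have hyI : y ≤ I := by
    calc y = y ^ 1 := (pow_one y).symm
      _ ≤ y ^ (2 * M + 4) := Nat.pow_le_pow_right hy1 (by omega)
      _ ≤ I := hI1
  have hI : 1 ≤ I := by omega
  have hIr : (1 : ℝ) ≤ I := by exact_mod_cast hI
  have hRp1 : 1 ≤ g.Rp := by
    rw [hgRp]
    exact Finset.prod_pos fun q hq => (hRC.pr q hq).1.pos
  have hRpr : (1 : ℝ) ≤ g.Rp := by exact_mod_cast hRp1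
  have hW0 : 0 < g.W := lt_of_lt_of_le (by positivity) hW
  have hv0 := vv_pos hL
  have hvI : vv V ≤ 2 ^ (I / 16) := hL.sizeV
  have hB64 : 3 ^ B ≤ 2 ^ (I / 64) := by
    have := hL.size3
    rw [hgI] at this
    exact (Nat.pow_le_pow_right (by norm_num) (by omega)).trans this
  set A : ℝ := 2 ^ I / (g.Rp * I * 3 ^ B) * g.W with hA
  have hA0 : 0 < A := by positivity
  -- numbers of the tuples
  have hN : ∀ t ∈ g.Tup, g.N t ≤ 2 ^ I := by
    intro t ht
    obtain ⟨s, -, -, -, -, -, -, -, hs8⟩ := tup M g hOk t ht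
    exact hs8
  -- the three parts
  set La := g.Tup.filter (fun t => ∃ h u : ℕ, h ≤ H ∧
      3 ^ (τ + 1) * (g.N t * vv V) + 1 + 24 * h = 4 ^ g.r * u ^ 2) with hLa
  set D := (Icc 1 (3 * 2 ^ (I + I / 8))).filter (fun δ => Adm δ ∧ Bad I y δ) with hD
  let P : ℕ → Finset (Σ _ : Fin M → Finset ℕ, ℕ) :=
    fun δ => g.Tup.filter (fun t => RepL g.r τ δ (g.N t * vv V) ∧
      g.N t * vv V ≡ a [MOD 3 ^ B])
  have hsub : g.Tup.filter (fun t => ((∃ δ : ℕ, Adm δ ∧ Bad I y δ ∧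
        RepL (rr M y) τ δ (g.N t * vv V)) ∨
      ∃ h u : ℕ, h ≤ H ∧ 3 ^ (τ + 1) * (g.N t * vv V) + 1 + 24 * h =
        4 ^ (rr M y) * u ^ 2) ∧ g.N t * vv V ≡ a [MOD 3 ^ B]) ⊆ La ∪ D.biUnion P := by
    intro t ht
    rw [Finset.mem_filter] at ht
    rw [Finset.mem_union]
    obtain ⟨ht0, hh, hmod⟩ := ht
    rcases hh with ⟨δ, hδ1, hδ2, hδ3⟩ | hu
    · right
      rw [Finset.mem_biUnion]
      refine ⟨δ, ?_, Finset.mem_filter.2 ⟨ht0, hδ3, hmod⟩⟩
      rw [hD, Finset.mem_filter, Finset.mem_Icc]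
      refine ⟨⟨?_, ?_⟩, hδ1, hδ2⟩
      · have := hδ1.1
        omega
      · refine (repL_le hδ3).trans ?_
        have e1 : g.N t * vv V ≤ 2 ^ I * 2 ^ (I / 16) := Nat.mul_le_mul (hN t ht0) hvI
        have e2 : 3 ^ τ ≤ 2 ^ (2 * τ) := three_le_two τ (2 * τ) le_rfl
        calc 3 ^ (τ + 1) * (g.N t * vv V) ≤ (3 * 2 ^ (2 * τ)) * (2 ^ I * 2 ^ (I / 16)) := by
              apply Nat.mul_le_mul _ e1
              rw [pow_succ, mul_comm]
              exact Nat.mul_le_mul_left _ e2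
          _ = 3 * 2 ^ (2 * τ + I + I / 16) := by rw [pow_add, pow_add]; ring
          _ ≤ 3 * 2 ^ (I + I / 8) := by
              apply Nat.mul_le_mul_left
              apply Nat.pow_le_pow_right (by norm_num)
              omega
    · left
      exact Finset.mem_filter.2 ⟨ht0, hu⟩
  -- (a)
  have hLa1 : (La.card : ℝ) ≤ A * (c0 / (8 * 2 ^ M)) := by
    have h := tupZeroL tup g hOk hL H
    rw [hA]
    refine zero_numL M I g.r g.Rp τ B H (vv V) c0 g.W _ hc0 hI hRp1 (by rw [hgRp]; exact hRC.le)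
      hB64 hvI hW (hyb I (by omega)) ?_
    exact h
  -- (b1)
  have hb1 : ∑ δ ∈ D.filter (fun δ => 2 ^ (8 * Y) < δ), ((P δ).card : ℝ) ≤
      A * (c0 / (8 * 2 ^ M)) := by
    set n := ∑ j, g.k j + g.R.card + V.card + 2 with hn
    have h := large_numL M I g.r B g.Rp n Y c0 g.W
      (∑ δ ∈ D.filter (fun δ => 2 ^ (8 * Y) < δ), 1 / Real.sqrt δ) hI hRp1 hW0.le hn1
      (by
        have e1 := hya y (by omega)
        have e2 : (I : ℝ) ≤ 2 * (y : ℝ) ^ (2 * M + 4) := by exact_mod_cast hI2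
        calc 8 * (2 : ℝ) ^ M * (I : ℝ) ≤ 8 * (2 : ℝ) ^ M * (2 * (y : ℝ) ^ (2 * M + 4)) := by
              gcongr
          _ = 16 * 2 ^ M * (y : ℝ) ^ (2 * M + 4) := by ring
          _ ≤ c0 * (2 : ℝ) ^ y := e1
          _ ≤ c0 * (2 : ℝ) ^ Y := by
              have : (2 : ℝ) ^ y ≤ 2 ^ Y := pow_le_pow_right₀ (by norm_num) hyY
              gcongr)
      (by
        refine le_trans (Finset.sum_le_sum_of_subset_of_nonneg ?_
          (fun _ _ _ => div_nonneg zero_le_one (Real.sqrt_nonneg _))) h7'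
        intro δ hδ
        rw [hD, Finset.mem_filter, Finset.mem_filter] at hδ
        rw [Finset.mem_filter]
        exact ⟨hδ.1.1, hδ.1.2.1, bad_mono hI (by omega) hδ.1.2.2, hδ.2⟩)
    refine le_trans ?_ h
    rw [Finset.mul_sum]
    refine Finset.sum_le_sum fun δ hδ => ?_
    have hδ2 := (Finset.mem_filter.1 (Finset.mem_filter.1 hδ).1)
    have hδ0 := (Finset.mem_Icc.1 hδ2.1).1
    have h9 := tupLargeL qr es tup g hOk hL δ hδ2.2.1
    refine h9.trans (le_of_eq ?_)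
    rw [← large_eq I g.r τ B (vv V) g.Rp n δ g.W hv0 hRp1 hδ0]
    unfold UL
    rw [hgI]
  -- (b2), (b3)
  have hb3 : ∑ δ ∈ D.filter (fun δ => ¬ 2 ^ (8 * Y) < δ), ((P δ).card : ℝ) ≤
      A * (c0 / (8 * 2 ^ M)) := by
    set D' := D.filter (fun δ => ¬ 2 ^ (8 * Y) < δ) with hD'
    let Dj : Fin M → Finset ℕ := fun j => D'.filter (fun δ => ¬ StrongAt (kap M y j) δ ∧
      ((j : ℕ) + 1 < M → StrongAt (kap M y ((j : ℕ) + 1)) δ))
    have hmemD : ∀ δ ∈ D', 1 ≤ δ ∧ δ ≤ 2 ^ (8 * Y) ∧ Adm δ ∧ Bad I y δ := by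
      intro δ hδ
      obtain ⟨ha, hb⟩ := Finset.mem_filter.1 hδ
      obtain ⟨hc, hd⟩ := Finset.mem_filter.1 ha
      exact ⟨(Finset.mem_Icc.1 hc).1, not_lt.1 hb, hd.1, hd.2⟩
    have hpt : ∀ δ ∈ D', ((P δ).card : ℝ) ≤
        ∑ j : Fin M, if δ ∈ Dj j then ((P δ).card : ℝ) else 0 := by
      intro δ hδ
      obtain ⟨hδ1, hδ2, hδ3, hδ4⟩ := hmemD δ hδ
      by_cases hst : StrongAt (kap M y 0) δ
      · -- killed
        obtain ⟨q, hqR, hqJ⟩ := hRC.kills δ hδ3 hδ2 hst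
        have hempty : P δ = ∅ := by
          apply Finset.filter_eq_empty_iff.2
          rintro t ht ⟨hrep, -⟩
          obtain ⟨s, -, -, -, -, hs5, -, hs7, -⟩ := tup M g hOk t ht
          have hqs : q ∈ s := hs5 hqR
          have htA : t.1 ∈ g.Fam := by
            unfold Cfg.Tup at ht
            exact (Finset.mem_sigma.mp ht).1
          have hqv : ¬ q ∣ vv V := not_dvd_vv hOk hL htA
            (by rw [T2Aux.AA]; exact Finset.mem_union_left _ hqR)
          obtain ⟨f1, f2⟩ := not_sq_dvd (τ := τ) (hRC.pr q hqR).1 (hRC.pr q hqR).2.1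
            (hs7 q hqs).1 (hs7 q hqs).2 hqv
          exact qr.kill g.r δ _ q hδ3 (hRC.pr q hqR).1 (hRC.pr q hqR).2.1 hqJ f1 f2
            (repL_rep hrep)
        rw [hempty]
        simp
      · obtain ⟨j, hj1, hj2⟩ := last_level hM (fun i => StrongAt (kap M y i) δ) hst
        have hmem : δ ∈ Dj j := Finset.mem_filter.2 ⟨hδ, hj1, hj2⟩
        calc ((P δ).card : ℝ) = (if δ ∈ Dj j then ((P δ).card : ℝ) else 0) := by
              rw [if_pos hmem]
          _ ≤ ∑ j : Fin M, if δ ∈ Dj j then ((P δ).card : ℝ) else 0 :=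
              Finset.single_le_sum
                (f := fun j : Fin M => if δ ∈ Dj j then ((P δ).card : ℝ) else 0)
                (fun i _ => ite_nonneg (Nat.cast_nonneg _) le_rfl) (Finset.mem_univ j)
    have hjb : ∀ j : Fin M, ∑ δ ∈ D', (if δ ∈ Dj j then ((P δ).card : ℝ) else 0) ≤
        54 * A * Real.exp (-(0.002 * (y : ℝ))) := by
      intro j
      have hsum : ∑ δ ∈ D', (if δ ∈ Dj j then ((P δ).card : ℝ) else 0) =
          ∑ δ ∈ Dj j, ((P δ).card : ℝ) := by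
        rw [← Finset.sum_filter]
        apply Finset.sum_congr _ (fun _ _ => rfl)
        ext δ
        rw [Finset.mem_filter]
        exact ⟨fun h => h.2, fun h => ⟨(Finset.mem_filter.1 h).1, h⟩⟩
      rw [hsum]
      have hPδ : ∀ δ ∈ Dj j, ((P δ).card : ℝ) ≤ 54 * A * (1 - 1 / 80) ^ (g.k j) := by
        intro δ hδ
        obtain ⟨ha', hb⟩ := Finset.mem_filter.1 hδ
        obtain ⟨hδ1, hδ2, hδ3, hδ4⟩ := hmemD δ ha'
        have h15 : 15 ≤ g.κ j := by
          have := (hκ j).1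
          rw [hgκ]
          omega
        have hth := theta_cond g j δ (by rw [hgR]; exact hRC.card) h15
          (by rw [hgκ]; exact hS j) (by rw [hgκ]; exact hb.1)
        refine (hsmall g hOk (by rw [hgI]; omega) hL δ hδ3 j (1 / 80) (by norm_num)
          (by norm_num) hth).trans (le_of_eq ?_)
        rw [hA, hgI]
        ring
      have hnum : ((Dj j).card : ℝ) ≤ (2 : ℝ) ^ (0.001 * (y : ℝ) ^ (2 * (j : ℕ) + 1)) := by
        by_cases hjM : (j : ℕ) + 1 < M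
        · refine le_trans ?_ (h8b j hjM)
          have : Dj j ⊆ (Icc 1 (2 ^ (8 * Y))).filter
              (fun δ => Adm δ ∧ BadAt I (kap M y ((j : ℕ) + 1)) δ) := by
            intro δ hδ
            obtain ⟨ha', hb⟩ := Finset.mem_filter.1 hδ
            obtain ⟨hδ1, hδ2, hδ3, hδ4⟩ := hmemD δ ha'
            rw [Finset.mem_filter]
            refine ⟨Finset.mem_Icc.2 ⟨hδ1, hδ2⟩, hδ3, ?_⟩
            have hκ1 := hκ ⟨(j : ℕ) + 1, hjM⟩
            simp only at hκ1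
            have hy4 : y ^ 2 ≤ kap M y ((j : ℕ) + 1) := by
              unfold kap
              exact Nat.pow_le_pow_right hy1 (by omega)
            have hy5 : y ≤ kap M y ((j : ℕ) + 1) / 4 := by
              rw [Nat.le_div_iff_mul_le (by norm_num)]
              refine le_trans ?_ hy4
              rw [sq]
              exact Nat.mul_le_mul_left _ (by omega)
            apply hC9 I (kap M y ((j : ℕ) + 1)) δ (by omega) hκ1.2 _ hδ1 _ (hb.2 hjM)
            · have hc1 := hyc y (by omega)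
              rw [one_mul] at hc1
              have hc2 : 2 * y ^ (2 * M + 4) ≤ 2 ^ y := by exact_mod_cast hc1
              calc I ≤ 2 * y ^ (2 * M + 4) := hI2
                _ ≤ 2 ^ y := hc2
                _ ≤ 2 ^ (kap M y ((j : ℕ) + 1) / 4) := Nat.pow_le_pow_right (by norm_num) hy5
            · refine hδ2.trans (Nat.pow_le_pow_right (by norm_num) ?_)
              refine le_trans ?_ hI1
              rw [hY]
              have e1 : y ^ (2 * M + 4) = y ^ 5 * y ^ (2 * M - 1) := by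
                rw [← pow_add]
                congr 1
                omega
              rw [e1]
              apply Nat.mul_le_mul_right
              calc 8 ≤ y := by omega
                _ = y ^ 1 := (pow_one y).symm
                _ ≤ y ^ 5 := Nat.pow_le_pow_right hy1 (by norm_num)
          exact Nat.cast_le.2 (Finset.card_le_card this)
        · have hj : (j : ℕ) + 1 = M := by
            have := j.2
            omega
          have e1 : 2 * (j : ℕ) + 1 = 2 * M - 1 := by omega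
          rw [e1]
          refine le_trans ?_ h8a
          have : Dj j ⊆ (Icc 1 (2 ^ (8 * Y))).filter (fun δ => Adm δ ∧ Bad I y δ) := by
            intro δ hδ
            obtain ⟨ha', hb⟩ := Finset.mem_filter.1 hδ
            obtain ⟨hδ1, hδ2, hδ3, hδ4⟩ := hmemD δ ha'
            rw [Finset.mem_filter]
            exact ⟨Finset.mem_Icc.2 ⟨hδ1, hδ2⟩, hδ3, hδ4⟩
          exact Nat.cast_le.2 (Finset.card_le_card this)
      have hyx : (y : ℝ) ≤ (y : ℝ) ^ (2 * (j : ℕ) + 1) := by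
        have h : y ^ 1 ≤ y ^ (2 * (j : ℕ) + 1) := Nat.pow_le_pow_right hy1 (by omega)
        rw [pow_one] at h
        exact_mod_cast h
      have hfin := small_num ((Dj j).card : ℝ) ((y : ℝ) ^ (2 * (j : ℕ) + 1)) y (g.k j) hyx
        (Nat.cast_nonneg _) hnum (hk j).1
      calc ∑ δ ∈ Dj j, ((P δ).card : ℝ)
          ≤ ∑ δ ∈ Dj j, 54 * A * (1 - 1 / 80) ^ (g.k j) := Finset.sum_le_sum hPδ
        _ = 54 * A * (((Dj j).card : ℝ) * (1 - 1 / 80) ^ (g.k j)) := by
            rw [Finset.sum_const, nsmul_eq_mul]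
            ring
        _ ≤ 54 * A * Real.exp (-(0.002 * (y : ℝ))) := by gcongr
    calc ∑ δ ∈ D', ((P δ).card : ℝ)
        ≤ ∑ δ ∈ D', ∑ j : Fin M, (if δ ∈ Dj j then ((P δ).card : ℝ) else 0) :=
          Finset.sum_le_sum hpt
      _ = ∑ j : Fin M, ∑ δ ∈ D', (if δ ∈ Dj j then ((P δ).card : ℝ) else 0) :=
          Finset.sum_comm
      _ ≤ ∑ j : Fin M, 54 * A * Real.exp (-(0.002 * (y : ℝ))) :=
          Finset.sum_le_sum fun j _ => hjb j
      _ = M * (54 * A * Real.exp (-(0.002 * (y : ℝ)))) := by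
          rw [Finset.sum_const, Finset.card_univ, Fintype.card_fin, nsmul_eq_mul]
      _ ≤ A * (c0 / (8 * 2 ^ M)) := by
          have hd := hyd y (by omega)
          rw [mul_div_assoc', le_div_iff₀ (by positivity)]
          calc (M : ℝ) * (54 * A * Real.exp (-(0.002 * (y : ℝ)))) * (8 * 2 ^ M)
              = A * (8 * M * 54 * 2 ^ M * Real.exp (-(0.002 * (y : ℝ)))) := by ring
            _ ≤ A * c0 := by gcongr
  -- conclusion
  have hsplit := Finset.sum_filter_add_sum_filter_not D (fun δ => 2 ^ (8 * Y) < δ)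
    (fun δ => ((P δ).card : ℝ))
  have e1 := (Finset.card_le_card hsub).trans (Finset.card_union_le _ _)
  have e2 : (D.biUnion P).card ≤ ∑ δ ∈ D, (P δ).card := Finset.card_biUnion_le
  have e3 := e1.trans (Nat.add_le_add_left e2 _)
  have e4 : ((La.card + ∑ δ ∈ D, (P δ).card : ℕ) : ℝ) ≤ 3 * (A * (c0 / (8 * 2 ^ M))) := by
    push_cast
    linarith
  have e5 := (Nat.cast_le (α := ℝ)).2 e3
  exact e5.trans e4

end Pool.Agent.D0H88.PT
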