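import Pool.Agent.D0H88.PT.Loc
import Pool.Agent.H307R2.OP.FIX
import Pool.Agent.H307R2.OP.T5

set_option autoImplicit false

/-! Multiplicity of a good value, localised (after `H307R2/OP/FIX` and `H307R2/OP/T5`). -/

namespace Pool.Agent.D0H88.PT

open Finset Pool.Agent.H307R2.OP

theorem not_dvd_three_pow {q : ℕ} (hq : q.Prime) (h5 : 5 ≤ q) (k : ℕ) : ¬ q ∣ 3 ^ k := by
  intro h
  have := Nat.le_of_dvd (by norm_num) (hq.dvd_of_dvd_pow h)
  omega

open Classical in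
theorem fixL (h1 : QRStmt) (h2 : SVStmt) (r δ s U D z K τ a b : ℕ) (A P : Finset ℕ)
    (hδ : Adm δ) (hs3 : ¬ 3 ∣ s) (hb : 1 ≤ b) (hD : 1 ≤ D)
    (hA : ∀ q ∈ A, q.Prime ∧ 5 ≤ q) (hP : ∀ p ∈ P, p.Prime ∧ 64 ≤ p ∧ p ≤ z ∧ p ∉ A)
    (hzK : z ^ K ≤ D) (hK : 8 * (∑ p ∈ P, ((Om r δ s p).card : ℝ) / p) + 8 ≤ K)
    (hsum : (∑ p ∈ P, (4 : ℝ) / p ^ 2) ≤ 1) :
    (((range (U + 1)).filter (fun u => u % 3 ^ b ∈ O3 r δ s τ a b ∧
      ∃ p : ℕ, p.Prime ∧ z < p ∧ p ∉ A ∧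
      3 ^ (τ + 1) * ((∏ q ∈ A, q) * p) = δ * s ^ 2 + 4 ^ r * u ^ 2)).card : ℝ) ≤
    (∏ q ∈ A, (1 + J q δ)) * (2 * (16 * ((U : ℝ) / (3 ^ b * ∏ q ∈ A, (q : ℝ)) + 1) *
      Real.exp (-∑ p ∈ P, ((Om r δ s p).card : ℝ) / p) + (D : ℝ) ^ 6)) := by
  have hAp : ∀ q ∈ A, q.Prime := fun q hq => (hA q hq).1
  have hm1 : 1 ≤ ∏ q ∈ A, q := Finset.prod_pos fun q hq => (hAp q hq).pos
  set m : ℕ := ∏ q ∈ A, q with hm
  have hmR : (∏ q ∈ A, (q : ℝ)) = (m : ℝ) := by rw [hm]; push_cast; rfl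
  rw [hmR]
  set X : Finset ℕ := (range (U + 1)).filter (fun u => u % 3 ^ b ∈ O3 r δ s τ a b ∧
      ∃ p : ℕ, p.Prime ∧ z < p ∧ p ∉ A ∧
      3 ^ (τ + 1) * (m * p) = δ * s ^ 2 + 4 ^ r * u ^ 2) with hX
  set B : ℝ := 16 * ((U : ℝ) / (3 ^ b * (m : ℝ)) + 1) *
      Real.exp (-∑ p ∈ P, ((Om r δ s p).card : ℝ) / p) + (D : ℝ) ^ 6 with hB
  have hB0 : 0 ≤ B := by positivity
  have hJ : ∀ q, 0 ≤ 1 + J q δ := by
    intro q
    rcases h1.val q δ with h | h | h <;> rw [h] <;> norm_num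
  have hJ2 : ∀ q, 1 + J q δ ≤ 2 := by
    intro q
    rcases h1.val q δ with h | h | h <;> rw [h] <;> norm_num
  have hprod0 : 0 ≤ ∏ q ∈ A, (1 + J q δ) := prod_nonneg fun q _ => hJ q
  by_cases hs : ∃ q ∈ A, q ∣ s
  · obtain ⟨q, hq, hqs⟩ := hs
    have hqp := hAp q hq
    have hq5 := (hA q hq).2
    have hXe : X = ∅ := by
      rw [hX, filter_eq_empty_iff]
      rintro u - ⟨-, p, hp, -, hpA, he⟩
      have hqm : q ∣ m := dvd_prod_of_mem _ hq
      have d1 : q ∣ δ * s ^ 2 := (dvd_pow hqs two_ne_zero).mul_left _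
      have d2 : q ∣ δ * s ^ 2 + 4 ^ r * u ^ 2 := by
        rw [← he]; exact (hqm.mul_right p).mul_left _
      have d3 : q ∣ 4 ^ r * u ^ 2 := (Nat.dvd_add_right d1).mp d2
      have d4 : q ∣ u := by
        rcases hqp.dvd_mul.mp d3 with h | h
        · have h4 : q ∣ 4 := hqp.dvd_of_dvd_pow h
          have := Nat.le_of_dvd (by norm_num) h4
          omega
        · exact hqp.dvd_of_dvd_pow h
      have d5 : q ^ 2 ∣ 3 ^ (τ + 1) * (m * p) := by
        rw [he]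
        exact dvd_add ((pow_dvd_pow_of_dvd hqs 2).mul_left _)
          ((pow_dvd_pow_of_dvd d4 2).mul_left _)
      have hm' : m = q * ∏ q' ∈ A.erase q, q' := by
        rw [hm, mul_prod_erase A (fun q => q) hq]
      have d6 : q ∣ 3 ^ (τ + 1) * ((∏ q' ∈ A.erase q, q') * p) := by
        have : q * q ∣ q * (3 ^ (τ + 1) * ((∏ q' ∈ A.erase q, q') * p)) := by
          rw [← sq]
          convert d5 using 1
          rw [hm']; ring
        exact Nat.dvd_of_mul_dvd_mul_left hqp.pos this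
      rcases hqp.dvd_mul.mp d6 with h | h
      · exact not_dvd_three_pow hqp hq5 _ h
      · rcases hqp.dvd_mul.mp h with h | h
        · exact fix_not_dvd (fun q' hq' => hAp q' (mem_of_mem_erase hq')) hqp
            (notMem_erase q A) h
        · have := (Nat.prime_dvd_prime_iff_eq hqp hp).mp h
          exact hpA (this ▸ hq)
    rw [hXe, card_empty, Nat.cast_zero]
    exact mul_nonneg hprod0 (by positivity)
  · push Not at hs
    set C : Finset ℕ := (range m).filter (fun a => m ∣ δ * s ^ 2 + 4 ^ r * a ^ 2) with hC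
    have hCc : (C.card : ℝ) ≤ ∏ q ∈ A, (1 + J q δ) := by
      have h3 := fix_classes r δ s A hAp
      have h4 : (C.card : ℝ) ≤ ((∏ q ∈ A, (Om r δ s q).card : ℕ) : ℝ) := by
        exact_mod_cast h3
      refine h4.trans (le_of_eq ?_)
      push_cast
      exact prod_congr rfl fun q hq => h1.om_card r δ s q hδ (hAp q hq) (hA q hq).2 (hs q hq)
    have hE := O3_card r δ s τ a b hδ hs3 hb
    set E := O3 r δ s τ a b with hEdef
    set Xa : ℕ × ℕ → Finset ℕ := fun x => (range (U + 1)).filter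
      (fun u => (u % m = x.1 % m ∧ u % 3 ^ b = x.2 % 3 ^ b) ∧
        ∀ p ∈ P, u % p ∉ Om r δ s p) with hXa
    have hsub : X ⊆ (C ×ˢ E).biUnion Xa := by
      intro u hu
      rw [hX, mem_filter] at hu
      obtain ⟨huU, hu3, p, hp, hzp, hpA, he⟩ := hu
      rw [mem_biUnion]
      refine ⟨(u % m, u % 3 ^ b), ?_, ?_⟩
      · rw [mem_product]
        refine ⟨?_, hu3⟩
        rw [hC, mem_filter, mem_range]
        refine ⟨Nat.mod_lt _ hm1, (fix_mod r s u).mpr ?_⟩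
        rw [← he]
        exact (Dvd.intro p rfl).mul_left _
      · rw [hXa, mem_filter]
        refine ⟨huU, ⟨(Nat.mod_mod _ _).symm, (Nat.mod_mod _ _).symm⟩, ?_⟩
        intro p0 hp0 hmem
        obtain ⟨hp0p, hp064, hp0z, hp0A⟩ := hP p0 hp0
        unfold Om at hmem
        rw [mem_filter] at hmem
        have h3 := (fix_mod r s u).mp hmem.2
        rw [← he] at h3
        rcases hp0p.dvd_mul.mp h3 with h | h
        · exact not_dvd_three_pow hp0p (by omega) _ h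
        · rcases hp0p.dvd_mul.mp h with h | h
          · exact fix_not_dvd hAp hp0p hp0A h
          · have := (Nat.prime_dvd_prime_iff_eq hp0p hp).mp h
            omega
    have hcop : Nat.Coprime m (3 ^ b) := by
      rw [hm]
      exact Nat.Coprime.prod_left fun q hq => (coprime_three (hA q hq) b).symm
    have hXab : ∀ x ∈ C ×ˢ E, ((Xa x).card : ℝ) ≤ B := by
      intro x _
      obtain ⟨c, hc1, hc2⟩ := Nat.chineseRemainder hcop x.1 x.2
      have h3 := h2 (3 ^ b * m) c U D z K P (Om r δ s) (by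
          have : 0 < 3 ^ b := by positivity
          nlinarith) hD ?_ ?_ hzK hK hsum
      · refine le_trans ?_ (h3.trans (le_of_eq ?_))
        · have hsub2 : Xa x ⊆ (range (U + 1)).filter (fun u => u % (3 ^ b * m) =
              c % (3 ^ b * m) ∧ ∀ p ∈ P, u % p ∉ Om r δ s p) := by
            intro u hu
            rw [hXa, mem_filter] at hu
            rw [mem_filter]
            refine ⟨hu.1, ?_, hu.2.2⟩
            have g1 : u ≡ c [MOD m] := Nat.ModEq.trans hu.2.1.1 hc1.symm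
            have g2 : u ≡ c [MOD 3 ^ b] := Nat.ModEq.trans hu.2.1.2 hc2.symm
            exact (Nat.modEq_and_modEq_iff_modEq_mul hcop.symm).1 ⟨g2, g1⟩
          exact_mod_cast card_le_card hsub2
        · rw [hB]
          push_cast
          rfl
      · intro p hp
        obtain ⟨h3, h4, h5, h6⟩ := hP p hp
        refine ⟨h3, h4, h5, ?_⟩
        refine Nat.Coprime.mul_right ?_ ?_
        · exact (coprime_three ⟨h3, by omega⟩ b).symm
        · exact (Nat.Prime.coprime_iff_not_dvd h3).mpr (fix_not_dvd hAp h3 h6)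
      · intro p hp
        obtain ⟨h3, h4, h5, h6⟩ := hP p hp
        refine ⟨?_, ?_⟩
        · by_cases hps : p ∣ s
          · rw [h1.om_zero r δ s p hδ h3 (by omega) hps]
            simp
          · have h7 := h1.om_card r δ s p hδ h3 (by omega) hps
            have h8 : ((Om r δ s p).card : ℝ) ≤ 2 := by rw [h7]; exact hJ2 p
            exact_mod_cast h8
        · intro x hx
          unfold Om at hx
          rw [mem_filter, mem_range] at hx
          exact hx.1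
    have h3 : (X.card : ℝ) ≤ ∑ x ∈ C ×ˢ E, ((Xa x).card : ℝ) := by
      have := (card_le_card hsub).trans card_biUnion_le
      exact_mod_cast this
    refine h3.trans ((sum_le_card_nsmul _ _ B hXab).trans ?_)
    rw [nsmul_eq_mul, card_product]
    push_cast
    have hE2 : (E.card : ℝ) ≤ 2 := by exact_mod_cast hE
    rw [mul_assoc]
    refine mul_le_mul hCc (mul_le_mul_of_nonneg_right hE2 hB0) (by positivity) hprod0

theorem I_le_pow20 (I : ℕ) (h : 800 ≤ I) : I ≤ 2 ^ (I / 20) := by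
  set n := I / 20 with hn
  have h1 : I ≤ 20 * n + 19 := by omega
  have h2 : 40 ≤ n := by omega
  have h3 : n - 10 < 2 ^ (n - 10) := Nat.lt_two_pow_self
  have h4 : 2 ^ n = 2 ^ (n - 10) * 1024 := by
    have : n = (n - 10) + 10 := by omega
    conv_lhs => rw [this, pow_add]
    norm_num
  omega

section

variable {M : ℕ} {g : Cfg M} {V : Finset ℕ} {τ B a : ℕ}

theorem num_UL (hg : g.Ok) (hL : LOk g V τ B a) (m : ℕ)
    (hm : m ≤ 2 ^ (g.I / 64 + g.I / 8 + g.I / 16)) :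
    (m : ℝ) ≤ UL g V τ ∧ ((2 ^ (g.I / 40) : ℕ) : ℝ) ^ 6 * m * g.I ≤ UL g V τ := by
  have hU := UL_ge hg hL
  have hr := hg.hrI
  have hI := hg.hI
  have hmr : (m : ℝ) ≤ 2 ^ (g.I / 64 + g.I / 8 + g.I / 16) := by exact_mod_cast hm
  have hIr : (g.I : ℝ) ≤ 2 ^ (g.I / 20) := by exact_mod_cast I_le_pow20 g.I hI
  constructor
  · refine le_trans hmr (le_trans ?_ hU)
    exact pow_le_pow_right₀ (by norm_num) (by omega)
  · refine le_trans ?_ hU
    push_cast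
    calc ((2 : ℝ) ^ (g.I / 40)) ^ 6 * m * g.I
        ≤ ((2 : ℝ) ^ (g.I / 40)) ^ 6 * 2 ^ (g.I / 64 + g.I / 8 + g.I / 16) * 2 ^ (g.I / 20) := by
          gcongr
      _ = 2 ^ (g.I / 40 * 6 + (g.I / 64 + g.I / 8 + g.I / 16) + g.I / 20) := by
          rw [← pow_mul, ← pow_add, ← pow_add]
      _ ≤ 2 ^ (g.I / 2 - g.r) := by
          apply pow_le_pow_right₀ (by norm_num)
          have b1 := Nat.mul_div_le g.I 40
          have b2 := Nat.mul_div_le g.I 64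
          have b3 := Nat.mul_div_le g.I 8
          have b4 := Nat.mul_div_le g.I 16
          have b5 := Nat.mul_div_le g.I 20
          have b6 := Nat.lt_mul_div_succ g.I (show 0 < 2 by norm_num)
          generalize g.I / 40 = x1 at *
          generalize g.I / 64 = x2 at *
          generalize g.I / 8 = x3 at *
          generalize g.I / 16 = x4 at *
          generalize g.I / 20 = x5 at *
          generalize g.I / 2 = x6 at *
          generalize g.r = x7 at *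
          generalize g.I = x8 at *
          have b7 : (x7 : ℤ) + (x1 * 6 + (x2 + x3 + x4) + x5) ≤ x6 := by
            zify at *
            linarith
          omega

open Classical in
/-- for a fixed family member, the number of pairs is at most the number of `u` -/
theorem fiber_leL (hg : g.Ok) (hL : LOk g V τ B a) {A : Fin M → Finset ℕ} (hA : A ∈ g.Fam)
    (δ s z X : ℕ) (hz : z ≤ 2 ^ (g.I / 2)) :
    (((g.Tup ×ˢ range X).filter
      (fun x => 3 ^ (τ + 1) * (g.N x.1 * vv V) = δ * s ^ 2 + 4 ^ g.r * x.2 ^ 2 ∧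
        g.N x.1 * vv V ≡ a [MOD 3 ^ B])).filter (fun x => x.1.1 = A)).card ≤
    ((range (⌊UL g V τ⌋₊ + 1)).filter (fun u =>
      u % 3 ^ (B + τ + 1) ∈ O3 g.r δ s τ a (B + τ + 1) ∧
      ∃ p : ℕ, p.Prime ∧ z < p ∧ p ∉ AL g V A ∧
      3 ^ (τ + 1) * ((∏ q ∈ AL g V A, q) * p) = δ * s ^ 2 + 4 ^ g.r * u ^ 2)).card := by
  classical
  have hv := vv_pos hL
  apply Finset.card_le_card_of_injOn (fun x => x.2)
  · intro x hx
    have hx := Finset.mem_coe.1 hx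
    rw [Finset.mem_filter, Finset.mem_filter, Finset.mem_product] at hx
    obtain ⟨⟨⟨hT, -⟩, he, hmod⟩, hxA⟩ := hx
    have hT' := Finset.mem_sigma.1 hT
    obtain ⟨-, hp⟩ := hT'
    rw [hxA] at hp
    unfold Cfg.Pr at hp
    rw [Finset.mem_filter, Finset.mem_Ioc] at hp
    obtain ⟨⟨hp1, hp2⟩, hpp, -⟩ := hp
    have hN : g.N x.1 = g.Rp * g.Q A * x.1.2 := by
      unfold Cfg.N; rw [hxA]
    have hle : g.Rp * g.Q A * x.1.2 ≤ 2 ^ g.I := by
      have := (Nat.le_div_iff_mul_le (T5.AA_pos hg hA)).1 hp2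
      linarith [mul_comm x.1.2 (g.Rp * g.Q A)]
    rw [Finset.mem_coe, Finset.mem_filter, Finset.mem_range]
    refine ⟨?_, O3_mem he hmod, ?_⟩
    · rw [Nat.lt_succ_iff]
      apply u_le s x.2 δ (g.N x.1 * vv V) _ he
      exact Nat.mul_le_mul_right _ (by rw [hN]; exact hle)
    · refine ⟨x.1.2, hpp, by omega, ?_, ?_⟩
      · intro hmem
        have hdvd : x.1.2 ∣ ∏ q ∈ AL g V A, q := Finset.dvd_prod_of_mem (fun q => q) hmem
        rw [AL_prod hg hL hA] at hdvd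
        have h7 := Nat.le_of_dvd (Nat.mul_pos (T5.AA_pos hg hA) hv) hdvd
        have h8 := Nat.mul_le_mul (hg.hRQ A hA) hL.sizeV
        have h9 : 2 ^ (g.I / 8) * 2 ^ (g.I / 16) ≤ 2 ^ (g.I / 2) := by
          rw [← pow_add]
          exact Nat.pow_le_pow_right (by norm_num) (by omega)
        omega
      · rw [AL_prod hg hL hA, ← he, hN]
        ring
  · intro x hx y hy hxy
    have hx := Finset.mem_coe.1 hx
    have hy := Finset.mem_coe.1 hy
    rw [Finset.mem_filter, Finset.mem_filter] at hx hy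
    obtain ⟨⟨-, hex, -⟩, hxA⟩ := hx
    obtain ⟨⟨-, hey, -⟩, hyA⟩ := hy
    have hxy' : x.2 = y.2 := hxy
    have hN : g.N x.1 = g.N y.1 := by
      rw [hxy', ← hey] at hex
      exact Nat.eq_of_mul_eq_mul_right hv (Nat.eq_of_mul_eq_mul_left (by positivity) hex)
    obtain ⟨⟨xA, xp⟩, xu⟩ := x
    obtain ⟨⟨yA, yp⟩, yu⟩ := y
    simp only at hxA hyA hxy'
    subst hxA
    subst hyA
    subst hxy'
    have h1 : g.Rp * g.Q yA * xp = g.Rp * g.Q yA * yp := hN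
    have h2 := Nat.eq_of_mul_eq_mul_left (T5.AA_pos hg hA) h1
    rw [h2]

open Classical in
/-- the bound for a fixed family member -/
theorem fiber_boundL (h1 : QRStmt) (h2 : SVStmt) (C1 : ℝ) (hC1 : 0 < C1)
    (h5 : ∀ (I i0 i1 r δ s : ℕ) (A : Finset ℕ), 3 ≤ i0 → i0 ≤ i1 →
      i1 ≤ I → I ≤ 2 ^ i0 → Adm δ → ¬ Bad I i0 δ → 1 ≤ s → s ≤ 2 ^ I → A.card ≤ I →
      (Real.log i1 - Real.log i0 - C1 ≤ ∑ p ∈ Pr2 i0 i1 \ A, ((Om r δ s p).card : ℝ) / p) ∧
      (∑ p ∈ Pr2 i0 i1 \ A, ((Om r δ s p).card : ℝ) / p ≤ 2 * Real.log I + C1))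
    (hg : g.Ok) (hL : LOk g V τ B a) (hI0 : C1 + 1 ≤ ((Nat.log 2 g.I + 1 : ℕ) : ℝ))
    (i0 : ℕ) (hi6 : 6 ≤ i0) (hi0 : g.I ≤ 2 ^ i0) (h4000 : 4000 * i0 * (Nat.log 2 g.I + 1) ≤ g.I)
    (hcard : ∑ j, g.k j + g.R.card + V.card ≤ g.I) (δ s X : ℕ) (hδ : Adm δ)
    (hbad : ¬ Bad g.I i0 δ) (hs3 : ¬ 3 ∣ s) (hsI : s ≤ 2 ^ g.I)
    {A : Fin M → Finset ℕ} (hA : A ∈ g.Fam) :
    ((((g.Tup ×ˢ range X).filter
      (fun x => 3 ^ (τ + 1) * (g.N x.1 * vv V) = δ * s ^ 2 + 4 ^ g.r * x.2 ^ 2 ∧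
        g.N x.1 * vv V ≡ a [MOD 3 ^ B])).filter
        (fun x => x.1.1 = A)).card : ℝ) ≤
    (∏ q ∈ AL g V A, (1 + J q δ)) * ((UL g V τ / (3 ^ (B + τ + 1) * ∏ q ∈ AL g V A, (q : ℝ))) *
      (2 * (204800 * Real.exp C1 + 1) * (i0 * (Nat.log 2 g.I + 1) / g.I))) := by
  set L := Nat.log 2 g.I + 1 with hL'
  have hL1 : 1 ≤ L := by omega
  obtain ⟨hn1, hn2, hn3, hn4⟩ := T5.num_i1 g.I i0 L hL1 hi6 h4000
  set i1 := g.I / (3200 * L) with hi1
  have hI800 := hg.hI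
  have hs : 1 ≤ s := by
    rcases Nat.eq_zero_or_pos s with h | h
    · exact absurd (h ▸ dvd_zero 3) hs3
    · exact h
  have hIpos : (0 : ℝ) < g.I := by
    have : 0 < g.I := by omega
    exact_mod_cast this
  have hz : 2 ^ i1 ≤ 2 ^ (g.I / 2) := by
    apply Nat.pow_le_pow_right (by norm_num)
    rw [hi1]
    exact Nat.div_le_div_left (by omega) (by norm_num)
  have hAc : (AL g V A).card ≤ g.I := by
    rw [AL_card hg hL hA]
    exact hcard
  obtain ⟨hs1, hs2⟩ := h5 g.I i0 i1 g.r δ s (AL g V A) (by omega) hn1 hn2 hi0 hδ hbad hs hsI hAc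
  set σ := (∑ p ∈ Pr2 i0 i1 \ AL g V A, ((Om g.r δ s p).card : ℝ) / p) with hσ
  have hfix := fixL h1 h2 g.r δ s ⌊UL g V τ⌋₊ (2 ^ (g.I / 40)) (2 ^ i1) (80 * L) τ a (B + τ + 1)
    (AL g V A)
    (Pr2 i0 i1 \ AL g V A) hδ hs3 (by omega) (Nat.one_le_two_pow) (AL_prime hg hL hA) (by
      intro p hp
      obtain ⟨hp1, hp2⟩ := Finset.mem_sdiff.1 hp
      unfold Pr2 at hp1
      rw [Finset.mem_filter, Finset.mem_Ioc] at hp1
      have h64 : 2 ^ 6 ≤ 2 ^ i0 := Nat.pow_le_pow_right (by norm_num) hi6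
      refine ⟨hp1.2, by omega, hp1.1.2, hp2⟩) hn3 (by
      rw [← hσ]
      have h7 := T5.log_le_L g.I (by omega)
      rw [← hL'] at h7
      push_cast
      have h8 : (0:ℝ) ≤ (L : ℝ) := by positivity
      linarith) (T5.sum_sq_le i0 i1 hi6 hn1 _)
  have hfib := fiber_leL hg hL hA δ s (2 ^ i1) X hz
  rw [← hσ] at hfix
  refine le_trans (Nat.cast_le.2 hfib) (le_trans hfix ?_)
  have hprod0 : 0 ≤ ∏ q ∈ AL g V A, (1 + J q δ) :=
    Finset.prod_nonneg fun q _ => (T5.J_bounds h1 q δ).1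
  apply mul_le_mul_of_nonneg_left _ hprod0
  -- the product
  have hmcast : (3 : ℝ) ^ (B + τ + 1) * ∏ q ∈ AL g V A, (q : ℝ) =
      ((3 ^ (B + τ + 1) * (g.Rp * g.Q A * vv V) : ℕ) : ℝ) := by
    rw [← AL_prod hg hL hA]; push_cast; rfl
  rw [hmcast]
  set m := 3 ^ (B + τ + 1) * (g.Rp * g.Q A * vv V) with hm
  have hmpos : 0 < m := by
    have h1 := T5.AA_pos hg hA
    have h2 := vv_pos hL
    positivity
  have hmr : (0 : ℝ) < (m : ℝ) := by exact_mod_cast hmpos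
  obtain ⟨hU1, hU2⟩ := num_UL hg hL m (mod_le hg hL hA)
  have hU0 : 0 < UL g V τ := lt_of_lt_of_le hmr hU1
  have hfl : (⌊UL g V τ⌋₊ : ℝ) ≤ UL g V τ := Nat.floor_le hU0.le
  have hUm : 1 ≤ UL g V τ / m := by rwa [le_div_iff₀ hmr, one_mul]
  have e1 : (⌊UL g V τ⌋₊ : ℝ) / m + 1 ≤ 2 * (UL g V τ / m) := by
    have : (⌊UL g V τ⌋₊ : ℝ) / m ≤ UL g V τ / m := by gcongr
    linarith
  have hi0r : (0 : ℝ) < i0 := by
    have : 0 < i0 := by omega
    exact_mod_cast this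
  have hi1r : (0 : ℝ) < i1 := by
    have : 0 < i1 := by omega
    exact_mod_cast this
  have hLr : (0 : ℝ) < L := by exact_mod_cast hL1
  have e2 : Real.exp (-σ) ≤ Real.exp C1 * (6400 * (i0 * L / g.I)) := by
    have h9 : Real.exp (-σ) ≤ Real.exp (C1 + (Real.log i0 - Real.log i1)) := by
      apply Real.exp_le_exp.2; linarith
    have h10 : Real.exp (C1 + (Real.log i0 - Real.log i1)) = Real.exp C1 * (i0 / i1) := by
      rw [Real.exp_add, Real.exp_sub, Real.exp_log hi0r, Real.exp_log hi1r]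
    rw [h10] at h9
    refine le_trans h9 ?_
    apply mul_le_mul_of_nonneg_left _ (Real.exp_pos _).le
    have h11 : (i0 : ℝ) / i1 ≤ i0 / (g.I / (6400 * L)) := by
      apply div_le_div_of_nonneg_left hi0r.le _ hn4
      positivity
    refine le_trans h11 (le_of_eq ?_)
    field_simp
  have e3 : (((2 ^ (g.I / 40) : ℕ) : ℝ)) ^ 6 ≤ UL g V τ / m * (i0 * L / g.I) := by
    have h12 : (((2 ^ (g.I / 40) : ℕ) : ℝ)) ^ 6 ≤ UL g V τ / m * (1 / g.I) := by
      rw [div_mul_div_comm, mul_one, le_div_iff₀ (by positivity)]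
      calc (((2 ^ (g.I / 40) : ℕ) : ℝ)) ^ 6 * (m * g.I)
          = ((2 ^ (g.I / 40) : ℕ) : ℝ) ^ 6 * m * g.I := by ring
        _ ≤ UL g V τ := hU2
    refine le_trans h12 ?_
    have h13 : (1 : ℝ) ≤ i0 * L := by
      have : 1 ≤ i0 * L := Nat.one_le_iff_ne_zero.2 (by positivity)
      exact_mod_cast this
    gcongr
  have hE0 := Real.exp_pos C1
  have hq0 : 0 ≤ UL g V τ / m := by positivity
  have hw0 : (0 : ℝ) ≤ i0 * L / g.I := by positivity
  have hcastL : ((Nat.log 2 g.I : ℕ) : ℝ) + 1 = (L : ℝ) := by rw [hL']; push_cast; ring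
  rw [hcastL]
  have e4 : 16 * ((⌊UL g V τ⌋₊ : ℝ) / m + 1) * Real.exp (-σ) +
      ((2 ^ (g.I / 40) : ℕ) : ℝ) ^ 6 ≤
      UL g V τ / m * ((204800 * Real.exp C1 + 1) * (i0 * L / g.I)) := by
    calc 16 * ((⌊UL g V τ⌋₊ : ℝ) / m + 1) * Real.exp (-σ) + ((2 ^ (g.I / 40) : ℕ) : ℝ) ^ 6
        ≤ 16 * (2 * (UL g V τ / m)) * (Real.exp C1 * (6400 * (i0 * L / g.I))) +
          UL g V τ / m * (i0 * L / g.I) := by
          gcongr
      _ = UL g V τ / m * ((204800 * Real.exp C1 + 1) * (i0 * L / g.I)) := by ring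
  have e5 : (((3 ^ (B + τ + 1) * (g.Rp * g.Q A * vv V) : ℕ) : ℝ)) = (m : ℝ) := by rw [hm]
  linarith

end

open Classical in
theorem goodCountL (h1 : QRStmt) (h2 : ESStmt) (h4 : SVStmt) (h5 : SigStmt) :
    ∃ C : ℝ, 0 < C ∧ ∃ I0 : ℕ, ∀ {M : ℕ} (g : Cfg M), g.Ok → I0 ≤ g.I →
    ∀ {V : Finset ℕ} {τ B a : ℕ}, LOk g V τ B a →
    ∀ i0 : ℕ, 6 ≤ i0 → g.I ≤ 2 ^ i0 → 4000 * i0 * (Nat.log 2 g.I + 1) ≤ g.I →
    (∀ j, i0 ≤ g.κ j ∧ g.κ j ≤ g.I) → ∑ j, g.k j + g.R.card + V.card ≤ g.I →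
    ∀ δ s X : ℕ, Adm δ → ¬ Bad g.I i0 δ → ¬ 3 ∣ s → s ≤ 2 ^ g.I →
    (((g.Tup ×ˢ range X).filter
      (fun x => 3 ^ (τ + 1) * (g.N x.1 * vv V) = δ * s ^ 2 + 4 ^ g.r * x.2 ^ 2 ∧
        g.N x.1 * vv V ≡ a [MOD 3 ^ B])).card : ℝ) ≤
      C * 2 ^ (g.R.card + V.card) * (UL g V τ / (g.Rp * vv V * 3 ^ (B + τ + 1))) *
      (∏ j, ((g.S j + 1 / (g.I : ℝ) ^ 2 + g.R.card / 2 ^ (g.κ j)) ^ g.k j /
        ((g.k j).factorial : ℝ))) * (i0 * (Nat.log 2 g.I + 1) / g.I) := by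
  obtain ⟨C1, hC1, h5⟩ := h5
  refine ⟨2 * (204800 * Real.exp C1 + 1), by positivity, 2 ^ ⌈C1 + 1⌉₊, ?_⟩
  intro M g hg hI0 V τ B a hL i0 hi6 hi0 h4000 hκ hcard δ s X hδ hbad hs3 hsI
  have hL0 : C1 + 1 ≤ ((Nat.log 2 g.I + 1 : ℕ) : ℝ) := by
    have h6 : ⌈C1 + 1⌉₊ ≤ Nat.log 2 g.I := by
      apply (Nat.le_log_iff_pow_le (by norm_num) ?_).2 hI0
      have := hg.hI
      omega
    have h7 : ((⌈C1 + 1⌉₊ : ℕ) : ℝ) ≤ ((Nat.log 2 g.I + 1 : ℕ) : ℝ) := by
      exact_mod_cast (by omega)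
    exact le_trans (Nat.le_ceil _) h7
  set F := (g.Tup ×ˢ range X).filter
      (fun x => 3 ^ (τ + 1) * (g.N x.1 * vv V) = δ * s ^ 2 + 4 ^ g.r * x.2 ^ 2 ∧
        g.N x.1 * vv V ≡ a [MOD 3 ^ B]) with hF
  have hmaps : ∀ x ∈ F, x.1.1 ∈ g.Fam := by
    intro x hx
    rw [hF, Finset.mem_filter, Finset.mem_product] at hx
    exact (Finset.mem_sigma.1 hx.1.1).1
  have hsum : (F.card : ℝ) = ∑ A ∈ g.Fam, ((F.filter (fun x => x.1.1 = A)).card : ℝ) := by
    rw [Finset.card_eq_sum_card_fiberwise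
      (f := fun x : (Σ _ : Fin M → Finset ℕ, ℕ) × ℕ => x.1.1) (t := g.Fam)
      (fun x hx => Finset.mem_coe.2 (hmaps x (Finset.mem_coe.1 hx)))]
    push_cast
    rfl
  set c : ℝ := 2 * (204800 * Real.exp C1 + 1) * (i0 * (Nat.log 2 g.I + 1) / g.I) with hc
  have hcount : (F.card : ℝ) ≤ ∑ A ∈ g.Fam, (∏ q ∈ AL g V A, (1 + J q δ)) *
      ((UL g V τ / (3 ^ (B + τ + 1) * ∏ q ∈ AL g V A, (q : ℝ))) * c) := by
    rw [hsum]
    apply Finset.sum_le_sum
    intro A hA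
    have := fiber_boundL h1 h4 C1 hC1 h5 hg hL hL0 i0 hi6 hi0 h4000 hcard δ s X hδ hbad hs3 hsI hA
    convert this using 2
  have hterm : ∀ A ∈ g.Fam, (∏ q ∈ AL g V A, (1 + J q δ)) *
      ((UL g V τ / (3 ^ (B + τ + 1) * ∏ q ∈ AL g V A, (q : ℝ))) * c) =
      (UL g V τ * c / 3 ^ (B + τ + 1) * (∏ q ∈ V, (1 + J q δ) / q) *
        (∏ q ∈ g.R, (1 + J q δ) / q)) * ∏ j, ∏ q ∈ A j, (1 + J q δ) / q := by
    intro A hA
    have e := T5.prod_AA hg hA (fun q => (1 + J q δ) / (q : ℝ))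
    have eA : ∏ q ∈ AL g V A, (1 + J q δ) / (q : ℝ) =
        (∏ q ∈ T5.AA g A, (1 + J q δ) / (q : ℝ)) * ∏ q ∈ V, (1 + J q δ) / (q : ℝ) := by
      rw [AL, prod_union (AL_disj hL hA)]
      rfl
    rw [e, Finset.prod_div_distrib] at eA
    calc (∏ q ∈ AL g V A, (1 + J q δ)) *
      ((UL g V τ / (3 ^ (B + τ + 1) * ∏ q ∈ AL g V A, (q : ℝ))) * c)
        = ((∏ q ∈ AL g V A, (1 + J q δ)) / ∏ q ∈ AL g V A, (q : ℝ)) *
          (UL g V τ * c / 3 ^ (B + τ + 1)) := by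
          rw [mul_comm ((3 : ℝ) ^ (B + τ + 1)), ← div_div]
          ring
      _ = _ := by
          rw [eA]
          ring
  have hfam := h2.fam M g.Blk g.k (fun q => (1 + J q δ) / (q : ℝ))
  have hFam : g.Fam = Fintype.piFinset (fun j => powersetCard (g.k j) (g.Blk j)) := rfl
  rw [Finset.sum_congr rfl hterm, ← Finset.mul_sum, hFam, hfam] at hcount
  refine le_trans hcount ?_
  -- the killing primes
  have hpr2 : ∀ T : Finset ℕ, (∏ q ∈ T, (1 + J q δ) / (q : ℝ)) ≤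
      2 ^ T.card / ((∏ q ∈ T, q : ℕ) : ℝ) := by
    intro T
    rw [Finset.prod_div_distrib]
    have h8 : ∏ q ∈ T, (1 + J q δ) ≤ 2 ^ T.card := by
      calc ∏ q ∈ T, (1 + J q δ) ≤ ∏ _q ∈ T, (2 : ℝ) :=
            Finset.prod_le_prod (fun q _ => (T5.J_bounds h1 q δ).1)
              (fun q _ => (T5.J_bounds h1 q δ).2.1)
        _ = 2 ^ T.card := by rw [Finset.prod_const]
    push_cast
    gcongr
  have hnn : ∀ T : Finset ℕ, 0 ≤ (∏ q ∈ T, (1 + J q δ) / (q : ℝ)) := fun T =>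
    Finset.prod_nonneg fun q _ => div_nonneg (T5.J_bounds h1 q δ).1 (by positivity)
  have hRprod : ∏ q ∈ g.R, (1 + J q δ) / (q : ℝ) ≤ 2 ^ g.R.card / g.Rp := hpr2 g.R
  have hVprod : ∏ q ∈ V, (1 + J q δ) / (q : ℝ) ≤ 2 ^ V.card / vv V := hpr2 V
  -- the blocks
  have hblk : ∏ j, ∑ A ∈ powersetCard (g.k j) (g.Blk j), ∏ q ∈ A, (1 + J q δ) / (q : ℝ) ≤
      ∏ j, ((g.S j + 1 / (g.I : ℝ) ^ 2 + g.R.card / 2 ^ (g.κ j)) ^ g.k j /
        ((g.k j).factorial : ℝ)) := by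
    apply Finset.prod_le_prod
    · intro j _
      exact Finset.sum_nonneg fun A _ => Finset.prod_nonneg fun q _ =>
        div_nonneg (T5.J_bounds h1 q δ).1 (by positivity)
    · intro j _
      refine le_trans (h2.up (g.Blk j) (fun q => (1 + J q δ) / (q : ℝ)) (g.k j)
        (fun q _ => div_nonneg (T5.J_bounds h1 q δ).1 (by positivity))) ?_
      have h10 := T5.blk_sum h1 (g := g) i0 j (hκ j) δ hbad
      have h11 : 0 ≤ ∑ q ∈ g.Blk j, (1 + J q δ) / (q : ℝ) :=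
        Finset.sum_nonneg fun q _ => div_nonneg (T5.J_bounds h1 q δ).1 (by positivity)
      gcongr
  have hblk0 : 0 ≤ ∏ j, ∑ A ∈ powersetCard (g.k j) (g.Blk j), ∏ q ∈ A, (1 + J q δ) / (q : ℝ) :=
    Finset.prod_nonneg fun j _ => Finset.sum_nonneg fun A _ => Finset.prod_nonneg fun q _ =>
        div_nonneg (T5.J_bounds h1 q δ).1 (by positivity)
  have hU0 : 0 ≤ UL g V τ := UL_nonneg
  have hc0 : 0 ≤ c := by rw [hc]; positivity
  calc UL g V τ * c / 3 ^ (B + τ + 1) * (∏ q ∈ V, (1 + J q δ) / q) *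
        (∏ q ∈ g.R, (1 + J q δ) / (q : ℝ)) *
        ∏ j, ∑ A ∈ powersetCard (g.k j) (g.Blk j), ∏ q ∈ A, (1 + J q δ) / (q : ℝ)
      ≤ UL g V τ * c / 3 ^ (B + τ + 1) * (2 ^ V.card / vv V) *
        (2 ^ g.R.card / g.Rp) *
        ∏ j, ((g.S j + 1 / (g.I : ℝ) ^ 2 + g.R.card / 2 ^ (g.κ j)) ^ g.k j /
          ((g.k j).factorial : ℝ)) := by
        have := hnn V
        have := hnn g.R
        gcongr
    _ = _ := by
        rw [hc, pow_add 2 g.R.card V.card]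
        field_simp

end Pool.Agent.D0H88.PT
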