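import Pool.Agent.D0H88.PT.BlockC
import Pool.Agent.D0H88.PT.VV

set_option autoImplicit false

/-! The cofactors in classes modulo powers of 3 and a fixed power of 2. -/

namespace Pool.Agent.D0H88.PT

open Finset Pool.Agent.H307R2.OP Chr

/-- the blocks of the cofactor, the first one in the class `c0` and the others in the class `5`
modulo `2 ^ β` -/
def VBc (l : ℕ) (R : Finset ℕ) (β c0 : ℕ) (i : Fin (300 + 2)) : Finset ℕ :=
  PBc (l + (i : ℕ)) β (if i = 0 then c0 else 5) \ R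

theorem VBc_sub (l : ℕ) (R : Finset ℕ) (β c0 : ℕ) (i : Fin (300 + 2)) :
    VBc l R β c0 i ⊆ VB l R i := by
  intro p hp
  rw [VBc, Finset.mem_sdiff] at hp
  rw [VB, Finset.mem_sdiff]
  exact ⟨PBc_sub _ _ _ hp.1, hp.2⟩

theorem prod_first (c n : ℕ) : ∏ i : Fin (n + 1), (if i = 0 then c else 5) = c * 5 ^ n := by
  rw [Fin.prod_univ_succ, if_pos rfl]
  have h : ∀ i : Fin n, (if i.succ = 0 then c else 5) = 5 := fun i =>
    if_neg (Fin.succ_ne_zero i)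
  rw [Finset.prod_congr rfl (fun i _ => h i), Finset.prod_const, Finset.card_univ,
    Fintype.card_fin]

/-- the class of the cofactor -/
theorem vv_class {l : ℕ} {R : Finset ℕ} {β c0 : ℕ} {v : Fin (300 + 2) → ℕ}
    (hv : v ∈ Fintype.piFinset (VBc l R β c0)) : ∏ i, v i ≡ c0 * 5 ^ 301 [MOD 2 ^ β] := by
  have h1 : ∀ i, v i ≡ (if i = 0 then c0 else 5) [MOD 2 ^ β] := by
    intro i
    have h := (Fintype.mem_piFinset.1 hv) i
    rw [VBc, Finset.mem_sdiff, PBc, mem_filter] at h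
    exact h.1.2
  have h2 : ∏ i, v i ≡ ∏ i : Fin (300 + 2), (if i = 0 then c0 else 5) [MOD 2 ^ β] := by
    rw [← ZMod.natCast_eq_natCast_iff]
    push_cast
    refine Finset.prod_congr rfl fun i _ => ?_
    have := (ZMod.natCast_eq_natCast_iff _ _ _).2 (h1 i)
    rw [this]
    split_ifs <;> simp
  have h3 : ∏ i : Fin (300 + 2), (if i = 0 then c0 else 5) = c0 * 5 ^ 301 := prod_first c0 301
  rw [h3] at h2
  exact h2

theorem pow5 : 5 ^ 301 % 8 = 5 := by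
  rw [show (301 : ℕ) = 2 * 150 + 1 from rfl, pow_succ, pow_mul]
  rw [Nat.mul_mod, Nat.pow_mod]
  norm_num

theorem exists_class (β N a2 : ℕ) (hβ : 3 ≤ β) (hN : N % 8 = 5) (ha : a2 % 8 = 5) :
    ∃ c0 : ℕ, c0 % 8 = 5 ∧ N * (c0 * 5 ^ 301) ≡ a2 [MOD 2 ^ β] := by
  obtain ⟨u, hu⟩ : ∃ u, u = N * 5 ^ 301 := ⟨_, rfl⟩
  have hu8 : u % 8 = 1 := by
    rw [hu, Nat.mul_mod, hN, pow5]
  have hcop : Nat.Coprime u (2 ^ β) := by
    apply Nat.Coprime.pow_right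
    rw [Nat.coprime_two_right, Nat.odd_iff]
    omega
  have h1 : 1 < 2 ^ β := Nat.one_lt_two_pow (by omega)
  obtain ⟨w, -, hw⟩ := Nat.exists_mul_mod_eq_one_of_coprime hcop h1
  have hw1 : u * w ≡ 1 [MOD 2 ^ β] := by
    rw [Nat.ModEq, hw, Nat.mod_eq_of_lt h1]
  have h2 : N * ((w * a2) * 5 ^ 301) ≡ a2 [MOD 2 ^ β] := by
    have e : N * ((w * a2) * 5 ^ 301) = (u * w) * a2 := by rw [hu]; ring
    rw [e]
    have := Nat.ModEq.mul_right a2 hw1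
    rwa [one_mul] at this
  refine ⟨w * a2, ?_, h2⟩
  have h3 := two_pow_mod8 hβ h2
  have e : N * ((w * a2) * 5 ^ 301) = u * (w * a2) := by rw [hu]; ring
  rw [e, Nat.mul_mod, hu8, one_mul, Nat.mod_mod, ha] at h3
  exact h3

/-- the number of the primes of a block in a class modulo a fixed power of 2 -/
theorem VBc_card (β : ℕ) (hβ : 3 ≤ β) : ∃ l0 : ℕ, ∀ l : ℕ, l0 ≤ l → ∀ R : Finset ℕ,
    R.card ≤ 2 → ∀ c : ℕ, c % 8 = 5 →
    1 / 2 ^ β * ((PB l 5 \ R).card : ℝ) ≤ ((PBc l β c \ R).card : ℝ) := by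
  obtain ⟨l1, hl1⟩ := ev_numc β
  obtain ⟨l2, hl2⟩ := block_card
  obtain ⟨l3, hl3⟩ := blockc_card β hβ
  refine ⟨l1 + l2 + l3, fun l hl R hR c hc => ?_⟩
  obtain ⟨h300, h100, hnum, -, -⟩ := hl1 l (by omega)
  obtain ⟨hc1, hc2⟩ := hl2 l (by omega) ∅ (by simp)
  rw [Finset.sdiff_empty] at hc1
  obtain ⟨hd1, hd2, hd3⟩ := hl3 l (by omega) c hc R hR
  have hlog2 := Real.log_two_gt_d9
  have hlR : (300 : ℝ) ≤ l := by exact_mod_cast h300
  have hx0 : 0 < (l : ℝ) * Real.log 2 := by nlinarith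
  have h2b0 : (0 : ℝ) < 2 ^ β := by positivity
  have h2l : (0 : ℝ) < 2 ^ l := by positivity
  set X : ℝ := 2 ^ l / (l * Real.log 2) with hX
  have hX0 : 0 < X := by positivity
  have e2 : (2 : ℝ) ≤ 8 / 2 ^ β * (0.001 * X) := by
    rw [hX, div_mul_eq_mul_div, le_div_iff₀ h2b0, mul_div_assoc', mul_div_assoc',
      le_div_iff₀ hx0]
    have h5 : Real.log 2 ≤ 1 := by linarith [Real.log_two_lt_d9]
    have h6 : (2 : ℝ) * 2 ^ β * (l * Real.log 2) ≤ 2 * 2 ^ β * (l * 1) := by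
      gcongr
    linarith
  have e3 : ((PB l 5 \ R).card : ℝ) ≤ (PB l 5).card := by
    exact_mod_cast Finset.card_le_card (Finset.sdiff_subset : PB l 5 \ R ⊆ PB l 5)
  have e4 : 1 / 2 ^ β * ((PB l 5 \ R).card : ℝ) ≤ 1 / 2 ^ β * ((PB l 5).card : ℝ) :=
    mul_le_mul_of_nonneg_left e3 (by positivity)
  have e5 : 8 / (2 : ℝ) ^ β * ((PB l 5).card : ℝ) = 8 * (1 / 2 ^ β * ((PB l 5).card : ℝ)) := by
    ring
  have e6 : 8 / (2 : ℝ) ^ β * (0.001 * X) = 8 * (1 / 2 ^ β * (0.001 * X)) := by ring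
  have e7 : 1 / (2 : ℝ) ^ β * (0.001 * X) ≤ 1 / 2 ^ β * (0.1 * ((PB l 5).card : ℝ)) := by
    apply mul_le_mul_of_nonneg_left _ (by positivity)
    linarith
  have e8 : 1 / (2 : ℝ) ^ β * (0.1 * ((PB l 5).card : ℝ)) =
    0.1 * (1 / 2 ^ β * ((PB l 5).card : ℝ)) := by ring
  have e9 : 0 ≤ 1 / (2 : ℝ) ^ β * ((PB l 5).card : ℝ) := by positivity
  rw [e5, e6] at hd3
  rw [e6] at e2
  rw [e8] at e7
  linarith

/-- the choices in a class modulo a power of 3 and a fixed power of 2 -/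
theorem class_prodc (β : ℕ) (hβ : 3 ≤ β) : ∃ κ : ℝ, 0 < κ ∧ ∃ l0 : ℕ, ∀ l : ℕ, l0 ≤ l →
    ∀ R : Finset ℕ, R.card ≤ 2 → ∀ B : ℕ, 2 ≤ B →
    3 ^ B ≤ 2 ^ (l / 100) → ∀ a N a2 : ℕ, ¬ 3 ∣ a → ¬ 3 ∣ N → N % 8 = 5 → a2 % 8 = 5 →
    κ * ((VF l R).card : ℝ) ≤ (3 : ℝ) ^ B *
      (((VF l R).filter fun v => N * vv (vset v) ≡ a [MOD 3 ^ B] ∧
        N * vv (vset v) ≡ a2 [MOD 2 ^ β]).card : ℝ) := by
  obtain ⟨l1, hl1⟩ := blockc_chr β hβ
  obtain ⟨l2, hl2⟩ := VBc_card β hβ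
  refine ⟨1 / 2 * ∏ _i : Fin (300 + 2), (1 / (2 : ℝ) ^ β),
    mul_pos (by norm_num) (Finset.prod_pos fun _ _ => by positivity),
    100 * l1 + l2 + 100, fun l hl R hR B hB hB3 a N a2 ha hN hN8 ha2 => ?_⟩
  obtain ⟨c0, hc0, hc0N⟩ := exists_class β N a2 hβ hN8 ha2
  have hcl : ∀ i : Fin (300 + 2), (if i = 0 then c0 else 5) % 8 = 5 := by
    intro i
    split_ifs
    · exact hc0
    · norm_num
  have hblk : ∀ i : Fin (300 + 2), _ := fun i : Fin (300 + 2) =>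
    hl1 (l + (i : ℕ)) (by omega) (if i = 0 then c0 else 5) (hcl i) R hR B hB
      (hB3.trans (Nat.pow_le_pow_right (by norm_num) (Nat.div_le_div_right (by omega))))
  have hnz : NeZero (3 ^ B) := ⟨by positivity⟩
  have hcop : ∀ n : ℕ, ¬ 3 ∣ n → IsUnit (n : ZMod (3 ^ B)) := by
    intro n hn
    rw [ZMod.isUnit_iff_coprime]
    exact Nat.Coprime.pow_right _
      ((Nat.Prime.coprime_iff_not_dvd Nat.prime_three).2 hn).symm
  have hNu := hcop N hN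
  have hau := hcop a ha
  have hNi : IsUnit ((N : ZMod (3 ^ B))⁻¹) := by
    have h1 : (N : ZMod (3 ^ B))⁻¹ * (N : ZMod (3 ^ B)) = 1 := ZMod.inv_mul_of_unit _ hNu
    exact IsUnit.of_mul_eq_one _ h1
  have hnum : (0.99 : ℝ) ^ 300 * 4.9 ≤ 1 / 2 := by
    have e1 : (0.99 : ℝ) ^ 300 = ((0.99 : ℝ) ^ 100) ^ 3 := by rw [← pow_mul]
    have e2 : (0.99 : ℝ) ^ 100 ≤ 0.37 := by norm_num
    have e3 : ((0.99 : ℝ) ^ 100) ^ 3 ≤ 0.37 ^ 3 := pow_le_pow_left₀ (by positivity) e2 3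
    rw [e1]
    norm_num at e3 ⊢
  have hpr := products (q := 3 ^ B) 300 hnum (VBc l R β c0) (fun i => (hblk i).1)
    (fun i => (hblk i).2.1) (fun i => (hblk i).2.2.1) (fun i => (hblk i).2.2.2)
    ((a : ZMod (3 ^ B)) * (N : ZMod (3 ^ B))⁻¹) (hau.mul hNi)
  have hcard : (∏ _i : Fin (300 + 2), (1 / (2 : ℝ) ^ β)) * ((VF l R).card : ℝ) ≤
      ∏ i, ((VBc l R β c0 i).card : ℝ) := by
    rw [VF, Fintype.card_piFinset]
    push_cast
    rw [← Finset.prod_mul_distrib]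
    refine Finset.prod_le_prod (fun i _ => by positivity) fun i _ => ?_
    exact hl2 (l + (i : ℕ)) (by omega) R hR _ (hcl i)
  have hset : ((Fintype.piFinset (VBc l R β c0)).filter fun v =>
      ((∏ i, v i : ℕ) : ZMod (3 ^ B)) = (a : ZMod (3 ^ B)) * (N : ZMod (3 ^ B))⁻¹) ⊆
      ((VF l R).filter fun v => N * vv (vset v) ≡ a [MOD 3 ^ B] ∧
        N * vv (vset v) ≡ a2 [MOD 2 ^ β]) := by
    intro v hv
    rw [mem_filter] at hv ⊢
    have hvF : v ∈ VF l R := by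
      rw [VF, Fintype.mem_piFinset]
      intro i
      exact VBc_sub l R β c0 i ((Fintype.mem_piFinset.1 hv.1) i)
    refine ⟨hvF, ?_, ?_⟩
    · rw [← ZMod.natCast_eq_natCast_iff, vv_vset hvF, Nat.cast_mul, hv.2, mul_comm, mul_assoc,
        ZMod.inv_mul_of_unit _ hNu, mul_one]
    · rw [vv_vset hvF]
      exact (Nat.ModEq.mul_left N (vv_class hv.1)).trans hc0N
  have hc2 : (((Fintype.piFinset (VBc l R β c0)).filter fun v => ((∏ i, v i : ℕ) : ZMod (3 ^ B)) =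
      (a : ZMod (3 ^ B)) * (N : ZMod (3 ^ B))⁻¹).card : ℝ) ≤
      (((VF l R).filter fun v => N * vv (vset v) ≡ a [MOD 3 ^ B] ∧
        N * vv (vset v) ≡ a2 [MOD 2 ^ β]).card : ℝ) := by
    exact_mod_cast Finset.card_le_card hset
  have htot : ((3 ^ B : ℕ).totient : ℝ) ≤ 3 ^ B := by
    have := Nat.totient_le (3 ^ B)
    exact_mod_cast this
  calc 1 / 2 * (∏ _i : Fin (300 + 2), (1 / (2 : ℝ) ^ β)) * ((VF l R).card : ℝ)
      = 1 / 2 * ((∏ _i : Fin (300 + 2), (1 / (2 : ℝ) ^ β)) * ((VF l R).card : ℝ)) := by ring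
    _ ≤ 1 / 2 * ∏ i, ((VBc l R β c0 i).card : ℝ) :=
        mul_le_mul_of_nonneg_left hcard (by norm_num)
    _ ≤ _ := hpr
    _ ≤ _ := mul_le_mul htot hc2 (Nat.cast_nonneg _) (by positivity)

end Pool.Agent.D0H88.PT
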