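import Pool.Agent.D0H88.PT.StepB
import Pool.Agent.D0H88.PT.UGood
import Pool.Agent.D0H88.PT.Lost2
import Pool.Agent.D0H88.PT.VVC

set_option autoImplicit false

/-! The main theorem in terms of the parameter `y`. -/

namespace Pool.Agent.D0H88.PT

open Finset Pool.Agent.H307R2.OP Pool.Agent.H307R2.OP.MAINaux

/-- the size of the range -/
def xx (τ I : ℕ) : ℕ := 3 ^ τ * (2 ^ I * 2 ^ (302 * (I / 10000) + 45753))

theorem stepC (c0 C D D' Mp eM y L s3 sI sV rt Yp sx : ℝ) (hc0 : 0 < c0) (hC : 0 < C)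
    (hD : 0 < D) (hD' : 0 < D') (hMp : 0 < Mp) (heM : 0 < eM) (hy : 0 < y) (hL : 0 < L)
    (hs3 : 0 < s3) (hsI : 0 < sI) (hsV : 0 < sV) (hYp : 0 ≤ Yp)
    (hsx : sx ≤ s3 * sI * (sV * D')) (hrt : Yp ≤ rt)
    (h8 : L ≤ c0 / (2 * Mp * C * D * eM * D') * y) :
    sx * (Yp / y ^ 2) ≤ c0 * s3 * sI * sV * rt / (2 * Mp * C * D * eM * y * L) := by
  have h1 : L * (2 * Mp * C * D * eM * D') ≤ c0 * y := by
    have e : c0 / (2 * Mp * C * D * eM * D') * y * (2 * Mp * C * D * eM * D') = c0 * y := by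
      field_simp
    rw [← e]
    exact mul_le_mul_of_nonneg_right h8 (by positivity)
  have hrt0 : 0 ≤ rt := hYp.trans hrt
  calc sx * (Yp / y ^ 2) ≤ (s3 * sI * (sV * D')) * (rt / y ^ 2) := by
        apply mul_le_mul hsx _ (by positivity) (by positivity)
        exact div_le_div_of_nonneg_right hrt (by positivity)
    _ ≤ c0 * s3 * sI * sV * rt / (2 * Mp * C * D * eM * y * L) := by
        rw [mul_div_assoc', div_le_div_iff₀ (by positivity) (by positivity)]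
        calc s3 * sI * (sV * D') * rt * (2 * Mp * C * D * eM * y * L)
            = (s3 * sI * sV * rt * y) * (L * (2 * Mp * C * D * eM * D')) := by ring
          _ ≤ (s3 * sI * sV * rt * y) * (c0 * y) :=
              mul_le_mul_of_nonneg_left h1 (by positivity)
          _ = c0 * s3 * sI * sV * rt * y ^ 2 := by ring

theorem sqrt_xx (τ I : ℕ) : Real.sqrt (xx τ I) ≤ Real.sqrt (3 ^ (τ + 1)) * Real.sqrt (2 ^ I) *
    (Real.sqrt (2 ^ (302 * (I / 10000) + 45451)) * Real.sqrt (2 ^ 302)) := by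
  rw [← Real.sqrt_mul (by positivity), ← Real.sqrt_mul (by positivity),
    ← Real.sqrt_mul (by positivity)]
  apply Real.sqrt_le_sqrt
  unfold xx
  push_cast
  have e1 : (2 : ℝ) ^ (302 * (I / 10000) + 45753) =
      2 ^ (302 * (I / 10000) + 45451) * 2 ^ 302 := by
    rw [← pow_add]
  rw [e1, mul_assoc ((3 : ℝ) ^ (τ + 1))]
  apply mul_le_mul_of_nonneg_right _ (by positivity)
  exact pow_le_pow_right₀ (by norm_num) (by omega)

theorem class_a (H1 B : ℕ) (hH1 : ¬ 3 ∣ H1) (hB : 2 ≤ B) :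
    ∃ a : ℕ, ¬ 3 ∣ a ∧ a + 8 * H1 ≡ 3 ^ (B - 1) [MOD 3 ^ B] := by
  have h1 : 1 ≤ 3 ^ B := Nat.one_le_pow _ _ (by norm_num)
  refine ⟨3 ^ (B - 1) + 8 * H1 * (3 ^ B - 1), ?_, ?_⟩
  · intro h
    have h2 : 3 ∣ 3 ^ (B - 1) := dvd_pow_self 3 (by omega)
    have h3 : 3 ∣ 8 * H1 * (3 ^ B - 1) := (Nat.dvd_add_right h2).1 h
    rcases (Nat.Prime.dvd_mul Nat.prime_three).1 h3 with h4 | h4
    · rcases (Nat.Prime.dvd_mul Nat.prime_three).1 h4 with h5 | h5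
      · norm_num at h5
      · exact hH1 h5
    · have h5 : 3 ∣ 3 ^ B := dvd_pow_self 3 (by omega)
      have h6 : 3 ∣ 1 := by
        have := Nat.dvd_sub h5 h4
        rwa [Nat.sub_sub_self h1] at this
      norm_num at h6
  · have e : 3 ^ (B - 1) + 8 * H1 * (3 ^ B - 1) + 8 * H1 = 3 ^ (B - 1) + 3 ^ B * (8 * H1) := by
      obtain ⟨k, hk⟩ := Nat.exists_eq_add_of_le h1
      rw [hk]
      simp only [Nat.add_sub_cancel_left]
      ring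
    rw [e]
    exact Nat.ModEq.symm (by
      unfold Nat.ModEq
      rw [Nat.add_mul_mod_self_left])

theorem class_a2 (b ρ τ : ℕ) (hτ : τ % 2 = 0) :
    ∃ a2 : ℕ, a2 % 8 = 5 ∧ 3 ^ (τ + 1) * a2 + 1 ≡ 24 * ρ [MOD 2 ^ (b + 3)] := by
  have hcop : Nat.Coprime (3 ^ (τ + 1)) (2 ^ (b + 3)) := Nat.Coprime.pow _ _ (by norm_num)
  have h1 : 1 < 2 ^ (b + 3) := Nat.one_lt_two_pow (by omega)
  obtain ⟨w, -, hw⟩ := Nat.exists_mul_mod_eq_one_of_coprime hcop h1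
  have hw1 : 3 ^ (τ + 1) * w ≡ 1 [MOD 2 ^ (b + 3)] := by
    rw [Nat.ModEq, hw, Nat.mod_eq_of_lt h1]
  have h2 : 3 ^ (τ + 1) * (w * (24 * ρ + (2 ^ (b + 3) - 1))) + 1 ≡ 24 * ρ [MOD 2 ^ (b + 3)] := by
    have e1 : 3 ^ (τ + 1) * (w * (24 * ρ + (2 ^ (b + 3) - 1))) =
        (3 ^ (τ + 1) * w) * (24 * ρ + (2 ^ (b + 3) - 1)) := by ring
    rw [e1]
    have e2 := Nat.ModEq.add_right 1 (Nat.ModEq.mul_right (24 * ρ + (2 ^ (b + 3) - 1)) hw1)
    refine e2.trans ?_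
    have e3 : 1 * (24 * ρ + (2 ^ (b + 3) - 1)) + 1 = 24 * ρ + 2 ^ (b + 3) := by omega
    rw [e3]
    unfold Nat.ModEq
    rw [Nat.add_mod_right]
  refine ⟨_, ?_, h2⟩
  generalize w * (24 * ρ + (2 ^ (b + 3) - 1)) = a2 at h2
  have h8 : 8 ∣ 2 ^ (b + 3) := ⟨2 ^ b, by rw [pow_add]; ring⟩
  have h3 := h2.of_dvd h8
  have h4 : 3 ^ (τ + 1) % 8 = 3 := by
    obtain ⟨k, rfl⟩ : ∃ k, τ = 2 * k := ⟨τ / 2, by omega⟩
    rw [pow_succ, pow_mul, Nat.mul_mod, Nat.pow_mod]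
    norm_num
  unfold Nat.ModEq at h3
  rw [Nat.add_mod, Nat.mul_mod, h4] at h3
  omega

theorem two_pow_even {r : ℕ} (hr : 3 ≤ r) : ∃ k, 2 ^ (r - 1) = 2 * k :=
  ⟨2 ^ (r - 2), by rw [← pow_succ']; congr 1; omega⟩

theorem two_rr {r : ℕ} (hr : 3 ≤ r) : 2 ^ r = 2 * 2 ^ (r - 1) := by
  obtain ⟨k, rfl⟩ : ∃ k, r = k + 1 := ⟨r - 1, by omega⟩
  rw [Nat.add_sub_cancel, pow_succ, mul_comm]

theorem hsz_aux (τ I Y : ℕ) (h1 : 1000000000 ≤ I) (h2 : 2 * τ + 10 ≤ Y)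
    (h3 : Y * 100000000 ≤ I) : 3 ^ (τ + 1) * 2 ^ (302 * (I / 10000) + 45753) ≤ 2 ^ I := by
  obtain ⟨n, hn⟩ : ∃ n, n = 302 * (I / 10000) + 45753 := ⟨_, rfl⟩
  have h4 : 2 * (τ + 1) + n ≤ I := by omega
  rw [← hn]
  clear hn h1 h3
  calc 3 ^ (τ + 1) * 2 ^ n ≤ 2 ^ (2 * (τ + 1)) * 2 ^ n :=
        Nat.mul_le_mul_right _ (three_le_two _ _ le_rfl)
    _ = 2 ^ (2 * (τ + 1) + n) := (pow_add _ _ _).symm
    _ ≤ 2 ^ I := Nat.pow_le_pow_right (by norm_num) h4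

open Classical in
/-- **the main theorem in terms of the parameter** -/
theorem mainPat (b ρ : ℕ) (hρ : ρ < 2 ^ b) (τ H1 : ℕ) (hτ : τ % 2 = 0) (hH1 : ¬ 3 ∣ H1) :
    ∀ M : ℕ, 1 ≤ M → ∃ y0 : ℕ,
    ∀ y : ℕ, y0 ≤ y → ∀ I : ℕ, y ^ (2 * M + 4) ≤ I → I + I / 8 ≤ 2 * y ^ (2 * M + 4) →
    Real.sqrt (xx τ I) * (y : ℝ) ^ (2 * M - 3 : ℤ) ≤
      (patCount b ρ (3 ^ τ * H1) (xx τ I) : ℝ) := by
  intro M hM
  obtain ⟨c1, hc1, I1, hlow⟩ := tupLow_main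
  obtain ⟨C, hC, I2, hgood⟩ := goodCountL qr es sv sig_main
  obtain ⟨l0, hcl0⟩ := class_prod
  obtain ⟨κ, hκ0, l0', hcl⟩ := class_prodc (b + 3) (by omega)
  obtain ⟨a2, ha28, ha2⟩ := class_a2 b ρ τ hτ
  obtain ⟨y10, hpar⟩ := parK 302 pc M hM
  obtain ⟨y5, hrc⟩ := rChoice_main M hM
  obtain ⟨c0, hc0⟩ : ∃ c0 : ℝ, c0 = κ * c1 := ⟨_, rfl⟩
  have hc00 : 0 < c0 := by rw [hc0]; positivity
  obtain ⟨y6, hbt⟩ := badTotalL M hM τ (3 ^ τ * H1) c0 hc00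
  obtain ⟨y7, h7⟩ := poly_exp M
  obtain ⟨D, hD, hD0⟩ : ∃ D : ℝ, (2 : ℝ) ^ 304 = D ∧ 0 < D := ⟨_, rfl, by positivity⟩
  obtain ⟨D', hD', hD'0⟩ : ∃ D' : ℝ, Real.sqrt (2 ^ 302) = D' ∧ 0 < D' :=
    ⟨_, rfl, Real.sqrt_pos.2 (by positivity)⟩
  obtain ⟨y8, h8⟩ := log_small M (c0 / (2 * 2 ^ M * C * D * Real.exp M * D'))
    (by have := Real.exp_pos (M : ℝ); positivity)
  obtain ⟨y9, h9⟩ := size_facts M hM τ
  obtain ⟨qb, hqb⟩ : ∃ qb : ℕ, 2 ^ (b + 3) = qb := ⟨_, rfl⟩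
  refine ⟨I1 + I2 + 10000 * l0 + 10000 * l0' + y10 + y5 + y6 + y7 + y8 + y9 + 20 + qb, fun y hy I hI1 hI8 => ?_⟩
  have hI2 : I ≤ 2 * y ^ (2 * M + 4) := by omega
  have hy20 : 20 ≤ y := by omega
  have hyI' : y ≤ y ^ (2 * M + 4) := Nat.le_self_pow (by omega) _
  have hyI : y ≤ I := hyI'.trans hI1
  obtain ⟨R, c, hRC⟩ := hrc y (by omega) I hI1 hI2
  obtain ⟨hOk, hcard, hYr1, hYr2, hk, hS, hκ, hk2, hprod, hW⟩ :=
    hpar y (by omega) I hI1 hI2 R c hRC.card hRC.pr hRC.le hRC.cl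
  obtain ⟨hs1, hs2, hs3, hs4, hy1⟩ := h9 y (by omega) I hI1
  have h2r : 2 ^ (rr M y) = 2 * 2 ^ (rr M y - 1) := two_rr (hOk.hr : 3 ≤ rr M y)
  have hB1 : 2 ^ (rr M y - 1) - τ + τ = 2 ^ (rr M y - 1) := by omega
  have hB2 : 2 ≤ 2 ^ (rr M y - 1) - τ := by omega
  obtain ⟨a, ha3, ha⟩ := class_a H1 (2 ^ (rr M y - 1) - τ) hH1 hB2
  have hL : ∀ v ∈ VF (I / 10000) R,
      LOk (cfgK M y I R c 302) (vset v) τ (2 ^ (rr M y - 1) - τ) a := fun v hv =>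
    lok hOk hYr1 hYr2 hs1 hs2 hs3 hs4 hy1 hv ha3
  have hl0 : l0 ≤ I / 10000 := by omega
  have hl0' : l0' ≤ I / 10000 := by omega
  have hB3 : 3 ^ (2 ^ (rr M y - 1) - τ) ≤ 2 ^ (I / 10000 / 100) := by
    apply three_le_two
    omega
  have hodd : (∑ j, (cfgK M y I R c 302).k j + (cfgK M y I R c 302).R.card + 1) % 2 = 1 := by
    have e1 : ∑ j, (cfgK M y I R c 302).k j + (cfgK M y I R c 302).R.card + 1 + 302 =
      2 ^ (rr M y - 1) - 1 := hcard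
    obtain ⟨k, hk'⟩ : ∃ k, 2 ^ (rr M y - 1) = 2 * k := two_pow_even (hOk.hr : 3 ≤ rr M y)
    rw [hk'] at e1 hB2
    omega
  have hclass : ∀ t ∈ (cfgK M y I R c 302).Tup, κ * ((VF (I / 10000) R).card : ℝ) ≤
      3 ^ (2 ^ (rr M y - 1) - τ) * (((VF (I / 10000) R).filter (fun v =>
        (cfgK M y I R c 302).N t * vv (vset v) ≡ a [MOD 3 ^ (2 ^ (rr M y - 1) - τ)] ∧
        (cfgK M y I R c 302).N t * vv (vset v) ≡ a2 [MOD 2 ^ (b + 3)])).card : ℝ) :=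
    fun t ht => hcl (I / 10000) hl0' R hRC.card _ hB2 hB3 a _ a2 ha3 (tup_three hOk tup ht)
      (tup_mod8 hOk tup ht hodd hRC.par) ha28
  have hr2 : b + 3 ≤ 2 * rr M y := by
    have e1 : 2 ^ (b + 3) ≤ 2 ^ rr M y := by
      have e2 : y ≤ y ^ (2 * M - 1) := Nat.le_self_pow (by omega) _
      rw [hqb]
      omega
    have e3 := (Nat.pow_le_pow_iff_right (by norm_num : 1 < 2)).1 e1
    omega
  have hFpos : 0 < (VF (I / 10000) R).card :=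
    (hcl0 (I / 10000) hl0 R hRC.card _ hB2 hB3 a a ha3 ha3).2
  have hIpow : I ≤ 2 ^ y := hI2.trans (h7 y (by omega))
  have hLlog : Nat.log 2 I ≤ y := by
    have := Nat.log_mono_right (b := 2) hIpow
    rwa [Nat.log_pow (by norm_num)] at this
  have hIbig : 4000 * y * (Nat.log 2 I + 1) ≤ I := by
    have e1 : 4000 * y * (Nat.log 2 I + 1) ≤ 4000 * y * (2 * y) :=
      Nat.mul_le_mul_left _ (by omega)
    have e2 : y ^ 6 ≤ y ^ (2 * M + 4) := Nat.pow_le_pow_right (by omega) (by omega)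
    have e3 : 20 ^ 4 ≤ y ^ 4 := Nat.pow_le_pow_left hy20 4
    have e4 : 8000 * y ^ 2 ≤ y ^ 6 := by
      calc 8000 * y ^ 2 ≤ y ^ 4 * y ^ 2 := Nat.mul_le_mul_right _ (by omega)
        _ = y ^ 6 := by ring
    calc 4000 * y * (Nat.log 2 I + 1) ≤ 4000 * y * (2 * y) := e1
      _ = 8000 * y ^ 2 := by ring
      _ ≤ I := by omega
  have hksum : ∀ v ∈ VF (I / 10000) R, ∑ j, (cfgK M y I R c 302).k j +
      (cfgK M y I R c 302).R.card + (vset v).card ≤ I := by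
    intro v hv
    rw [vset_card hv]
    have e2 : (cfgK M y I R c 302).R.card = R.card := rfl
    rw [e2]
    omega
  have hlow' : c1 * (2 ^ (cfgK M y I R c 302).I / ((cfgK M y I R c 302).Rp *
      (cfgK M y I R c 302).I)) * ((cfgK M y I R c 302).W / 2 ^ M) ≤
      ((cfgK M y I R c 302).Tup.card : ℝ) := by
    exact hlow M (cfgK M y I R c 302) hOk (show I1 ≤ I by omega) hk2
  have hWpos : 0 < (cfgK M y I R c 302).W := lt_of_lt_of_le (by positivity) hW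
  have hSnn : ∀ j, 0 ≤ (cfgK M y I R c 302).S j := fun j => by
    unfold Cfg.S
    exact Finset.sum_nonneg (fun q _ => div_nonneg zero_le_one (Nat.cast_nonneg _))
  have hpr0 : 0 ≤ ∏ j, (((cfgK M y I R c 302).S j + 1 / (I : ℝ) ^ 2 +
      (cfgK M y I R c 302).R.card / 2 ^ ((cfgK M y I R c 302).κ j)) ^
        (cfgK M y I R c 302).k j / (((cfgK M y I R c 302).k j).factorial : ℝ)) := by
    refine Finset.prod_nonneg (fun j _ => ?_)
    have := hSnn j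
    positivity
  have hDle : (2 : ℝ) ^ ((cfgK M y I R c 302).R.card + 302) ≤ D := by
    rw [← hD]
    apply pow_le_pow_right₀ (by norm_num)
    have e2 : (cfgK M y I R c 302).R.card = R.card := rfl
    have := hRC.card
    omega
  have hsz : 3 ^ (τ + 1) * 2 ^ (302 * (I / 10000) + 45753) ≤ 2 ^ (cfgK M y I R c 302).I := by
    have e1 : (cfgK M y I R c 302).I = I := rfl
    rw [e1]
    exact hsz_aux τ I _ hs1 hs4 hs3
  have hyR : (0 : ℝ) < y := by exact_mod_cast (by omega : 0 < y)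
  have hfin := stepAB tup (cfgK M y I R c 302) hOk y τ (2 ^ (rr M y - 1) - τ) a H1 302
    (302 * (I / 10000) + 45451) b ρ a2 κ hκ0 hr2 hρ ha2 (VF (I / 10000) R) vset hτ hB1 hB2 ha hFpos (by omega) hL
    (fun v hv => vset_card hv) hcard hRC.par (2 ^ (302 * (I / 10000) + 45753))
    (fun v hv => vv_up hv) (fun v hv => vv_low hv) hsz hclass c0 c1 C D (Real.exp M) _ hc1 hc0 hC
    (Real.exp_pos _) hpr0 hDle hlow' hWpos hprod
    (fun v hv δ s X d1 d2 d3 d4 => hgood (cfgK M y I R c 302) hOk (show I2 ≤ I by omega)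
      (hL v hv) y (by omega) hIpow hIbig hκ (hksum v hv) δ s X d1 d2 d3 d4)
    (by
      intro v hv
      refine le_trans ?_ (hbt y (by omega) I hI1 hI8 R c hRC v hv a ha3)
      apply Nat.cast_le.2
      apply Finset.card_le_card
      intro t ht
      rw [Finset.mem_filter] at ht ⊢
      exact ht)
  refine le_trans ?_ hfin
  have h8' := h8 y (by omega) I hI2
  push_cast at h8'
  have hr2' : (y : ℝ) ^ (2 * M - 1) ≤ 2 ^ (rr M y) := by exact_mod_cast hYr2.le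
  have hzp : (y : ℝ) ^ (2 * M - 3 : ℤ) = (y : ℝ) ^ (2 * M - 1) / (y : ℝ) ^ 2 := by
    have e1 : (2 * M - 3 : ℤ) = ((2 * M - 1 : ℕ) : ℤ) - ((2 : ℕ) : ℤ) := by
      have : 1 ≤ 2 * M := by omega
      push_cast [this]
      ring
    rw [e1, zpow_sub₀ hyR.ne', zpow_natCast, zpow_natCast]
  rw [hzp]
  have hsx := sqrt_xx τ I
  rw [hD'] at hsx
  exact stepC c0 C D D' (2 ^ M) (Real.exp M) y ((Nat.log 2 I : ℝ) + 1) _ _ _ _ _ _ hc00 hC hD0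
    hD'0 (pow_pos (by norm_num) _) (Real.exp_pos _) hyR
    (add_pos_of_nonneg_of_pos (Nat.cast_nonneg _) one_pos)
    (Real.sqrt_pos.2 (pow_pos (by norm_num) _)) (Real.sqrt_pos.2 (pow_pos (by norm_num) _))
    (Real.sqrt_pos.2 (pow_pos (by norm_num) _)) (pow_nonneg hyR.le _) hsx hr2' h8'

end Pool.Agent.D0H88.PT
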