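import Mathlib

set_option autoImplicit false

/-! The reduction of linear patterns to patterns of two terms. -/

namespace Pool.Agent.D0H88.PT

open Polynomial Finset

theorem poly_dvd (f : (ZMod 2)[X]) (hf : f ≠ 0) : ∃ k T : ℕ, 1 ≤ T ∧ f ∣ X ^ k * (1 + X ^ T) := by
  have hfin : Module.Finite (ZMod 2) (AdjoinRoot f) := (AdjoinRoot.powerBasis hf).finite
  have hfinite : Finite (AdjoinRoot f) := Module.finite_of_finite (ZMod 2)
  obtain ⟨a, b, hab, h⟩ :=
    Finite.exists_ne_map_eq_of_infinite (fun n : ℕ => (AdjoinRoot.root f) ^ n)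
  have key : ∀ a b : ℕ, a < b → (AdjoinRoot.root f) ^ a = (AdjoinRoot.root f) ^ b →
      ∃ k T : ℕ, 1 ≤ T ∧ f ∣ X ^ k * (1 + X ^ T) := by
    intro a b hab h
    refine ⟨a, b - a, by omega, ?_⟩
    rw [← AdjoinRoot.mk_eq_zero]
    have e1 : (X : (ZMod 2)[X]) ^ a * (1 + X ^ (b - a)) = X ^ a + X ^ b := by
      rw [mul_add, mul_one, ← pow_add, Nat.add_sub_cancel' hab.le]
    rw [e1, map_add, map_pow, map_pow, AdjoinRoot.mk_X, h]
    have e3 : (2 : AdjoinRoot f) = 0 := by
      have e4 : (2 : ZMod 2) = 0 := by decide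
      rw [← map_ofNat (AdjoinRoot.of f) 2, e4, map_zero]
    rw [← two_mul, e3, zero_mul]
  rcases lt_or_gt_of_ne hab with h1 | h1
  · exact key a b h1 h
  · exact key b a h1 h.symm

theorem one_add_dvd (T s : ℕ) : (1 + X ^ T : (ZMod 2)[X]) ∣ 1 + X ^ (T * s) := by
  have h2 : ∀ P : (ZMod 2)[X], -P = P := by
    intro P
    ext n
    rw [coeff_neg, ZMod.neg_eq_self_mod_two]
  have h1 : (X ^ T - 1 : (ZMod 2)[X]) ∣ (X ^ T) ^ s - 1 ^ s := sub_dvd_pow_sub_pow _ _ _
  have e1 : (1 + X ^ T : (ZMod 2)[X]) = X ^ T - 1 := by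
    rw [sub_eq_add_neg, h2, add_comm]
  have e2 : (1 + X ^ (T * s) : (ZMod 2)[X]) = (X ^ T) ^ s - 1 ^ s := by
    rw [one_pow, sub_eq_add_neg, h2, add_comm, pow_mul]
  rw [e1, e2]
  exact h1

theorem poly_dvd' (f : (ZMod 2)[X]) (hf : f ≠ 0) : ∃ k τ H1 : ℕ, τ % 2 = 0 ∧ ¬ 3 ∣ H1 ∧
    f ∣ X ^ k * (1 + X ^ (3 ^ τ * H1)) := by
  obtain ⟨k, T, hT, hd⟩ := poly_dvd f hf
  obtain ⟨ν, T1, hT1, hTe⟩ := Nat.exists_eq_pow_mul_and_not_dvd (n := T) (by omega) 3 (by norm_num)
  rcases Nat.even_or_odd ν with h | h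
  · refine ⟨k, ν, T1, Nat.even_iff.1 h, hT1, ?_⟩
    rw [← hTe]
    exact hd
  · refine ⟨k, ν + 1, T1, by have := Nat.odd_iff.1 h; omega, hT1, ?_⟩
    have e : 3 ^ (ν + 1) * T1 = T * 3 := by rw [hTe, pow_succ]; ring
    rw [e]
    exact hd.trans (mul_dvd_mul_left _ (one_add_dvd T 3))

/-- the shift -/
def shift : Module.End (ZMod 2) (ℕ → ZMod 2) where
  toFun a := fun n => a (n + 1)
  map_add' _ _ := rfl
  map_smul' _ _ := rfl

theorem shift_pow (j : ℕ) (a : ℕ → ZMod 2) (n : ℕ) : (shift ^ j) a n = a (n + j) := by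
  induction j generalizing a n with
  | zero => rfl
  | succ j ih =>
    rw [pow_succ, Module.End.mul_apply, ih]
    show a (n + j + 1) = a (n + (j + 1))
    congr 1

theorem aeval_shift (P : (ZMod 2)[X]) (a : ℕ → ZMod 2) (n : ℕ) :
    (aeval shift P) a n = ∑ j ∈ range (P.natDegree + 1), P.coeff j * a (n + j) := by
  rw [aeval_eq_sum_range, LinearMap.sum_apply, Finset.sum_apply]
  refine Finset.sum_congr rfl fun j _ => ?_
  rw [LinearMap.smul_apply, Pi.smul_apply, shift_pow, smul_eq_mul]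

/-- **reduction to a pattern of two terms** -/
theorem red_seq (L : ℕ) (c : Fin (L + 1) → ZMod 2) (hc : c ≠ 0) : ∃ k τ H1 G : ℕ, τ % 2 = 0 ∧
    ¬ 3 ∣ H1 ∧ ∀ (a : ℕ → ZMod 2) (n : ℕ), a (n + k) + a (n + k + 3 ^ τ * H1) = 1 →
      ∃ j ≤ G, ∑ i : Fin (L + 1), c i * a (n + j + i) = 1 := by
  set f : (ZMod 2)[X] := ∑ i : Fin (L + 1), C (c i) * X ^ (i : ℕ) with hf
  have hf0 : f ≠ 0 := by
    intro h0
    apply hc
    funext i
    have h1 : f.coeff (i : ℕ) = c i := by
      rw [hf, finsetSum_coeff]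
      rw [Finset.sum_eq_single i]
      · simp
      · intro j _ hj
        rw [coeff_C_mul_X_pow, if_neg]
        intro h
        exact hj (Fin.ext h.symm)
      · intro h
        exact absurd (Finset.mem_univ i) h
    rw [h0, coeff_zero] at h1
    exact h1.symm
  obtain ⟨k, τ, H1, hτ, hH1, g, hg⟩ := poly_dvd' f hf0
  refine ⟨k, τ, H1, g.natDegree, hτ, hH1, fun a n h1 => ?_⟩
  have hfa : ∀ m, (aeval shift f) a m = ∑ i : Fin (L + 1), c i * a (m + i) := by
    intro m
    rw [hf, map_sum, LinearMap.sum_apply, Finset.sum_apply]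
    refine Finset.sum_congr rfl fun i _ => ?_
    rw [map_mul, aeval_C, map_pow, aeval_X, Module.End.mul_apply, Module.algebraMap_end_apply,
      Pi.smul_apply, shift_pow, smul_eq_mul]
  have hl : (aeval shift (X ^ k * (1 + X ^ (3 ^ τ * H1)) : (ZMod 2)[X])) a n =
      a (n + k) + a (n + k + 3 ^ τ * H1) := by
    rw [mul_add, mul_one, ← pow_add, map_add, map_pow, map_pow, aeval_X, LinearMap.add_apply,
      Pi.add_apply, shift_pow, shift_pow, add_assoc]
  have hr : (aeval shift (f * g)) a n =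
      ∑ j ∈ range (g.natDegree + 1), g.coeff j * (aeval shift f) a (n + j) := by
    rw [mul_comm, map_mul, Module.End.mul_apply, aeval_shift]
  rw [← hg, hl, h1] at hr
  by_contra hcon
  push Not at hcon
  have h2 : ∑ j ∈ range (g.natDegree + 1), g.coeff j * (aeval shift f) a (n + j) = 0 := by
    refine Finset.sum_eq_zero fun j hj => ?_
    rw [Finset.mem_range] at hj
    have h3 := hcon j (by omega)
    rw [hfa]
    have h4 : ∑ i : Fin (L + 1), c i * a (n + j + i) = 0 := by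
      have : ∀ z : ZMod 2, z ≠ 1 → z = 0 := by decide
      exact this _ h3
    rw [h4, mul_zero]
  rw [h2] at hr
  exact one_ne_zero hr

/-- the counting form of the reduction -/
theorem red_count (a : ℕ → ZMod 2) (S : ℕ → ZMod 2) (k H G : ℕ)
    (h : ∀ n, a (n + k) + a (n + k + H) = 1 → ∃ j ≤ G, S (n + j) = 1) (x : ℕ) :
    ((range (x + 1)).filter (fun n => a n + a (n + H) = 1)).card ≤
      (k + G) + (G + 1) * ((range (x + 1)).filter (fun n => S n = 1)).card := by
  classical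
  set Z := (range (x + 1)).filter (fun n => S n = 1) with hZ
  have hsub : (range (x + 1)).filter (fun n => a n + a (n + H) = 1) ⊆
      (range k ∪ Icc (x + 1 - G) x) ∪ (range (G + 1)).biUnion (fun j => Z.image (fun z => z + k - j)) := by
    intro m hm
    rw [mem_filter, mem_range] at hm
    rw [mem_union, mem_union, mem_range, mem_Icc, mem_biUnion]
    by_cases h1 : m < k
    · exact Or.inl (Or.inl h1)
    by_cases h2 : x + 1 - G ≤ m
    · exact Or.inl (Or.inr ⟨h2, by omega⟩)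
    right
    obtain ⟨n, rfl⟩ : ∃ n, m = n + k := ⟨m - k, by omega⟩
    obtain ⟨j, hj, hS⟩ := h n hm.2
    refine ⟨j, mem_range.2 (by omega), ?_⟩
    rw [mem_image]
    refine ⟨n + j, ?_, by omega⟩
    rw [hZ, mem_filter, mem_range]
    exact ⟨by omega, hS⟩
  refine (card_le_card hsub).trans ?_
  refine (card_union_le _ _).trans ?_
  apply Nat.add_le_add
  · refine (card_union_le _ _).trans ?_
    rw [card_range, Nat.card_Icc]
    omega
  · refine card_biUnion_le.trans ?_
    calc ∑ j ∈ range (G + 1), (Z.image (fun z => z + k - j)).card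
        ≤ ∑ j ∈ range (G + 1), Z.card := Finset.sum_le_sum fun j _ => card_image_le
      _ = (G + 1) * Z.card := by rw [Finset.sum_const, card_range, smul_eq_mul]

end Pool.Agent.D0H88.PT
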