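import Pool.Agent.D0H88.PT.Alg
import Pool.Agent.D0H88.PT.Loc
import Pool.Agent.H307R2.OP.MAIN
import Pool.Agent.H307R2.OP.TUP

set_option autoImplicit false

/-! The counting step for pairs of a tuple and a cofactor. -/

namespace Pool.Agent.D0H88.PT

open PowerSeries Pool.Agent.H397R2.PP Finset Pool.Agent.H307R2.OP
open Pool.Agent.H307R2.OP.MAINaux

/-- the number of `n ≤ x`, `n ≡ ρ` modulo `2 ^ b`, with `p n + p (n + H)` odd -/
noncomputable def patCount (b ρ H x : ℕ) : ℕ :=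
  ((range (x + 1)).filter (fun n => n % 2 ^ b = ρ ∧ p2 n + p2 (n + H) = 1)).card

/-- the condition for a lost pair -/
def Lost (I r y τ H N : ℕ) : Prop :=
  (∃ δ : ℕ, Adm δ ∧ Bad I y δ ∧ RepL r τ δ N) ∨
    ∃ h u : ℕ, h ≤ H ∧ 3 ^ (τ + 1) * N + 1 + 24 * h = 4 ^ r * u ^ 2

section

variable {M : ℕ} {g : Cfg M} {V : Finset ℕ} {τ B a : ℕ}

theorem tup_disj (hg : g.Ok) (hL : LOk g V τ B a) {t : Σ _ : Fin M → Finset ℕ, ℕ}
    (ht : t ∈ g.Tup) {q : ℕ} (hq : q ∈ V) : ¬ q ∣ g.N t := by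
  obtain ⟨A, p⟩ := t
  unfold Cfg.Tup at ht
  rw [mem_sigma] at ht
  obtain ⟨hA, hp⟩ := ht
  simp only at hA hp
  intro hd
  have hqp := (hL.prV q hq).1
  have e1 : g.N ⟨A, p⟩ = (∏ q ∈ T2Aux.AA g A, q) * p := by
    rw [T2Aux.AA_prod g hg hA]
    rfl
  rw [e1] at hd
  rcases (Nat.Prime.dvd_mul hqp).1 hd with h | h
  · obtain ⟨q', hq', hqd⟩ := (hqp.prime.dvd_finsetProd_iff (fun q : ℕ => q)).1 h
    have := (Nat.prime_dvd_prime_iff_eq hqp (T2Aux.AA_prime g hg hA q' hq').1).1 hqd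
    subst this
    exact (Finset.disjoint_left.1 (AL_disj hL hA)) hq' hq
  · unfold Cfg.Pr at hp
    rw [mem_filter, mem_Ioc] at hp
    have := (Nat.prime_dvd_prime_iff_eq hqp hp.2.1).1 h
    subst this
    have h2 := hL.ltV q hq
    have h3 := hp.1.1
    omega

theorem tup_three (hg : g.Ok) (h1 : TupStmt) {t : Σ _ : Fin M → Finset ℕ, ℕ}
    (ht : t ∈ g.Tup) : ¬ 3 ∣ g.N t := by
  obtain ⟨s, hs1, hs2, -⟩ := h1 M g hg t ht
  intro hd
  rw [← hs2] at hd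
  obtain ⟨q', hq', hqd⟩ := (Nat.prime_three.prime.dvd_finsetProd_iff (fun q : ℕ => q)).1 hd
  have := (Nat.prime_dvd_prime_iff_eq Nat.prime_three (hs1 q' hq').1).1 hqd
  have := (hs1 q' hq').2.1
  omega

/-- an odd value of `p n + p (n + H)` for a pair that is not lost -/
theorem pair_odd (h1 : TupStmt) (hg : g.Ok) (hL : LOk g V τ B a) (H1 K : ℕ) (hτ : τ % 2 = 0)
    (hB : B + τ = 2 ^ (g.r - 1)) (hB2 : 2 ≤ B)
    (ha : a + 8 * H1 ≡ 3 ^ (B - 1) [MOD 3 ^ B]) (hK : V.card = K)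
    (hcard : ∑ j, g.k j + g.R.card + 1 + K = 2 ^ (g.r - 1) - 1)
    (hpar : (g.R.filter (fun q => q % 8 = 3)).card + (if g.c = 3 then 1 else 0) = 0 ∨
      (g.R.filter (fun q => q % 8 = 3)).card + (if g.c = 3 then 1 else 0) = 2)
    {y : ℕ} {t : Σ _ : Fin M → Finset ℕ, ℕ} (ht : t ∈ g.Tup)
    (hmod : g.N t * vv V ≡ a [MOD 3 ^ B])
    (hnl : ¬ Lost g.I g.r y τ (3 ^ τ * H1) (g.N t * vv V)) :
    ∃ n u : ℕ, p2 n + p2 (n + 3 ^ τ * H1) = 1 ∧
      24 * n + 4 ^ g.r * u ^ 2 = 3 ^ (τ + 1) * (g.N t * vv V) + 1 := by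
  obtain ⟨s, hs1, hs2, hs3, hs4, -, -, -, hs8⟩ := h1 M g hg t ht
  obtain ⟨m, hm⟩ := exists_m g.r
  have hdisj : Disjoint s V := by
    rw [Finset.disjoint_left]
    intro q hq hqV
    apply tup_disj hg hL ht hqV
    rw [← hs2]
    exact Finset.dvd_prod_of_mem _ hq
  have hprod : ∏ q ∈ s ∪ V, q = g.N t * vv V := by
    rw [Finset.prod_union hdisj, hs2, vv]
  have hfilt : ((s ∪ V).filter (fun q => q % 8 = 3)) = s.filter (fun q => q % 8 = 3) := by
    have h0 : V.filter (fun q => q % 8 = 3) = ∅ := by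
      apply Finset.filter_eq_empty_iff.2
      intro q hq h
      have := (hL.prV q hq).2.2
      omega
    rw [Finset.filter_union, h0, Finset.union_empty]
  have hco : coeff (3 ^ τ * ∏ q ∈ s ∪ V, q) (Db ^ m) = 1 := by
    refine coeff_one g.r m τ hg.hr hm hτ (s ∪ V) ?_ ?_ ?_
    · intro q hq
      rcases Finset.mem_union.1 hq with h | h
      · exact hs1 q h
      · exact ⟨(hL.prV q h).1, (hL.prV q h).2.1, Or.inr (hL.prV q h).2.2⟩
    · rw [Finset.card_union_of_disjoint hdisj, hs3, hK, hcard]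
    · rw [hfilt, hs4]
      exact hpar
  rw [hprod] at hco
  have hz : coeff (3 ^ τ * (g.N t * vv V) + 8 * (3 ^ τ * H1)) (Db ^ m) = 0 := by
    have h2 : g.N t * vv V + 8 * H1 ≡ 3 ^ (B - 1) [MOD 3 ^ B] :=
      (Nat.ModEq.add_right _ hmod).trans ha
    have h3B : 3 ^ B = 3 * 3 ^ (B - 1) := by
      rw [← pow_succ']
      congr 1
      omega
    have h3 : 3 ^ (B - 1) ∣ g.N t * vv V + 8 * H1 := by
      have h4 : g.N t * vv V + 8 * H1 ≡ 3 ^ (B - 1) [MOD 3 ^ (B - 1)] :=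
        h2.of_dvd (by rw [h3B]; exact Dvd.intro_left _ rfl)
      exact (h4.dvd_iff dvd_rfl).2 dvd_rfl
    obtain ⟨w, hw⟩ := h3
    have hw3 : ¬ 3 ∣ w := by
      rintro ⟨w', rfl⟩
      have h4 : 3 ^ B ∣ g.N t * vv V + 8 * H1 := by
        rw [hw, h3B]
        exact ⟨w', by ring⟩
      have h5 : 3 ^ B ∣ 3 ^ (B - 1) := (h2.dvd_iff dvd_rfl).1 h4
      have h6 := Nat.le_of_dvd (by positivity) h5
      have h7 : 0 < 3 ^ (B - 1) := by positivity
      omega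
    have h5 : 3 ^ τ * (g.N t * vv V) + 8 * (3 ^ τ * H1) = 3 ^ (2 ^ (g.r - 1) - 1) * w := by
      have e1 : 3 ^ (2 ^ (g.r - 1) - 1) = 3 ^ τ * 3 ^ (B - 1) := by
        rw [← pow_add]
        congr 1
        omega
      calc 3 ^ τ * (g.N t * vv V) + 8 * (3 ^ τ * H1) = 3 ^ τ * (g.N t * vv V + 8 * H1) := by ring
        _ = 3 ^ τ * (3 ^ (B - 1) * w) := by rw [hw]
        _ = _ := by rw [e1]; ring
    rw [h5]
    exact coeff_zero g.r m w (by have := hg.hr; omega) hm hw3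
  have e3 : 3 * (3 ^ τ * (g.N t * vv V)) = 3 ^ (τ + 1) * (g.N t * vv V) := by
    rw [pow_succ]; ring
  rcases exists_pat g.r m (3 ^ τ * (g.N t * vv V)) (3 ^ τ * H1) hm hco hz with
    ⟨n, u, hn, hu⟩ | ⟨h, u, hh1, hh2, hu⟩
  · exact ⟨n, u, hn, by rw [hu, e3]⟩
  · exfalso
    apply hnl
    right
    exact ⟨h, u, hh2, by rw [← e3]; exact hu⟩

end

/-- the residue modulo 8 of a product of primes `≡ 3, 5 (mod 8)` -/
theorem prod_mod8 (s : Finset ℕ) (hs : ∀ q ∈ s, q % 8 = 3 ∨ q % 8 = 5)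
    (h3 : (s.filter (fun q => q % 8 = 3)).card = 0 ∨ (s.filter (fun q => q % 8 = 3)).card = 2)
    (hodd : s.card % 2 = 1) : (∏ q ∈ s, q) % 8 = 5 := by
  have e1 : ((∏ q ∈ s, q : ℕ) : ZMod 8) =
      3 ^ (s.filter (fun q => q % 8 = 3)).card * 5 ^ (s.filter (fun q => ¬ q % 8 = 3)).card := by
    rw [← Finset.prod_filter_mul_prod_filter_not s (fun q => q % 8 = 3)]
    push_cast
    congr 1
    · rw [← Finset.prod_const]
      refine Finset.prod_congr rfl fun q hq => ?_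
      rw [Finset.mem_filter] at hq
      have : ((q : ℕ) : ZMod 8) = ((3 : ℕ) : ZMod 8) := by
        rw [ZMod.natCast_eq_natCast_iff']
        omega
      rw [this]
      norm_num
    · rw [← Finset.prod_const]
      refine Finset.prod_congr rfl fun q hq => ?_
      rw [Finset.mem_filter] at hq
      have h5 := hs q hq.1
      have : ((q : ℕ) : ZMod 8) = ((5 : ℕ) : ZMod 8) := by
        rw [ZMod.natCast_eq_natCast_iff']
        omega
      rw [this]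
      norm_num
  have hc : (s.filter (fun q => q % 8 = 3)).card + (s.filter (fun q => ¬ q % 8 = 3)).card =
      s.card := Finset.card_filter_add_card_filter_not _
  obtain ⟨k, hk⟩ : ∃ k, (s.filter (fun q => ¬ q % 8 = 3)).card = 2 * k + 1 :=
    ⟨(s.filter (fun q => ¬ q % 8 = 3)).card / 2, by omega⟩
  have e5 : (5 : ZMod 8) ^ (2 * k + 1) = 5 := by
    rw [pow_succ, pow_mul]
    have : (5 : ZMod 8) ^ 2 = 1 := by decide
    rw [this, one_pow, one_mul]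
  have e3 : (3 : ZMod 8) ^ (s.filter (fun q => q % 8 = 3)).card = 1 := by
    rcases h3 with h | h <;> rw [h] <;> decide
  rw [hk, e5, e3, one_mul] at e1
  have e6 : ((∏ q ∈ s, q : ℕ) : ZMod 8) = ((5 : ℕ) : ZMod 8) := by
    rw [e1]
    norm_num
  rw [ZMod.natCast_eq_natCast_iff'] at e6
  exact e6

theorem tup_mod8 {M : ℕ} {g : Cfg M} (hg : g.Ok) (h1 : TupStmt)
    {t : Σ _ : Fin M → Finset ℕ, ℕ} (ht : t ∈ g.Tup)
    (hcard : (∑ j, g.k j + g.R.card + 1) % 2 = 1)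
    (hpar : (g.R.filter (fun q => q % 8 = 3)).card + (if g.c = 3 then 1 else 0) = 0 ∨
      (g.R.filter (fun q => q % 8 = 3)).card + (if g.c = 3 then 1 else 0) = 2) :
    g.N t % 8 = 5 := by
  obtain ⟨s, hs1, hs2, hs3, hs4, -⟩ := h1 M g hg t ht
  rw [← hs2]
  apply prod_mod8 s (fun q hq => (hs1 q hq).2.2)
  · rw [hs4]
    exact hpar
  · rw [hs3]
    exact hcard

/-- the class of `n` -/
theorem n_class {b ρ r τ N n u a2 : ℕ} (hr : b + 3 ≤ 2 * r) (hρ : ρ < 2 ^ b)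
    (h2 : 3 ^ (τ + 1) * a2 + 1 ≡ 24 * ρ [MOD 2 ^ (b + 3)]) (hN : N ≡ a2 [MOD 2 ^ (b + 3)])
    (h : 24 * n + 4 ^ r * u ^ 2 = 3 ^ (τ + 1) * N + 1) : n % 2 ^ b = ρ := by
  have h4 : 4 ^ r * u ^ 2 ≡ 0 [MOD 2 ^ (b + 3)] := by
    rw [Nat.modEq_zero_iff_dvd]
    have : (4 : ℕ) ^ r = 2 ^ (2 * r) := by rw [pow_mul]; norm_num
    rw [this]
    exact (pow_dvd_pow 2 hr).mul_right _
  have h5 : 24 * n + 4 ^ r * u ^ 2 ≡ 24 * n + 0 [MOD 2 ^ (b + 3)] := Nat.ModEq.add_left _ h4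
  rw [add_zero, h] at h5
  have h6 : 3 ^ (τ + 1) * N + 1 ≡ 3 ^ (τ + 1) * a2 + 1 [MOD 2 ^ (b + 3)] :=
    Nat.ModEq.add_right _ (Nat.ModEq.mul_left _ hN)
  have h7 : 24 * n ≡ 24 * ρ [MOD 2 ^ (b + 3)] := h5.symm.trans (h6.trans h2)
  have h8 : 8 * (3 * n) ≡ 8 * (3 * ρ) [MOD 8 * 2 ^ b] := by
    have e1 : 8 * (3 * n) = 24 * n := by ring
    have e2 : 8 * (3 * ρ) = 24 * ρ := by ring
    have e3 : 8 * 2 ^ b = 2 ^ (b + 3) := by rw [pow_add]; ring
    rw [e1, e2, e3]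
    exact h7
  have h9 := Nat.ModEq.mul_left_cancel' (by norm_num) h8
  have h10 : n ≡ ρ [MOD 2 ^ b] :=
    Nat.ModEq.cancel_left_of_coprime (Nat.Coprime.pow_left _ (by norm_num)) h9
  rw [Nat.ModEq, Nat.mod_eq_of_lt hρ] at h10
  exact h10

theorem three_not_dvd_s {b δ s : ℕ} (hb : 1 ≤ b) (h : δ * s ^ 2 = 24 * b - 1) : ¬ 3 ∣ s := by
  rintro ⟨c, rfl⟩
  have h1 : 3 ∣ δ * (3 * c) ^ 2 := ⟨δ * (3 * c ^ 2), by ring⟩
  rw [h] at h1
  omega

open Classical in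
/-- the counting step -/
theorem stepA (h1 : TupStmt) {M : ℕ} {ι : Type} (g : Cfg M) (hg : g.Ok) (y τ B a H1 K : ℕ)
    (b ρ a2 : ℕ) (κ : ℝ) (hr2 : b + 3 ≤ 2 * g.r) (hρ : ρ < 2 ^ b)
    (ha2 : 3 ^ (τ + 1) * a2 + 1 ≡ 24 * ρ [MOD 2 ^ (b + 3)])
    (F : Finset ι) (V : ι → Finset ℕ) (hτ : τ % 2 = 0) (hB : B + τ = 2 ^ (g.r - 1))
    (hB2 : 2 ≤ B) (ha : a + 8 * H1 ≡ 3 ^ (B - 1) [MOD 3 ^ B])
    (hL : ∀ v ∈ F, LOk g (V v) τ B a) (hK : ∀ v ∈ F, (V v).card = K)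
    (hcard : ∑ j, g.k j + g.R.card + 1 + K = 2 ^ (g.r - 1) - 1)
    (hpar : (g.R.filter (fun q => q % 8 = 3)).card + (if g.c = 3 then 1 else 0) = 0 ∨
      (g.R.filter (fun q => q % 8 = 3)).card + (if g.c = 3 then 1 else 0) = 2)
    (Vm : ℕ) (hVm : ∀ v ∈ F, vv (V v) ≤ Vm) (hsz : 3 ^ (τ + 1) * Vm ≤ 2 ^ g.I)
    (hclass : ∀ t ∈ g.Tup, κ * (F.card : ℝ) ≤
      3 ^ B * ((F.filter (fun v => g.N t * vv (V v) ≡ a [MOD 3 ^ B] ∧
        g.N t * vv (V v) ≡ a2 [MOD 2 ^ (b + 3)])).card : ℝ))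
    (Bd E : ℝ) (hBd : 0 ≤ Bd)
    (hG : ∀ v ∈ F, ∀ δ s X : ℕ, Adm δ → ¬ Bad g.I y δ → ¬ 3 ∣ s → s ≤ 2 ^ g.I →
      (((g.Tup ×ˢ range X).filter
        (fun x => 3 ^ (τ + 1) * (g.N x.1 * vv (V v)) = δ * s ^ 2 + 4 ^ g.r * x.2 ^ 2 ∧
          g.N x.1 * vv (V v) ≡ a [MOD 3 ^ B])).card : ℝ) ≤ Bd)
    (hlost : ∀ v ∈ F, ((g.Tup.filter (fun t => Lost g.I g.r y τ (3 ^ τ * H1) (g.N t * vv (V v)) ∧
        g.N t * vv (V v) ≡ a [MOD 3 ^ B])).card : ℝ) ≤ E) :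
    κ * (g.Tup.card : ℝ) * F.card / 3 ^ B - F.card * E ≤
      (patCount b ρ (3 ^ τ * H1) (3 ^ τ * (2 ^ g.I * Vm)) : ℝ) * (F.card * Bd) := by
  set N1 : (Σ _ : Fin M → Finset ℕ, ℕ) × ι → ℕ := fun x => g.N x.1 * vv (V x.2) with hN1
  set PP := (g.Tup ×ˢ F).filter (fun x => N1 x ≡ a [MOD 3 ^ B] ∧
    N1 x ≡ a2 [MOD 2 ^ (b + 3)]) with hPP
  have h3B : (0 : ℝ) < 3 ^ B := by positivity
  -- all pairs
  have hall : κ * (g.Tup.card : ℝ) * F.card / 3 ^ B ≤ (PP.card : ℝ) := by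
    have e1 : (PP.card : ℝ) =
        ∑ t ∈ g.Tup, ((F.filter (fun v => g.N t * vv (V v) ≡ a [MOD 3 ^ B] ∧
          g.N t * vv (V v) ≡ a2 [MOD 2 ^ (b + 3)])).card : ℝ) := by
      rw [hPP, Finset.card_filter, Finset.sum_product]
      push_cast
      refine Finset.sum_congr rfl fun t _ => ?_
      rw [Finset.card_filter]
      push_cast
      rfl
    rw [e1, div_le_iff₀ (by positivity), Finset.sum_mul]
    calc κ * (g.Tup.card : ℝ) * F.card = ∑ t ∈ g.Tup, κ * (F.card : ℝ) := by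
          rw [Finset.sum_const, nsmul_eq_mul]
          ring
      _ ≤ _ := Finset.sum_le_sum fun t ht => by
          have := hclass t ht
          linarith
  -- the lost pairs
  have hlostc : ((PP.filter (fun x => Lost g.I g.r y τ (3 ^ τ * H1) (N1 x))).card : ℝ) ≤
      F.card * E := by
    have e1 : (((g.Tup ×ˢ F).filter (fun x => Lost g.I g.r y τ (3 ^ τ * H1) (N1 x) ∧
        N1 x ≡ a [MOD 3 ^ B])).card : ℝ) =
        ∑ v ∈ F, ((g.Tup.filter (fun t => Lost g.I g.r y τ (3 ^ τ * H1) (g.N t * vv (V v)) ∧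
        g.N t * vv (V v) ≡ a [MOD 3 ^ B])).card : ℝ) := by
      rw [Finset.card_filter, Finset.sum_product_right]
      push_cast
      refine Finset.sum_congr rfl fun v _ => ?_
      rw [Finset.card_filter]
      push_cast
      rfl
    have e2 : PP.filter (fun x => Lost g.I g.r y τ (3 ^ τ * H1) (N1 x)) ⊆
        (g.Tup ×ˢ F).filter (fun x => Lost g.I g.r y τ (3 ^ τ * H1) (N1 x) ∧
        N1 x ≡ a [MOD 3 ^ B]) := by
      intro x hx
      rw [hPP, Finset.mem_filter, Finset.mem_filter] at hx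
      rw [Finset.mem_filter]
      exact ⟨hx.1.1, hx.2, hx.1.2.1⟩
    refine le_trans ((Nat.cast_le (α := ℝ)).2 (Finset.card_le_card e2)) ?_
    rw [e1]
    calc _ ≤ ∑ v ∈ F, E := Finset.sum_le_sum fun v hv => hlost v hv
      _ = F.card * E := by rw [Finset.sum_const, nsmul_eq_mul]
  have hsum : (PP.filter (fun x => Lost g.I g.r y τ (3 ^ τ * H1) (N1 x))).card +
      (PP.filter (fun x => ¬ Lost g.I g.r y τ (3 ^ τ * H1) (N1 x))).card = PP.card :=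
    Finset.card_filter_add_card_filter_not _
  set Good := PP.filter (fun x => ¬ Lost g.I g.r y τ (3 ^ τ * H1) (N1 x)) with hGood
  have hgood : κ * (g.Tup.card : ℝ) * F.card / 3 ^ B - F.card * E ≤ (Good.card : ℝ) := by
    have e1 : ((PP.filter (fun x => Lost g.I g.r y τ (3 ^ τ * H1) (N1 x))).card : ℝ) +
        (Good.card : ℝ) = (PP.card : ℝ) := by exact_mod_cast hsum
    linarith
  refine hgood.trans ?_
  have hmemG : ∀ x ∈ Good, x.1 ∈ g.Tup ∧ x.2 ∈ F ∧ N1 x ≡ a [MOD 3 ^ B] ∧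
      ¬ Lost g.I g.r y τ (3 ^ τ * H1) (N1 x) := by
    intro x hx
    rw [hGood, Finset.mem_filter, hPP, Finset.mem_filter, Finset.mem_product] at hx
    exact ⟨hx.1.1.1, hx.1.1.2, hx.1.2.1, hx.2⟩
  have hmemG2 : ∀ x ∈ Good, N1 x ≡ a2 [MOD 2 ^ (b + 3)] := by
    intro x hx
    rw [hGood, Finset.mem_filter, hPP, Finset.mem_filter] at hx
    exact hx.1.2.2
  have key : ∀ x ∈ Good, ∃ n u : ℕ, p2 n + p2 (n + 3 ^ τ * H1) = 1 ∧
      24 * n + 4 ^ g.r * u ^ 2 = 3 ^ (τ + 1) * N1 x + 1 := by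
    intro x hx
    obtain ⟨k1, k2, k3, k4⟩ := hmemG x hx
    exact pair_odd h1 hg (hL x.2 k2) H1 K hτ hB hB2 ha (hK x.2 k2) hcard hpar k1 k3 k4
  choose! n u hodd heq using key
  have hN1le : ∀ x ∈ Good, N1 x ≤ 2 ^ g.I * Vm := by
    intro x hx
    obtain ⟨k1, k2, -, -⟩ := hmemG x hx
    obtain ⟨s, -, -, -, -, -, -, -, hs8⟩ := h1 M g hg x.1 k1
    exact Nat.mul_le_mul hs8 (hVm x.2 k2)
  have h4r : 64 ≤ 4 ^ g.r := by
    calc 64 = 4 ^ 3 := by norm_num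
      _ ≤ 4 ^ g.r := Nat.pow_le_pow_right (by norm_num) hg.hr
  have hVm1 : ∀ x ∈ Good, 1 ≤ 2 ^ g.I * Vm := by
    intro x hx
    obtain ⟨k1, k2, -, -⟩ := hmemG x hx
    have e1 := vv_pos (hL x.2 k2)
    have e2 := hVm x.2 k2
    have e3 : 0 < 2 ^ g.I := by positivity
    exact Nat.mul_pos e3 (by omega)
  have hn : ∀ x ∈ Good, n x ≤ 3 ^ τ * (2 ^ g.I * Vm) := by
    intro x hx
    have e1 := heq x hx
    have e2 := hN1le x hx
    have e3 := hVm1 x hx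
    have e4 : 3 ^ (τ + 1) * N1 x ≤ 3 * (3 ^ τ * (2 ^ g.I * Vm)) := by
      rw [pow_succ, mul_comm (3 ^ τ) 3, mul_assoc]
      exact Nat.mul_le_mul_left _ (Nat.mul_le_mul_left _ e2)
    have e5 : 1 ≤ 3 ^ τ * (2 ^ g.I * Vm) := Nat.mul_pos (by positivity) e3
    have e6 : 0 ≤ 4 ^ g.r * (u x) ^ 2 := Nat.zero_le _
    omega
  have hu : ∀ x ∈ Good, u x < 3 ^ (τ + 1) * (2 ^ g.I * Vm) + 2 := by
    intro x hx
    have e1 := heq x hx
    have e2 := Nat.mul_le_mul_left (3 ^ (τ + 1)) (hN1le x hx)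
    have e3 : 64 * (u x) ^ 2 ≤ 4 ^ g.r * (u x) ^ 2 := Nat.mul_le_mul_right _ h4r
    have e4 : u x ≤ (u x) ^ 2 := Nat.le_self_pow (by norm_num) _
    omega
  rw [Finset.card_eq_sum_card_image n Good]
  push_cast
  have himg : Good.image n ⊆ (range (3 ^ τ * (2 ^ g.I * Vm) + 1)).filter
      (fun n => n % 2 ^ b = ρ ∧ p2 n + p2 (n + 3 ^ τ * H1) = 1) := by
    intro n0 hn0
    obtain ⟨x, hx, rfl⟩ := Finset.mem_image.1 hn0
    rw [Finset.mem_filter, Finset.mem_range]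
    exact ⟨Nat.lt_succ_of_le (hn x hx), n_class hr2 hρ ha2 (hmemG2 x hx) (heq x hx), hodd x hx⟩
  have hcardimg : ((Good.image n).card : ℝ) ≤
      (patCount b ρ (3 ^ τ * H1) (3 ^ τ * (2 ^ g.I * Vm)) : ℝ) := by
    have := Finset.card_le_card himg
    unfold patCount
    exact_mod_cast this
  have hfib : ∀ b0 ∈ Good.image n, ((Good.filter (fun x => n x = b0)).card : ℝ) ≤ F.card * Bd := by
    intro b0 hb
    obtain ⟨x, hx, hxb⟩ := Finset.mem_image.1 hb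
    obtain ⟨k1, k2, k3, k4⟩ := hmemG x hx
    have e1 := heq x hx
    have e2 := hN1le x hx
    have hb1 : 1 ≤ b0 := by
      rcases Nat.eq_zero_or_pos b0 with h | h
      · exfalso
        rw [hxb, h] at e1
        exact k4 (Or.inr ⟨0, u x, Nat.zero_le _, by omega⟩)
      · exact h
    obtain ⟨δ, s, hδs, hadm, hs⟩ := kernel b0 hb1
    have hs3 := three_not_dvd_s hb1 hδs
    rw [hxb] at e1
    have hrep : 3 ^ (τ + 1) * N1 x = δ * s ^ 2 + 4 ^ g.r * (u x) ^ 2 := by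
      rw [hδs]; omega
    have hnb : ¬ Bad g.I y δ := fun hbad => k4 (Or.inl ⟨δ, hadm, hbad, s, u x, hs3, hrep⟩)
    have hsI : s ≤ 2 ^ g.I := by
      have f1 : s ^ 2 ≤ δ * s ^ 2 := Nat.le_mul_of_pos_left _ (by have := hadm.1; omega)
      have f2 : 3 ^ (τ + 1) * N1 x ≤ 2 ^ g.I * 2 ^ g.I := by
        calc 3 ^ (τ + 1) * N1 x ≤ 3 ^ (τ + 1) * (2 ^ g.I * Vm) := Nat.mul_le_mul_left _ e2
          _ = 2 ^ g.I * (3 ^ (τ + 1) * Vm) := by ring
          _ ≤ _ := Nat.mul_le_mul_left _ hsz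
      have f3 : s ^ 2 ≤ (2 ^ g.I) ^ 2 := by
        have f4 : 0 ≤ 4 ^ g.r * (u x) ^ 2 := Nat.zero_le _
        rw [sq (2 ^ g.I)]
        omega
      exact (Nat.pow_le_pow_iff_left (by norm_num)).1 f3
    have hpart : (Good.filter (fun x => n x = b0)).card =
        ∑ v ∈ F, ((Good.filter (fun x => n x = b0)).filter (fun x => x.2 = v)).card := by
      apply Finset.card_eq_sum_card_fiberwise
      intro x' hx'
      have := Finset.mem_coe.1 hx'
      rw [Finset.mem_filter] at this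
      exact Finset.mem_coe.2 (hmemG x' this.1).2.1
    rw [hpart]
    push_cast
    calc _ ≤ ∑ v ∈ F, Bd := by
          refine Finset.sum_le_sum fun v hv => ?_
          refine le_trans ?_ (hG v hv δ s (3 ^ (τ + 1) * (2 ^ g.I * Vm) + 2) hadm hnb hs3 hsI)
          have : ((Good.filter (fun x => n x = b0)).filter (fun x => x.2 = v)).card ≤
              ((g.Tup ×ˢ range (3 ^ (τ + 1) * (2 ^ g.I * Vm) + 2)).filter
                (fun x => 3 ^ (τ + 1) * (g.N x.1 * vv (V v)) = δ * s ^ 2 + 4 ^ g.r * x.2 ^ 2 ∧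
                  g.N x.1 * vv (V v) ≡ a [MOD 3 ^ B])).card := by
            refine Finset.card_le_card_of_injOn (fun x => (x.1, u x)) ?_ ?_
            · intro x' hx'
              have hx2 := Finset.mem_coe.1 hx'
              rw [Finset.mem_filter, Finset.mem_filter] at hx2
              obtain ⟨⟨hx3, hx4⟩, hx5⟩ := hx2
              obtain ⟨m1, m2, m3, m4⟩ := hmemG x' hx3
              have e7 := heq x' hx3
              have e8 := hu x' hx3
              have e9 : N1 x' = g.N x'.1 * vv (V v) := by rw [hN1, ← hx5]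
              rw [hx4, e9] at e7
              rw [e9] at m3
              apply Finset.mem_coe.2
              rw [Finset.mem_filter, Finset.mem_product, Finset.mem_range]
              refine ⟨⟨m1, e8⟩, ?_, m3⟩
              simp only
              rw [hδs]
              omega
            · intro x1 hx1 x2 hx2 hab
              have g1 := Finset.mem_coe.1 hx1
              have g2 := Finset.mem_coe.1 hx2
              rw [Finset.mem_filter] at g1 g2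
              have g3 := (Prod.mk.inj hab).1
              exact Prod.ext g3 (g1.2.trans g2.2.symm)
          exact_mod_cast this
      _ = F.card * Bd := by rw [Finset.sum_const, nsmul_eq_mul]
  calc ∑ b ∈ Good.image n, ((Good.filter (fun t => n t = b)).card : ℝ)
      ≤ ∑ b ∈ Good.image n, (F.card * Bd) := Finset.sum_le_sum hfib
    _ = ((Good.image n).card : ℝ) * (F.card * Bd) := by rw [Finset.sum_const, nsmul_eq_mul]
    _ ≤ _ := mul_le_mul_of_nonneg_right hcardimg (by positivity)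

end Pool.Agent.D0H88.PT
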