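import Pool.Agent.D0H88.PT.StepA

set_option autoImplicit false

/-! The final computation for a configuration. -/

namespace Pool.Agent.D0H88.PT

open Finset Pool.Agent.H307R2.OP

theorem ul_le {s3 sI sV rt Rp Q v : ℝ} (hs3 : 0 < s3) (hsI : 0 < sI) (hsV : 0 < sV)
    (hrt : 0 < rt) (hRp : 0 < Rp) (hQ : 0 < Q) (hv : sV ^ 2 ≤ v) :
    s3 * sI * Real.sqrt v / rt / (Rp * v * Q) ≤ s3 * sI / (rt * sV) / (Rp * Q) := by
  have hv0 : 0 < v := lt_of_lt_of_le (by positivity) hv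
  set w := Real.sqrt v with hw
  have hw0 : 0 < w := Real.sqrt_pos.2 hv0
  have hvw : v = w ^ 2 := (Real.sq_sqrt hv0.le).symm
  have hsw : sV ≤ w := Real.le_sqrt_of_sq_le hv
  have e1 : s3 * sI * w / rt / (Rp * v * Q) = s3 * sI / (rt * w) / (Rp * Q) := by
    rw [hvw]
    field_simp
  rw [e1]
  gcongr

/-- the final computation -/
theorem stepBnum (c0 C D I Rp qB qT eM W y L O pr Mp Fc sI sV rt s3 : ℝ) (hc0 : 0 < c0)
    (hC : 0 < C) (hD : 0 < D) (hI : 0 < I) (hRp : 0 < Rp) (hqB : 0 < qB) (heM : 0 < eM)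
    (hW : 0 < W) (hy : 0 < y) (hL : 0 < L) (hO : 0 ≤ O) (hpr : pr ≤ eM * W) (hMp : 0 < Mp)
    (hFc : 0 < Fc) (hsI : 0 < sI) (hsV : 0 < sV) (hrt : 0 < rt) (hs3 : 0 < s3)
    (hqT : qT = qB * s3 ^ 2)
    (h : Fc * (sI ^ 2 / (Rp * I * qB) * W * (c0 / (2 * Mp))) ≤
      O * (Fc * (C * D * (s3 * sI / (rt * sV) / (Rp * qT)) * pr * (y * L / I)))) :
    c0 * s3 * sI * sV * rt / (2 * Mp * C * D * eM * y * L) ≤ O := by
  have h1 : O * (Fc * (C * D * (s3 * sI / (rt * sV) / (Rp * qT)) * pr * (y * L / I))) ≤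
      O * (Fc * (C * D * (s3 * sI / (rt * sV) / (Rp * qT)) * (eM * W) * (y * L / I))) := by
    have hqT0 : 0 < qT := by rw [hqT]; positivity
    apply mul_le_mul_of_nonneg_left _ hO
    apply mul_le_mul_of_nonneg_left _ hFc.le
    apply mul_le_mul_of_nonneg_right _ (by positivity)
    exact mul_le_mul_of_nonneg_left hpr (by positivity)
  have h2 := h.trans h1
  rw [hqT] at h2
  have h3 : Fc * (sI ^ 2 / (Rp * I * qB) * W * (c0 / (2 * Mp))) =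
      (c0 * s3 * sI * sV * rt / (2 * Mp * C * D * eM * y * L)) *
        (Fc * (C * D * (s3 * sI / (rt * sV) / (Rp * (qB * s3 ^ 2))) * (eM * W) *
          (y * L / I))) := by
    field_simp
  rw [h3] at h2
  exact le_of_mul_le_mul_right h2 (by positivity)

theorem stepBlow (c0 c1 κ A Mp qB Fc T I2 Rp I W : ℝ) (hMp : 0 < Mp) (hqB : 0 < qB)
    (hFc : 0 ≤ Fc) (hA0 : 0 ≤ A) (hκ : 0 < κ) (hc1 : 0 < c1) (hc0 : c0 = κ * c1)
    (hRp : 0 < Rp) (hI : 0 < I)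
    (hA : A = I2 / (Rp * I * qB) * W)
    (hT : c1 * (I2 / (Rp * I)) * (W / Mp) ≤ T) :
    Fc * (A * (c0 / (2 * Mp))) ≤ κ * T * Fc / qB - Fc * (3 * (A * (c0 / (8 * Mp)))) := by
  have e1 : c1 * (I2 / (Rp * I)) * (W / Mp) = qB * (A * (c1 / Mp)) := by
    rw [hA]
    field_simp
  rw [e1] at hT
  have e2 : A * (c0 / Mp) * Fc ≤ κ * T * Fc / qB := by
    rw [le_div_iff₀ (by positivity)]
    have h1 := mul_le_mul_of_nonneg_right hT hFc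
    have h2 := mul_le_mul_of_nonneg_left h1 hκ.le
    have h3 : A * (c0 / Mp) * Fc * qB = κ * (qB * (A * (c1 / Mp)) * Fc) := by
      rw [hc0]
      field_simp
    rw [h3]
    linarith
  have hc00 : 0 < c0 := by rw [hc0]; positivity
  have e3 : 0 ≤ A * (c0 / Mp) * Fc := by positivity
  have e4 : Fc * (A * (c0 / (2 * Mp))) = A * (c0 / Mp) * Fc / 2 := by
    field_simp
  have e5 : Fc * (3 * (A * (c0 / (8 * Mp)))) = A * (c0 / Mp) * Fc * (3 / 8) := by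
    field_simp
  rw [e4, e5]
  linarith

open Classical in
/-- the lower bound for a configuration -/
theorem stepAB (h1 : TupStmt) {M : ℕ} {ι : Type} (g : Cfg M) (hg : g.Ok) (y τ B a H1 K e : ℕ)
    (b ρ a2 : ℕ) (κ : ℝ) (hκ : 0 < κ) (hr2 : b + 3 ≤ 2 * g.r) (hρ : ρ < 2 ^ b)
    (ha2 : 3 ^ (τ + 1) * a2 + 1 ≡ 24 * ρ [MOD 2 ^ (b + 3)])
    (F : Finset ι) (V : ι → Finset ℕ) (hτ : τ % 2 = 0) (hB : B + τ = 2 ^ (g.r - 1))
    (hB2 : 2 ≤ B) (ha : a + 8 * H1 ≡ 3 ^ (B - 1) [MOD 3 ^ B]) (hFpos : 0 < F.card) (hy : 0 < y)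
    (hL : ∀ v ∈ F, LOk g (V v) τ B a) (hK : ∀ v ∈ F, (V v).card = K)
    (hcard : ∑ j, g.k j + g.R.card + 1 + K = 2 ^ (g.r - 1) - 1)
    (hpar : (g.R.filter (fun q => q % 8 = 3)).card + (if g.c = 3 then 1 else 0) = 0 ∨
      (g.R.filter (fun q => q % 8 = 3)).card + (if g.c = 3 then 1 else 0) = 2)
    (Vm : ℕ) (hVm : ∀ v ∈ F, vv (V v) ≤ Vm) (hVl : ∀ v ∈ F, 2 ^ e ≤ vv (V v))
    (hsz : 3 ^ (τ + 1) * Vm ≤ 2 ^ g.I)
    (hclass : ∀ t ∈ g.Tup, κ * (F.card : ℝ) ≤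
      3 ^ B * ((F.filter (fun v => g.N t * vv (V v) ≡ a [MOD 3 ^ B] ∧
        g.N t * vv (V v) ≡ a2 [MOD 2 ^ (b + 3)])).card : ℝ))
    (c0 c1 C D eM pr : ℝ) (hc1 : 0 < c1) (hc01 : c0 = κ * c1) (hC : 0 < C) (heM : 0 < eM) (hpr0 : 0 ≤ pr)
    (hD : (2 : ℝ) ^ (g.R.card + K) ≤ D)
    (hlow : c1 * (2 ^ g.I / (g.Rp * g.I)) * (g.W / 2 ^ M) ≤ (g.Tup.card : ℝ))
    (hW : 0 < g.W) (hpr : pr ≤ eM * g.W)
    (hG : ∀ v ∈ F, ∀ δ s X : ℕ, Adm δ → ¬ Bad g.I y δ → ¬ 3 ∣ s → s ≤ 2 ^ g.I →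
      (((g.Tup ×ˢ range X).filter
        (fun x => 3 ^ (τ + 1) * (g.N x.1 * vv (V v)) = δ * s ^ 2 + 4 ^ g.r * x.2 ^ 2 ∧
          g.N x.1 * vv (V v) ≡ a [MOD 3 ^ B])).card : ℝ) ≤
        C * 2 ^ (g.R.card + (V v).card) * (UL g (V v) τ / (g.Rp * vv (V v) * 3 ^ (B + τ + 1))) *
          pr * (y * (Nat.log 2 g.I + 1) / g.I))
    (hlost : ∀ v ∈ F, ((g.Tup.filter (fun t => Lost g.I g.r y τ (3 ^ τ * H1) (g.N t * vv (V v)) ∧
        g.N t * vv (V v) ≡ a [MOD 3 ^ B])).card : ℝ) ≤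
        3 * (2 ^ g.I / ((g.Rp : ℝ) * g.I * 3 ^ B) * g.W * (c0 / (8 * 2 ^ M)))) :
    c0 * Real.sqrt (3 ^ (τ + 1)) * Real.sqrt (2 ^ g.I) * Real.sqrt (2 ^ e) * 2 ^ g.r /
      (2 * 2 ^ M * C * D * eM * y * (Nat.log 2 g.I + 1)) ≤
      (patCount b ρ (3 ^ τ * H1) (3 ^ τ * (2 ^ g.I * Vm)) : ℝ) := by
  have hc0 : 0 < c0 := by rw [hc01]; positivity
  have hRp : (0 : ℝ) < (g.Rp : ℝ) := by
    have : 0 < g.Rp := Finset.prod_pos (fun q hq => (hg.hR q hq).1.pos)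
    exact_mod_cast this
  have hI : (0 : ℝ) < g.I := by
    have := hg.hI
    exact_mod_cast (by omega : 0 < g.I)
  have hyR : (0 : ℝ) < y := by exact_mod_cast hy
  have hFc : (0 : ℝ) < F.card := by exact_mod_cast hFpos
  have h3B : (0 : ℝ) < 3 ^ B := by positivity
  have hD0 : 0 < D := lt_of_lt_of_le (by positivity) hD
  set s3 : ℝ := Real.sqrt (3 ^ (τ + 1)) with hs3
  set sI : ℝ := Real.sqrt (2 ^ g.I) with hsI
  set sV : ℝ := Real.sqrt (2 ^ e) with hsV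
  have hs30 : 0 < s3 := Real.sqrt_pos.2 (by positivity)
  have hsI0 : 0 < sI := Real.sqrt_pos.2 (by positivity)
  have hsV0 : 0 < sV := Real.sqrt_pos.2 (by positivity)
  have hs3sq : s3 ^ 2 = 3 ^ (τ + 1) := Real.sq_sqrt (by positivity)
  have hsIsq : sI ^ 2 = 2 ^ g.I := Real.sq_sqrt (by positivity)
  have hsVsq : sV ^ 2 = 2 ^ e := Real.sq_sqrt (by positivity)
  have hLp : (0 : ℝ) < (Nat.log 2 g.I : ℝ) + 1 := by positivity
  set Bd : ℝ := C * D * (s3 * sI / (2 ^ g.r * sV) / (g.Rp * 3 ^ (B + τ + 1))) * pr *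
    (y * (Nat.log 2 g.I + 1) / g.I) with hBd
  have hBd0 : 0 ≤ Bd := by positivity
  have hA := stepA h1 g hg y τ B a H1 K b ρ a2 κ hr2 hρ ha2 F V hτ hB hB2 ha hL hK hcard hpar Vm hVm hsz hclass Bd
    (3 * (2 ^ g.I / ((g.Rp : ℝ) * g.I * 3 ^ B) * g.W * (c0 / (8 * 2 ^ M)))) hBd0
    (by
      intro v hv δ s X d1 d2 d3 d4
      refine (hG v hv δ s X d1 d2 d3 d4).trans ?_
      have hvR : sV ^ 2 ≤ (vv (V v) : ℝ) := by
        rw [hsVsq]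
        exact_mod_cast hVl v hv
      have hUL : UL g (V v) τ = s3 * sI * Real.sqrt (vv (V v)) / 2 ^ g.r := by
        unfold UL
        rw [Real.sqrt_mul (by positivity), Real.sqrt_mul (by positivity)]
      have e1 := ul_le (Rp := (g.Rp : ℝ)) (Q := (3 : ℝ) ^ (B + τ + 1)) (rt := (2 : ℝ) ^ g.r)
        hs30 hsI0 hsV0 (by positivity) hRp (by positivity) hvR
      rw [← hUL] at e1
      have e2 : (2 : ℝ) ^ (g.R.card + (V v).card) ≤ D := by rw [hK v hv]; exact hD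
      have e3 : 0 ≤ UL g (V v) τ / (g.Rp * vv (V v) * 3 ^ (B + τ + 1)) := by
        have := @UL_nonneg M g (V v) τ
        positivity
      rw [hBd]
      gcongr)
    hlost
  have h2I : (0 : ℝ) < 2 ^ g.I := by positivity
  have hlowb := stepBlow c0 c1 κ (2 ^ g.I / ((g.Rp : ℝ) * g.I * 3 ^ B) * g.W) (2 ^ M) (3 ^ B)
    F.card g.Tup.card (2 ^ g.I) g.Rp g.I g.W (by positivity) h3B hFc.le (by positivity) hκ hc1
    hc01 hRp hI rfl hlow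
  have hfin := hlowb.trans hA
  refine stepBnum c0 C D g.I g.Rp (3 ^ B) (3 ^ (B + τ + 1)) eM g.W y (Nat.log 2 g.I + 1)
    _ pr (2 ^ M) F.card sI sV (2 ^ g.r) s3 hc0 hC hD0 hI hRp h3B heM hW hyR hLp
    (Nat.cast_nonneg _) hpr (by positivity) hFc hsI0 hsV0 (by positivity) hs30 ?_ ?_
  · rw [hs3sq, ← pow_add]
    congr 1
  · rw [hsIsq]
    exact hfin

end Pool.Agent.D0H88.PT
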